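import Mathlib

set_option autoImplicit false
set_option maxHeartbeats 4000000

/-! Project H659-CT: undecidability for finite complexes of dimension at most three.

A finite cell complex of dimension at most three with one vertex is given by the number of its
1-cells, the attaching words of its 2-cells, and for every 3-cell the attaching sphere, an element
of the second homotopy group of the 2-skeleton, written as an identity sequence: a list of
2-cells with base paths and signs whose boundary product is trivial in the free group. -/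

namespace Pool.Agent.H659R3.CT

/-- words in the 1-cells: `(i, true)` is the 1-cell `i`, `(i, false)` its inverse -/
abbrev Wd : Type := List (ℕ × Bool)

/-- number of 1-cells, attaching words of the 2-cells, attaching spheres of the 3-cells -/
abbrev Cx : Type := ℕ × List Wd × List (List (Wd × ℕ × Bool))

/-- the boundary of one entry of an identity sequence: `g r_j^{±1} g⁻¹` in the free group -/
def entry (rels : List Wd) (e : Wd × ℕ × Bool) : FreeGroup ℕ :=
  FreeGroup.mk e.1 * (if e.2.2 then FreeGroup.mk (rels.getD e.2.1 [])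
    else (FreeGroup.mk (rels.getD e.2.1 []))⁻¹) * (FreeGroup.mk e.1)⁻¹

/-- the data are correct: all indices are in range and each attaching sphere closes up -/
def Valid (X : Cx) : Prop :=
  (∀ r ∈ X.2.1, ∀ l ∈ r, l.1 < X.1) ∧
  (∀ s ∈ X.2.2, (∀ e ∈ s, e.2.1 < X.2.1.length ∧ ∀ l ∈ e.1, l.1 < X.1) ∧
    (s.map (entry X.2.1)).prod = 1)

/-- relators of the fundamental group; generators not in range are killed -/
def relSet (X : Cx) : Set (FreeGroup ℕ) :=
  {x | (∃ r ∈ X.2.1, x = FreeGroup.mk r) ∨ ∃ i, X.1 ≤ i ∧ x = FreeGroup.of i}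

/-- the fundamental group -/
abbrev Pi1 (X : Cx) : Type := PresentedGroup (relSet X)

/-- the sign of a letter -/
def sg (b : Bool) : ℤ := if b then 1 else -1

/-- exponent sums of a word -/
noncomputable def expo (r : Wd) : ℕ →₀ ℤ := (r.map fun l => Finsupp.single l.1 (sg l.2)).sum

/-- incidence numbers of a 3-cell with the 2-cells -/
noncomputable def inc (s : List (Wd × ℕ × Bool)) : ℕ →₀ ℤ :=
  (s.map fun e => Finsupp.single e.2.1 (sg e.2.2)).sum

/-- cellular boundary from 2-chains to 1-chains -/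
noncomputable def d2 (X : Cx) : (ℕ →₀ ℤ) →ₗ[ℤ] (ℕ →₀ ℤ) :=
  Finsupp.lsum ℤ fun j => LinearMap.toSpanSingleton ℤ _ (expo (X.2.1.getD j []))

/-- cellular boundary from 3-chains to 2-chains -/
noncomputable def d3 (X : Cx) : (ℕ →₀ ℤ) →ₗ[ℤ] (ℕ →₀ ℤ) :=
  Finsupp.lsum ℤ fun j => LinearMap.toSpanSingleton ℤ _ (inc (X.2.2.getD j []))

/-- chains on the first `n` cells -/
def Ch (n : ℕ) (a : ℕ →₀ ℤ) : Prop := ∀ i, a i ≠ 0 → i < n

/-- the reduced integral homology of the complex vanishes (cellular chains; the boundary of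
1-chains is zero as there is one vertex) -/
def Acyclic (X : Cx) : Prop :=
  (∀ v, Ch X.1 v → ∃ a, Ch X.2.1.length a ∧ d2 X a = v) ∧
  (∀ a, Ch X.2.1.length a → d2 X a = 0 → ∃ b, Ch X.2.2.length b ∧ d3 X b = a) ∧
  (∀ b, Ch X.2.2.length b → d3 X b = 0 → b = 0)

/-! ### The family -/

/-- number of `Y`-type generators for a group with `k` generators:
`0 = v`, `1 = s`, `2 = z`, `3 + i = y_i` -/
def NE (k : ℕ) : ℕ := k + 3

/-- number of all generators of the chain: `e`, `t_e = E + e`, `a = 2E`, `b = 2E+1`, `c = 2E+2` -/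
def NX (k : ℕ) : ℕ := 2 * NE k + 3

/-- the generator dilating `x` -/
def par (k x : ℕ) : ℕ :=
  if x < NE k then x + NE k else if x < 2 * NE k then 2 * NE k
  else if x = 2 * NE k then 2 * NE k + 1 else if x = 2 * NE k + 1 then 2 * NE k + 2 else 2

/-- the word `p⁻¹ x p x⁻²` with `p = par x` -/
def bs (k x : ℕ) : Wd := [(par k x, false), (x, true), (par k x, true), (x, false), (x, false)]

/-- rewriting a word in the `u_i` by `u_i = y_i v⁻¹` -/
def hat (k : ℕ) (w : List (Fin k × Bool)) : Wd :=
  w.flatMap fun l => if l.2 then [(3 + l.1.1, true), (0, false)] else [(0, true), (3 + l.1.1, false)]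

/-- inverse word -/
def inv (w : Wd) : Wd := (w.map fun l => (l.1, !l.2)).reverse

/-- the word `z⁻¹ [w, s]` -/
def rw0 (k : ℕ) (w : List (Fin k × Bool)) : Wd :=
  (2, false) :: (hat k w ++ ((1, true) :: (inv (hat k w) ++ [(1, false)])))

/-- the extra relators `r_j`: first `z⁻¹[w,s]`, then the relators of the group -/
def rs (k : ℕ) (S : List (List (Fin k × Bool))) (w : List (Fin k × Bool)) : List Wd :=
  rw0 k w :: S.map (hat k)

/-- the word `[z_j, x]` -/
def tau (k x j : ℕ) : Wd := [(NX k + j, true), (x, true), (NX k + j, false), (x, false)]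

/-- number of tori -/
def NT (k : ℕ) (S : List (List (Fin k × Bool))) : ℕ := NX k * (S.length + 1)

/-- the 2-cells: tori, dilation relations, discs `r_j z_j⁻¹` -/
def cells2 (k : ℕ) (S : List (List (Fin k × Bool))) (w : List (Fin k × Bool)) : List Wd :=
  (List.range (NT k S)).map (fun p => tau k (p % NX k) (p / NX k)) ++
  ((List.range (NX k)).map (bs k) ++
  ((rs k S w).zipIdx.map fun r => r.1 ++ [(NX k + r.2, false)]))

/-- conjugating the entries by a letter -/
def cj (l : ℕ × Bool) (e : Wd × ℕ × Bool) : Wd × ℕ × Bool := (l :: e.1, e.2)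

/-- tori under `z_j × V` for a word `V`: product of the entries is `z_j V z_j⁻¹ V⁻¹` -/
def tor (k j : ℕ) : Wd → List (Wd × ℕ × Bool)
  | [] => []
  | l :: V => (if l.2 then ([], NX k * j + l.1, true) else ([l], NX k * j + l.1, false)) ::
      (tor k j V).map (cj l)

/-- the reversed sequence with opposite signs -/
def rev (s : List (Wd × ℕ × Bool)) : List (Wd × ℕ × Bool) :=
  (s.map fun e => (e.1, e.2.1, !e.2.2)).reverse

/-- the 3-cell `ρ_x × z_j` with `p = NX * j + x` -/
def cell3 (k : ℕ) (S : List (List (Fin k × Bool))) (p : ℕ) : List (Wd × ℕ × Bool) :=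
  ([(NX k + p / NX k, true)], NT k S + p % NX k, true) :: ([], NT k S + p % NX k, false) ::
    rev (tor k (p / NX k) (bs k (p % NX k)))

/-- the complex -/
def cx (k : ℕ) (S : List (List (Fin k × Bool))) (w : List (Fin k × Bool)) : Cx :=
  (NX k + (S.length + 1), cells2 k S w, (List.range (NT k S)).map (cell3 k S))

/-! ### Tasks -/

/-- relators of the group `U` -/
def RS {k : ℕ} (S : List (List (Fin k × Bool))) : Set (FreeGroup (Fin k)) :=
  {x | ∃ r ∈ S, x = FreeGroup.mk r}

def TaskValid : Prop := ∀ (k : ℕ) (S : List (List (Fin k × Bool))) (w : List (Fin k × Bool)),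
  Valid (cx k S w)

def TaskAcyclic : Prop := ∀ (k : ℕ) (S : List (List (Fin k × Bool))) (w : List (Fin k × Bool)),
  Acyclic (cx k S w)

def TaskComp : Prop := ∀ (k : ℕ) (S : List (List (Fin k × Bool))) (W : ℕ → List (Fin k × Bool)),
  Computable W → Computable fun n => cx k S (W n)

/-- if `w = 1` in `U` then the fundamental group is trivial -/
def TaskTriv : Prop := ∀ (k : ℕ) (S : List (List (Fin k × Bool))) (w : List (Fin k × Bool)),
  FreeGroup.mk w ∈ Subgroup.normalClosure (RS S) → Subsingleton (Pi1 (cx k S w))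

/-- the pair `x, y` is a free basis of the subgroup generated -/
def FreePair {G : Type} [Group G] (x y : G) : Prop :=
  Function.Injective (FreeGroup.lift (fun b : Bool => if b then x else y))

/-- infinite order -/
def Inf {G : Type} [Group G] (x : G) : Prop := ∀ n : ℤ, x ^ n = 1 → n = 0

/-- embedding theorem of Higman, Neumann and Neumann -/
def TaskHNN : Prop := ∀ (G S : Type) [Group G] [Group S] (j j' : S →* G),
  Function.Injective j → Function.Injective j' →
  ∃ (H : Type) (_ : Group H) (i : G →* H) (t : H), Function.Injective i ∧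
    ∀ s, t * i (j s) = i (j' s) * t

/-- a stable letter dilating `x`, with a free pair: Britton's lemma -/
def TaskFP : Prop := ∀ (G : Type) [Group G] (x z : G), Inf x → Inf z →
  (∀ m n : ℤ, x ^ m = z ^ n → n = 0) →
  ∃ (H : Type) (_ : Group H) (i : G →* H) (t : H), Function.Injective i ∧
    t⁻¹ * i x * t = i x ^ 2 ∧ FreePair t (i z)

/-- the base group: generators of infinite order, and `[w, s]` of infinite order if `w ≠ 1` -/
def TaskBase : Prop := ∀ (k : ℕ) (S : List (List (Fin k × Bool))) (w : List (Fin k × Bool)),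
  FreeGroup.mk w ∉ Subgroup.normalClosure (RS S) →
  ∃ (G : Type) (_ : Group G) (v s : G) (y : Fin k → G), Inf v ∧ Inf s ∧ (∀ i, Inf (y i)) ∧
    (∀ r ∈ S, FreeGroup.lift (fun i => y i * v⁻¹) (FreeGroup.mk r) = 1) ∧
    Inf (FreeGroup.lift (fun i => y i * v⁻¹) (FreeGroup.mk w) * s *
      (FreeGroup.lift (fun i => y i * v⁻¹) (FreeGroup.mk w))⁻¹ * s⁻¹)

/-- stable letters dilating finitely many elements of infinite order, together with a further
element `a` dilating the stable letters -/
def TaskStable : Prop := ∀ (n : ℕ) (G : Type) [Group G] (e : Fin n → G), (∀ i, Inf (e i)) →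
  ∃ (H : Type) (_ : Group H) (i : G →* H) (t : Fin n → H) (a : H), Function.Injective i ∧
    (∀ m, (t m)⁻¹ * i (e m) * t m = i (e m) ^ 2) ∧ (∀ m, a⁻¹ * t m * a = t m ^ 2) ∧ Inf a ∧
    ∀ (g : G) (p : ℤ), i g = a ^ p → p = 0

/-- a model of the presentation with a nontrivial element -/
def TaskModel : Prop := ∀ (k : ℕ) (S : List (List (Fin k × Bool))) (w : List (Fin k × Bool)),
  FreeGroup.mk w ∉ Subgroup.normalClosure (RS S) →
  ∃ (G : Type) (_ : Group G) (g : ℕ → G), g 0 ≠ 1 ∧
    (∀ x < NX k, (g (par k x))⁻¹ * g x * g (par k x) = g x ^ 2) ∧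
    (∀ r ∈ S, FreeGroup.lift (fun i : Fin k => g (3 + i.1) * (g 0)⁻¹) (FreeGroup.mk r) = 1) ∧
    g 2 = FreeGroup.lift (fun i : Fin k => g (3 + i.1) * (g 0)⁻¹) (FreeGroup.mk w) * g 1 *
      (FreeGroup.lift (fun i : Fin k => g (3 + i.1) * (g 0)⁻¹) (FreeGroup.mk w))⁻¹ * (g 1)⁻¹

/-- if `w ≠ 1` in `U` then the fundamental group is not trivial -/
def TaskNontriv : Prop := ∀ (k : ℕ) (S : List (List (Fin k × Bool))) (w : List (Fin k × Bool)),
  FreeGroup.mk w ∉ Subgroup.normalClosure (RS S) → ¬ Subsingleton (Pi1 (cx k S w))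

/-- Final statement. -/
def Final : Prop :=
  (¬ ∃ f : Cx → Bool, Computable f ∧ ∀ X, Valid X → Acyclic X →
    (f X = true ↔ Subsingleton (Pi1 X))) ∧
  (¬ ∃ f : Cx → Bool, Computable f ∧ ∀ X, Valid X →
    (f X = true ↔ (Subsingleton (Pi1 X) ∧ Acyclic X)))

end Pool.Agent.H659R3.CT
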