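import Mathlib
import Pool.Agent.H659R3.CT.Stmts

set_option autoImplicit false
set_option maxHeartbeats 4000000

/-! Project H659-CT, topological part: the complexes as topological spaces. -/

namespace Pool.Agent.H659R3.CT

open unitInterval Topology

noncomputable section

/-! ### Bouquets -/

/-- gluing relation of a bouquet of `n` circles -/
inductive BqRel (n : ℕ) : (Unit ⊕ (Fin n × I)) → (Unit ⊕ (Fin n × I)) → Prop
  | zero (x : Fin n) : BqRel n (Sum.inr (x, 0)) (Sum.inl ())
  | one (x : Fin n) : BqRel n (Sum.inr (x, 1)) (Sum.inl ())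

/-- bouquet of `n` circles -/
def Bq (n : ℕ) : Type := Quot (BqRel n)

instance (n : ℕ) : TopologicalSpace (Bq n) := inferInstanceAs (TopologicalSpace (Quot (BqRel n)))

/-- base point -/
def Bq.pt (n : ℕ) : Bq n := Quot.mk _ (Sum.inl ())

/-- the circles as loops -/
def Bq.loop {n : ℕ} (x : Fin n) : Path (Bq.pt n) (Bq.pt n) where
  toFun t := Quot.mk _ (Sum.inr (x, t))
  continuous_toFun := by
    refine continuous_quot_mk.comp ?_
    fun_prop
  source' := Quot.sound (BqRel.zero x)
  target' := Quot.sound (BqRel.one x)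

/-! ### Attaching squares between loops -/

section Sq

variable {B : Type} [TopologicalSpace B] (b : B) {ι : Type} (α β : ι → Path b b)

/-- gluing relation: the square `i` has bottom `α i`, top `β i`, and constant sides -/
inductive SqRel : (B ⊕ (ι × I × I)) → (B ⊕ (ι × I × I)) → Prop
  | bot (i : ι) (s : I) : SqRel (Sum.inr (i, 0, s)) (Sum.inl (α i s))
  | top (i : ι) (s : I) : SqRel (Sum.inr (i, 1, s)) (Sum.inl (β i s))
  | left (i : ι) (t : I) : SqRel (Sum.inr (i, t, 0)) (Sum.inl b)
  | right (i : ι) (t : I) : SqRel (Sum.inr (i, t, 1)) (Sum.inl b)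

/-- the space `B` with one 2-cell for every `i`, attached along `α i` and the reverse of `β i` -/
def Sq : Type := Quot (SqRel b α β)

instance [TopologicalSpace ι] : TopologicalSpace (Sq b α β) :=
  inferInstanceAs (TopologicalSpace (Quot (SqRel b α β)))

variable [TopologicalSpace ι]

/-- inclusion of the base -/
def Sq.inc : C(B, Sq b α β) := ⟨fun x => Quot.mk _ (Sum.inl x), by
  refine continuous_quot_mk.comp ?_
  fun_prop⟩

/-- the square as a homotopy -/
def Sq.hom (i : ι) : Path.Homotopy ((α i).map (Sq.inc b α β).continuous)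
    ((β i).map (Sq.inc b α β).continuous) where
  toFun p := Quot.mk _ (Sum.inr (i, p.1, p.2))
  continuous_toFun := by
    refine continuous_quot_mk.comp ?_
    fun_prop
  map_zero_left s := Quot.sound (SqRel.bot i s)
  map_one_left s := Quot.sound (SqRel.top i s)
  prop' t s hs := by
    rcases hs with rfl | rfl
    · change Quot.mk _ _ = Quot.mk _ (Sum.inl (α i 0))
      rw [(α i).source]
      exact Quot.sound (SqRel.left i t)
    · change Quot.mk _ _ = Quot.mk _ (Sum.inl (α i 1))
      rw [(α i).target]
      exact Quot.sound (SqRel.right i t)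

/-- maps out -/
def Sq.desc {Z : Type} [TopologicalSpace Z] (g : C(B, Z))
    (h : ∀ i, Path.Homotopy ((α i).map g.continuous) ((β i).map g.continuous))
    (hc : Continuous fun p : ι × I × I => h p.1 p.2) : C(Sq b α β, Z) where
  toFun := Quot.lift (Sum.elim g fun p => h p.1 p.2) (by
    intro x y hxy
    induction hxy with
    | bot i s => exact (h i).apply_zero s
    | top i s => exact (h i).apply_one s
    | left i t =>
      have := (h i).source t
      simp only [Sum.elim_inr, Sum.elim_inl]
      rw [this]
    | right i t =>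
      have := (h i).target t
      simp only [Sum.elim_inr, Sum.elim_inl]
      rw [this])
  continuous_toFun := by
    exact continuous_quot_lift _ (Continuous.sumElim g.continuous hc)

end Sq

/-! ### The presentation complex -/

/-- first side of the relation `x p = p x x` -/
def relA (n : ℕ) (p : Fin n → Fin n) (x : Fin n) : Path (Bq.pt n) (Bq.pt n) :=
  (Bq.loop x).trans (Bq.loop (p x))

/-- second side of the relation `x p = p x x` -/
def relB (n : ℕ) (p : Fin n → Fin n) (x : Fin n) : Path (Bq.pt n) (Bq.pt n) :=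
  (Bq.loop (p x)).trans ((Bq.loop x).trans (Bq.loop x))

/-- the presentation complex of `⟨x_0, …, x_{n-1} | x_i x_{p i} = x_{p i} x_i²⟩` -/
abbrev LL (n : ℕ) (p : Fin n → Fin n) : Type := Sq (Bq.pt n) (relA n p) (relB n p)

/-- base point -/
def LL.pt (n : ℕ) (p : Fin n → Fin n) : LL n p := Sq.inc _ _ _ (Bq.pt n)

/-- the 1-cells -/
def LL.loop {n : ℕ} (p : Fin n → Fin n) (x : Fin n) : Path (LL.pt n p) (LL.pt n p) :=
  (Bq.loop x).map (Sq.inc _ _ _).continuous

/-! ### Product with a bouquet of `J` circles -/

/-- gluing relation of `L × (bouquet of J circles)` -/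
inductive CyRel (L : Type) (J : ℕ) :
    (L ⊕ (L × (Fin J × I))) → (L ⊕ (L × (Fin J × I))) → Prop
  | zero (x : L) (j : Fin J) : CyRel L J (Sum.inr (x, (j, 0))) (Sum.inl x)
  | one (x : L) (j : Fin J) : CyRel L J (Sum.inr (x, (j, 1))) (Sum.inl x)

/-- `L × (bouquet of J circles)` -/
def Cy (L : Type) (J : ℕ) : Type := Quot (CyRel L J)

instance (L : Type) [TopologicalSpace L] (J : ℕ) : TopologicalSpace (Cy L J) :=
  inferInstanceAs (TopologicalSpace (Quot (CyRel L J)))

/-- `L × base point` -/
def Cy.inc (L : Type) [TopologicalSpace L] (J : ℕ) : C(L, Cy L J) :=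
  ⟨fun x => Quot.mk _ (Sum.inl x), by
    refine continuous_quot_mk.comp ?_
    fun_prop⟩

/-- the circle `j` over the point `x` -/
def Cy.loop {L : Type} [TopologicalSpace L] {J : ℕ} (x : L) (j : Fin J) :
    Path (Cy.inc L J x) (Cy.inc L J x) where
  toFun t := Quot.mk _ (Sum.inr (x, (j, t)))
  continuous_toFun := by
    refine continuous_quot_mk.comp ?_
    fun_prop
  source' := Quot.sound (CyRel.zero x j)
  target' := Quot.sound (CyRel.one x j)

/-! ### Words as loops -/

/-- the loop of a word; letters not in range give constant loops -/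
def wloop {Z : Type} [TopologicalSpace Z] {z : Z} {n : ℕ} (a : Fin n → Path z z) : Wd → Path z z
  | [] => Path.refl z
  | l :: V => (if h : l.1 < n then (if l.2 then a ⟨l.1, h⟩ else (a ⟨l.1, h⟩).symm)
      else Path.refl z).trans (wloop a V)

/-! ### The complex -/

/-- base point of the product -/
def bp (n : ℕ) (p : Fin n → Fin n) (J : ℕ) : Cy (LL n p) J := Cy.inc _ J (LL.pt n p)

/-- the loop of the word `r j` in `L × base point` -/
def lowL (n : ℕ) (p : Fin n → Fin n) (r : List Wd) (j : Fin r.length) :
    Path (bp n p r.length) (bp n p r.length) :=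
  (wloop (LL.loop p) (r.get j)).map (Cy.inc _ _).continuous

/-- the loop `z_j` in `base point × bouquet` -/
def upL (n : ℕ) (p : Fin n → Fin n) (r : List Wd) (j : Fin r.length) :
    Path (bp n p r.length) (bp n p r.length) := Cy.loop (LL.pt n p) j

/-- The complex: `L × (bouquet of circles z_j)` with 2-cells attached along `r_j z_j⁻¹`, where `L`
is the presentation complex of `⟨x_0, …, x_{n-1} | x_i x_{p i} = x_{p i} x_i²⟩`. It is a finite
cell complex of dimension at most three. -/
abbrev XX (n : ℕ) (p : Fin n → Fin n) (r : List Wd) : Type :=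
  Sq (bp n p r.length) (lowL n p r) (upL n p r)

/-- inclusion of `L` -/
def XX.incL (n : ℕ) (p : Fin n → Fin n) (r : List Wd) : C(LL n p, XX n p r) :=
  (Sq.inc _ _ _).comp (Cy.inc _ _)

/-! ### Tuples of loops -/

/-- points with `J` loops at the point -/
def ML (J : ℕ) (Z : Type) [TopologicalSpace Z] : Type :=
  {f : Z × (Fin J → C(I, Z)) // ∀ j, f.2 j 0 = f.1 ∧ f.2 j 1 = f.1}

instance (J : ℕ) (Z : Type) [TopologicalSpace Z] : TopologicalSpace (ML J Z) :=
  inferInstanceAs (TopologicalSpace {f : Z × (Fin J → C(I, Z)) // ∀ j, f.2 j 0 = f.1 ∧ f.2 j 1 = f.1})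

/-- the point -/
def ML.fst (J : ℕ) (Z : Type) [TopologicalSpace Z] : C(ML J Z, Z) :=
  ⟨fun f => f.1.1, continuous_fst.comp continuous_subtype_val⟩

/-- the canonical map: the point `x` of `L` goes to `x` with the loops `x × z_j` -/
def XX.can (n : ℕ) (p : Fin n → Fin n) (r : List Wd) : C(LL n p, ML r.length (XX n p r)) where
  toFun x := ⟨(XX.incL n p r x, fun j => ⟨fun t => Sq.inc _ _ _ (Cy.loop x j t), by fun_prop⟩),
    fun j => ⟨congrArg (fun y => Sq.inc (bp n p r.length) (lowL n p r) (upL n p r) y)
      (Cy.loop x j).source, congrArg (fun y => Sq.inc (bp n p r.length) (lowL n p r) (upL n p r) y)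
      (Cy.loop x j).target⟩⟩
  continuous_toFun := by
    refine Continuous.subtype_mk ?_ _
    refine Continuous.prodMk (XX.incL n p r).continuous ?_
    refine continuous_pi fun j => ?_
    refine ContinuousMap.continuous_of_continuous_uncurry _ ?_
    refine (Sq.inc _ _ _).continuous.comp ?_
    refine continuous_quot_mk.comp ?_
    fun_prop

/-- the 1-cells of `L` in the complex -/
def XX.loop (n : ℕ) (p : Fin n → Fin n) (r : List Wd) (x : Fin n) :
    Path (XX.incL n p r (LL.pt n p)) (XX.incL n p r (LL.pt n p)) :=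
  (LL.loop p x).map (XX.incL n p r).continuous

end

end Pool.Agent.H659R3.CT
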