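import Mathlib
import Pool.Agent.H659R3.CT.Stmts
import Pool.Agent.H659R3.CT.Top

set_option autoImplicit false
set_option maxHeartbeats 4000000

/-! Project H659-CT, topological part: tasks. -/

namespace Pool.Agent.H659R3.CT

open unitInterval Topology

noncomputable section

theorem par_lt (k x : ℕ) (hx : x < NX k) : par k x < NX k := by
  have := hx
  unfold par NX NE at *
  split_ifs <;> omega

/-- the dilating generator as a map on `Fin` -/
def parF (k : ℕ) (x : Fin (NX k)) : Fin (NX k) := ⟨par k x.1, par_lt k x.1 x.2⟩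

/-- pointwise product of paths of loops -/
def ptr {M : Type} [TopologicalSpace M] {m : M} {a a' b b' : Path m m} (N : Path a a')
    (N' : Path b b') : Path (a.trans b) (a'.trans b') where
  toFun t := (N t).trans (N' t)
  continuous_toFun := by
    have h : Continuous fun q : Path m m × Path m m => q.1.trans q.2 := Path.continuous_trans
    exact h.comp (N.continuous.prodMk N'.continuous)
  source' := by rw [N.source, N'.source]
  target' := by rw [N.target, N'.target]

theorem refl3 {M : Type} [TopologicalSpace M] (m : M) :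
    (Path.refl m).trans ((Path.refl m).trans (Path.refl m)) = (Path.refl m).trans (Path.refl m) := by
  rw [Path.refl_trans_refl, Path.refl_trans_refl]

/-- in `Ω` the pointwise product of two loops at the constant loop is their composite -/
def TaskEH : Prop := ∀ (M : Type) [TopologicalSpace M] (m : M)
  (ν μ : Path (Path.refl m) (Path.refl m)),
  ((ptr ν μ).cast (Path.refl_trans_refl).symm (Path.refl_trans_refl).symm).Homotopic (ν.trans μ) ∧
  (ν.trans μ).Homotopic (μ.trans ν)

/-- loops in a loop space commute -/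
def TaskEHgen : Prop := ∀ (Z : Type) [TopologicalSpace Z] (b : Z) (l : Path b b)
  (α β : Path l l), (α.trans β).Homotopic (β.trans α)

/-- loops in the space of tuples of loops commute when their base points move null-homotopically -/
def TaskComm : Prop := ∀ (Z : Type) [TopologicalSpace Z] (J : ℕ) (m : ML J Z) (α β : Path m m),
  (α.map (ML.fst J Z).continuous).Homotopic (Path.refl _) →
  (β.map (ML.fst J Z).continuous).Homotopic (Path.refl _) →
  (α.trans β).Homotopic (β.trans α)

/-- filling a square -/
def TaskFill : Prop := ∀ (Y : Type) [TopologicalSpace Y] (P Q R : Y) (γ : Path P Q) (B : Path Q R)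
  (A : Path P R), (γ.trans B).Homotopic A →
  ∃ H : C(I × I, Y), (∀ t, H (0, t) = γ t) ∧ (∀ s, H (s, 0) = A s) ∧ (∀ s, H (s, 1) = B s) ∧
    ∀ t, H (1, t) = R

/-- null-homotopies of the 1-cells can be chosen compatibly with the 2-cells -/
def TaskPL : Prop := ∀ (M : Type) [TopologicalSpace M] (m : M) (n : ℕ) (p : Fin n → Fin n)
  (a : Fin n → Path m m)
  (γ : ∀ x, Path ((a x).trans (a (p x))) ((a (p x)).trans ((a x).trans (a x))))
  (_ : ∀ x, Path (a x) (Path.refl m)),
  ∃ N : ∀ x, Path (a x) (Path.refl m), ∀ x,
    ((γ x).trans (ptr (N (p x)) (ptr (N x) (N x)))).Homotopic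
      ((ptr (N x) (N (p x))).cast rfl (refl3 m))

/-- maps from `L` which are null-homotopic on the 1-cells are null-homotopic -/
def TaskEP : Prop := ∀ (n : ℕ) (p : Fin n → Fin n) (M : Type) [TopologicalSpace M]
  (f : C(LL n p, M)),
  (∀ x, ((LL.loop p x).map f.continuous).Homotopic (Path.refl _)) →
  ∃ F : C(I × LL n p, M), (∀ y, F (0, y) = f y) ∧ (∀ y, F (1, y) = f (LL.pt n p)) ∧
    ∀ s, F (s, LL.pt n p) = f (LL.pt n p)

/-- the final contraction -/
def TaskCon : Prop := ∀ (n : ℕ) (p : Fin n → Fin n) (r : List Wd),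
  (∃ F : C(I × LL n p, ML r.length (XX n p r)), (∀ y, F (0, y) = XX.can n p r y) ∧
    (∀ y, F (1, y) = XX.can n p r (LL.pt n p)) ∧
    ∀ s, F (s, LL.pt n p) = XX.can n p r (LL.pt n p)) → ContractibleSpace (XX n p r)

/-- the 1-cells of `L` are null-homotopic in the complex if the group is trivial -/
def TaskNull : Prop := ∀ (k : ℕ) (S : List (List (Fin k × Bool))) (w : List (Fin k × Bool)),
  Subsingleton (Pi1 (cx k S w)) →
  ∀ x, (XX.loop (NX k) (parF k) (rs k S w) x).Homotopic (Path.refl _)

/-- contractibility -/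
def TaskContr : Prop := ∀ (k : ℕ) (S : List (List (Fin k × Bool))) (w : List (Fin k × Bool)),
  Subsingleton (Pi1 (cx k S w)) → ContractibleSpace (XX (NX k) (parF k) (rs k S w))

/-- a space with prescribed loops -/
def TaskBG : Prop := ∀ (G : Type) [Group G], ∃ (Z : Type) (_ : TopologicalSpace Z) (z : Z)
  (l : G → Path z z), (∀ g h, ((l g).trans (l h)).Homotopic (l (g * h))) ∧
    ∀ g, (l g).Homotopic (Path.refl z) → g = 1

/-- maps out of the complex -/
def TaskMap : Prop := ∀ (n : ℕ) (p : Fin n → Fin n) (r : List Wd) (Z : Type) [TopologicalSpace Z]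
  (z : Z) (a : Fin n → Path z z),
  (∀ x, ((a x).trans (a (p x))).Homotopic ((a (p x)).trans ((a x).trans (a x)))) →
  (∀ j, (wloop a (r.get j)).Homotopic (Path.refl z)) →
  ∃ F : C(XX n p r, Z), F (XX.incL n p r (LL.pt n p)) = z ∧
    ∀ x t, F (XX.loop n p r x t) = a x t

/-- the complex is not contractible if `w ≠ 1` -/
def TaskNC : Prop := ∀ (k : ℕ) (S : List (List (Fin k × Bool))) (w : List (Fin k × Bool)),
  FreeGroup.mk w ∉ Subgroup.normalClosure (RS S) →
  ¬ ContractibleSpace (XX (NX k) (parF k) (rs k S w))

/-- finite data of a complex: number of generators, dilating generators, words `r_j` -/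
abbrev Dt : Type := ℕ × List ℕ × List Wd

/-- the space of the data -/
abbrev Sp (D : Dt) : Type :=
  XX D.1 (fun x => if h : D.2.1.getD x.1 0 < D.1 then ⟨D.2.1.getD x.1 0, h⟩ else x) D.2.2

/-- the data of the family -/
def dt (k : ℕ) (S : List (List (Fin k × Bool))) (w : List (Fin k × Bool)) : Dt :=
  (NX k, (List.range (NX k)).map (par k), rs k S w)

def TaskCompTop : Prop := ∀ (k : ℕ) (S : List (List (Fin k × Bool)))
  (W : ℕ → List (Fin k × Bool)), Computable W → Computable fun n => dt k S (W n)

/-- Final statement, topological form. -/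
def FinalTop : Prop := ¬ ∃ f : Dt → Bool, Computable f ∧ ∀ D, (f D = true ↔ ContractibleSpace (Sp D))

end

end Pool.Agent.H659R3.CT
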