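import Mathlib
import Pool.Agent.H659R3.CT.TopStmts

set_option autoImplicit false
set_option maxHeartbeats 4000000

/-! Project H659-CT, simplicial part: the complexes as finite simplicial complexes. -/

namespace Pool.Agent.H659R3.CT

open unitInterval Topology

noncomputable section

/-- geometric realization of the finite simplicial complex whose simplices are the nonempty
subsets of the listed finite sets of vertices -/
def Rz (K : List (List ℕ)) : Type :=
  {x : ℕ → ℝ // (∀ i, 0 ≤ x i) ∧ ∃ s ∈ K, (∀ i, i ∉ s → x i = 0) ∧ ∑ i ∈ s.toFinset, x i = 1}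

instance (K : List (List ℕ)) : TopologicalSpace (Rz K) :=
  inferInstanceAs (TopologicalSpace {x : ℕ → ℝ // (∀ i, 0 ≤ x i) ∧
    ∃ s ∈ K, (∀ i, i ∉ s → x i = 0) ∧ ∑ i ∈ s.toFinset, x i = 1})

/-- `B` dominates `A` by pointed maps, carrying the loops `γ` to the loops `δ` -/
def Dom (A B : Type) [TopologicalSpace A] [TopologicalSpace B] (a : A) (b : B) {ι : Type}
    (γ : ι → Path a a) (δ : ι → Path b b) : Prop :=
  ∃ (i : C(A, B)) (r : C(B, A)) (hi : i a = b) (_ : r b = a) (H : C(I × A, A)),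
    (∀ x, H (0, x) = r (i x)) ∧ (∀ x, H (1, x) = x) ∧ (∀ s, H (s, a) = a) ∧
    ∀ j, ((γ j).map i.continuous).Homotopic ((δ j).cast hi hi)

/-- the closed polygon with vertices `e_0, …, e_{N-1}, e_0`, uniformly parametrised -/
def pg (e : List ℕ) (s : ℝ) : ℕ → ℝ := fun v =>
  ∑ i ∈ Finset.range (e.length + 1),
    max 0 (1 - |e.length * s - i|) * (if e.getD (i % e.length) 0 = v then 1 else 0)

/-- `e` is a closed edge path of `K` without repetitions of consecutive vertices, starting at `v` -/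
def CP (K : List (List ℕ)) (v : ℕ) (e : List ℕ) : Prop :=
  3 ≤ e.length ∧ e.getD 0 0 = v ∧ ∀ i < e.length,
    (∃ s ∈ K, e.getD i 0 ∈ s ∧ e.getD ((i + 1) % e.length) 0 ∈ s) ∧
      e.getD i 0 ≠ e.getD ((i + 1) % e.length) 0

/-- `γ` is the loop of the closed polygon `e` -/
def IsPg {K : List (List ℕ)} (v : Rz K) (e : List ℕ) (γ : Path v v) : Prop :=
  ∀ s : I, (γ s).1 = pg e s

/-- new vertices -/
def nv (m j i : ℕ) : ℕ := m + Nat.pair j i

/-- triangles of the disc number `j` with boundary polygon `e`: a ring and a cone -/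
def dsc (m j : ℕ) (e : List ℕ) : List (List ℕ) :=
  (List.range e.length).flatMap fun i =>
    [[e.getD i 0, e.getD ((i + 1) % e.length) 0, nv m j i],
     [e.getD ((i + 1) % e.length) 0, nv m j i, nv m j ((i + 1) % e.length)],
     [nv m j i, nv m j ((i + 1) % e.length), nv m j e.length]]

/-- attaching discs along closed polygons, the new vertices are at least `m` -/
def att (m : ℕ) (K : List (List ℕ)) (E : List (List ℕ)) : List (List ℕ) :=
  K ++ E.zipIdx.flatMap fun p => dsc m p.2 p.1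

/-- vertices are below `m` -/
def Bd (m : ℕ) (K : List (List ℕ)) : Prop := ∀ s ∈ K, ∀ i ∈ s, i < m

/-- the closed polygon of a word, the 1-cell `i` being the triangle `v, A i, B i` -/
def wp (v : ℕ) (A B : ℕ → ℕ) (V : Wd) : List ℕ :=
  V.flatMap fun l => if l.2 then [v, A l.1, B l.1] else [v, B l.1, A l.1]

/-- free cones: `B` with a cone attached along every loop -/
inductive CnRel {B : Type} [TopologicalSpace B] {b : B} {ι : Type} (γ : ι → Path b b) :
    (B ⊕ (ι × I × I)) → (B ⊕ (ι × I × I)) → Prop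
  | bot (i : ι) (s : I) : CnRel γ (Sum.inr (i, 0, s)) (Sum.inl (γ i s))
  | side (i : ι) (t : I) : CnRel γ (Sum.inr (i, t, 0)) (Sum.inr (i, t, 1))
  | apex (i : ι) (s : I) : CnRel γ (Sum.inr (i, 1, s)) (Sum.inr (i, 1, 0))

/-- the mapping cone of the loops `γ i` -/
def Cn {B : Type} [TopologicalSpace B] {b : B} {ι : Type} (γ : ι → Path b b) : Type :=
  Quot (CnRel γ)

instance {B : Type} [TopologicalSpace B] {b : B} {ι : Type} [TopologicalSpace ι]
    (γ : ι → Path b b) : TopologicalSpace (Cn γ) :=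
  inferInstanceAs (TopologicalSpace (Quot (CnRel γ)))

/-- inclusion of the base -/
def Cn.inc {B : Type} [TopologicalSpace B] {b : B} {ι : Type} [TopologicalSpace ι]
    (γ : ι → Path b b) : C(B, Cn γ) := ⟨fun x => Quot.mk _ (Sum.inl x), by
  refine continuous_quot_mk.comp ?_
  fun_prop⟩

/-- constant loops -/
def cst {B : Type} [TopologicalSpace B] (b : B) (ι : Type) : ι → Path b b := fun _ => Path.refl b

/-- `S1`: the complex with discs attached is dominated by the mapping cone, rel base loops -/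
def TaskDisc : Prop := ∀ (m : ℕ) (K E : List (List ℕ)) (v : ℕ), Bd m K →
  (∀ e ∈ E, CP K v e) →
  ∀ (b : Rz K) (γ : Fin E.length → Path b b), b.1 = Pi.single v 1 →
  (∀ j, IsPg b (E.get j) (γ j)) → ∀ (κ : Type) (δ : κ → Path b b),
  ∃ (inc : C(Rz K, Rz (att m K E))), (∀ x, (inc x).1 = x.1) ∧
    Dom (Rz (att m K E)) (Cn γ) (inc b) (Cn.inc γ b) (fun k => (δ k).map inc.continuous)
      (fun k => (δ k).map (Cn.inc γ).continuous)

/-- `S2`: the free cone is dominated by the cell with constant top -/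
def TaskCn : Prop := ∀ (B : Type) [TopologicalSpace B] (b : B) (J : ℕ) (γ : Fin J → Path b b)
  (κ : Type) (δ : κ → Path b b),
  Dom (Cn γ) (Sq b γ (cst b (Fin J))) (Cn.inc γ b) (Sq.inc b γ (cst b (Fin J)) b)
    (fun k => (δ k).map (Cn.inc γ).continuous) (fun k => (δ k).map (Sq.inc b γ _).continuous)

/-- `S3`: domination of spaces with cells attached along corresponding loops -/
def TaskSqDom : Prop := ∀ (A B : Type) [TopologicalSpace A] [TopologicalSpace B] (a : A) (b : B)
  (J : ℕ) (γ : Fin J → Path a a) (γ' : Fin J → Path b b) (κ : Type) (δ : κ → Path a a)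
  (δ' : κ → Path b b),
  Dom A B a b (Sum.elim γ δ) (Sum.elim γ' δ') →
  Dom (Sq a γ (cst a (Fin J))) (Sq b γ' (cst b (Fin J))) (Sq.inc a γ _ a) (Sq.inc b γ' _ b)
    (fun k => (δ k).map (Sq.inc a γ _).continuous) (fun k => (δ' k).map (Sq.inc b γ' _).continuous)

/-- `S4`: cells along `α β⁻¹` against cells between `α` and `β` -/
def TaskSqAB : Prop := ∀ (B : Type) [TopologicalSpace B] (b : B) (J : ℕ)
  (α β : Fin J → Path b b) (κ : Type) (δ : κ → Path b b),
  Dom (Sq b (fun j => (α j).trans (β j).symm) (cst b (Fin J))) (Sq b α β)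
    (Sq.inc b _ _ b) (Sq.inc b α β b)
    (fun k => (δ k).map (Sq.inc b _ _).continuous) (fun k => (δ k).map (Sq.inc b α β).continuous)

/-- `S5`: products with the bouquet -/
def TaskCyDom : Prop := ∀ (A B : Type) [TopologicalSpace A] [TopologicalSpace B] (a : A) (b : B)
  (J : ℕ) (κ : Type) (δ : κ → Path a a) (δ' : κ → Path b b),
  Dom A B a b δ δ' →
  Dom (Cy A J) (Cy B J) (Cy.inc A J a) (Cy.inc B J b)
    (Sum.elim (fun k => (δ k).map (Cy.inc A J).continuous) (fun j => Cy.loop a j))
    (Sum.elim (fun k => (δ' k).map (Cy.inc B J).continuous) (fun j => Cy.loop b j))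

/-- the vertex `(v, c)` of the product with the bouquet: `c = 0` is the base point, `c = 2j+1`
and `c = 2j+2` are the other vertices of the circle `j` -/
def pv (v c : ℕ) : ℕ := Nat.pair v c

/-- prism over the sorted simplex `s` and the edge from `c` to `c'` -/
def prism (s : List ℕ) (c c' : ℕ) : List (List ℕ) :=
  (List.range s.length).map fun i =>
    (s.take (i + 1)).map (fun v => pv v c) ++ (s.drop i).map (fun v => pv v c')

/-- product of a complex (sorted simplices) with the bouquet of `J` triangles -/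
def prod3 (K : List (List ℕ)) (J : ℕ) : List (List ℕ) :=
  (K.map fun s => s.map fun v => pv v 0) ++
  (List.range J).flatMap fun j => K.flatMap fun s =>
    prism s 0 (2 * j + 1) ++ (prism s (2 * j + 1) (2 * j + 2) ++ prism s (2 * j + 2) 0)

/-- `S6`: prisms. `K` has strictly sorted simplices; `b` is the vertex `v`; loops which are
polygons of `K` go to the polygons at level zero, and the circles to the triangles -/
def TaskPrism : Prop := ∀ (K : List (List ℕ)) (J : ℕ) (v : ℕ) (b : Rz K),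
  (∀ s ∈ K, s.Pairwise (· < ·)) → b.1 = Pi.single v 1 →
  ∀ (κ : Type) (e : κ → List ℕ) (δ : κ → Path b b), (∀ k, CP K v (e k)) →
  (∀ k, IsPg b (e k) (δ k)) →
  ∃ (b' : Rz (prod3 K J)) (γ : κ → Path b' b') (ζ : Fin J → Path b' b'),
    b'.1 = Pi.single (pv v 0) 1 ∧ (∀ k, IsPg b' ((e k).map fun u => pv u 0) (γ k)) ∧
    (∀ j, IsPg b' [pv v 0, pv v (2 * j.1 + 1), pv v (2 * j.1 + 2)] (ζ j)) ∧
    Dom (Rz (prod3 K J)) (Cy (Rz K) J) b' (Cy.inc _ J b) (Sum.elim γ ζ)
      (Sum.elim (fun k => (δ k).map (Cy.inc _ J).continuous) (fun j => Cy.loop b j))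

/-- bouquet of `n` triangles `0, 2x+1, 2x+2` -/
def gph (n : ℕ) : List (List ℕ) :=
  (List.range n).flatMap fun x => [[0, 2 * x + 1], [2 * x + 1, 2 * x + 2], [0, 2 * x + 2]]

/-- `S7`: the bouquet, `n > 0` -/
def TaskGph : Prop := ∀ n : ℕ, 0 < n → ∃ (b : Rz (gph n)) (γ : Fin n → Path b b),
  b.1 = Pi.single 0 1 ∧ (∀ x, IsPg b [0, 2 * x.1 + 1, 2 * x.1 + 2] (γ x)) ∧
  Dom (Rz (gph n)) (Bq n) b (Bq.pt n) γ (fun x => Bq.loop x)

/-- `S8`: the polygon of a word is the product of the triangles, whenever the triangles are loops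
of `K` -/
def TaskPoly : Prop := ∀ (K : List (List ℕ)) (v n : ℕ) (A B : ℕ → ℕ) (b : Rz K)
  (a : Fin n → Path b b), b.1 = Pi.single v 1 →
  (∀ x, CP K v [v, A x.1, B x.1] ∧ IsPg b [v, A x.1, B x.1] (a x)) →
  ∀ V : Wd, V ≠ [] → (∀ l ∈ V, l.1 < n) → ∃ γ : Path b b, CP K v (wp v A B V) ∧
    IsPg b (wp v A B V) γ ∧ γ.Homotopic (wloop a V)

/-- `S9`: composition of dominations -/
def TaskTrans : Prop := ∀ (A B C' : Type) [TopologicalSpace A] [TopologicalSpace B]
  [TopologicalSpace C'] (a : A) (b : B) (c : C') (κ : Type) (γ : κ → Path a a)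
  (δ : κ → Path b b) (ε : κ → Path c c), Dom A B a b γ δ → Dom B C' b c δ ε → Dom A C' a c γ ε

/-- sorted version of a simplex -/
def srt (K : List (List ℕ)) : List (List ℕ) := K.map fun s => s.insertionSort (· ≤ ·)

/-- the triangulated presentation complex: polygons `x p x⁻¹ x⁻¹ p⁻¹`, sorted -/
def kL (k : ℕ) : List (List ℕ) :=
  srt (att (2 * NX k + 1) (gph (NX k)) ((List.range (NX k)).map fun x =>
    wp 0 (fun i => 2 * i + 1) (fun i => 2 * i + 2)
      [(x, true), (par k x, true), (x, false), (x, false), (par k x, false)]))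

/-- first vertices of the triangles in the product: generators `x < NX k`, then circles -/
def tA (k i : ℕ) : ℕ := if i < NX k then pv (2 * i + 1) 0 else pv 0 (2 * (i - NX k) + 1)

/-- second vertices -/
def tB (k i : ℕ) : ℕ := if i < NX k then pv (2 * i + 2) 0 else pv 0 (2 * (i - NX k) + 2)

/-- a bound for the vertices -/
def bnd (K : List (List ℕ)) : ℕ := (K.flatten.map (· + 1)).foldr max 0

/-- the simplicial complex -/
def kX (k : ℕ) (S : List (List (Fin k × Bool))) (w : List (Fin k × Bool)) : List (List ℕ) :=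
  att (bnd (prod3 (kL k) (S.length + 1))) (prod3 (kL k) (S.length + 1))
    ((rs k S w).zipIdx.map fun r => wp (pv 0 0) (tA k) (tB k) (r.1 ++ [(NX k + r.2, false)]))

/-- `S10a`: the triangulated presentation complex -/
def TaskKL : Prop := ∀ k : ℕ, (∀ s ∈ kL k, s.Pairwise (· < ·)) ∧
  ∃ (b : Rz (kL k)) (γ : Fin (NX k) → Path b b), b.1 = Pi.single 0 1 ∧
  (∀ x, CP (kL k) 0 [0, 2 * x.1 + 1, 2 * x.1 + 2] ∧ IsPg b [0, 2 * x.1 + 1, 2 * x.1 + 2] (γ x)) ∧
  Dom (Rz (kL k)) (LL (NX k) (parF k)) b (LL.pt (NX k) (parF k)) γ (fun x => LL.loop (parF k) x)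

/-- `S10`: the simplicial complex is dominated by the space, with the 1-cells going to loops -/
def TaskKX : Prop := ∀ (k : ℕ) (S : List (List (Fin k × Bool))) (w : List (Fin k × Bool)),
  ∃ (b : Rz (kX k S w)) (γ : Fin (NX k) → Path b b),
    Dom (Rz (kX k S w)) (XX (NX k) (parF k) (rs k S w)) b
      (XX.incL (NX k) (parF k) (rs k S w) (LL.pt (NX k) (parF k))) γ
      (fun x => XX.loop (NX k) (parF k) (rs k S w) x)

/-- the 1-cell `v` is not null-homotopic if `w ≠ 1` -/
def TaskNC2 : Prop := ∀ (k : ℕ) (S : List (List (Fin k × Bool))) (w : List (Fin k × Bool)),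
  FreeGroup.mk w ∉ Subgroup.normalClosure (RS S) → ∀ x : Fin (NX k), x.1 = 0 →
  ¬ (XX.loop (NX k) (parF k) (rs k S w) x).Homotopic (Path.refl _)

/-- `S11`: dimension at most three -/
def TaskDim : Prop := ∀ (k : ℕ) (S : List (List (Fin k × Bool))) (w : List (Fin k × Bool)),
  ∀ s ∈ kX k S w, s.length ≤ 4

def TaskCompSimp : Prop := ∀ (k : ℕ) (S : List (List (Fin k × Bool)))
  (W : ℕ → List (Fin k × Bool)), Computable W → Computable fun n => kX k S (W n)

/-- Final statement for simplicial complexes of dimension at most three. -/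
def FinalSimp : Prop := ¬ ∃ f : List (List ℕ) → Bool, Computable f ∧
  ∀ K, (∀ s ∈ K, s.length ≤ 4) → (f K = true ↔ ContractibleSpace (Rz K))

end

end Pool.Agent.H659R3.CT
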