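import Pool.Agent.H659R3.CT.TopStmts

/-!
Task BG of project H659-CT: a space with prescribed loops.

The space of all functions from `[0, 1)` to `G`, with the distance given by the outer measure of
the set of points where two functions differ, is contractible, and `G` acts freely and properly
discontinuously on it.  The required space is the orbit space.
-/

set_option autoImplicit false

namespace Pool.Agent.H659R3.CT

open unitInterval Topology MeasureTheory

noncomputable section

namespace BGm

/-- functions on `[0, 1)` -/
def EE (G : Type) : Type := Set.Ico (0 : ℝ) 1 → G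

variable {G : Type}

/-- the set where two functions differ -/
def dif (f f' : EE G) : Set ℝ := Subtype.val '' {x : Set.Ico (0 : ℝ) 1 | f x ≠ f' x}

instance : PseudoEMetricSpace (EE G) where
  edist f f' := volume (dif f f')
  edist_self f := by
    have : dif f f = ∅ := by
      unfold dif
      simp
    rw [this, measure_empty]
  edist_comm f f' := by
    have : dif f f' = dif f' f := by
      unfold dif
      congr 1
      ext x
      exact ne_comm
    rw [this]
  edist_triangle f f' f'' := by
    refine le_trans (measure_mono ?_) (measure_union_le _ _)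
    rintro _ ⟨x, hx, rfl⟩
    by_cases h : f x = f' x
    · right
      refine ⟨x, ?_, rfl⟩
      intro h'
      exact hx (h.trans h')
    · left
      exact ⟨x, h, rfl⟩

theorem edist_def (f f' : EE G) : edist f f' = volume (dif f f') := rfl

/-- constant functions -/
def cst (g : G) : EE G := fun _ => g

/-- replace the values on `[0, t)` -/
def cut (g : G) (t : ℝ) (f : EE G) : EE G := fun x => if (x : ℝ) < t then g else f x

theorem cut_zero (g : G) (f : EE G) : cut g 0 f = f := by
  funext x
  unfold cut
  rw [if_neg (not_lt.2 x.2.1)]

theorem cut_one (g : G) (f : EE G) : cut g 1 f = cst g := by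
  funext x
  unfold cut
  rw [if_pos x.2.2]
  rfl

theorem edist_cut (g : G) (t t' : ℝ) (f f' : EE G) :
    edist (cut g t f) (cut g t' f') ≤ edist t t' + edist f f' := by
  have h1 : dif (cut g t f) (cut g t' f') ⊆ Set.Ico (min t t') (max t t') ∪ dif f f' := by
    rintro _ ⟨x, hx, rfl⟩
    by_cases h2 : (x : ℝ) < t
    · by_cases h3 : (x : ℝ) < t'
      · exfalso
        apply hx
        unfold cut
        rw [if_pos h2, if_pos h3]
      · left
        exact ⟨le_trans (min_le_right _ _) (not_lt.1 h3), lt_of_lt_of_le h2 (le_max_left _ _)⟩
    · by_cases h3 : (x : ℝ) < t'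
      · left
        exact ⟨le_trans (min_le_left _ _) (not_lt.1 h2), lt_of_lt_of_le h3 (le_max_right _ _)⟩
      · right
        refine ⟨x, ?_, rfl⟩
        intro h4
        apply hx
        unfold cut
        rw [if_neg h2, if_neg h3]
        exact h4
  have h5 : volume (Set.Ico (min t t') (max t t')) = edist t t' := by
    rw [Real.volume_Ico, max_sub_min_eq_abs, edist_dist, Real.dist_eq, abs_sub_comm]
  calc edist (cut g t f) (cut g t' f') = volume (dif (cut g t f) (cut g t' f')) := rfl
    _ ≤ volume (Set.Ico (min t t') (max t t') ∪ dif f f') := measure_mono h1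
    _ ≤ volume (Set.Ico (min t t') (max t t')) + volume (dif f f') := measure_union_le _ _
    _ = _ := by rw [h5]; rfl

theorem continuous_cut (g : G) : Continuous fun p : I × EE G => cut g p.1 p.2 := by
  have h : LipschitzWith 2 fun p : I × EE G => cut g p.1 p.2 := by
    intro p p'
    refine le_trans (edist_cut g _ _ _ _) ?_
    have h1 : edist (p.1 : ℝ) (p'.1 : ℝ) ≤ edist p p' := by
      rw [Prod.edist_eq]
      exact le_max_left _ _
    have h2 : edist p.2 p'.2 ≤ edist p p' := by
      rw [Prod.edist_eq]
      exact le_max_right _ _
    calc _ ≤ edist p p' + edist p p' := add_le_add h1 h2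
      _ = _ := by
          rw [← two_mul]
          rfl
  exact h.continuous

instance contractible_EE [Group G] : ContractibleSpace (EE G) := by
  rw [contractible_iff_id_nullhomotopic]
  refine ⟨cst 1, ⟨⟨⟨fun p => cut 1 p.1 p.2, continuous_cut 1⟩, ?_, ?_⟩⟩⟩
  · intro f
    exact cut_zero 1 f
  · intro f
    exact cut_one 1 f

instance [Group G] : MulAction G (EE G) where
  smul g f := fun x => g * f x
  one_smul f := funext fun x => one_mul (f x)
  mul_smul g h f := funext fun x => mul_assoc g h (f x)

theorem smul_def [Group G] (g : G) (f : EE G) : g • f = (fun x => g * f x : EE G) := rfl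

theorem edist_smul' [Group G] (g : G) (f f' : EE G) : edist (g • f) (g • f') = edist f f' := by
  rw [edist_def, edist_def]
  congr 1
  unfold dif
  congr 1
  ext x
  exact (mul_right_injective g).ne_iff

instance [Group G] : ContinuousConstSMul G (EE G) where
  continuous_const_smul g := by
    have h : LipschitzWith 1 fun f : EE G => g • f := by
      intro f f'
      rw [edist_smul']
      simp
    exact h.continuous

/-- the orbit space -/
abbrev ZZ (G : Type) [Group G] : Type := Quotient (MulAction.orbitRel G (EE G))

/-- the projection -/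
def pr (G : Type) [Group G] : EE G → ZZ G := Quotient.mk _

theorem pr_cov [Group G] : IsQuotientCoveringMap (pr G) G where
  toIsQuotientMap := isQuotientMap_quotient_mk'
  toContinuousConstSMul := inferInstance
  apply_eq_iff_mem_orbit := Quotient.eq''
  disjoint e := by
    refine ⟨Metric.eball e (1 / 2), Metric.eball_mem_nhds e (by simp), ?_⟩
    rintro g ⟨y, ⟨u, hu, rfl⟩, hy⟩
    by_contra hg
    rw [Metric.mem_eball] at hu hy
    have h1 : edist (g • e) e < 1 := by
      calc edist (g • e) e ≤ edist (g • e) (g • u) + edist (g • u) e := edist_triangle _ _ _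
        _ < 1 / 2 + 1 / 2 := by
            refine ENNReal.add_lt_add ?_ hy
            rw [edist_smul', edist_comm]
            exact hu
        _ = 1 := ENNReal.add_halves 1
    have h2 : dif (g • e) e = Set.Ico (0 : ℝ) 1 := by
      ext x
      constructor
      · rintro ⟨y, -, rfl⟩
        exact y.2
      · intro hx
        refine ⟨⟨x, hx⟩, ?_, rfl⟩
        intro h3
        apply hg
        have h4 : g * e ⟨x, hx⟩ = e ⟨x, hx⟩ := h3
        exact mul_eq_right.1 h4
    rw [edist_def, h2, Real.volume_Ico] at h1
    simp at h1

/-- the path of step functions -/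
def stp (a b : G) : Path (cst a : EE G) (cst b) where
  toFun t := cut b t (cst a)
  continuous_toFun := (continuous_cut b).comp (Continuous.prodMk continuous_id continuous_const)
  source' := cut_zero b _
  target' := cut_one b _

theorem pr_cst [Group G] (g : G) : pr G (cst g) = pr G (cst 1) := by
  apply Quotient.sound
  refine ⟨g, ?_⟩
  funext x
  exact mul_one g

theorem pr_smul [Group G] (g : G) (f : EE G) : pr G (g • f) = pr G f :=
  Quotient.sound ⟨g, rfl⟩

/-- projections of paths between constant functions -/
def q [Group G] {a b : G} (P : Path (cst a : EE G) (cst b)) : Path (pr G (cst 1)) (pr G (cst 1)) :=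
  (P.map pr_cov.continuous).cast (pr_cst a).symm (pr_cst b).symm

theorem q_apply [Group G] {a b : G} (P : Path (cst a : EE G) (cst b)) (t : I) :
    q P t = pr G (P t) := rfl

theorem q_trans [Group G] {a b c : G} (P : Path (cst a : EE G) (cst b))
    (Q : Path (cst b : EE G) (cst c)) : (q P).trans (q Q) = q (P.trans Q) := by
  ext t
  rw [q_apply, Path.trans_apply, Path.trans_apply]
  split_ifs <;> rfl

theorem q_hom [Group G] {a b : G} (P P' : Path (cst a : EE G) (cst b)) :
    (q P).Homotopic (q P') := by
  have h1 : P.Homotopic P' := SimplyConnectedSpace.paths_homotopic P P'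
  have h2 := h1.map ⟨pr G, pr_cov.continuous⟩
  exact h2

theorem q_stp [Group G] (g h : G) : q (stp 1 h) = q (stp g (g * h)) := by
  ext t
  rw [q_apply, q_apply, ← pr_smul g]
  congr 1
  funext x
  change g * (if (x : ℝ) < t then h else 1) = if (x : ℝ) < t then g * h else g
  split_ifs
  · rfl
  · exact mul_one g

end BGm

open BGm

theorem taskBG : TaskBG := by
  intro G _
  refine ⟨ZZ G, inferInstance, pr G (cst 1), fun g => q (stp 1 g), ?_, ?_⟩
  · intro g h
    change ((q (stp 1 g)).trans (q (stp 1 h))).Homotopic (q (stp 1 (g * h)))
    rw [q_stp g h, q_trans]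
    exact q_hom _ _
  · intro g hg
    have cov := (pr_cov (G := G)).isCoveringMap
    have hg' : ContinuousMap.HomotopicRel (q (stp 1 g)).toContinuousMap
      (Path.refl (pr G (cst 1))).toContinuousMap {0, 1} := hg
    have e1 : (q (stp 1 g)).toContinuousMap 0 = pr G (cst 1) := (q (stp 1 g)).source
    have e2 : (Path.refl (pr G (cst 1))).toContinuousMap 0 = pr G (cst 1) := rfl
    have h1 := cov.liftPath_apply_one_eq_of_homotopicRel hg' (cst 1) e1 e2
    have h2 : (stp 1 g).toContinuousMap =
        cov.liftPath (q (stp 1 g)).toContinuousMap (cst 1) e1 := by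
      rw [cov.eq_liftPath_iff']
      exact ⟨rfl, cut_zero g _⟩
    have h3 : ContinuousMap.const I (cst 1 : EE G) =
        cov.liftPath (Path.refl (pr G (cst 1))).toContinuousMap (cst 1) e2 := by
      rw [cov.eq_liftPath_iff']
      exact ⟨rfl, rfl⟩
    rw [← h2, ← h3] at h1
    have h4 : cut g 1 (cst 1) = cst 1 := h1
    rw [cut_one] at h4
    exact congrFun h4 ⟨0, le_refl _, one_pos⟩

end

end Pool.Agent.H659R3.CT
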