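import Pool.Agent.H659R3.CT.Stmts

set_option autoImplicit false

/-! Task TaskBase. Model: `G = Perm (U × ℤ) × ℤ`, `U = ⟨u_i | S⟩` acting by left multiplication on
the first factor, `s` the shift of the column `{1} × ℤ`. Then `[ω, s] (ω, n) = (ω, n + 1)`. -/

namespace Pool.Agent.H659R3.CT

namespace BaseAux

open scoped Classical in
/-- shift of the column over `1` -/
noncomputable def shift (U : Type) [Group U] : Equiv.Perm (U × ℤ) where
  toFun p := if p.1 = 1 then (p.1, p.2 + 1) else p
  invFun p := if p.1 = 1 then (p.1, p.2 - 1) else p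
  left_inv p := by
    by_cases h : p.1 = 1 <;> simp [h]
    ext <;> simp [h]
  right_inv p := by
    by_cases h : p.1 = 1 <;> simp [h]
    ext <;> simp [h]

/-- left multiplication on the first coordinate -/
def act (U : Type) [Group U] : U →* Equiv.Perm (U × ℤ) where
  toFun u := (Equiv.mulLeft u).prodCongr (Equiv.refl ℤ)
  map_one' := by ext p <;> simp
  map_mul' a b := by ext p <;> simp [mul_assoc]

theorem zpow_orbit {X : Type} (c : Equiv.Perm X) (g : ℤ → X) (h : ∀ m, c (g m) = g (m + 1)) (n : ℤ) :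
    ∀ m, (c ^ n) (g m) = g (m + n) := by
  induction n using Int.induction_on with
  | zero => intro m; simp
  | succ n ih =>
    intro m
    rw [zpow_add_one, Equiv.Perm.mul_apply, h, ih]
    congr 1; ring
  | pred n ih =>
    intro m
    rw [zpow_sub_one, Equiv.Perm.mul_apply]
    have : c⁻¹ (g m) = g (m - 1) := by
      rw [Equiv.Perm.inv_eq_iff_eq, h]
      congr 1; ring
    rw [this, ih]
    congr 1; ring

end BaseAux

open BaseAux in
theorem taskBase : TaskBase := by
  intro k S w hw
  let U : Type := FreeGroup (Fin k) ⧸ Subgroup.normalClosure (RS S)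
  let π : FreeGroup (Fin k) →* U := QuotientGroup.mk' _
  have hπ : ∀ x : FreeGroup (Fin k), π x = 1 ↔ x ∈ Subgroup.normalClosure (RS S) := fun x =>
    QuotientGroup.eq_one_iff x
  let G : Type := Equiv.Perm (U × ℤ) × Multiplicative ℤ
  let v : G := (1, Multiplicative.ofAdd 1)
  let s : G := (shift U, 1)
  let y : Fin k → G := fun i => (act U (π (FreeGroup.of i)), Multiplicative.ofAdd 1)
  have hlift : FreeGroup.lift (fun i => y i * v⁻¹) =
      (MonoidHom.inl (Equiv.Perm (U × ℤ)) (Multiplicative ℤ)).comp ((act U).comp π) := by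
    refine FreeGroup.ext_hom _ _ fun i => ?_
    rw [FreeGroup.lift_apply_of]
    refine Prod.ext ?_ ?_
    · show act U (π (FreeGroup.of i)) * (1 : Equiv.Perm (U × ℤ))⁻¹ = act U (π (FreeGroup.of i))
      simp
    · show Multiplicative.ofAdd (1 : ℤ) * (Multiplicative.ofAdd (1 : ℤ))⁻¹ = 1
      simp
  have hinf2 : ∀ (g : G), g.2 = Multiplicative.ofAdd 1 → Inf g := by
    intro g hg n hn
    have h1 := congrArg Prod.snd hn
    rw [Prod.pow_snd, hg] at h1
    have h2 := congrArg Multiplicative.toAdd h1
    simpa using h2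
  have hω : π (FreeGroup.mk w) ≠ 1 := fun h => hw ((hπ _).1 h)
  set ω : U := π (FreeGroup.mk w) with hωdef
  refine ⟨G, inferInstance, v, s, y, hinf2 _ rfl, ?_, fun i => hinf2 _ rfl, ?_, ?_⟩
  · intro n hn
    have h1 := congrArg Prod.fst hn
    rw [Prod.pow_fst] at h1
    have h2 := zpow_orbit (shift U) (fun m => ((1 : U), m)) (fun m => by simp [shift]) n 0
    have h3 : (shift U ^ n) ((1 : U), (0 : ℤ)) = ((1 : U), (0 : ℤ)) := by
      have : shift U ^ n = 1 := h1
      rw [this]; rfl
    rw [h3] at h2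
    simpa using (congrArg Prod.snd h2).symm
  · intro r hr
    rw [hlift]
    have : π (FreeGroup.mk r) = 1 := (hπ _).2 (Subgroup.subset_normalClosure ⟨r, hr, rfl⟩)
    show (act U (π (FreeGroup.mk r)), (1 : Multiplicative ℤ)) = (1, 1)
    rw [this, map_one]
  · rw [hlift]
    intro n hn
    have h1 := congrArg Prod.fst hn
    rw [Prod.pow_fst] at h1
    have h2 := zpow_orbit (act U ω * shift U * (act U ω)⁻¹ * (shift U)⁻¹) (fun m => (ω, m))
      (fun m => by
        have e1 : (shift U)⁻¹ (ω, m) = (ω, m) := by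
          rw [Equiv.Perm.inv_eq_iff_eq]
          simp [shift, hω]
        have e2 : (act U ω)⁻¹ (ω, m) = (1, m) := by
          rw [Equiv.Perm.inv_eq_iff_eq]
          simp [act]
        simp only [Equiv.Perm.mul_apply, e1, e2]
        simp [shift, act]) n 0
    have h3 : ((act U ω * shift U * (act U ω)⁻¹ * (shift U)⁻¹) ^ n) (ω, (0 : ℤ)) = (ω, (0 : ℤ)) := by
      have : (act U ω * shift U * (act U ω)⁻¹ * (shift U)⁻¹) ^ n = 1 := by
        exact h1
      rw [this]; rfl
    rw [h3] at h2
    simpa using (congrArg Prod.snd h2).symm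

end Pool.Agent.H659R3.CT
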