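import Pool.Agent.H659R3.CT.Stmts

/-! Task TaskComp of the project H659-CT (helper265). -/

namespace Pool.Agent.H659R3.CT

theorem hat_primrec (k : ℕ) : Primrec (hat k) := by
  have h1 : Primrec (fun l : Fin k × Bool => if l.2 then [(3 + l.1.1, true), (0, false)]
      else [(0, true), (3 + l.1.1, false)]) := Primrec.dom_finite _
  have h2 : Primrec₂ (fun (_ : List (Fin k × Bool)) (l : Fin k × Bool) =>
      if l.2 then [(3 + l.1.1, true), (0, false)] else [(0, true), (3 + l.1.1, false)]) :=
    h1.comp Primrec.snd
  exact Primrec.list_flatMap Primrec.id h2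

theorem inv_primrec : Primrec inv := by
  unfold inv
  exact Primrec.list_reverse.comp (Primrec.list_map Primrec.id
    ((Primrec.pair (Primrec.fst.comp Primrec.snd)
      (Primrec.not.comp (Primrec.snd.comp Primrec.snd))).to₂))

theorem rw0_primrec (k : ℕ) : Primrec (rw0 k) := by
  unfold rw0
  exact Primrec.list_cons.comp (Primrec.const _) (Primrec.list_append.comp (hat_primrec k)
    (Primrec.list_cons.comp (Primrec.const _) (Primrec.list_append.comp
      (inv_primrec.comp (hat_primrec k)) (Primrec.const _))))

theorem cells2_primrec (k : ℕ) (S : List (List (Fin k × Bool))) : Primrec (cells2 k S) := by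
  have h : cells2 k S = fun w => (List.range (NT k S)).map (fun p => tau k (p % NX k) (p / NX k)) ++
      ((List.range (NX k)).map (bs k) ++
      ((rw0 k w ++ [(NX k + 0, false)]) ::
        (((S.map (hat k)).zipIdx 1).map fun r => r.1 ++ [(NX k + r.2, false)]))) := by
    funext w
    unfold cells2 rs
    rw [List.zipIdx_cons, List.map_cons]
  rw [h]
  exact Primrec.list_append.comp (Primrec.const _) (Primrec.list_append.comp (Primrec.const _)
    (Primrec.list_cons.comp (Primrec.list_append.comp (rw0_primrec k) (Primrec.const _))
      (Primrec.const _)))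

theorem taskComp : TaskComp := by
  intro k S W hW
  unfold cx
  exact (Computable.const _).pair (((cells2_primrec k S).to_comp.comp hW).pair
    (Computable.const _))

end Pool.Agent.H659R3.CT
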