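import Pool.Agent.H659R3.CT.TopStmts
import Pool.Agent.H659R3.CT.Comp

/-! Task TaskCompTop of the project H659-CT (helper509). -/

namespace Pool.Agent.H659R3.CT

theorem rs_primrec (k : ℕ) (S : List (List (Fin k × Bool))) : Primrec (rs k S) := by
  unfold rs
  exact Primrec.list_cons.comp (rw0_primrec k) (Primrec.const _)

theorem taskCompTop : TaskCompTop := by
  intro k S W hW
  unfold dt
  exact (Computable.const _).pair ((Computable.const _).pair ((rs_primrec k S).to_comp.comp hW))

end Pool.Agent.H659R3.CT
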