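import Pool.Agent.H659R3.CT.SimpStmts
import Pool.Agent.H659R3.CT.CompTop

/-! Task TaskCompSimp of the project H659-CT (helper940). -/

set_option autoImplicit false

namespace Pool.Agent.H659R3.CT

theorem cs_tA (k : ℕ) : Primrec (tA k) := by
  have h : tA k = fun i => if i < NX k then Nat.pair (2 * i + 1) 0
      else Nat.pair 0 (2 * (i - NX k) + 1) := rfl
  rw [h]
  refine Primrec.ite (Primrec.nat_lt.comp Primrec.id (Primrec.const _)) ?_ ?_
  · exact Primrec₂.natPair.comp (Primrec.nat_add.comp
      (Primrec.nat_mul.comp (Primrec.const 2) Primrec.id) (Primrec.const 1)) (Primrec.const 0)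
  · exact Primrec₂.natPair.comp (Primrec.const 0) (Primrec.nat_add.comp
      (Primrec.nat_mul.comp (Primrec.const 2)
        (Primrec.nat_sub.comp Primrec.id (Primrec.const _))) (Primrec.const 1))

theorem cs_tB (k : ℕ) : Primrec (tB k) := by
  have h : tB k = fun i => if i < NX k then Nat.pair (2 * i + 2) 0
      else Nat.pair 0 (2 * (i - NX k) + 2) := rfl
  rw [h]
  refine Primrec.ite (Primrec.nat_lt.comp Primrec.id (Primrec.const _)) ?_ ?_
  · exact Primrec₂.natPair.comp (Primrec.nat_add.comp
      (Primrec.nat_mul.comp (Primrec.const 2) Primrec.id) (Primrec.const 2)) (Primrec.const 0)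
  · exact Primrec₂.natPair.comp (Primrec.const 0) (Primrec.nat_add.comp
      (Primrec.nat_mul.comp (Primrec.const 2)
        (Primrec.nat_sub.comp Primrec.id (Primrec.const _))) (Primrec.const 2))

theorem cs_wp (v : ℕ) (A B : ℕ → ℕ) (hA : Primrec A) (hB : Primrec B) : Primrec (wp v A B) := by
  have h : wp v A B = fun V : Wd => V.flatMap fun l =>
      bif l.2 then [v, A l.1, B l.1] else [v, B l.1, A l.1] := by
    funext V
    unfold wp
    congr 1
    funext l
    cases l.2 <;> rfl
  rw [h]
  have h1 : Primrec (fun q : Wd × (ℕ × Bool) => A q.2.1) :=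
    hA.comp (Primrec.fst.comp Primrec.snd)
  have h2 : Primrec (fun q : Wd × (ℕ × Bool) => B q.2.1) :=
    hB.comp (Primrec.fst.comp Primrec.snd)
  refine Primrec.list_flatMap Primrec.id ?_
  change Primrec (fun q : Wd × (ℕ × Bool) =>
      bif q.2.2 then [v, A q.2.1, B q.2.1] else [v, B q.2.1, A q.2.1])
  refine Primrec.cond (Primrec.snd.comp Primrec.snd) ?_ ?_
  · exact Primrec.list_cons.comp (Primrec.const v) (Primrec.list_cons.comp h1
      (Primrec.list_cons.comp h2 (Primrec.const [])))
  · exact Primrec.list_cons.comp (Primrec.const v) (Primrec.list_cons.comp h2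
      (Primrec.list_cons.comp h1 (Primrec.const [])))

theorem cs_dsc (m j : ℕ) : Primrec (dsc m j) := by
  have h : dsc m j = fun e : List ℕ => (List.range e.length).flatMap fun i =>
    [[e.getD i 0, e.getD ((i + 1) % e.length) 0, m + Nat.pair j i],
     [e.getD ((i + 1) % e.length) 0, m + Nat.pair j i, m + Nat.pair j ((i + 1) % e.length)],
     [m + Nat.pair j i, m + Nat.pair j ((i + 1) % e.length), m + Nat.pair j e.length]] := rfl
  rw [h]
  have he : Primrec (fun q : List ℕ × ℕ => q.1) := Primrec.fst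
  have hi : Primrec (fun q : List ℕ × ℕ => q.2) := Primrec.snd
  have hl : Primrec (fun q : List ℕ × ℕ => q.1.length) := Primrec.list_length.comp he
  have hi' : Primrec (fun q : List ℕ × ℕ => (q.2 + 1) % q.1.length) :=
    Primrec.nat_mod.comp (Primrec.nat_add.comp hi (Primrec.const 1)) hl
  have hg : Primrec (fun q : List ℕ × ℕ => q.1.getD q.2 0) := (Primrec.list_getD 0).comp he hi
  have hg' : Primrec (fun q : List ℕ × ℕ => q.1.getD ((q.2 + 1) % q.1.length) 0) :=
    (Primrec.list_getD 0).comp he hi'
  have hn : ∀ f : List ℕ × ℕ → ℕ, Primrec f → Primrec (fun q => m + Nat.pair j (f q)) :=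
    fun f hf => Primrec.nat_add.comp (Primrec.const m) (Primrec₂.natPair.comp (Primrec.const j) hf)
  have h3 : ∀ a b c : List ℕ × ℕ → ℕ, Primrec a → Primrec b → Primrec c →
      Primrec (fun q => [a q, b q, c q]) := fun a b c ha hb hc =>
    Primrec.list_cons.comp ha (Primrec.list_cons.comp hb
      (Primrec.list_cons.comp hc (Primrec.const [])))
  refine Primrec.list_flatMap (Primrec.list_range.comp Primrec.list_length) ?_
  change Primrec (fun q : List ℕ × ℕ =>
    [[q.1.getD q.2 0, q.1.getD ((q.2 + 1) % q.1.length) 0, m + Nat.pair j q.2],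
     [q.1.getD ((q.2 + 1) % q.1.length) 0, m + Nat.pair j q.2,
      m + Nat.pair j ((q.2 + 1) % q.1.length)],
     [m + Nat.pair j q.2, m + Nat.pair j ((q.2 + 1) % q.1.length), m + Nat.pair j q.1.length]])
  exact Primrec.list_cons.comp (h3 _ _ _ hg hg' (hn _ hi))
    (Primrec.list_cons.comp (h3 _ _ _ hg' (hn _ hi) (hn _ hi'))
      (Primrec.list_cons.comp (h3 _ _ _ (hn _ hi) (hn _ hi') (hn _ hl)) (Primrec.const [])))

theorem cs_kX (k : ℕ) (S : List (List (Fin k × Bool))) : Primrec (kX k S) := by
  have h : kX k S = fun w => prod3 (kL k) (S.length + 1) ++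
      (dsc (bnd (prod3 (kL k) (S.length + 1))) 0
        (wp (pv 0 0) (tA k) (tB k) (rw0 k w ++ [(NX k + 0, false)])) ++
      ((((S.map (hat k)).zipIdx 1).map fun r =>
        wp (pv 0 0) (tA k) (tB k) (r.1 ++ [(NX k + r.2, false)])).zipIdx 1).flatMap fun p =>
          dsc (bnd (prod3 (kL k) (S.length + 1))) p.2 p.1) := by
    funext w
    unfold kX att rs
    rw [List.zipIdx_cons, List.map_cons, List.zipIdx_cons, List.flatMap_cons]
  rw [h]
  exact Primrec.list_append.comp (Primrec.const _) (Primrec.list_append.comp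
    ((cs_dsc _ 0).comp ((cs_wp _ _ _ (cs_tA k) (cs_tB k)).comp
      (Primrec.list_append.comp (rw0_primrec k) (Primrec.const _)))) (Primrec.const _))

theorem taskCompSimp : TaskCompSimp := by
  intro k S W hW
  exact (cs_kX k S).to_comp.comp hW

end Pool.Agent.H659R3.CT
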