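import Pool.Agent.H659R3.CT.Stmts

set_option autoImplicit false

/-! Task FP of the project H659-CT: a stable letter dilating `x` which forms a free pair with `z`
(Britton's lemma). -/

namespace Pool.Agent.H659R3.CT

open HNNExtension

namespace FPAux

/-- exponent of the head, and the list of pairs `t^u z^n` -/
def W : List (Bool × Bool) → ℤ × List (ℤˣ × ℤ)
  | [] => (0, [])
  | (false, b) :: L => ((W L).1 + (if b then 1 else -1), (W L).2)
  | (true, b) :: L => (0, ((if b then 1 else -1), (W L).1) :: (W L).2)

/-- sign condition of the head -/
def Hd : List (Bool × Bool) → Prop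
  | [] => True
  | (false, b) :: L => if b then 0 < (W ((false, b) :: L)).1 else (W ((false, b) :: L)).1 < 0
  | (true, _) :: _ => True

lemma good (L : List (Bool × Bool)) (hL : FreeGroup.IsReduced L) :
    ((W L).2).IsChain (fun a b => a.2 = 0 → a.1 = b.1) ∧ Hd L := by
  induction L with
  | nil => exact ⟨List.isChain_nil, trivial⟩
  | cons a L ih =>
    have hL' : FreeGroup.IsReduced L := by
      rcases L with _ | ⟨c, L⟩
      · exact FreeGroup.IsReduced.nil
      · exact (FreeGroup.isReduced_cons_cons.mp hL).2
    obtain ⟨ih1, ih2⟩ := ih hL'
    obtain ⟨a, b⟩ := a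
    cases a
    · refine ⟨ih1, ?_⟩
      rcases L with _ | ⟨⟨c, d⟩, L⟩
      · cases b <;> simp [Hd, W]
      · cases c
        · have hbd : b = d := (FreeGroup.isReduced_cons_cons.mp hL).1 rfl
          subst hbd
          cases b
          · simp only [Hd, Bool.false_eq_true, if_false] at ih2 ⊢
            have : (W ((false, false) :: (false, false) :: L)).1 =
              (W ((false, false) :: L)).1 + (-1) := rfl
            rw [this]; omega
          · simp only [Hd, if_true] at ih2 ⊢
            have : (W ((false, true) :: (false, true) :: L)).1 =
              (W ((false, true) :: L)).1 + 1 := rfl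
            rw [this]; omega
        · cases b
          · simp only [Hd, Bool.false_eq_true, if_false]
            have : (W ((false, false) :: (true, d) :: L)).1 = 0 + (-1) := rfl
            rw [this]; omega
          · simp only [Hd, if_true]
            have : (W ((false, true) :: (true, d) :: L)).1 = 0 + 1 := rfl
            rw [this]; omega
    · refine ⟨?_, trivial⟩
      rcases L with _ | ⟨⟨c, d⟩, L⟩
      · exact List.isChain_singleton _
      · cases c
        · -- the next letter is a power of `z`
          have hne : (W ((false, d) :: L)).1 ≠ 0 := by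
            cases d
            · simp only [Hd, Bool.false_eq_true, if_false] at ih2
              exact ih2.ne
            · simp only [Hd, if_true] at ih2
              exact ih2.ne'
          have e : (W ((true, b) :: (false, d) :: L)).2 =
            ((if b then (1 : ℤˣ) else -1), (W ((false, d) :: L)).1) :: (W ((false, d) :: L)).2 := rfl
          rw [e]
          rcases h : (W ((false, d) :: L)).2 with _ | ⟨q, l⟩
          · exact List.isChain_singleton _
          · rw [List.isChain_cons_cons]
            refine ⟨fun h0 => absurd h0 hne, ?_⟩
            rw [← h]; exact ih1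
        · have hbd : b = d := (FreeGroup.isReduced_cons_cons.mp hL).1 rfl
          subst hbd
          have e : (W ((true, b) :: (true, b) :: L)).2 =
            ((if b then (1 : ℤˣ) else -1), (0 : ℤ)) ::
              ((if b then (1 : ℤˣ) else -1), (W L).1) :: (W L).2 := rfl
          rw [e, List.isChain_cons_cons]
          exact ⟨fun _ => rfl, ih1⟩

lemma value {G : Type} [Group G] {A B : Subgroup G} (φ : A ≃* B) (z : G) (L : List (Bool × Bool)) :
    FreeGroup.lift (fun b : Bool => if b then (t : HNNExtension G A B φ) else of z)
      (FreeGroup.mk L) =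
    of (z ^ (W L).1) * ((W L).2.map (fun p => t ^ (p.1 : ℤ) * of (z ^ p.2))).prod := by
  rw [FreeGroup.lift_mk]
  induction L with
  | nil => simp [W]
  | cons a L ih =>
    rw [List.map_cons, List.prod_cons, ih]
    obtain ⟨a, b⟩ := a
    cases a
    · have e1 : (W ((false, b) :: L)).1 = (W L).1 + (if b then 1 else -1) := rfl
      have e2 : (W ((false, b) :: L)).2 = (W L).2 := rfl
      rw [e1, e2, ← mul_assoc]
      congr 1
      cases b
      · simp only [cond_false, Bool.false_eq_true, if_false, ← map_inv, ← map_mul]
        congr 1
        rw [add_comm, zpow_add, zpow_neg_one]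
      · simp only [cond_true, Bool.false_eq_true, if_false, if_true, ← map_mul]
        congr 1
        rw [add_comm, zpow_add, zpow_one]
    · have e1 : (W ((true, b) :: L)).1 = 0 := rfl
      have e2 : (W ((true, b) :: L)).2 = ((if b then (1 : ℤˣ) else -1), (W L).1) :: (W L).2 := rfl
      rw [e1, e2, List.map_cons, List.prod_cons, zpow_zero, map_one, one_mul]
      cases b
      · simp [mul_assoc]
      · simp [mul_assoc]

end FPAux

open FPAux in
theorem taskFP : TaskFP := by
  intro G _ x z hx hz hxz
  -- the associated subgroups
  have hA : Function.Injective (zpowersHom G (x ^ 2)) := by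
    rw [injective_iff_map_eq_one]
    intro n hn
    rw [zpowersHom_apply] at hn
    have h1 : x ^ (2 * n.toAdd) = 1 := by
      rw [zpow_mul]
      exact_mod_cast hn
    have h2 := hx _ h1
    have h3 : n.toAdd = 0 := by omega
    exact h3
  have hB : Function.Injective (zpowersHom G x) := by
    rw [injective_iff_map_eq_one]
    intro n hn
    rw [zpowersHom_apply] at hn
    exact hx _ hn
  let φ : (zpowersHom G (x ^ 2)).range ≃* (zpowersHom G x).range :=
    (MonoidHom.ofInjective hA).symm.trans (MonoidHom.ofInjective hB)
  refine ⟨HNNExtension G _ _ φ, inferInstance, of, t, of_injective φ, ?_, ?_⟩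
  · have h1 := t_mul_of (φ := φ) (MonoidHom.ofInjective hA (Multiplicative.ofAdd 1))
    have h2 : φ (MonoidHom.ofInjective hA (Multiplicative.ofAdd 1)) =
        MonoidHom.ofInjective hB (Multiplicative.ofAdd 1) := by
      simp [φ]
    rw [h2, MonoidHom.ofInjective_apply, MonoidHom.ofInjective_apply, zpowersHom_apply,
      zpowersHom_apply] at h1
    simp only [toAdd_ofAdd, zpow_one] at h1
    rw [mul_assoc, ← h1, ← mul_assoc, inv_mul_cancel, one_mul]
    exact map_pow of x 2
  · unfold FreePair
    rw [injective_iff_map_eq_one]
    intro w hw
    have hred : FreeGroup.IsReduced w.toWord := FreeGroup.isReduced_toWord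
    have hmk : FreeGroup.mk w.toWord = w := FreeGroup.mk_toWord
    obtain ⟨g1, g2⟩ := good _ hred
    have hval := value φ z w.toWord
    rw [hmk, hw] at hval
    have hmem : ∀ (u : ℤˣ) (n : ℤ), z ^ n ∈ toSubgroup
        (zpowersHom G (x ^ 2)).range (zpowersHom G x).range u → n = 0 := by
      intro u n hn
      rcases Int.units_eq_one_or u with rfl | rfl
      · rw [toSubgroup_one] at hn
        obtain ⟨k, hk⟩ := hn
        rw [zpowersHom_apply] at hk
        apply hxz (2 * k.toAdd) n
        rw [zpow_mul, ← hk]
        norm_cast
      · rw [toSubgroup_neg_one] at hn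
        obtain ⟨k, hk⟩ := hn
        rw [zpowersHom_apply] at hk
        exact hxz _ _ hk
    let rw' : NormalWord.ReducedWord G (zpowersHom G (x ^ 2)).range (zpowersHom G x).range :=
      { head := z ^ (W w.toWord).1
        toList := (W w.toWord).2.map (fun p => (p.1, z ^ p.2))
        chain := by
          refine List.isChain_map_of_isChain _ ?_ g1
          intro a b hab h
          exact hab (hmem _ _ h) }
    have hp : rw'.prod φ = 1 := by
      rw [hval]
      unfold NormalWord.ReducedWord.prod
      simp only [rw', List.map_map]
      rfl
    have hnil := ReducedWord.toList_eq_nil_of_mem_of_range φ rw' (by rw [hp]; exact one_mem _)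
    have hnil2 : (W w.toWord).2 = [] := by
      simpa [rw'] using hnil
    rw [hnil2, List.map_nil, List.prod_nil, mul_one] at hval
    have hz0 : (W w.toWord).1 = 0 := by
      apply hz
      apply of_injective φ
      rw [← hval, map_one]
    rw [← hmk]
    rcases hL : w.toWord with _ | ⟨⟨a, b⟩, L⟩
    · rfl
    · exfalso
      rw [hL] at hnil2 hz0 g2
      cases a
      · cases b
        · simp only [Hd, Bool.false_eq_true, if_false] at g2
          omega
        · simp only [Hd, if_true] at g2
          omega
      · exact List.cons_ne_nil _ _ hnil2

end Pool.Agent.H659R3.CT
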