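import Pool.Agent.H659R3.CT.TopStmts

set_option autoImplicit false

/-! Project H659-CT: filling a square. -/

namespace Pool.Agent.H659R3.CT

open unitInterval Topology

namespace FillP

/-- the collapse of the unit square which sends the edge `v = 0` to a corner -/
noncomputable def psi (q : I × I) : I × I :=
  (⟨(1 - (q.1 : ℝ)) * max 0 (2 * (q.2 : ℝ) - 1) + q.1 * q.2, by
      have h1 := q.1.2.1
      have h2 := q.1.2.2
      have h3 := q.2.2.1
      have h4 := q.2.2.2
      have h5 : max 0 (2 * (q.2 : ℝ) - 1) ≤ 1 := max_le (by norm_num) (by linarith)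
      have h6 : 0 ≤ max 0 (2 * (q.2 : ℝ) - 1) := le_max_left _ _
      constructor
      · exact add_nonneg (mul_nonneg (by linarith) h6) (mul_nonneg h1 h3)
      · nlinarith [mul_le_mul_of_nonneg_left h5 (by linarith : (0 : ℝ) ≤ 1 - (q.1 : ℝ)),
          mul_le_mul_of_nonneg_left h4 h1]⟩,
    ⟨(1 - (q.1 : ℝ)) * min 1 (2 * (q.2 : ℝ)), by
      have h1 := q.1.2.1
      have h2 := q.1.2.2
      have h3 := q.2.2.1
      have h5 : min 1 (2 * (q.2 : ℝ)) ≤ 1 := min_le_left _ _
      have h6 : 0 ≤ min 1 (2 * (q.2 : ℝ)) := le_min (by norm_num) (by linarith)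
      constructor
      · exact mul_nonneg (by linarith) h6
      · nlinarith [mul_le_mul_of_nonneg_left h5 (by linarith : (0 : ℝ) ≤ 1 - (q.1 : ℝ))]⟩)

theorem psi_fst (q : I × I) : ((psi q).1 : ℝ) =
    (1 - (q.1 : ℝ)) * max 0 (2 * (q.2 : ℝ) - 1) + q.1 * q.2 := rfl

theorem psi_snd (q : I × I) : ((psi q).2 : ℝ) =
    (1 - (q.1 : ℝ)) * min 1 (2 * (q.2 : ℝ)) := rfl

theorem psi_continuous : Continuous psi := by
  refine Continuous.prodMk ?_ ?_
  · refine Continuous.subtype_mk ?_ _
    fun_prop
  · refine Continuous.subtype_mk ?_ _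
    fun_prop

theorem psi_surj : Function.Surjective psi := by
  rintro ⟨s, t⟩
  have hs0 := s.2.1
  have hs1 := s.2.2
  have ht0 := t.2.1
  have ht1 := t.2.2
  rcases le_or_gt ((s : ℝ) + t / 2) (1 / 2) with h | h
  · rcases eq_or_lt_of_le (by linarith : (0 : ℝ) ≤ (s : ℝ) + t / 2) with h0 | h0
    · refine ⟨(0, 0), ?_⟩
      have e1 : (s : ℝ) = 0 := by linarith
      have e2 : (t : ℝ) = 0 := by linarith
      refine Prod.ext (Subtype.ext ?_) (Subtype.ext ?_)
      · rw [psi_fst]
        simp [e1]
      · rw [psi_snd]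
        simp [e2]
    · refine ⟨(⟨(s : ℝ) / (s + t / 2), ?_⟩, ⟨s + t / 2, by linarith, by linarith⟩), ?_⟩
      · constructor
        · positivity
        · rw [div_le_one h0]
          linarith
      · refine Prod.ext (Subtype.ext ?_) (Subtype.ext ?_)
        · rw [psi_fst]
          simp only
          rw [max_eq_left (by linarith), mul_zero, zero_add]
          exact div_mul_cancel₀ _ h0.ne'
        · rw [psi_snd]
          simp only
          rw [min_eq_right (by linarith)]
          have h9 : (s : ℝ) / (s + t / 2) * (s + t / 2) = s := div_mul_cancel₀ _ h0.ne'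
          obtain ⟨w, hw⟩ : ∃ w : ℝ, w = (s : ℝ) / (s + t / 2) := ⟨_, rfl⟩
          rw [← hw] at h9 ⊢
          linear_combination (-2 : ℝ) * h9
  · refine ⟨(⟨1 - t, by linarith, by linarith⟩, ⟨(s + t) / (1 + t), ?_⟩), ?_⟩
    · constructor
      · positivity
      · rw [div_le_one (by linarith)]
        linarith
    · have h1 : (0 : ℝ) < 1 + t := by linarith
      have h2 : 1 / 2 ≤ ((s : ℝ) + t) / (1 + t) := by
        rw [le_div_iff₀ h1]
        linarith
      refine Prod.ext (Subtype.ext ?_) (Subtype.ext ?_)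
      · rw [psi_fst]
        simp only
        rw [max_eq_right (by linarith)]
        field_simp
        ring
      · rw [psi_snd]
        simp only
        rw [min_eq_left (by linarith)]
        ring

theorem psi_inj {u v u' v' : I} (h : psi (u, v) = psi (u', v')) :
    (v = 0 ∧ v' = 0) ∨ (u = u' ∧ v = v') := by
  have e1 : ((psi (u, v)).1 : ℝ) = (psi (u', v')).1 := by rw [h]
  have e2 : ((psi (u, v)).2 : ℝ) = (psi (u', v')).2 := by rw [h]
  rw [psi_fst, psi_fst] at e1
  rw [psi_snd, psi_snd] at e2
  simp only at e1 e2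
  have hu0 := u.2.1
  have hu1 := u.2.2
  have hv0 := v.2.1
  have hv1 := v.2.2
  have hu0' := u'.2.1
  have hu1' := u'.2.2
  have hv0' := v'.2.1
  have hv1' := v'.2.2
  -- mixed case
  have mixed : ∀ a b a' b' : ℝ, 0 ≤ a → a ≤ 1 → 0 ≤ a' → a' ≤ 1 → 0 ≤ b → b ≤ 1 / 2 →
      1 / 2 ≤ b' → a * b = (1 - a') * (2 * b' - 1) + a' * b' →
      (1 - a) * (2 * b) = (1 - a') * 1 → a = a' ∧ b = b' := by
    intro a b a' b' ha0 ha1 ha0' ha1' hb0 hb hb' h1 h2
    have h3 : b = 1 / 2 + (b' - 1 / 2) * (2 - a') := by nlinarith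
    have h4 : 0 ≤ (b' - 1 / 2) * (2 - a') := mul_nonneg (by linarith) (by linarith)
    have h5 : (b' - 1 / 2) * (2 - a') = 0 := by linarith
    have h6 : b' = 1 / 2 := by
      rcases mul_eq_zero.1 h5 with h | h
      · linarith
      · linarith
    have h7 : b = 1 / 2 := by linarith
    subst h6
    subst h7
    constructor
    · linarith
    · rfl
  rcases le_total (v : ℝ) (1 / 2) with hv | hv <;> rcases le_total (v' : ℝ) (1 / 2) with hv' | hv'
  · rw [max_eq_left (by linarith), max_eq_left (by linarith)] at e1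
    rw [min_eq_right (by linarith), min_eq_right (by linarith)] at e2
    have e3 : (v : ℝ) = v' := by nlinarith
    rcases eq_or_lt_of_le hv0 with h0 | h0
    · left
      constructor
      · exact Subtype.ext h0.symm
      · apply Subtype.ext
        rw [← e3]
        exact h0.symm
    · right
      refine ⟨Subtype.ext ?_, Subtype.ext e3⟩
      rw [← e3] at e1
      have : (u : ℝ) * v = u' * v := by linarith
      exact mul_right_cancel₀ h0.ne' this
  · rw [max_eq_left (by linarith), max_eq_right (by linarith)] at e1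
    rw [min_eq_right (by linarith), min_eq_left (by linarith)] at e2
    right
    have := mixed u v u' v' hu0 hu1 hu0' hu1' hv0 hv hv' (by linarith) e2
    exact ⟨Subtype.ext this.1, Subtype.ext this.2⟩
  · rw [max_eq_right (by linarith), max_eq_left (by linarith)] at e1
    rw [min_eq_left (by linarith), min_eq_right (by linarith)] at e2
    right
    have := mixed u' v' u v hu0' hu1' hu0 hu1 hv0' hv' hv (by linarith) e2.symm
    exact ⟨Subtype.ext this.1.symm, Subtype.ext this.2.symm⟩
  · rw [max_eq_right (by linarith), max_eq_right (by linarith)] at e1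
    rw [min_eq_left (by linarith), min_eq_left (by linarith)] at e2
    right
    have h1 : (u : ℝ) = u' := by linarith
    rw [← h1] at e1
    have h2 : ((v : ℝ) - v') * (2 - u) = 0 := by linarith
    have h3 : (v : ℝ) = v' := by
      rcases mul_eq_zero.1 h2 with h | h
      · linarith
      · linarith
    exact ⟨Subtype.ext h1, Subtype.ext h3⟩

/-- the collapse as a continuous map -/
noncomputable def psiC : C(I × I, I × I) := ⟨psi, psi_continuous⟩

theorem psi_quot : IsQuotientMap psiC :=
  (psi_continuous.isClosedMap).isQuotientMap psi_continuous psi_surj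

end FillP

theorem FillP.trans_left {Y : Type} [TopologicalSpace Y] {P Q R : Y} (γ : Path P Q) (B : Path Q R)
    (t w : I) (h : (w : ℝ) = (t : ℝ) / 2) : (γ.trans B) w = γ t := by
  have ht1 := t.2.2
  rw [Path.trans_apply, dif_pos (by rw [h]; linarith)]
  congr 1
  apply Subtype.ext
  simp only
  rw [h]
  ring

theorem FillP.trans_right {Y : Type} [TopologicalSpace Y] {P Q R : Y} (γ : Path P Q)
    (B : Path Q R) (s w : I) (h : (w : ℝ) = (1 + (s : ℝ)) / 2) : (γ.trans B) w = B s := by
  have hs0 := s.2.1
  rcases eq_or_lt_of_le hs0 with h0 | h0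
  · have h1 : s = 0 := Subtype.ext h0.symm
    rw [FillP.trans_left γ B 1 w (by rw [h, h1]; simp), h1, γ.target, B.source]
  · rw [Path.trans_apply, dif_neg (by rw [h]; linarith)]
    congr 1
    apply Subtype.ext
    simp only
    rw [h]
    ring

open FillP in
theorem taskFill : TaskFill := by
  intro Y _ P Q R γ B A hom
  obtain ⟨K⟩ := hom
  have hf : Function.FactorsThrough (K.toContinuousMap : C(I × I, Y)) psiC := by
    rintro ⟨u, v⟩ ⟨u', v'⟩ h
    rcases psi_inj h with ⟨h1, h2⟩ | ⟨h1, h2⟩
    · rw [h1, h2]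
      change K (u, 0) = K (u', 0)
      rw [K.source, K.source]
    · rw [h1, h2]
  have hl : ∀ q, psi_quot.lift (K.toContinuousMap : C(I × I, Y)) hf (psi q) = K q := fun q =>
    congrFun (congrArg DFunLike.coe (psi_quot.lift_comp (K.toContinuousMap : C(I × I, Y)) hf)) q
  refine ⟨psi_quot.lift (K.toContinuousMap : C(I × I, Y)) hf, ?_, ?_, ?_, ?_⟩
  · intro t
    have ht0 := t.2.1
    have ht1 := t.2.2
    obtain ⟨w, hw⟩ : ∃ w : I, (w : ℝ) = (t : ℝ) / 2 :=
      ⟨⟨(t : ℝ) / 2, by constructor <;> linarith⟩, rfl⟩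
    have e : psi (0, w) = (0, t) := by
      refine Prod.ext (Subtype.ext ?_) (Subtype.ext ?_)
      · rw [psi_fst]
        simp only
        rw [hw, max_eq_left (by linarith)]
        simp
      · rw [psi_snd]
        simp only
        rw [hw, min_eq_right (by linarith)]
        simp
        ring
    have h1 := hl (0, w)
    rw [e, K.apply_zero] at h1
    exact h1.trans (FillP.trans_left γ B t w hw)
  · intro s
    have e : psi (1, s) = (s, 0) := by
      refine Prod.ext (Subtype.ext ?_) (Subtype.ext ?_)
      · rw [psi_fst]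
        simp
      · rw [psi_snd]
        simp
    have h1 := hl (1, s)
    rw [e, K.apply_one] at h1
    exact h1
  · intro s
    have hs0 := s.2.1
    have hs1 := s.2.2
    obtain ⟨w, hw⟩ : ∃ w : I, (w : ℝ) = (1 + (s : ℝ)) / 2 :=
      ⟨⟨(1 + (s : ℝ)) / 2, by constructor <;> linarith⟩, rfl⟩
    have e : psi (0, w) = (s, 1) := by
      refine Prod.ext (Subtype.ext ?_) (Subtype.ext ?_)
      · rw [psi_fst]
        simp only
        rw [hw, max_eq_right (by linarith)]
        simp
        ring
      · rw [psi_snd]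
        simp only
        rw [hw, min_eq_left (by linarith)]
        simp
    have h1 := hl (0, w)
    rw [e, K.apply_zero] at h1
    exact h1.trans (FillP.trans_right γ B s w hw)
  · intro t
    have ht0 := t.2.1
    have ht1 := t.2.2
    obtain ⟨w, hw⟩ : ∃ w : I, (w : ℝ) = 1 - (t : ℝ) :=
      ⟨⟨1 - (t : ℝ), by constructor <;> linarith⟩, rfl⟩
    have e : psi (w, 1) = (1, t) := by
      refine Prod.ext (Subtype.ext ?_) (Subtype.ext ?_)
      · rw [psi_fst]
        simp only
        rw [hw, Set.Icc.coe_one, max_eq_right (by norm_num)]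
        ring
      · rw [psi_snd]
        simp only
        rw [hw, Set.Icc.coe_one, min_eq_left (by norm_num)]
        ring
    have h1 := hl (w, 1)
    rw [e, K.target] at h1
    exact h1

end Pool.Agent.H659R3.CT
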