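import Mathlib
import Pool.Agent.H659R3.CT.TopStmts
import Pool.Agent.Helper270.WPB

set_option autoImplicit false
set_option maxHeartbeats 4000000

/-! Project H659-CT: assembly of the topological statement. -/

namespace Pool.Agent.H659R3.CT

open unitInterval Topology

theorem rs_toWord {m : ℕ} (R : Finset (FreeGroup (Fin m))) :
    RS (R.toList.map FreeGroup.toWord) = (R : Set (FreeGroup (Fin m))) := by
  ext x
  simp only [RS, List.mem_map, Finset.mem_toList, Set.mem_setOf_eq, Finset.mem_coe]
  constructor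
  · rintro ⟨_, ⟨y, hy, rfl⟩, rfl⟩
    rwa [FreeGroup.mk_toWord]
  · intro hx
    exact ⟨_, ⟨x, hx, rfl⟩, FreeGroup.mk_toWord.symm⟩

theorem sp_dt (k : ℕ) (S : List (List (Fin k × Bool))) (w : List (Fin k × Bool)) :
    ContractibleSpace (Sp (dt k S w)) ↔
      ContractibleSpace (XX (NX k) (parF k) (rs k S w)) := by
  have h : (fun x : Fin (dt k S w).1 => if h : (dt k S w).2.1.getD x.1 0 < (dt k S w).1 then
      (⟨(dt k S w).2.1.getD x.1 0, h⟩ : Fin (dt k S w).1) else x) = parF k := by
    funext x
    have hx : x.1 < NX k := x.2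
    have h1 : (dt k S w).2.1.getD x.1 0 = par k x.1 := by
      simp [dt, List.getD_eq_getElem?_getD, hx]
    have h2 : (dt k S w).2.1.getD x.1 0 < (dt k S w).1 := by
      rw [h1]; exact par_lt k x.1 hx
    rw [dif_pos h2]
    exact Fin.ext h1
  show ContractibleSpace (XX (dt k S w).1 _ (dt k S w).2.2) ↔ _
  rw [h]
  rfl

theorem finalTop (hC : TaskCompTop) (hT : TaskTriv) (hCon : TaskContr) (hN : TaskNC) :
    FinalTop := by
  rintro ⟨f, hf, hX⟩
  obtain ⟨m, R, W, hW, hR⟩ := Pool.Agent.Helper270.WP.word_problem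
  apply hR
  let S := R.toList.map FreeGroup.toWord
  have hS : RS S = (R : Set (FreeGroup (Fin m))) := rs_toWord R
  have key : ∀ n, (f (dt m S (W n)) = true ↔ FreeGroup.mk (W n) ∈
      Subgroup.normalClosure (R : Set (FreeGroup (Fin m)))) := by
    intro n
    rw [hX, sp_dt, ← hS]
    constructor
    · intro h
      by_contra hn
      exact hN m S (W n) hn h
    · intro h
      exact hCon m S (W n) (hT m S (W n) h)
  have hg : Computable fun n => f (dt m S (W n)) := hf.comp (hC m S W hW)
  exact ComputablePred.computable_iff.2 ⟨_, hg, by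
    funext n
    exact propext (key n).symm⟩

/-- algebraic form -/
theorem final (hC : TaskComp) (hV : TaskValid) (hA : TaskAcyclic) (hT : TaskTriv)
    (hN : TaskNontriv) : Final := by
  have h1 : ¬ ∃ f : Cx → Bool, Computable f ∧ ∀ X, Valid X → Acyclic X →
      (f X = true ↔ Subsingleton (Pi1 X)) := by
    rintro ⟨f, hf, hX⟩
    obtain ⟨m, R, W, hW, hR⟩ := Pool.Agent.Helper270.WP.word_problem
    apply hR
    let S := R.toList.map FreeGroup.toWord
    have hS : RS S = (R : Set (FreeGroup (Fin m))) := rs_toWord R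
    have key : ∀ n, (f (cx m S (W n)) = true ↔ FreeGroup.mk (W n) ∈
        Subgroup.normalClosure (R : Set (FreeGroup (Fin m)))) := by
      intro n
      rw [hX _ (hV m S (W n)) (hA m S (W n)), ← hS]
      constructor
      · intro h
        by_contra hn
        exact hN m S (W n) hn h
      · intro h
        exact hT m S (W n) h
    have hg : Computable fun n => f (cx m S (W n)) := hf.comp (hC m S W hW)
    exact ComputablePred.computable_iff.2 ⟨_, hg, by
      funext n
      exact propext (key n).symm⟩
  refine ⟨h1, ?_⟩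
  rintro ⟨f, hf, hX⟩
  refine h1 ⟨f, hf, fun X hV hA => ?_⟩
  rw [hX X hV]
  exact ⟨fun h => h.1, fun h => ⟨h, hA⟩⟩

end Pool.Agent.H659R3.CT
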