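import Pool.Agent.H659R3.CT.Stmts

set_option autoImplicit false

theorem Pool.Agent.H659R3.CT.taskHNN : Pool.Agent.H659R3.CT.TaskHNN := by
  intro G S _ _ j j' hj hj'
  let φ : j.range ≃* j'.range :=
    (MonoidHom.ofInjective hj).symm.trans (MonoidHom.ofInjective hj')
  refine ⟨HNNExtension G j.range j'.range φ, inferInstance, HNNExtension.of, HNNExtension.t,
    HNNExtension.of_injective φ, fun s => ?_⟩
  have h := HNNExtension.t_mul_of (φ := φ) ⟨j s, s, rfl⟩
  have h2 : ((φ ⟨j s, s, rfl⟩ : j'.range) : G) = j' s := by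
    have h3 : (MonoidHom.ofInjective hj).symm ⟨j s, s, rfl⟩ = s := by
      rw [MulEquiv.symm_apply_eq]
      rfl
    simp only [φ, MulEquiv.trans_apply, h3]
    rfl
  rw [h2] at h
  exact h
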