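import Pool.Agent.H659R3.CT.SimpStmts

set_option autoImplicit false
set_option maxHeartbeats 4000000

/-! Project H659-CT, TaskKXOf: the simplicial complex is dominated by the space. -/

namespace Pool.Agent.H659R3.CT

open unitInterval Topology

noncomputable section

namespace KXOf

theorem le_foldr_max (l : List ℕ) : ∀ x ∈ l, x ≤ l.foldr max 0 := by
  induction l with
  | nil => intro x hx; simp at hx
  | cons a l ih =>
    intro x hx
    rw [List.foldr_cons]
    rcases List.mem_cons.1 hx with rfl | h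
    · exact le_max_left _ _
    · exact (ih x h).trans (le_max_right _ _)

theorem bd_bnd (K : List (List ℕ)) : Bd (bnd K) K := by
  intro s hs i hi
  have h : i + 1 ∈ K.flatten.map (· + 1) :=
    List.mem_map.2 ⟨i, List.mem_flatten.2 ⟨s, hs, hi⟩, rfl⟩
  exact Nat.lt_of_succ_le (le_foldr_max _ _ h)

section Paths

variable {A B : Type} [TopologicalSpace A] [TopologicalSpace B]

theorem map_refl' (a : A) (f : C(A, B)) : (Path.refl a).map f.continuous = Path.refl (f a) := by
  ext t; rfl

theorem wloop_map {n : ℕ} {a : A} (α : Fin n → Path a a) (f : C(A, B)) (V : Wd) :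
    (wloop α V).map f.continuous = wloop (fun x => (α x).map f.continuous) V := by
  induction V with
  | nil => exact map_refl' a f
  | cons l V ih =>
    simp only [wloop]
    rw [Path.map_trans, ih]
    congr 1
    split_ifs
    · rfl
    · rw [Path.map_symm]
    · exact map_refl' a f

theorem wloop_congr {n : ℕ} {a : A} (α β : Fin n → Path a a)
    (h : ∀ x, (α x).Homotopic (β x)) (V : Wd) : (wloop α V).Homotopic (wloop β V) := by
  induction V with
  | nil => exact Path.Homotopic.refl _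
  | cons l V ih =>
    simp only [wloop]
    refine Path.Homotopic.hcomp ?_ ih
    split_ifs
    · exact h _
    · exact (h _).symm₂
    · exact Path.Homotopic.refl _

theorem wloop_dom {n : ℕ} {a : A} {b : B} (i : C(A, B)) (hi : i a = b)
    (α : Fin n → Path a a) (β : Fin n → Path b b)
    (h : ∀ x, ((α x).map i.continuous).Homotopic ((β x).cast hi hi)) (V : Wd) :
    ((wloop α V).map i.continuous).Homotopic ((wloop β V).cast hi hi) := by
  subst hi
  rw [wloop_map]
  exact wloop_congr _ _ h V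

theorem cast_homotopic {x y : B} (h : x = y) (p q : Path y y) (hpq : p.Homotopic q) :
    (p.cast h h).Homotopic (q.cast h h) := by
  subst h
  exact hpq

theorem wloop_append {n : ℕ} {a : A} (α : Fin n → Path a a) (V W : Wd) :
    (wloop α (V ++ W)).Homotopic ((wloop α V).trans (wloop α W)) := by
  induction V with
  | nil => exact Path.Homotopic.symm ⟨Path.Homotopy.reflTrans _⟩
  | cons l V ih =>
    simp only [List.cons_append, wloop]
    exact (Path.Homotopic.hcomp (Path.Homotopic.refl _) ih).trans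
      (Path.Homotopic.symm ⟨Path.Homotopy.transAssoc _ _ _⟩)

theorem wloop_sum {n J : ℕ} {a : A} (α : Fin n → Path a a) (β : Fin J → Path a a) (V : Wd)
    (hV : ∀ l ∈ V, l.1 < n) :
    wloop (fun x : Fin (n + J) => Sum.elim α β (finSumFinEquiv.symm x)) V = wloop α V := by
  induction V with
  | nil => rfl
  | cons l V ih =>
    have hl := hV l (List.mem_cons_self)
    have h1 : l.1 < n + J := by omega
    have h2 : (finSumFinEquiv.symm (⟨l.1, h1⟩ : Fin (n + J)) : Fin n ⊕ Fin J) =
        Sum.inl ⟨l.1, hl⟩ := finSumFinEquiv_symm_apply_castAdd (m := n) (n := J) ⟨l.1, hl⟩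
    simp only [wloop]
    rw [ih fun l' hl' => hV l' (List.mem_cons_of_mem _ hl'), dif_pos h1, dif_pos hl, h2]
    rfl

theorem wloop_last {n J : ℕ} {a : A} (α : Fin n → Path a a) (β : Fin J → Path a a) (j : Fin J) :
    (wloop (fun x : Fin (n + J) => Sum.elim α β (finSumFinEquiv.symm x))
      [(n + j.1, false)]).Homotopic (β j).symm := by
  have h1 : n + j.1 < n + J := by omega
  have h2 : (finSumFinEquiv.symm (⟨n + j.1, h1⟩ : Fin (n + J)) : Fin n ⊕ Fin J) =
      Sum.inr j := finSumFinEquiv_symm_apply_natAdd (m := n) (n := J) j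
  simp only [wloop]
  rw [dif_pos h1, h2]
  exact ⟨Path.Homotopy.transRefl _⟩

theorem wloop_word {n J : ℕ} {a : A} (α : Fin n → Path a a) (β : Fin J → Path a a) (V : Wd)
    (hV : ∀ l ∈ V, l.1 < n) (j : Fin J) :
    (wloop (fun x : Fin (n + J) => Sum.elim α β (finSumFinEquiv.symm x))
      (V ++ [(n + j.1, false)])).Homotopic ((wloop α V).trans (β j).symm) := by
  refine (wloop_append _ _ _).trans ?_
  rw [wloop_sum α β V hV]
  exact Path.Homotopic.hcomp (Path.Homotopic.refl _) (wloop_last α β j)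

end Paths

/-! ### combinatorics -/

theorem hat_lt (k : ℕ) (w : List (Fin k × Bool)) : ∀ l ∈ hat k w, l.1 < NX k := by
  intro l hl
  unfold hat at hl
  rw [List.mem_flatMap] at hl
  obtain ⟨x, _, hx⟩ := hl
  have h := x.1.2
  unfold NX NE
  split_ifs at hx
  · simp only [List.mem_cons, List.not_mem_nil, or_false] at hx
    rcases hx with rfl | rfl
    · show 3 + x.1.1 < _
      omega
    · show 0 < _
      omega
  · simp only [List.mem_cons, List.not_mem_nil, or_false] at hx
    rcases hx with rfl | rfl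
    · show 0 < _
      omega
    · show 3 + x.1.1 < _
      omega

theorem inv_lt (k : ℕ) (V : Wd) (h : ∀ l ∈ V, l.1 < NX k) : ∀ l ∈ inv V, l.1 < NX k := by
  intro l hl
  unfold inv at hl
  rw [List.mem_reverse, List.mem_map] at hl
  obtain ⟨x, hx, rfl⟩ := hl
  exact h x hx

theorem rs_lt (k : ℕ) (S : List (List (Fin k × Bool))) (w : List (Fin k × Bool)) :
    ∀ r ∈ rs k S w, ∀ l ∈ r, l.1 < NX k := by
  intro r hr l hl
  unfold rs at hr
  rcases List.mem_cons.1 hr with rfl | hr
  · unfold rw0 at hl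
    simp only [List.mem_cons, List.mem_append, List.not_mem_nil, or_false] at hl
    rcases hl with rfl | hl | rfl | hl | rfl
    · show 2 < _
      unfold NX NE; omega
    · exact hat_lt k w l hl
    · show 1 < _
      unfold NX NE; omega
    · exact inv_lt k _ (hat_lt k w) l hl
    · show 1 < _
      unfold NX NE; omega
  · rw [List.mem_map] at hr
    obtain ⟨x, _, rfl⟩ := hr
    exact hat_lt k x l hl

theorem pv_zero : pv 0 0 = 0 := rfl

theorem pv_inj {a b c d : ℕ} (h : pv a b = pv c d) : a = c ∧ b = d := Nat.pair_eq_pair.1 h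

theorem cp_lift {K : List (List ℕ)} {v : ℕ} {e : List ℕ} (J : ℕ) (h : CP K v e) :
    CP (prod3 K J) (pv v 0) (e.map fun u => pv u 0) := by
  obtain ⟨h1, h2, h3⟩ := h
  have hg : ∀ n, (e.map fun u => pv u 0).getD n 0 = pv (e.getD n 0) 0 := by
    intro n
    exact List.getD_map e 0 (fun u => pv u 0)
  refine ⟨by rwa [List.length_map], by rw [hg, h2], fun i hi => ?_⟩
  rw [List.length_map] at hi ⊢
  obtain ⟨⟨s, hs, ha, hb⟩, hne⟩ := h3 i hi
  rw [hg, hg]
  refine ⟨⟨s.map fun v => pv v 0, ?_, ?_, ?_⟩, fun h => hne (pv_inj h).1⟩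
  · unfold prod3
    rw [List.mem_append]
    left
    exact List.mem_map.2 ⟨s, hs, rfl⟩
  · exact List.mem_map.2 ⟨_, ha, rfl⟩
  · exact List.mem_map.2 ⟨_, hb, rfl⟩

theorem prism_mem {s : List ℕ} (h : 0 ∈ s) (c c' : ℕ) :
    ∃ t ∈ prism s c c', pv 0 c ∈ t ∧ pv 0 c' ∈ t := by
  obtain ⟨i, hi, hi0⟩ := List.mem_iff_getElem.1 h
  refine ⟨(s.take (i + 1)).map (fun v => pv v c) ++ (s.drop i).map (fun v => pv v c'), ?_, ?_, ?_⟩
  · unfold prism
    exact List.mem_map.2 ⟨i, List.mem_range.2 hi, rfl⟩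
  · rw [List.mem_append]
    left
    refine List.mem_map.2 ⟨0, ?_, rfl⟩
    rw [List.mem_iff_getElem]
    refine ⟨i, by rw [List.length_take]; omega, ?_⟩
    rw [List.getElem_take]
    exact hi0
  · rw [List.mem_append]
    right
    refine List.mem_map.2 ⟨0, ?_, rfl⟩
    rw [List.mem_iff_getElem]
    refine ⟨0, by rw [List.length_drop]; omega, ?_⟩
    rw [List.getElem_drop]
    simpa using hi0

theorem cp_circle {K : List (List ℕ)} {s : List ℕ} (hs : s ∈ K) (h0 : 0 ∈ s) {J j : ℕ}
    (hj : j < J) : CP (prod3 K J) (pv 0 0) [pv 0 0, pv 0 (2 * j + 1), pv 0 (2 * j + 2)] := by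
  have hmem : ∀ t, t ∈ prism s 0 (2 * j + 1) ++ (prism s (2 * j + 1) (2 * j + 2) ++
      prism s (2 * j + 2) 0) → t ∈ prod3 K J := by
    intro t ht
    unfold prod3
    rw [List.mem_append]
    right
    rw [List.mem_flatMap]
    refine ⟨j, List.mem_range.2 hj, ?_⟩
    rw [List.mem_flatMap]
    exact ⟨s, hs, ht⟩
  obtain ⟨t1, ht1, a1, b1⟩ := prism_mem h0 0 (2 * j + 1)
  obtain ⟨t2, ht2, a2, b2⟩ := prism_mem h0 (2 * j + 1) (2 * j + 2)
  obtain ⟨t3, ht3, a3, b3⟩ := prism_mem h0 (2 * j + 2) 0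
  refine ⟨by simp, by simp, fun i hi => ?_⟩
  have hi' : i < 3 := hi
  have hl : [pv 0 0, pv 0 (2 * j + 1), pv 0 (2 * j + 2)].length = 3 := by simp
  rw [hl]
  have h33 : (2 + 1) % 3 = 0 := by norm_num
  interval_cases i
  · refine ⟨⟨t1, hmem t1 (List.mem_append_left _ ht1), a1, b1⟩, ?_⟩
    show pv 0 0 ≠ pv 0 (2 * j + 1)
    intro h
    have := (pv_inj h).2
    omega
  · refine ⟨⟨t2, hmem t2 (List.mem_append_right _ (List.mem_append_left _ ht2)), a2, b2⟩, ?_⟩
    show pv 0 (2 * j + 1) ≠ pv 0 (2 * j + 2)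
    intro h
    have := (pv_inj h).2
    omega
  · rw [h33]
    refine ⟨⟨t3, hmem t3 (List.mem_append_right _ (List.mem_append_right _ ht3)), a3, b3⟩, ?_⟩
    show pv 0 (2 * j + 2) ≠ pv 0 0
    intro h
    have := (pv_inj h).2
    omega

/-- discs and cells -/
theorem disc_sq (hD : TaskDisc) (hC : TaskCn) (hT : TaskTrans) (m : ℕ) (K E : List (List ℕ))
    (v : ℕ) (hB : Bd m K) (hE : ∀ e ∈ E, CP K v e) (b : Rz K) (J : ℕ) (hJ : E.length = J)
    (γ : Fin J → Path b b) (hb : b.1 = Pi.single v 1)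
    (hγ : ∀ j : Fin J, IsPg b (E.get (j.cast hJ.symm)) (γ j)) (κ : Type) (δ : κ → Path b b) :
    ∃ (inc : C(Rz K, Rz (att m K E))),
      Dom (Rz (att m K E)) (Sq b γ (cst b (Fin J))) (inc b) (Sq.inc b γ (cst b (Fin J)) b)
        (fun k => (δ k).map inc.continuous) (fun k => (δ k).map (Sq.inc b γ _).continuous) := by
  subst hJ
  obtain ⟨inc, -, h1⟩ := hD m K E v hB hE b γ hb hγ κ δ
  exact ⟨inc, hT _ _ _ _ _ _ _ _ _ _ h1 (hC _ b _ γ κ δ)⟩

end KXOf

open KXOf in
theorem taskKX : TaskKL → TaskDisc → TaskCn → TaskSqDom → TaskSqAB → TaskPoly → TaskTrans →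
    TaskPrism → TaskCyDom → TaskKX := by
  intro hKL hD hC hSD hAB hPo hT hPr hCy k S w
  have hJ : S.length + 1 = (rs k S w).length := by
    simp [rs]
  have hkX : kX k S w = att (bnd (prod3 (kL k) (rs k S w).length))
      (prod3 (kL k) (rs k S w).length)
      ((rs k S w).zipIdx.map fun r => wp (pv 0 0) (tA k) (tB k) (r.1 ++ [(NX k + r.2, false)])) := by
    unfold kX
    rw [hJ]
  rw [hkX]
  have hlt := rs_lt k S w
  clear hkX hJ
  generalize rs k S w = R at hlt ⊢
  obtain ⟨hsort, b0, γ0, hb0, hγ0, hdom0⟩ := hKL k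
  have hN : 0 < NX k := by unfold NX NE; omega
  obtain ⟨b', γ1, ζ, hb', hγ1, hζ, hdom1⟩ := hPr (kL k) R.length 0 b0 hsort hb0 (Fin (NX k))
    (fun x => [0, 2 * x.1 + 1, 2 * x.1 + 2]) γ0 (fun x => (hγ0 x).1) (fun x => (hγ0 x).2)
  have hdom2 := hCy _ _ b0 (LL.pt (NX k) (parF k)) R.length (Fin (NX k)) γ0
    (fun x => LL.loop (parF k) x) hdom0
  have hdom3 := hT _ _ _ _ _ _ _ _ _ _ hdom1 hdom2
  -- polygons
  obtain ⟨s0, hs0, h0s0⟩ : ∃ s ∈ kL k, 0 ∈ s := by
    obtain ⟨⟨s, hs, h1, -⟩, -⟩ := (hγ0 ⟨0, hN⟩).1.2.2 0 (by simp)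
    exact ⟨s, hs, h1⟩
  have hpoly := hPo (prod3 (kL k) R.length) (pv 0 0) (NX k + R.length) (tA k) (tB k) b'
    (fun x => Sum.elim γ1 ζ (finSumFinEquiv.symm x)) hb' (by
      intro x
      refine Fin.addCases (fun x => ?_) (fun j => ?_) x
      · rw [finSumFinEquiv_symm_apply_castAdd]
        have h1 : tA k (Fin.castAdd R.length x).1 = pv (2 * x.1 + 1) 0 := if_pos x.2
        have h2 : tB k (Fin.castAdd R.length x).1 = pv (2 * x.1 + 2) 0 := if_pos x.2
        rw [h1, h2]
        exact ⟨cp_lift R.length (hγ0 x).1, hγ1 x⟩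
      · rw [finSumFinEquiv_symm_apply_natAdd]
        have hn : ¬ (NX k + j.1 < NX k) := by omega
        have hs : NX k + j.1 - NX k = j.1 := by omega
        have h1 : tA k (Fin.natAdd (NX k) j).1 = pv 0 (2 * j.1 + 1) := by
          show (if NX k + j.1 < NX k then pv (2 * (NX k + j.1) + 1) 0
            else pv 0 (2 * (NX k + j.1 - NX k) + 1)) = _
          rw [if_neg hn, hs]
        have h2 : tB k (Fin.natAdd (NX k) j).1 = pv 0 (2 * j.1 + 2) := by
          show (if NX k + j.1 < NX k then pv (2 * (NX k + j.1) + 2) 0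
            else pv 0 (2 * (NX k + j.1 - NX k) + 2)) = _
          rw [if_neg hn, hs]
        rw [h1, h2]
        exact ⟨cp_circle hs0 h0s0 j.2, hζ j⟩)
  have hV : ∀ j : Fin R.length, ∀ l ∈ R.get j ++ [(NX k + j.1, false)], l.1 < NX k + R.length := by
    intro j l hl
    rw [List.mem_append] at hl
    rcases hl with hl | hl
    · have := hlt _ (List.get_mem R j) l hl
      omega
    · rw [List.mem_singleton] at hl
      rw [hl]
      show NX k + j.1 < _
      omega
  choose γE hcpE hpgE hhomE using fun j : Fin R.length =>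
    hpoly (R.get j ++ [(NX k + j.1, false)]) (by simp) (hV j)
  set E := (R.zipIdx.map fun r => wp (pv 0 0) (tA k) (tB k) (r.1 ++ [(NX k + r.2, false)])) with hE
  have hEl : E.length = R.length := by
    rw [hE, List.length_map, List.length_zipIdx]
  have hget : ∀ j : Fin R.length, E.get (j.cast hEl.symm) =
      wp (pv 0 0) (tA k) (tB k) (R.get j ++ [(NX k + j.1, false)]) := by
    intro j
    simp [hE]
  have hEcp : ∀ e ∈ E, CP (prod3 (kL k) R.length) (pv 0 0) e := by
    intro e he
    obtain ⟨i, rfl⟩ := List.mem_iff_get.1 he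
    have := hget (i.cast hEl)
    rw [show (i.cast hEl).cast hEl.symm = i from rfl] at this
    rw [this]
    exact hcpE _
  obtain ⟨inc, hdomA⟩ := disc_sq hD hC hT (bnd (prod3 (kL k) R.length)) (prod3 (kL k) R.length) E
    (pv 0 0) (bd_bnd _) hEcp b' R.length hEl γE hb' (fun j => by rw [hget]; exact hpgE j)
    (Fin (NX k)) γ1
  -- the map to the product
  have hdomB : Dom (Rz (prod3 (kL k) R.length)) (Cy (LL (NX k) (parF k)) R.length) b'
      (bp (NX k) (parF k) R.length) (Sum.elim γE γ1)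
      (Sum.elim (fun j => (lowL (NX k) (parF k) R j).trans (upL (NX k) (parF k) R j).symm)
        (fun x => (LL.loop (parF k) x).map (Cy.inc _ R.length).continuous)) := by
    obtain ⟨i, r, hi, hr, H, H0, H1, Hs, Hl⟩ := hdom3
    refine ⟨i, r, hi, hr, H, H0, H1, Hs, ?_⟩
    rintro (j | x)
    · simp only [Sum.elim_inl]
      have h1 : ((γE j).map i.continuous).Homotopic
          ((wloop (fun x => Sum.elim γ1 ζ (finSumFinEquiv.symm x))
            (R.get j ++ [(NX k + j.1, false)])).map i.continuous) := (hhomE j).map i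
      have h2 := wloop_dom i hi (fun x : Fin (NX k + R.length) =>
          Sum.elim γ1 ζ (finSumFinEquiv.symm x))
        (fun x : Fin (NX k + R.length) =>
          Sum.elim (fun x => (LL.loop (parF k) x).map (Cy.inc _ R.length).continuous)
            (fun j => Cy.loop (LL.pt (NX k) (parF k)) j) (finSumFinEquiv.symm x))
        (fun x => Hl (finSumFinEquiv.symm x)) (R.get j ++ [(NX k + j.1, false)])
      refine h1.trans (h2.trans ?_)
      refine cast_homotopic hi _ _ ?_
      have h3 := wloop_word (fun x => (LL.loop (parF k) x).map (Cy.inc _ R.length).continuous)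
        (fun j : Fin R.length => Cy.loop (LL.pt (NX k) (parF k)) j) (R.get j)
        (hlt _ (List.get_mem R j)) j
      refine h3.trans ?_
      have h4 : lowL (NX k) (parF k) R j =
          wloop (fun x => (LL.loop (parF k) x).map (Cy.inc _ R.length).continuous) (R.get j) :=
        wloop_map _ _ _
      change Path.Homotopic _ ((lowL (NX k) (parF k) R j).trans (upL (NX k) (parF k) R j).symm)
      rw [h4]
      exact Path.Homotopic.refl _
    · exact Hl (Sum.inl x)
  have hdomC := hSD _ _ b' (bp (NX k) (parF k) R.length) R.length γE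
    (fun j => (lowL (NX k) (parF k) R j).trans (upL (NX k) (parF k) R j).symm) (Fin (NX k)) γ1
    (fun x => (LL.loop (parF k) x).map (Cy.inc _ R.length).continuous) hdomB
  have hdomD := hAB _ (bp (NX k) (parF k) R.length) R.length (lowL (NX k) (parF k) R)
    (upL (NX k) (parF k) R) (Fin (NX k))
    (fun x => (LL.loop (parF k) x).map (Cy.inc _ R.length).continuous)
  refine ⟨inc b', fun x => (γ1 x).map inc.continuous, ?_⟩
  exact hT _ _ _ _ _ _ _ _ _ _ (hT _ _ _ _ _ _ _ _ _ _ hdomA hdomC) hdomD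

end

end Pool.Agent.H659R3.CT
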