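import Mathlib
import Pool.Agent.H659R3.CT.SimpStmts
import Pool.Agent.H659R3.CT.FillP

set_option autoImplicit false
set_option maxHeartbeats 4000000

/-! Project H659-CT: domination of spaces with cells (helper612). -/

namespace Pool.Agent.H659R3.CT

open unitInterval Topology

namespace SqDomPf

noncomputable section

/-- maps out of `Sq`, raw form -/
def dR {B Z : Type} [TopologicalSpace B] [TopologicalSpace Z] {b : B} {J : ℕ}
    (α β : Fin J → Path b b) (g : C(B, Z)) (c : Fin J → C(I × I, Z))
    (h0 : ∀ j s, c j (0, s) = g (α j s)) (h1 : ∀ j s, c j (1, s) = g (β j s))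
    (hl : ∀ j t, c j (t, 0) = g b) (hr : ∀ j t, c j (t, 1) = g b) : C(Sq b α β, Z) where
  toFun := Quot.lift (Sum.elim g fun p => c p.1 (p.2.1, p.2.2)) (by
    intro x y hxy
    induction hxy with
    | bot i s => exact h0 i s
    | top i s => exact h1 i s
    | left i t => exact hl i t
    | right i t => exact hr i t)
  continuous_toFun := by
    refine continuous_quot_lift _ (Continuous.sumElim g.continuous ?_)
    refine continuous_prod_of_discrete_left.2 fun j => ?_
    exact (c j).continuous

/-- a path of loops -/
def mkΩ {X : Type} [TopologicalSpace X] {x0 : X} {P Q : Path x0 x0} (c : C(I × I, X))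
    (h0 : ∀ t, c (t, 0) = x0) (h1 : ∀ t, c (t, 1) = x0) (hP : ∀ s, c (0, s) = P s)
    (hQ : ∀ s, c (1, s) = Q s) : Path P Q where
  toFun t := ⟨⟨fun s => c (t, s), by fun_prop⟩, h0 t, h1 t⟩
  continuous_toFun := continuous_induced_rng.2 (ContinuousMap.curry c).continuous
  source' := by ext s; exact hP s
  target' := by ext s; exact hQ s

theorem mkΩ_apply {X : Type} [TopologicalSpace X] {x0 : X} {P Q : Path x0 x0} (c : C(I × I, X))
    (h0 : ∀ t, c (t, 0) = x0) (h1 : ∀ t, c (t, 1) = x0) (hP : ∀ s, c (0, s) = P s)
    (hQ : ∀ s, c (1, s) = Q s) (t s : I) : mkΩ c h0 h1 hP hQ t s = c (t, s) := rfl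

/-- the square of a path of loops -/
def sqΩ {X : Type} [TopologicalSpace X] {x0 : X} {P Q : Path x0 x0} (ω : Path P Q) :
    C(I × I, X) := ⟨fun p => ω p.1 p.2, by fun_prop⟩

/-- the cell -/
def cell {B : Type} [TopologicalSpace B] {b : B} {J : ℕ} (α β : Fin J → Path b b) (j : Fin J) :
    C(I × I, Sq b α β) := ⟨fun p => Quot.mk _ (Sum.inr (j, p.1, p.2)), by
  refine continuous_quot_mk.comp ?_
  fun_prop⟩

end

end SqDomPf

open SqDomPf in
theorem taskSqDom : TaskSqDom := by
  intro A B _ _ a b J γ γ' κ δ δ' hdom
  obtain ⟨i, r, hi, hr, H, H0, H1, Ha, hh⟩ := hdom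
  -- the homotopies
  have hγ : ∀ j, ((γ j).map i.continuous).Homotopic ((γ' j).cast hi hi) := fun j => hh (Sum.inl j)
  have h : ∀ j, ((γ j).map i.continuous).Homotopy ((γ' j).cast hi hi) := fun j => (hγ j).some
  let incX := Sq.inc a γ (cst a (Fin J))
  let incY := Sq.inc b γ' (cst b (Fin J))
  let x0 : Sq a γ (cst a (Fin J)) := incX a
  let y0 : Sq b γ' (cst b (Fin J)) := incY b
  have hri : r (i a) = a := by rw [hi]; exact hr
  -- loops in X
  let Pγ : ∀ j, Path x0 x0 := fun j => (γ j).map incX.continuous
  let Pri : ∀ j, Path x0 x0 := fun j =>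
    ((γ j).map (incX.comp (r.comp i)).continuous).cast (by simp [x0, hri]) (by simp [x0, hri])
  let Pr : ∀ j, Path x0 x0 := fun j =>
    ((γ' j).map (incX.comp r).continuous).cast (by simp [x0, hr]) (by simp [x0, hr])
  -- paths of loops in X
  let η : ∀ j, Path (Pri j) (Pr j) := fun j =>
    mkΩ ((incX.comp r).comp (h j).toContinuousMap)
      (by
        intro t
        have := (h j).source t
        change incX (r ((h j) (t, 0))) = x0
        rw [this, hri])
      (by
        intro t
        have := (h j).target t
        change incX (r ((h j) (t, 1))) = x0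
        rw [this, hri])
      (by
        intro s
        have := (h j).apply_zero s
        change incX (r ((h j) (0, s))) = incX (r (i (γ j s)))
        rw [this]; rfl)
      (by
        intro s
        have := (h j).apply_one s
        change incX (r ((h j) (1, s))) = incX (r (γ' j s))
        rw [this]; rfl)
  let κκ : ∀ j, Path (Pri j) (Pγ j) := fun j =>
    mkΩ (incX.comp (H.comp ⟨fun p : I × I => (p.1, γ j p.2), by fun_prop⟩))
      (by
        intro t
        change incX (H (t, γ j 0)) = x0
        rw [(γ j).source, Ha])
      (by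
        intro t
        change incX (H (t, γ j 1)) = x0
        rw [(γ j).target, Ha])
      (by
        intro s
        change incX (H (0, γ j s)) = incX (r (i (γ j s)))
        rw [H0])
      (by
        intro s
        change incX (H (1, γ j s)) = incX (γ j s)
        rw [H1])
  let cc : ∀ j, Path (Pγ j) (Path.refl x0) := fun j =>
    mkΩ (cell γ (cst a (Fin J)) j)
      (fun t => Quot.sound (SqRel.left j t))
      (fun t => Quot.sound (SqRel.right j t))
      (fun s => Quot.sound (SqRel.bot j s))
      (fun s => Quot.sound (SqRel.top j s))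
  let ρ : ∀ j, Path (Pr j) (Path.refl x0) := fun j => (η j).symm.trans ((κκ j).trans (cc j))
  -- the map r
  let rp : C(Sq b γ' (cst b (Fin J)), Sq a γ (cst a (Fin J))) :=
    dR γ' (cst b (Fin J)) (incX.comp r) (fun j => sqΩ (ρ j))
      (by
        intro j s
        change (ρ j) 0 s = incX (r (γ' j s))
        rw [(ρ j).source]; rfl)
      (by
        intro j s
        change (ρ j) 1 s = incX (r b)
        rw [(ρ j).target, hr]; rfl)
      (by
        intro j t
        change (ρ j) t 0 = incX (r b)
        rw [((ρ j) t).source, hr])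
      (by
        intro j t
        change (ρ j) t 1 = incX (r b)
        rw [((ρ j) t).target, hr])
  -- loops in Y
  let Qi : ∀ j, Path y0 y0 := fun j =>
    ((γ j).map (incY.comp i).continuous).cast (by simp [y0, hi]) (by simp [y0, hi])
  let Qγ : ∀ j, Path y0 y0 := fun j => (γ' j).map incY.continuous
  let p1 : ∀ j, Path (Qi j) (Qγ j) := fun j =>
    mkΩ (incY.comp (h j).toContinuousMap)
      (by
        intro t
        have := (h j).source t
        change incY ((h j) (t, 0)) = y0
        rw [this, hi])
      (by
        intro t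
        have := (h j).target t
        change incY ((h j) (t, 1)) = y0
        rw [this, hi])
      (by
        intro s
        have := (h j).apply_zero s
        change incY ((h j) (0, s)) = incY (i (γ j s))
        rw [this]; rfl)
      (by
        intro s
        have := (h j).apply_one s
        change incY ((h j) (1, s)) = incY (γ' j s)
        rw [this]; rfl)
  let p2 : ∀ j, Path (Qγ j) (Path.refl y0) := fun j =>
    mkΩ (cell γ' (cst b (Fin J)) j)
      (fun t => Quot.sound (SqRel.left j t))
      (fun t => Quot.sound (SqRel.right j t))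
      (fun s => Quot.sound (SqRel.bot j s))
      (fun s => Quot.sound (SqRel.top j s))
  let sg : ∀ j, Path (Qi j) (Path.refl y0) := fun j => (p1 j).trans (p2 j)
  let ip : C(Sq a γ (cst a (Fin J)), Sq b γ' (cst b (Fin J))) :=
    dR γ (cst a (Fin J)) (incY.comp i) (fun j => sqΩ (sg j))
      (by
        intro j s
        change (sg j) 0 s = incY (i (γ j s))
        rw [(sg j).source]; rfl)
      (by
        intro j s
        change (sg j) 1 s = incY (i a)
        rw [(sg j).target, hi]; rfl)
      (by
        intro j t
        change (sg j) t 0 = incY (i a)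
        rw [((sg j) t).source, hi])
      (by
        intro j t
        change (sg j) t 1 = incY (i a)
        rw [((sg j) t).target, hi])
  -- composition on cells
  have hcomp : ∀ j t s, rp ((sg j) t s) = ((η j).trans (ρ j)) t s := by
    intro j t s
    change rp (((p1 j).trans (p2 j)) t s) = ((η j).trans (ρ j)) t s
    rw [Path.trans_apply, Path.trans_apply]
    split_ifs with h3
    · rfl
    · rfl
  -- the filling
  have hfill : ∀ j, ∃ F : C(I × I, Path x0 x0), (∀ t, F (0, t) = κκ j t) ∧
      (∀ s, F (s, 0) = ((η j).trans (ρ j)) s) ∧ (∀ s, F (s, 1) = cc j s) ∧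
      ∀ t, F (1, t) = Path.refl x0 := by
    intro j
    refine taskFill (Path x0 x0) (Pri j) (Pγ j) (Path.refl x0) (κκ j) (cc j)
      ((η j).trans (ρ j)) ?_
    have e1 : ((η j).trans ((η j).symm.trans ((κκ j).trans (cc j)))).Homotopic
        ((κκ j).trans (cc j)) := by
      have a1 : (((η j).trans (η j).symm).trans ((κκ j).trans (cc j))).Homotopic
          ((η j).trans ((η j).symm.trans ((κκ j).trans (cc j)))) :=
        ⟨Path.Homotopy.transAssoc _ _ _⟩
      have a2 : ((Path.refl (Pri j)).trans ((κκ j).trans (cc j))).Homotopic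
          (((η j).trans (η j).symm).trans ((κκ j).trans (cc j))) :=
        ⟨(Path.Homotopy.reflTransSymm (η j)).hcomp (Path.Homotopy.refl _)⟩
      have a3 : ((Path.refl (Pri j)).trans ((κκ j).trans (cc j))).Homotopic
          ((κκ j).trans (cc j)) := ⟨Path.Homotopy.reflTrans _⟩
      exact (a1.symm.trans a2.symm).trans a3
    exact e1.symm
  choose F F0 FA F1 FR using hfill
  -- the homotopy
  let Hc : C(Sq a γ (cst a (Fin J)), C(I, Sq a γ (cst a (Fin J)))) :=
    dR γ (cst a (Fin J))
      (ContinuousMap.curry (⟨fun p : A × I => incX (H (p.2, p.1)), by fun_prop⟩ :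
        C(A × I, Sq a γ (cst a (Fin J)))))
      (fun j => ContinuousMap.curry (⟨fun p : (I × I) × I => F j (p.1.1, p.2) p.1.2, by fun_prop⟩ :
        C((I × I) × I, Sq a γ (cst a (Fin J)))))
      (by
        intro j s
        ext u
        change F j (0, u) s = incX (H (u, γ j s))
        rw [F0]; rfl)
      (by
        intro j s
        ext u
        change F j (1, u) s = incX (H (u, a))
        rw [FR, Ha]; rfl)
      (by
        intro j t
        ext u
        change F j (t, u) 0 = incX (H (u, a))
        rw [(F j (t, u)).source, Ha])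
      (by
        intro j t
        ext u
        change F j (t, u) 1 = incX (H (u, a))
        rw [(F j (t, u)).target, Ha])
  let Hp : C(I × Sq a γ (cst a (Fin J)), Sq a γ (cst a (Fin J))) :=
    (ContinuousMap.uncurry Hc).comp ⟨fun p => (p.2, p.1), by fun_prop⟩
  refine ⟨ip, rp, congrArg incY hi, congrArg incX hr, Hp, ?_, ?_, ?_, ?_⟩
  · intro x
    induction x using Quot.ind with
    | mk x =>
      rcases x with x | ⟨j, t, s⟩
      · change incX (H (0, x)) = incX (r (i x))
        rw [H0]
      · change F j (t, 0) s = rp ((sg j) t s)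
        rw [FA, hcomp]
  · intro x
    induction x using Quot.ind with
    | mk x =>
      rcases x with x | ⟨j, t, s⟩
      · change incX (H (1, x)) = incX x
        rw [H1]
      · change F j (t, 1) s = _
        rw [F1]; rfl
  · intro s
    change incX (H (s, a)) = incX a
    rw [Ha]
  · intro k
    have h4 : ((δ k).map i.continuous).Homotopic ((δ' k).cast hi hi) := hh (Sum.inr k)
    have h5 := h4.map incY
    exact h5

end Pool.Agent.H659R3.CT
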