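import Pool.Agent.H659R3.CT.SimpStmts

set_option autoImplicit false
set_option maxHeartbeats 4000000

/-! The free cone is dominated by the cell with constant top. -/

namespace Pool.Agent.H659R3.CT

open unitInterval Topology

noncomputable section

namespace CnT

def pr (x : ℝ) : I := Set.projIcc 0 1 zero_le_one x

theorem pr_cont : Continuous pr := continuous_projIcc (h := zero_le_one)

theorem pr_zero {x : ℝ} (h : x ≤ 0) : pr x = 0 := Set.projIcc_of_le_left _ h

theorem pr_one {x : ℝ} (h : 1 ≤ x) : pr x = 1 := Set.projIcc_of_right_le _ h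

theorem pr_coe (x : I) : pr (x : ℝ) = x := Set.projIcc_val _ x

def m1 (u t : ℝ) : ℝ := min 1 (2 * t / (1 + u))

def T1 (u t s : ℝ) : ℝ := min (m1 u t) (min (u * m1 u t + 4 * s) (u * m1 u t + 4 * (1 - s)))

def S1 (u t s : ℝ) : ℝ := (s - m1 u t * (1 - u) / 4) / (1 - m1 u t * (1 - u) / 2)

def T2 (u t s : ℝ) : ℝ := min (2 + u - 2 * t) (min (u + 4 * s) (u + 4 * (1 - s)))

theorem m1_nonneg (u t : I) : 0 ≤ m1 u t := by
  unfold m1
  have h1 := u.2.1
  have h2 := t.2.1
  exact le_min zero_le_one (div_nonneg (by linarith) (by linarith))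

theorem m1_le (u t : I) : m1 u t ≤ 1 := min_le_left _ _

theorem den_pos (u t : I) : 0 < 1 - m1 u t * (1 - (u : ℝ)) / 2 := by
  have h1 := m1_nonneg u t
  have h2 := m1_le u t
  have h3 := u.2.1
  have h4 := u.2.2
  nlinarith

variable {B : Type} [TopologicalSpace B] {b : B} {J : ℕ} (γ : Fin J → Path b b)

def Q (j : Fin J) (t s : I) : Cn γ := Quot.mk _ (Sum.inr (j, t, s))

theorem Q_zero (j : Fin J) (s : I) : Q γ j 0 s = Cn.inc γ (γ j s) := Quot.sound (CnRel.bot j s)

theorem Q_side (j : Fin J) (t : I) : Q γ j t 0 = Q γ j t 1 := Quot.sound (CnRel.side j t)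

theorem Q_apex (j : Fin J) (s : I) : Q γ j 1 s = Q γ j 1 0 := Quot.sound (CnRel.apex j s)

theorem Q_cont : Continuous fun p : Fin J × I × I => Q γ p.1 p.2.1 p.2.2 := by
  refine continuous_quot_mk.comp ?_
  fun_prop

/-- the family of cell maps -/
def Φ (j : Fin J) (u t s : I) : Cn γ :=
  if 2 * (t : ℝ) ≤ 1 + u then Q γ j (pr (T1 u t s)) (pr (S1 u t s)) else Q γ j (pr (T2 u t s)) 0

theorem m1_cont : Continuous fun p : I × I => m1 (p.1 : ℝ) (p.2 : ℝ) := by
  unfold m1
  refine continuous_const.min (Continuous.div (by fun_prop) (by fun_prop) ?_)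
  intro p
  have := p.1.2.1
  linarith

theorem Φ_cont : Continuous fun p : Fin J × I × I × I => Φ γ p.1 p.2.1 p.2.2.1 p.2.2.2 := by
  unfold Φ
  have hm : Continuous fun p : Fin J × I × I × I => m1 (p.2.1 : ℝ) (p.2.2.1 : ℝ) :=
    m1_cont.comp (by fun_prop : Continuous fun p : Fin J × I × I × I => (p.2.1, p.2.2.1))
  have hT1 : Continuous fun p : Fin J × I × I × I => T1 (p.2.1 : ℝ) (p.2.2.1 : ℝ) (p.2.2.2 : ℝ) := by
    unfold T1
    exact hm.min (Continuous.min (by fun_prop) (by fun_prop))
  have hS1 : Continuous fun p : Fin J × I × I × I => S1 (p.2.1 : ℝ) (p.2.2.1 : ℝ) (p.2.2.2 : ℝ) := by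
    unfold S1
    refine Continuous.div (by fun_prop) (by fun_prop) ?_
    intro p
    exact (den_pos p.2.1 p.2.2.1).ne'
  have hT2 : Continuous fun p : Fin J × I × I × I => T2 (p.2.1 : ℝ) (p.2.2.1 : ℝ) (p.2.2.2 : ℝ) := by
    unfold T2
    exact Continuous.min (by fun_prop) (Continuous.min (by fun_prop) (by fun_prop))
  refine Continuous.if_le ?_ ?_ (by fun_prop) (by fun_prop) ?_
  · exact (Q_cont γ).comp (continuous_fst.prodMk ((pr_cont.comp hT1).prodMk (pr_cont.comp hS1)))
  · exact (Q_cont γ).comp (continuous_fst.prodMk ((pr_cont.comp hT2).prodMk continuous_const))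
  · rintro ⟨j, u, t, s⟩ h
    simp only at h ⊢
    have hu0 := u.2.1
    have hu1 := u.2.2
    have e1 : m1 u t = 1 := by
      unfold m1
      rw [h, div_self (by linarith), min_self]
    have e2 : T1 u t s = T2 u t s := by
      unfold T1 T2
      rw [e1, h, mul_one]
      congr 1
      ring
    rw [e2]
    have e3 : T2 u t s = min 1 (min ((u:ℝ) + 4 * (s:ℝ)) ((u:ℝ) + 4 * (1 - (s:ℝ)))) := by
      unfold T2
      rw [h]
      congr 1
      ring
    have e4 : S1 u t s = (s - (1 - u) / 4) / (1 - (1 - (u:ℝ)) / 2) := by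
      unfold S1
      rw [e1, one_mul]
    have hd : 0 < 1 - (1 - (u:ℝ)) / 2 := by linarith
    by_cases h1 : (u:ℝ) + 4 * s ≤ 1
    · have : pr (S1 u t s) = 0 := by
        apply pr_zero
        rw [e4]
        exact div_nonpos_of_nonpos_of_nonneg (by linarith) hd.le
      rw [this]
    · by_cases h2 : (u:ℝ) + 4 * (1 - (s:ℝ)) ≤ 1
      · have : pr (S1 u t s) = 1 := by
          apply pr_one
          rw [e4, le_div_iff₀ hd]
          linarith
        rw [this, ← Q_side]
      · have : pr (T2 u t s) = 1 := by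
          apply pr_one
          rw [e3]
          exact le_min le_rfl (le_min (by linarith) (by linarith))
        rw [this]
        exact Q_apex γ j _

/-- bottom -/
theorem Φ_bot (j : Fin J) (u s : I) : Φ γ j u 0 s = Cn.inc γ (γ j s) := by
  unfold Φ
  have hu0 := u.2.1
  rw [if_pos (by simp; linarith)]
  have e1 : m1 u (0 : I) = 0 := by
    unfold m1
    simp
  have e2 : pr (T1 u (0 : I) s) = 0 := by
    apply pr_zero
    unfold T1
    rw [e1]
    exact min_le_left _ _
  have e3 : pr (S1 u (0 : I) s) = s := by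
    unfold S1
    rw [e1]
    simp only [zero_mul, zero_div, sub_zero, div_one]
    exact pr_coe s
  rw [e2, e3]
  exact Q_zero γ j s

theorem T1_zero (u t : I) : T1 u t (0 : I) = u * m1 u t := by
  unfold T1
  have h1 := m1_nonneg u t
  have h3 := u.2.1
  have h4 := u.2.2
  have h5 : (u:ℝ) * m1 u t ≤ m1 u t := by nlinarith
  rw [Set.Icc.coe_zero]
  rw [min_eq_right, min_eq_left]
  · ring
  · linarith
  · exact (min_le_left _ _).trans (by linarith)

theorem T1_one (u t : I) : T1 u t (1 : I) = u * m1 u t := by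
  unfold T1
  have h1 := m1_nonneg u t
  have h3 := u.2.1
  have h4 := u.2.2
  have h5 : (u:ℝ) * m1 u t ≤ m1 u t := by nlinarith
  rw [Set.Icc.coe_one]
  rw [min_eq_right, min_eq_right]
  · ring
  · linarith
  · exact (min_le_right _ _).trans (by linarith)

theorem S1_zero (u t : I) : pr (S1 u t (0 : I)) = 0 := by
  apply pr_zero
  unfold S1
  have h1 := m1_nonneg u t
  have h4 := u.2.2
  rw [Set.Icc.coe_zero]
  have : 0 ≤ m1 u t * (1 - (u:ℝ)) := mul_nonneg h1 (by linarith)
  exact div_nonpos_of_nonpos_of_nonneg (by linarith) (den_pos u t).le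

theorem S1_one (u t : I) : pr (S1 u t (1 : I)) = 1 := by
  apply pr_one
  unfold S1
  have h1 := m1_nonneg u t
  have h4 := u.2.2
  rw [Set.Icc.coe_one, le_div_iff₀ (den_pos u t)]
  have : 0 ≤ m1 u t * (1 - (u:ℝ)) := mul_nonneg h1 (by linarith)
  linarith

theorem T2_zero (u t : I) : T2 u t (0 : I) = u := by
  unfold T2
  have h3 := t.2.2
  rw [Set.Icc.coe_zero]
  rw [min_eq_right, min_eq_left]
  · ring
  · linarith
  · exact (min_le_left _ _).trans (by linarith)

theorem T2_one (u t : I) : T2 u t (1 : I) = u := by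
  unfold T2
  have h3 := t.2.2
  rw [Set.Icc.coe_one]
  rw [min_eq_right, min_eq_right]
  · ring
  · linarith
  · exact (min_le_right _ _).trans (by linarith)

/-- sides -/
theorem Φ_side (j : Fin J) (u t : I) : Φ γ j u t 0 = Φ γ j u t 1 := by
  unfold Φ
  split_ifs with h
  · rw [T1_zero, T1_one, S1_zero, S1_one]
    exact Q_side γ j _
  · rw [T2_zero, T2_one]

/-- apex -/
theorem Φ_apex (j : Fin J) (u s : I) : Φ γ j u 1 s = Φ γ j u 1 0 := by
  unfold Φ
  split_ifs with h
  · rw [Set.Icc.coe_one] at h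
    have hu : (u:ℝ) = 1 := le_antisymm u.2.2 (by linarith)
    have e1 : m1 u (1 : I) = 1 := by
      unfold m1
      rw [hu]
      norm_num
    have e2 : ∀ s : I, pr (T1 u (1 : I) s) = 1 := by
      intro s
      apply pr_one
      unfold T1
      rw [e1, hu]
      have := s.2.1
      have := s.2.2
      exact le_min le_rfl (le_min (by linarith) (by linarith))
    rw [e2, e2, Q_apex γ j (pr (S1 u (1 : I) s)), Q_apex γ j (pr (S1 u (1 : I) (0 : I)))]
  · have e2 : ∀ s : I, T2 u (1 : I) s = u := by
      intro s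
      unfold T2
      have := s.2.1
      have := s.2.2
      rw [Set.Icc.coe_one, min_eq_left]
      · ring
      · exact le_min (by linarith) (by linarith)
    rw [e2, e2]

/-- the cell at time one -/
theorem Φ_one (j : Fin J) (t s : I) : Φ γ j 1 t s = Q γ j t s := by
  unfold Φ
  have ht := t.2.2
  have ht0 := t.2.1
  rw [if_pos (by rw [Set.Icc.coe_one]; linarith)]
  have e1 : m1 (1 : I) t = t := by
    unfold m1
    rw [Set.Icc.coe_one]
    have : 2 * (t:ℝ) / (1 + 1) = t := by ring
    rw [this, min_eq_right ht]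
  have e2 : T1 (1 : I) t s = t := by
    unfold T1
    rw [e1, Set.Icc.coe_one]
    have := s.2.1
    have := s.2.2
    rw [min_eq_left]
    exact le_min (by linarith) (by linarith)
  have e3 : S1 (1 : I) t s = s := by
    unfold S1
    rw [Set.Icc.coe_one]
    simp
  rw [e2, e3, pr_coe, pr_coe]

/-- the sides at time zero -/
theorem Φ_left (j : Fin J) (t : I) : Φ γ j 0 t 0 = Cn.inc γ b := by
  have e : Cn.inc γ b = Q γ j 0 0 := by
    rw [Q_zero, (γ j).source]
  rw [e]
  unfold Φ
  split_ifs with h
  · rw [T1_zero, S1_zero, Set.Icc.coe_zero, zero_mul, pr_zero le_rfl]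
  · rw [T2_zero, Set.Icc.coe_zero, pr_zero le_rfl]

theorem Φ_top (j : Fin J) (s : I) : Φ γ j 0 1 s = Cn.inc γ b := by
  rw [Φ_apex, Φ_left]

/-- the inclusion -/
def i : C(Cn γ, Sq b γ (cst b (Fin J))) where
  toFun := Quot.lift (Sum.elim (fun x => Quot.mk _ (Sum.inl x)) fun p => Quot.mk _ (Sum.inr p)) (by
    intro x y h
    induction h with
    | bot j s => exact Quot.sound (SqRel.bot j s)
    | side j t => exact (Quot.sound (SqRel.left j t)).trans (Quot.sound (SqRel.right j t)).symm
    | apex j s => exact (Quot.sound (SqRel.top j s)).trans (Quot.sound (SqRel.top j 0)).symm)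
  continuous_toFun := by
    refine continuous_quot_lift _ (Continuous.sumElim ?_ ?_)
    · exact continuous_quot_mk.comp continuous_inl
    · exact continuous_quot_mk.comp continuous_inr

/-- the retraction -/
def r : C(Sq b γ (cst b (Fin J)), Cn γ) where
  toFun := Quot.lift (Sum.elim (fun x => Cn.inc γ x) fun p => Φ γ p.1 0 p.2.1 p.2.2) (by
    intro x y h
    induction h with
    | bot j s => exact Φ_bot γ j 0 s
    | top j s => exact Φ_top γ j s
    | left j t => exact Φ_left γ j t
    | right j t => exact (Φ_side γ j 0 t).symm.trans (Φ_left γ j t))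
  continuous_toFun := by
    refine continuous_quot_lift _ (Continuous.sumElim ?_ ?_)
    · exact (Cn.inc γ).continuous
    · exact (Φ_cont γ).comp (by fun_prop : Continuous fun p : Fin J × I × I =>
        (p.1, (0 : I), p.2.1, p.2.2))

/-- the homotopy, curried -/
def H' : C(Cn γ, C(I, Cn γ)) where
  toFun := Quot.lift (Sum.elim (fun x => ContinuousMap.const I (Cn.inc γ x)) fun p =>
      ⟨fun u => Φ γ p.1 u p.2.1 p.2.2, (Φ_cont γ).comp (by fun_prop : Continuous fun u : I =>
        (p.1, u, p.2.1, p.2.2))⟩) (by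
    intro x y h
    induction h with
    | bot j s => exact ContinuousMap.ext fun u => Φ_bot γ j u s
    | side j t => exact ContinuousMap.ext fun u => Φ_side γ j u t
    | apex j s => exact ContinuousMap.ext fun u => Φ_apex γ j u s)
  continuous_toFun := by
    refine continuous_quot_lift _ (Continuous.sumElim ?_ ?_)
    · refine ContinuousMap.continuous_of_continuous_uncurry _ ?_
      exact (Cn.inc γ).continuous.comp continuous_fst
    · refine ContinuousMap.continuous_of_continuous_uncurry _ ?_
      exact (Φ_cont γ).comp (by fun_prop : Continuous fun q : (Fin J × I × I) × I =>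
        (q.1.1, q.2, q.1.2.1, q.1.2.2))

end CnT

open CnT in
theorem taskCn : TaskCn := by
  intro B _ b J γ κ δ
  refine ⟨CnT.i γ, CnT.r γ, rfl, rfl,
    ((CnT.H' γ).uncurry).comp ⟨fun p : I × Cn γ => (p.2, p.1), by fun_prop⟩, ?_, ?_, ?_, ?_⟩
  · intro x
    induction x using Quot.ind with
    | mk x =>
      rcases x with x | ⟨j, t, s⟩
      · rfl
      · rfl
  · intro x
    induction x using Quot.ind with
    | mk x =>
      rcases x with x | ⟨j, t, s⟩
      · rfl
      · exact Φ_one γ j t s
  · intro s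
    rfl
  · intro k
    have e : (((δ k).map (Cn.inc γ).continuous).map (CnT.i γ).continuous) =
        ((δ k).map (Sq.inc b γ (cst b (Fin J))).continuous).cast rfl rfl := by
      ext t
      rfl
    exact e ▸ Path.Homotopic.refl _

end

end Pool.Agent.H659R3.CT
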