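import Pool.Agent.H659R3.CT.TopStmts

/-!
# Project H659-CT: task `TaskComm`
-/

set_option autoImplicit false
set_option maxHeartbeats 4000000

namespace Pool.Agent.H659R3.CT

open unitInterval Topology

noncomputable section

namespace CommOf

/-! ### Squares -/

theorem square_contr {x y : I × I} (p q : Path x y) : p.Homotopic q := by
  have hI : ContractibleSpace I :=
    (convex_Icc (0 : ℝ) 1).contractibleSpace ⟨0, by norm_num⟩
  have : ContractibleSpace (I × I) := inferInstance
  exact SimplyConnectedSpace.paths_homotopic p q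

/-- the path `0 ⇝ 1` of the interval -/
def idp : Path (0 : I) (1 : I) where
  toFun t := t
  continuous_toFun := continuous_id
  source' := rfl
  target' := rfl

theorem idp_apply (t : I) : idp t = t := rfl

/-- a square gives a homotopy between the composites of its sides -/
theorem square {M : Type} [TopologicalSpace M] {P Q R S : M} (γ : Path P Q) (δ : Path Q S)
    (ε : Path P R) (ζ : Path R S) (H : C(I × I, M)) (hγ : ∀ s, H (0, s) = γ s)
    (hδ : ∀ v, H (v, 1) = δ v) (hε : ∀ v, H (v, 0) = ε v) (hζ : ∀ s, H (1, s) = ζ s) :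
    (γ.trans δ).Homotopic (ε.trans ζ) := by
  have e1 : P = H (0, 0) := by rw [hγ, γ.source]
  have e2 : Q = H (0, 1) := by rw [hγ, γ.target]
  have e3 : R = H (1, 0) := by rw [hζ, ζ.source]
  have e4 : S = H (1, 1) := by rw [hζ, ζ.target]
  subst e1 e2 e3 e4
  have h := (square_contr (((Path.refl (0 : I)).prod idp).trans (idp.prod (Path.refl (1 : I))))
    ((idp.prod (Path.refl (0 : I))).trans ((Path.refl (1 : I)).prod idp))).map H
  rw [Path.map_trans, Path.map_trans] at h
  have f1 : ((Path.refl (0 : I)).prod idp).map H.continuous = γ := by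
    ext s; exact hγ s
  have f2 : (idp.prod (Path.refl (1 : I))).map H.continuous = δ := by
    ext s; exact hδ s
  have f3 : (idp.prod (Path.refl (0 : I))).map H.continuous = ε := by
    ext s; exact hε s
  have f4 : ((Path.refl (1 : I)).prod idp).map H.continuous = ζ := by
    ext s; exact hζ s
  rw [f1, f2, f3, f4] at h
  exact h

/-! ### Transport of a loop along a path -/

variable {Z : Type} [TopologicalSpace Z]

/-- position on the interval -/
def pr (x : ℝ) : I := Set.projIcc 0 1 zero_le_one x

theorem pr_cont : Continuous pr := by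
  unfold pr
  exact continuous_projIcc

theorem pr_zero : pr 0 = 0 := by
  unfold pr
  exact Set.projIcc_left _

theorem pr_one : pr 1 = 1 := by
  unfold pr
  exact Set.projIcc_right _

theorem pr_coe (t : I) : pr (t : ℝ) = t := Set.projIcc_val _ t

/-- the loop `g` conjugated by the path `w` from `w v` to `w 0` -/
def tw (w g : C(I, Z)) (v t : I) : Z :=
  if (t : ℝ) * (1 + 2 * (v : ℝ)) ≤ v then w (pr ((v : ℝ) - (t : ℝ) * (1 + 2 * (v : ℝ))))
  else if (t : ℝ) * (1 + 2 * (v : ℝ)) ≤ 1 + v then g (pr ((t : ℝ) * (1 + 2 * (v : ℝ)) - v))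
  else w (pr ((t : ℝ) * (1 + 2 * (v : ℝ)) - (1 + v)))

theorem tw_cont {X : Type} [TopologicalSpace X] (w g : X → C(I, Z)) (v t : X → I)
    (hw : Continuous w) (hg : Continuous g) (hv : Continuous v) (ht : Continuous t)
    (h0 : ∀ x, w x 0 = g x 0) (h1 : ∀ x, w x 0 = g x 1) :
    Continuous fun x => tw (w x) (g x) (v x) (t x) := by
  unfold tw
  have hv' : Continuous fun x => ((v x : I) : ℝ) := continuous_subtype_val.comp hv
  have ht' : Continuous fun x => ((t x : I) : ℝ) := continuous_subtype_val.comp ht
  have hτ : Continuous fun x => (t x : ℝ) * (1 + 2 * (v x : ℝ)) := by fun_prop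
  refine Continuous.if_le ?_ ?_ hτ hv' ?_
  · exact hw.eval (pr_cont.comp (hv'.sub hτ))
  · refine Continuous.if_le ?_ ?_ hτ (continuous_const.add hv') ?_
    · exact hg.eval (pr_cont.comp (hτ.sub hv'))
    · exact hw.eval (pr_cont.comp (hτ.sub (continuous_const.add hv')))
    · intro x hx
      rw [hx, sub_self, pr_zero, show (1 : ℝ) + (v x : ℝ) - (v x : ℝ) = 1 by ring, pr_one]
      exact (h1 x).symm
  · intro x hx
    rw [hx, sub_self, if_pos (by linarith), pr_zero]
    exact h0 x

theorem tw_left (w g : C(I, Z)) (v : I) : tw w g v 0 = w v := by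
  unfold tw
  have hv : (0 : ℝ) ≤ v := v.2.1
  rw [if_pos (by simpa using hv)]
  simp [pr_coe]

theorem tw_right (w g : C(I, Z)) (v : I) (h1 : w 0 = g 1) : tw w g v 1 = w v := by
  unfold tw
  have hv : (0 : ℝ) ≤ v := v.2.1
  have e : ((1 : I) : ℝ) * (1 + 2 * (v : ℝ)) = 1 + 2 * (v : ℝ) := by simp
  rw [e, if_neg (by linarith)]
  split_ifs with h
  · have hv0 : (v : ℝ) = 0 := by linarith
    have hv1 : v = 0 := Subtype.ext hv0
    rw [show (1 : ℝ) + 2 * (v : ℝ) - v = 1 by rw [hv0]; ring, pr_one, ← h1, hv1]
  · rw [show (1 : ℝ) + 2 * (v : ℝ) - (1 + v) = v by ring, pr_coe]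

theorem tw_zero (w g : C(I, Z)) (t : I) (h0 : w 0 = g 0) : tw w g 0 t = g t := by
  unfold tw
  have ht0 : (0 : ℝ) ≤ t := t.2.1
  have ht1 : (t : ℝ) ≤ 1 := t.2.2
  have e : (t : ℝ) * (1 + 2 * ((0 : I) : ℝ)) = t := by simp
  rw [e]
  split_ifs with h h'
  · have ht : (t : ℝ) = 0 := by
      have : ((0 : I) : ℝ) = 0 := rfl
      linarith
    have ht' : t = 0 := Subtype.ext ht
    rw [ht']
    simp [pr_zero, h0]
  · simp [pr_coe]
  · exfalso
    have : ((0 : I) : ℝ) = 0 := rfl
    linarith

/-- pairs of a path and a tuple of loops at its starting point -/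
abbrev WW (J : ℕ) (Z : Type) [TopologicalSpace Z] : Type :=
  {q : C(I, Z) × ML J Z // q.1 0 = q.2.1.1}

/-- transport of tuples of loops -/
def TT (J : ℕ) (Z : Type) [TopologicalSpace Z] : C(I × WW J Z, ML J Z) where
  toFun x := ⟨(x.2.1.1 x.1, fun j => ⟨fun t => tw x.2.1.1 (x.2.1.2.1.2 j) x.1 t,
      tw_cont _ _ _ _ continuous_const continuous_const continuous_const continuous_id
        (fun _ => x.2.2.trans (x.2.1.2.2 j).1.symm) (fun _ => x.2.2.trans (x.2.1.2.2 j).2.symm)⟩),
    fun j => ⟨tw_left _ _ _, tw_right _ _ _ (x.2.2.trans (x.2.1.2.2 j).2.symm)⟩⟩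
  continuous_toFun := by
    refine Continuous.subtype_mk ?_ _
    have hw : Continuous fun x : I × WW J Z => x.2.1.1 :=
      continuous_fst.comp (continuous_subtype_val.comp continuous_snd)
    have hm : Continuous fun x : I × WW J Z => x.2.1.2 :=
      continuous_snd.comp (continuous_subtype_val.comp continuous_snd)
    have hm' : Continuous fun x : I × WW J Z => x.2.1.2.1 := continuous_subtype_val.comp hm
    refine Continuous.prodMk (hw.eval continuous_fst) ?_
    refine continuous_pi fun j => ?_
    refine ContinuousMap.continuous_of_continuous_uncurry _ ?_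
    have hj : Continuous fun x : I × WW J Z => x.2.1.2.1.2 j :=
      (continuous_apply j).comp (continuous_snd.comp hm')
    exact tw_cont (fun y : (I × WW J Z) × I => y.1.2.1.1) (fun y => y.1.2.1.2.1.2 j)
      (fun y => y.1.1) (fun y => y.2) (hw.comp continuous_fst) (hj.comp continuous_fst)
      (continuous_fst.comp continuous_fst) continuous_snd
      (fun y => y.1.2.2.trans (y.1.2.1.2.2 j).1.symm)
      (fun y => y.1.2.2.trans (y.1.2.1.2.2 j).2.symm)

theorem TT_fst (J : ℕ) (x : I × WW J Z) : (TT J Z x).1.1 = x.2.1.1 x.1 := rfl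

theorem TT_zero (J : ℕ) (q : WW J Z) : TT J Z (0, q) = q.1.2 := by
  apply Subtype.ext
  apply Prod.ext
  · exact q.2
  · funext j
    ext t
    exact tw_zero _ _ _ (q.2.trans (q.1.2.2 j).1.symm)

/-! ### The fibre -/

/-- the tuples of loops at `b` -/
def Fib (J : ℕ) (b : Z) : Type := {x : ML J Z // ML.fst J Z x = b}

instance (J : ℕ) (b : Z) : TopologicalSpace (Fib J b) :=
  inferInstanceAs (TopologicalSpace {x : ML J Z // ML.fst J Z x = b})

theorem cont_val (J : ℕ) (b : Z) : Continuous (fun x : Fib J b => (x.1 : ML J Z)) :=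
  (continuous_subtype_val : Continuous
    (Subtype.val : {x : ML J Z // ML.fst J Z x = b} → ML J Z))

theorem cont_loop (J : ℕ) (j : Fin J) : Continuous (fun x : ML J Z => x.1.2 j) :=
  (continuous_apply j).comp (continuous_snd.comp (continuous_subtype_val : Continuous
    (Subtype.val : {f : Z × (Fin J → C(I, Z)) // ∀ j, f.2 j 0 = f.1 ∧ f.2 j 1 = f.1} → _)))

/-- the components of a point of the fibre -/
def rho (J : ℕ) (b : Z) : C(Fib J b, Fin J → Path b b) where
  toFun x := fun j => ⟨x.1.1.2 j, ((x.1.2 j).1.trans x.2 :), ((x.1.2 j).2.trans x.2 :)⟩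
  continuous_toFun := by
    refine continuous_pi fun j => continuous_induced_rng.2 ?_
    exact (cont_loop J j).comp (cont_val J b)

/-- the point of the fibre with given components -/
def kap (J : ℕ) (b : Z) : C(Fin J → Path b b, ML J Z) where
  toFun l := ⟨(b, fun j => (l j).toContinuousMap), fun j => ⟨(l j).source, (l j).target⟩⟩
  continuous_toFun := by
    refine Continuous.subtype_mk ?_ _
    refine Continuous.prodMk continuous_const (continuous_pi fun j => ?_)
    exact continuous_induced_dom.comp (continuous_apply j)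

/-- inclusion of the fibre -/
def vl (J : ℕ) (b : Z) : C(Fib J b, ML J Z) := ⟨fun x => x.1, cont_val J b⟩

theorem kap_rho (J : ℕ) (b : Z) : (kap J b).comp (rho J b) = vl J b := by
  ext1 x
  exact Subtype.ext (Prod.ext x.2.symm rfl)

theorem pi_comm (hEH : TaskEHgen) {J : ℕ} {b : Z} {l : Fin J → Path b b} (A B : Path l l) :
    (A.trans B).Homotopic (B.trans A) := by
  have h : ∀ j, Nonempty (Path.Homotopy
      ((A.map (continuous_apply j)).trans (B.map (continuous_apply j)))
      ((B.map (continuous_apply j)).trans (A.map (continuous_apply j)))) := fun j =>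
    hEH Z b (l j) (A.map (continuous_apply j)) (B.map (continuous_apply j))
  have h2 : (Path.pi fun j => (A.map (continuous_apply j)).trans
      (B.map (continuous_apply j))).Homotopic (Path.pi fun j =>
        (B.map (continuous_apply j)).trans (A.map (continuous_apply j))) :=
    ⟨Path.Homotopic.piHomotopy _ _ fun j => (h j).some⟩
  rw [← Path.trans_pi_eq_pi_trans, ← Path.trans_pi_eq_pi_trans] at h2
  exact h2

theorem fib_comm (hEH : TaskEHgen) {J : ℕ} {b : Z} {x : Fib J b} (A B : Path x x) :
    ((A.map (vl J b).continuous).trans (B.map (vl J b).continuous)).Homotopic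
      ((B.map (vl J b).continuous).trans (A.map (vl J b).continuous)) := by
  have h := (pi_comm hEH (A.map (rho J b).continuous) (B.map (rho J b).continuous)).map (kap J b)
  rw [Path.map_trans, Path.map_trans] at h
  have key : ∀ F : C(Fib J b, ML J Z), F = vl J b →
      ((A.map F.continuous).trans (B.map F.continuous)).Homotopic
        ((B.map F.continuous).trans (A.map F.continuous)) →
      ((A.map (vl J b).continuous).trans (B.map (vl J b).continuous)).Homotopic
        ((B.map (vl J b).continuous).trans (A.map (vl J b).continuous)) := by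
    intro F hF h
    subst hF
    exact h
  exact key _ (kap_rho J b) h

/-! ### The transport of a loop -/

variable {J : ℕ} {m : ML J Z}

/-- the base point of `WW` -/
def q0 (m : ML J Z) : WW J Z := ⟨(ContinuousMap.const I m.1.1, m), rfl⟩

/-- a loop with a null-homotopy of its base trace, as a loop in `WW` -/
def qp (α : Path m m) (h : Path.Homotopy (α.map (ML.fst J Z).continuous) (Path.refl _)) :
    Path (q0 m) (q0 m) where
  toFun s := ⟨(⟨fun v => h (v, s), by fun_prop⟩, α s), h.apply_zero s⟩
  continuous_toFun := by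
    refine Continuous.subtype_mk (Continuous.prodMk ?_ α.continuous) _
    refine ContinuousMap.continuous_of_continuous_uncurry _ ?_
    exact h.continuous.comp (continuous_snd.prodMk continuous_fst)
  source' := by
    refine Subtype.ext (Prod.ext ?_ α.source)
    ext v
    exact h.source v
  target' := by
    refine Subtype.ext (Prod.ext ?_ α.target)
    ext v
    exact h.target v

/-- the path of the base point -/
def cp (m : ML J Z) : Path m (TT J Z (1, q0 m)) where
  toFun v := TT J Z (v, q0 m)
  continuous_toFun := (TT J Z).continuous.comp (continuous_id.prodMk continuous_const)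
  source' := TT_zero J (q0 m)
  target' := rfl

/-- the transported loop -/
def ap (α : Path m m) (h : Path.Homotopy (α.map (ML.fst J Z).continuous) (Path.refl _)) :
    Path (⟨TT J Z (1, q0 m), rfl⟩ : Fib J m.1.1) ⟨TT J Z (1, q0 m), rfl⟩ where
  toFun s := ⟨TT J Z (1, qp α h s), h.apply_one s⟩
  continuous_toFun := Continuous.subtype_mk
    ((TT J Z).continuous.comp (continuous_const.prodMk (qp α h).continuous)) _
  source' := Subtype.ext (congrArg (fun q => TT J Z (1, q)) (qp α h).source)
  target' := Subtype.ext (congrArg (fun q => TT J Z (1, q)) (qp α h).target)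

/-- the transported loop in `ML` -/
def ap' (α : Path m m) (h : Path.Homotopy (α.map (ML.fst J Z).continuous) (Path.refl _)) :
    Path (TT J Z (1, q0 m)) (TT J Z (1, q0 m)) := (ap α h).map (vl J m.1.1).continuous

theorem transport (α : Path m m)
    (h : Path.Homotopy (α.map (ML.fst J Z).continuous) (Path.refl _)) :
    (α.trans (cp m)).Homotopic ((cp m).trans (ap' α h)) := by
  refine square α (cp m) (cp m) (ap' α h) ((TT J Z).comp
    ⟨fun x : I × I => (x.1, qp α h x.2),
      continuous_fst.prodMk ((qp α h).continuous.comp continuous_snd)⟩) ?_ ?_ ?_ ?_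
  · intro s
    exact TT_zero J (qp α h s)
  · intro v
    show TT J Z (v, qp α h 1) = TT J Z (v, q0 m)
    rw [(qp α h).target]
  · intro v
    show TT J Z (v, qp α h 0) = TT J Z (v, q0 m)
    rw [(qp α h).source]
  · intro s
    rfl

end CommOf

open CommOf Path.Homotopic.Quotient in
theorem taskComm : TaskEHgen → TaskFill → TaskComm := by
  intro hEH _ Z _ J m α β ⟨h⟩ ⟨k⟩
  have e1 := transport α h
  have e2 := transport β k
  have e3 : ((ap' α h).trans (ap' β k)).Homotopic ((ap' β k).trans (ap' α h)) :=
    fib_comm hEH (ap α h) (ap β k)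
  rw [← Path.Homotopic.Quotient.eq] at e1 e2 e3 ⊢
  simp only [mk_trans] at e1 e2 e3 ⊢
  have h1 : ((mk α).trans (mk β)).trans (mk (cp m)) = ((mk β).trans (mk α)).trans (mk (cp m)) := by
    rw [trans_assoc, e2, ← trans_assoc, e1, trans_assoc, e3, ← trans_assoc, ← e2, trans_assoc,
      ← e1, ← trans_assoc]
  have h2 := congrArg (fun x => Path.Homotopic.Quotient.trans x (mk (cp m)).symm) h1
  simp only [trans_assoc, trans_symm, trans_refl] at h2
  exact h2

end

end Pool.Agent.H659R3.CT
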