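import Mathlib
import Pool.Agent.H659R3.CT.TopStmts

set_option autoImplicit false
set_option maxHeartbeats 4000000

/-! Project H659-CT: the final contraction. -/

namespace Pool.Agent.H659R3.CT

open unitInterval Topology

noncomputable section

namespace Con

theorem con_quot {T Z : Type} [TopologicalSpace T] [TopologicalSpace Z] (R : T → T → Prop)
    (g : I × Quot R → Z) (h : Continuous fun p : I × T => g (p.1, Quot.mk R p.2)) :
    Continuous g :=
  (isQuotientMap_quot_mk (r := R)).continuous_lift_prod_right h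

theorem con_sum {A B Z : Type} [TopologicalSpace A] [TopologicalSpace B] [TopologicalSpace Z]
    (g : I × (A ⊕ B) → Z) (h1 : Continuous fun p : I × A => g (p.1, Sum.inl p.2))
    (h2 : Continuous fun p : I × B => g (p.1, Sum.inr p.2)) : Continuous g := by
  have e : IsQuotientMap (Homeomorph.prodSumDistrib (X := I) (Y := A) (Z := B)).symm :=
    (Homeomorph.prodSumDistrib (X := I) (Y := A) (Z := B)).symm.isQuotientMap
  rw [e.continuous_iff]
  refine continuous_sum_dom.2 ⟨?_, ?_⟩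
  · exact h1
  · exact h2

/-- maps out of `I × Cy` -/
theorem con_cy {L Z : Type} [TopologicalSpace L] [TopologicalSpace Z] {J : ℕ}
    (g : I × Cy L J → Z) (h1 : Continuous fun p : I × L => g (p.1, Cy.inc L J p.2))
    (h2 : ∀ j, Continuous fun p : I × L × I => g (p.1, Cy.loop p.2.1 j p.2.2)) :
    Continuous g := by
  refine con_quot (CyRel L J) g (con_sum _ h1 ?_)
  have h3 : Continuous fun q : Fin J × (I × L × I) => g (q.2.1, Cy.loop q.2.2.1 q.1 q.2.2.2) :=
    continuous_prod_of_discrete_left.2 h2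
  have h4 : Continuous fun p : I × (L × (Fin J × I)) => (p.2.2.1, (p.1, p.2.1, p.2.2.2)) := by
    fun_prop
  exact h3.comp h4

/-- maps out of `I × Sq` -/
theorem con_sq {B Z : Type} [TopologicalSpace B] [TopologicalSpace Z] {b : B} {J : ℕ}
    (α β : Fin J → Path b b) (g : I × Sq b α β → Z)
    (h1 : Continuous fun p : I × B => g (p.1, Sq.inc b α β p.2))
    (h2 : ∀ j, Continuous fun p : I × I × I => g (p.1, Sq.hom b α β j (p.2.1, p.2.2))) :
    Continuous g := by
  refine con_quot (SqRel b α β) g (con_sum _ h1 ?_)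
  have h3 : Continuous fun q : Fin J × (I × I × I) =>
      g (q.2.1, Sq.hom b α β q.1 (q.2.2.1, q.2.2.2)) :=
    continuous_prod_of_discrete_left.2 h2
  have h4 : Continuous fun p : I × (Fin J × I × I) => (p.2.1, (p.1, p.2.2.1, p.2.2.2)) := by
    fun_prop
  exact h3.comp h4

/-- first clamp: `s - 2 v` -/
def cA (s v : I) : I := Set.projIcc (0 : ℝ) 1 zero_le_one ((s : ℝ) - 2 * v)

/-- second clamp: `(2 v - s) / (2 - s)` -/
def cC (s v : I) : I := Set.projIcc (0 : ℝ) 1 zero_le_one ((2 * (v : ℝ) - s) / (2 - s))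

theorem cA_cont : Continuous fun p : I × I => cA p.1 p.2 := by
  unfold cA
  exact continuous_projIcc.comp (by fun_prop)

theorem cC_cont : Continuous fun p : I × I => cC p.1 p.2 := by
  unfold cC
  refine continuous_projIcc.comp ?_
  refine Continuous.div (by fun_prop) (by fun_prop) ?_
  intro p
  have := p.1.2.2
  intro h
  linarith

theorem cA_zero (s : I) : cA s 0 = s := by
  unfold cA
  have : (s : ℝ) - 2 * ((0 : I) : ℝ) = s := by simp
  rw [this]
  exact Set.projIcc_val zero_le_one s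

theorem cA_eq {s v : I} (h : 2 * (v : ℝ) = s) : cA s v = 0 := by
  unfold cA
  have : (s : ℝ) - 2 * (v : ℝ) = 0 := by linarith
  rw [this]
  exact Set.projIcc_left zero_le_one

theorem cC_eq {s v : I} (h : 2 * (v : ℝ) = s) : cC s v = 0 := by
  unfold cC
  have : (2 * (v : ℝ) - s) / (2 - s) = 0 := by
    rw [h]; simp
  rw [this]
  exact Set.projIcc_left zero_le_one

theorem cC_zero (v : I) : cC 0 v = v := by
  unfold cC
  have : (2 * (v : ℝ) - ((0 : I) : ℝ)) / (2 - ((0 : I) : ℝ)) = v := by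
    simp
  rw [this]
  exact Set.projIcc_val zero_le_one v

theorem cC_one (s : I) : cC s 1 = 1 := by
  unfold cC
  have h2 : (2 : ℝ) - s ≠ 0 := by
    have := s.2.2
    intro h
    linarith
  have : (2 * ((1 : I) : ℝ) - s) / (2 - s) = 1 := by
    have h3 : 2 * ((1 : I) : ℝ) - s = 2 - s := by simp
    rw [h3]
    exact div_self h2
  rw [this]
  exact Set.projIcc_right zero_le_one

section

variable {L : Type} [TopologicalSpace L] {J : ℕ} {o : L} (w : Fin J → Path o o)

/-- the space -/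
abbrev Y : Type := Sq (Cy.inc L J o) (fun j => (w j).map (Cy.inc L J).continuous)
  (fun j => Cy.loop o j)

/-- inclusion of the product -/
abbrev iY : C(Cy L J, Y w) := Sq.inc _ _ _

variable (G1 : I × L → Y w) (G2 : Fin J → I × L × I → Y w)
  (e0 : ∀ s x j, G2 j (s, x, 0) = G1 (s, x)) (e1 : ∀ s x j, G2 j (s, x, 1) = G1 (s, x))

/-- homotopy on the product -/
def PP (s : I) : Cy L J → Y w :=
  Quot.lift (Sum.elim (fun x => G1 (s, x)) (fun q => G2 q.2.1 (s, q.1, q.2.2))) (by
    intro a b hab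
    induction hab with
    | zero x j => exact e0 s x j
    | one x j => exact e1 s x j)

theorem PP_inc (s : I) (x : L) : PP w G1 G2 e0 e1 s (Cy.inc L J x) = G1 (s, x) := rfl

theorem PP_loop (s : I) (x : L) (j : Fin J) (t : I) :
    PP w G1 G2 e0 e1 s (Cy.loop x j t) = G2 j (s, x, t) := rfl

theorem PP_cont (c1 : Continuous G1) (c2 : ∀ j, Continuous (G2 j)) :
    Continuous fun p : I × Cy L J => PP w G1 G2 e0 e1 p.1 p.2 := by
  refine con_cy _ ?_ ?_
  · exact c1
  · intro j
    exact c2 j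

/-- homotopy on the squares -/
def KK (s : I) (j : Fin J) (v u : I) : Y w :=
  if 2 * (v : ℝ) ≤ s then PP w G1 G2 e0 e1 (cA s v) (Cy.inc L J (w j u))
  else Sq.hom (Cy.inc L J o) (fun j => (w j).map (Cy.inc L J).continuous)
    (fun j => Cy.loop o j) j (cC s v, u)

theorem KK_cont (c1 : Continuous G1)
    (h0 : ∀ x, G1 (0, x) = iY w (Cy.inc L J x)) (j : Fin J) :
    Continuous fun p : I × I × I => KK w G1 G2 e0 e1 p.1 j p.2.1 p.2.2 := by
  unfold KK
  refine Continuous.if_le ?_ ?_ (by fun_prop) (by fun_prop) ?_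
  · change Continuous fun p : I × I × I => G1 (cA p.1 p.2.1, w j p.2.2)
    refine c1.comp ?_
    refine Continuous.prodMk ?_ (by fun_prop)
    exact cA_cont.comp (by fun_prop : Continuous fun p : I × I × I => (p.1, p.2.1))
  · refine (Sq.hom (Cy.inc L J o) (fun j => (w j).map (Cy.inc L J).continuous)
      (fun j => Cy.loop o j) j).continuous.comp ?_
    refine Continuous.prodMk ?_ (by fun_prop)
    exact cC_cont.comp (by fun_prop : Continuous fun p : I × I × I => (p.1, p.2.1))
  · intro p hp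
    rw [cA_eq hp, cC_eq hp, PP_inc, h0]
    exact ((Sq.hom (Cy.inc L J o) (fun j => (w j).map (Cy.inc L J).continuous)
      (fun j => Cy.loop o j) j).apply_zero p.2.2).symm

theorem KK_bot (s : I) (j : Fin J) (u : I) :
    KK w G1 G2 e0 e1 s j 0 u = PP w G1 G2 e0 e1 s (Cy.inc L J (w j u)) := by
  unfold KK
  rw [if_pos, cA_zero]
  have := s.2.1
  simpa using this

theorem KK_top (s : I) (j : Fin J) (u : I) :
    KK w G1 G2 e0 e1 s j 1 u = iY w (Cy.loop o j u) := by
  unfold KK
  rw [if_neg, cC_one]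
  · exact (Sq.hom (Cy.inc L J o) (fun j => (w j).map (Cy.inc L J).continuous)
      (fun j => Cy.loop o j) j).apply_one u
  · have := s.2.2
    intro h
    have h1 : ((1 : I) : ℝ) = 1 := rfl
    rw [h1] at h
    linarith

theorem KK_side (hb : ∀ s, G1 (s, o) = iY w (Cy.inc L J o)) (s : I) (j : Fin J) (v u : I)
    (hu : u = 0 ∨ u = 1) : KK w G1 G2 e0 e1 s j v u = iY w (Cy.inc L J o) := by
  unfold KK
  split_ifs
  · rw [PP_inc]
    have : w j u = o := by
      rcases hu with rfl | rfl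
      · exact (w j).source
      · exact (w j).target
    rw [this]
    exact hb _
  · rcases hu with rfl | rfl
    · exact (Sq.hom (Cy.inc L J o) (fun j => (w j).map (Cy.inc L J).continuous)
        (fun j => Cy.loop o j) j).source _
    · exact (Sq.hom (Cy.inc L J o) (fun j => (w j).map (Cy.inc L J).continuous)
        (fun j => Cy.loop o j) j).target _

theorem KK_id (h0 : ∀ x, G1 (0, x) = iY w (Cy.inc L J x)) (j : Fin J) (v u : I) :
    KK w G1 G2 e0 e1 0 j v u = Sq.hom (Cy.inc L J o)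
      (fun j => (w j).map (Cy.inc L J).continuous) (fun j => Cy.loop o j) j (v, u) := by
  unfold KK
  split_ifs with h
  · have hv : v = 0 := by
      apply Subtype.ext
      have := v.2.1
      have h1 : ((0 : I) : ℝ) = 0 := rfl
      rw [h1] at h ⊢
      linarith
    subst hv
    rw [cA_zero, PP_inc, h0]
    exact ((Sq.hom (Cy.inc L J o) (fun j => (w j).map (Cy.inc L J).continuous)
      (fun j => Cy.loop o j) j).apply_zero u).symm
  · rw [cC_zero]

/-- first homotopy -/
def H1 (hb : ∀ s, G1 (s, o) = iY w (Cy.inc L J o))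
    (hl : ∀ s j t, G2 j (s, o, t) = iY w (Cy.loop o j t)) (s : I) : Y w → Y w :=
  Quot.lift (Sum.elim (PP w G1 G2 e0 e1 s) (fun q => KK w G1 G2 e0 e1 s q.1 q.2.1 q.2.2)) (by
    intro a b hab
    induction hab with
    | bot j u => exact KK_bot w G1 G2 e0 e1 s j u
    | top j u => exact (KK_top w G1 G2 e0 e1 s j u).trans (hl s j u).symm
    | left j v => exact (KK_side w G1 G2 e0 e1 hb s j v 0 (Or.inl rfl)).trans (hb s).symm
    | right j v => exact (KK_side w G1 G2 e0 e1 hb s j v 1 (Or.inr rfl)).trans (hb s).symm)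

theorem H1_cont (hb : ∀ s, G1 (s, o) = iY w (Cy.inc L J o))
    (hl : ∀ s j t, G2 j (s, o, t) = iY w (Cy.loop o j t))
    (c1 : Continuous G1) (c2 : ∀ j, Continuous (G2 j))
    (h0 : ∀ x, G1 (0, x) = iY w (Cy.inc L J x)) :
    Continuous fun p : I × Y w => H1 w G1 G2 e0 e1 hb hl p.1 p.2 := by
  refine con_sq _ _ _ ?_ ?_
  · exact PP_cont w G1 G2 e0 e1 c1 c2
  · intro j
    exact KK_cont w G1 G2 e0 e1 c1 h0 j

/-- second homotopy on the product -/
def QQ (hb : ∀ s, G1 (s, o) = iY w (Cy.inc L J o)) (s : I) : Cy L J → Y w :=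
  Quot.lift (Sum.elim (fun _ => iY w (Cy.inc L J o))
    (fun q => KK w G1 G2 e0 e1 1 q.2.1 (σ s) q.2.2)) (by
    intro a b hab
    induction hab with
    | zero x j => exact KK_side w G1 G2 e0 e1 hb 1 j _ 0 (Or.inl rfl)
    | one x j => exact KK_side w G1 G2 e0 e1 hb 1 j _ 1 (Or.inr rfl))

theorem QQ_cont (hb : ∀ s, G1 (s, o) = iY w (Cy.inc L J o)) (c1 : Continuous G1)
    (h0 : ∀ x, G1 (0, x) = iY w (Cy.inc L J x)) :
    Continuous fun p : I × Cy L J => QQ w G1 G2 e0 e1 hb p.1 p.2 := by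
  refine con_cy _ ?_ ?_
  · exact continuous_const
  · intro j
    have h1 := KK_cont w G1 G2 e0 e1 c1 h0 j
    have h2 : Continuous fun p : I × L × I => ((1 : I), (σ p.1, p.2.2)) := by fun_prop
    exact h1.comp h2

/-- second homotopy -/
def H2 (hb : ∀ s, G1 (s, o) = iY w (Cy.inc L J o))
    (h1 : ∀ x, G1 (1, x) = iY w (Cy.inc L J o)) (s : I) : Y w → Y w :=
  Quot.lift (Sum.elim (QQ w G1 G2 e0 e1 hb s)
    (fun q => KK w G1 G2 e0 e1 1 q.1 (min q.2.1 (σ s)) q.2.2)) (by
    intro a b hab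
    induction hab with
    | bot j u =>
      change KK w G1 G2 e0 e1 1 j (min 0 (σ s)) u = iY w (Cy.inc L J o)
      rw [min_eq_left (show (0 : I) ≤ σ s from (σ s).2.1), KK_bot]
      exact h1 _
    | top j u =>
      change KK w G1 G2 e0 e1 1 j (min 1 (σ s)) u = KK w G1 G2 e0 e1 1 j (σ s) u
      rw [min_eq_right (show σ s ≤ (1 : I) from (σ s).2.2)]
    | left j v => exact KK_side w G1 G2 e0 e1 hb 1 j _ 0 (Or.inl rfl)
    | right j v => exact KK_side w G1 G2 e0 e1 hb 1 j _ 1 (Or.inr rfl))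

theorem H2_cont (hb : ∀ s, G1 (s, o) = iY w (Cy.inc L J o))
    (h1 : ∀ x, G1 (1, x) = iY w (Cy.inc L J o)) (c1 : Continuous G1)
    (h0 : ∀ x, G1 (0, x) = iY w (Cy.inc L J x)) :
    Continuous fun p : I × Y w => H2 w G1 G2 e0 e1 hb h1 p.1 p.2 := by
  refine con_sq _ _ _ ?_ ?_
  · exact QQ_cont w G1 G2 e0 e1 hb c1 h0
  · intro j
    have h2 := KK_cont w G1 G2 e0 e1 c1 h0 j
    have h3 : Continuous fun p : I × I × I => ((1 : I), (min p.2.1 (σ p.1), p.2.2)) := by
      fun_prop
    exact h2.comp h3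

theorem H1_zero (hb : ∀ s, G1 (s, o) = iY w (Cy.inc L J o))
    (hl : ∀ s j t, G2 j (s, o, t) = iY w (Cy.loop o j t))
    (h0 : ∀ x, G1 (0, x) = iY w (Cy.inc L J x))
    (h0' : ∀ j x t, G2 j (0, x, t) = iY w (Cy.loop x j t)) (y : Y w) :
    H1 w G1 G2 e0 e1 hb hl 0 y = y := by
  induction y using Quot.ind with
  | mk a =>
    rcases a with q | ⟨j, v, u⟩
    · induction q using Quot.ind with
      | mk c =>
        rcases c with x | ⟨x, j, t⟩
        · exact h0 x
        · exact h0' j x t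
    · exact KK_id w G1 G2 e0 e1 h0 j v u

theorem H12 (hb : ∀ s, G1 (s, o) = iY w (Cy.inc L J o))
    (hl : ∀ s j t, G2 j (s, o, t) = iY w (Cy.loop o j t))
    (h1 : ∀ x, G1 (1, x) = iY w (Cy.inc L J o))
    (h1' : ∀ j x t, G2 j (1, x, t) = iY w (Cy.loop o j t)) (y : Y w) :
    H2 w G1 G2 e0 e1 hb h1 0 y = H1 w G1 G2 e0 e1 hb hl 1 y := by
  induction y using Quot.ind with
  | mk a =>
    rcases a with q | ⟨j, v, u⟩
    · induction q using Quot.ind with
      | mk c =>
        rcases c with x | ⟨x, j, t⟩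
        · exact (h1 x).symm
        · change KK w G1 G2 e0 e1 1 j (σ 0) t = G2 j (1, x, t)
          rw [unitInterval.symm_zero, KK_top, h1']
    · change KK w G1 G2 e0 e1 1 j (min v (σ 0)) u = KK w G1 G2 e0 e1 1 j v u
      rw [unitInterval.symm_zero, min_eq_left (show v ≤ (1 : I) from v.2.2)]

theorem H2_one (hb : ∀ s, G1 (s, o) = iY w (Cy.inc L J o))
    (h1 : ∀ x, G1 (1, x) = iY w (Cy.inc L J o)) (y : Y w) :
    H2 w G1 G2 e0 e1 hb h1 1 y = iY w (Cy.inc L J o) := by
  induction y using Quot.ind with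
  | mk a =>
    rcases a with q | ⟨j, v, u⟩
    · induction q using Quot.ind with
      | mk c =>
        rcases c with x | ⟨x, j, t⟩
        · rfl
        · change KK w G1 G2 e0 e1 1 j (σ 1) t = iY w (Cy.inc L J o)
          rw [unitInterval.symm_one, KK_bot, PP_inc, h1]
    · change KK w G1 G2 e0 e1 1 j (min v (σ 1)) u = iY w (Cy.inc L J o)
      rw [unitInterval.symm_one, min_eq_right (show (0 : I) ≤ v from v.2.1), KK_bot, PP_inc, h1]

/-- general contraction -/
theorem con_gen (hb : ∀ s, G1 (s, o) = iY w (Cy.inc L J o))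
    (hl : ∀ s j t, G2 j (s, o, t) = iY w (Cy.loop o j t))
    (c1 : Continuous G1) (c2 : ∀ j, Continuous (G2 j))
    (e0 : ∀ s x j, G2 j (s, x, 0) = G1 (s, x)) (e1 : ∀ s x j, G2 j (s, x, 1) = G1 (s, x))
    (h0 : ∀ x, G1 (0, x) = iY w (Cy.inc L J x))
    (h0' : ∀ j x t, G2 j (0, x, t) = iY w (Cy.loop x j t))
    (h1 : ∀ x, G1 (1, x) = iY w (Cy.inc L J o))
    (h1' : ∀ j x t, G2 j (1, x, t) = iY w (Cy.loop o j t)) : ContractibleSpace (Y w) := by
  rw [contractible_iff_id_nullhomotopic]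
  refine ⟨iY w (Cy.inc L J o), ?_⟩
  have k1 := H1_cont w G1 G2 e0 e1 hb hl c1 c2 h0
  have k2 := H2_cont w G1 G2 e0 e1 hb h1 c1 h0
  have m1 : Continuous fun y : Y w => H1 w G1 G2 e0 e1 hb hl 1 y :=
    k1.comp (by fun_prop : Continuous fun y : Y w => ((1 : I), y))
  refine ContinuousMap.Homotopic.trans (g := ⟨_, m1⟩) ?_ ?_
  · exact ⟨⟨⟨_, k1⟩, fun y => H1_zero w G1 G2 e0 e1 hb hl h0 h0' y, fun y => rfl⟩⟩
  · exact ⟨⟨⟨_, k2⟩, fun y => H12 w G1 G2 e0 e1 hb hl h1 h1' y,
      fun y => H2_one w G1 G2 e0 e1 hb h1 y⟩⟩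

end

theorem ML_cont (J : ℕ) (Z : Type) [TopologicalSpace Z] : Continuous fun f : ML J Z => f.1 :=
  continuous_subtype_val

end Con

/-- the final contraction -/
theorem taskCon : TaskCon := by
  rintro n p r ⟨F, hF0, hF1, hFo⟩
  refine Con.con_gen (fun j => wloop (LL.loop p) (r.get j))
    (fun q => (F q).1.1) (fun j q => (F (q.1, q.2.1)).1.2 j q.2.2) ?_ ?_ ?_ ?_ ?_ ?_ ?_ ?_ ?_ ?_
  · intro s
    change (F (s, LL.pt n p)).1.1 = _
    rw [hFo]
    rfl
  · intro s j t
    change (F (s, LL.pt n p)).1.2 j t = _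
    rw [hFo]
    rfl
  · exact continuous_fst.comp ((Con.ML_cont _ _).comp F.continuous)
  · intro j
    have h1 : Continuous fun q : I × LL n p × I => (F (q.1, q.2.1)).1.2 j := by
      refine (continuous_apply j).comp ?_
      refine continuous_snd.comp ?_
      refine (Con.ML_cont _ _).comp ?_
      exact F.continuous.comp
        (by fun_prop : Continuous fun q : I × LL n p × I => (q.1, q.2.1))
    exact h1.eval (by fun_prop)
  · intro s x j
    exact ((F (s, x)).2 j).1
  · intro s x j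
    exact ((F (s, x)).2 j).2
  · intro x
    change (F (0, x)).1.1 = _
    rw [hF0]
    rfl
  · intro j x t
    change (F (0, x)).1.2 j t = _
    rw [hF0]
    rfl
  · intro x
    change (F (1, x)).1.1 = _
    rw [hF1]
    rfl
  · intro j x t
    change (F (1, x)).1.2 j t = _
    rw [hF1]
    rfl

end

end Pool.Agent.H659R3.CT
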