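import Mathlib
import Pool.Agent.H659R3.CT.TopStmts

set_option autoImplicit false
set_option maxHeartbeats 4000000

/-! Project H659-CT: contractibility of the complex from the single steps. -/

namespace Pool.Agent.H659R3.CT

open unitInterval Topology

/-- the 2-cells give homotopies between the relation loops, in every image of `L` -/
theorem contr_sq {n : ℕ} (p : Fin n → Fin n) {M : Type} [TopologicalSpace M]
    (f : C(LL n p, M)) (x : Fin n) :
    (((LL.loop p x).map f.continuous).trans ((LL.loop p (p x)).map f.continuous)).Homotopic
      (((LL.loop p (p x)).map f.continuous).trans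
        (((LL.loop p x).map f.continuous).trans ((LL.loop p x).map f.continuous))) := by
  have h : ((relA n p x).map (Sq.inc (Bq.pt n) (relA n p) (relB n p)).continuous).Homotopic
      ((relB n p x).map (Sq.inc (Bq.pt n) (relA n p) (relB n p)).continuous) :=
    ⟨Sq.hom _ _ _ x⟩
  have h2 := h.map f
  have eA : ((relA n p x).map (Sq.inc (Bq.pt n) (relA n p) (relB n p)).continuous).map
      f.continuous = ((LL.loop p x).map f.continuous).trans
        ((LL.loop p (p x)).map f.continuous) := by
    rw [relA, Path.map_trans, Path.map_trans]
    rfl
  have eB : ((relB n p x).map (Sq.inc (Bq.pt n) (relA n p) (relB n p)).continuous).map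
      f.continuous = ((LL.loop p (p x)).map f.continuous).trans
        (((LL.loop p x).map f.continuous).trans ((LL.loop p x).map f.continuous)) := by
    rw [relB, Path.map_trans, Path.map_trans, Path.map_trans, Path.map_trans]
    rfl
  rw [eA, eB] at h2
  exact h2

/-- cancellation -/
theorem contr_cancel {M : Type} [TopologicalSpace M] {m : M} {α β : Path m m}
    (h1 : (α.trans β).Homotopic (β.trans (α.trans α)))
    (h2 : (α.trans β).Homotopic (β.trans α)) : α.Homotopic (Path.refl m) := by
  have h3 : (β.trans α).Homotopic (β.trans (α.trans α)) := h2.symm.trans h1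
  rw [← Path.Homotopic.Quotient.eq] at h3 ⊢
  simp only [Path.Homotopic.Quotient.mk_trans, Path.Homotopic.Quotient.mk_refl] at h3 ⊢
  generalize Path.Homotopic.Quotient.mk α = a at h3 ⊢
  generalize Path.Homotopic.Quotient.mk β = b at h3 ⊢
  have h4 : a = a.trans a := by
    have := congrArg (fun q => b.symm.trans q) h3
    simpa only [← Path.Homotopic.Quotient.trans_assoc, Path.Homotopic.Quotient.symm_trans,
      Path.Homotopic.Quotient.refl_trans] using this
  have h5 := congrArg (fun q => a.symm.trans q) h4
  simp only [← Path.Homotopic.Quotient.trans_assoc, Path.Homotopic.Quotient.symm_trans,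
      Path.Homotopic.Quotient.refl_trans] at h5
  exact h5.symm

theorem taskContr : TaskNull → TaskComm → TaskEP → TaskCon → TaskContr := by
  intro hN hC hE hK k S w hs
  refine hK (NX k) (parF k) (rs k S w) ?_
  refine hE (NX k) (parF k) (ML (rs k S w).length (XX (NX k) (parF k) (rs k S w)))
    (XX.can (NX k) (parF k) (rs k S w)) ?_
  have hnull : ∀ x, (((LL.loop (parF k) x).map
      (XX.can (NX k) (parF k) (rs k S w)).continuous).map (ML.fst (rs k S w).length
        (XX (NX k) (parF k) (rs k S w))).continuous).Homotopic (Path.refl _) := by
    intro x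
    exact hN k S w hs x
  intro x
  exact contr_cancel (contr_sq (parF k) (XX.can (NX k) (parF k) (rs k S w)) x)
    (hC _ _ _ _ _ (hnull x) (hnull (parF k x)))

end Pool.Agent.H659R3.CT
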