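import Mathlib
import Pool.Agent.H659R3.CT.SimpStmts

set_option autoImplicit false
set_option maxHeartbeats 4000000

/-! Project H659-CT, simplicial part: `S5`, products with the bouquet. -/

namespace Pool.Agent.H659R3.CT

open unitInterval Topology

noncomputable section

namespace CyDom509

/-- the map on the disjoint union -/
def pre {A B : Type} (f : A → B) (J : ℕ) : (A ⊕ (A × (Fin J × I))) → Cy B J :=
  Sum.elim (fun x => Quot.mk _ (Sum.inl (f x))) (fun q => Quot.mk _ (Sum.inr (f q.1, q.2)))

theorem pre_rel {A B : Type} (f : A → B) (J : ℕ) (x y : A ⊕ (A × (Fin J × I)))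
    (h : CyRel A J x y) : pre f J x = pre f J y := by
  induction h with
  | zero x j => exact Quot.sound (CyRel.zero (f x) j)
  | one x j => exact Quot.sound (CyRel.one (f x) j)

/-- the induced map as a function -/
def fn {A B : Type} (f : A → B) (J : ℕ) : Cy A J → Cy B J :=
  Quot.lift (pre f J) (pre_rel f J)

theorem continuous_fn {A B Y : Type} [TopologicalSpace A] [TopologicalSpace B]
    [TopologicalSpace Y] [LocallyCompactSpace Y] (F : C(Y × A, B)) (J : ℕ) :
    Continuous fun p : Y × Cy A J => fn (fun x => F (p.1, x)) J p.2 := by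
  have hq : IsQuotientMap (Quot.mk (CyRel A J)) := isQuotientMap_quot_mk
  refine hq.continuous_lift_prod_right ?_
  rw [← (Homeomorph.prodSumDistrib (X := Y) (Y := A) (Z := A × (Fin J × I))).symm.comp_continuous_iff']
  rw [continuous_sum_dom]
  constructor
  · exact continuous_quot_mk.comp (continuous_inl.comp F.continuous)
  · change Continuous fun p : Y × (A × (Fin J × I)) =>
      (Quot.mk _ (Sum.inr (F (p.1, p.2.1), p.2.2)) : Cy B J)
    refine continuous_quot_mk.comp ?_
    fun_prop

/-- the induced map -/
def mp {A B : Type} [TopologicalSpace A] [TopologicalSpace B] (f : C(A, B)) (J : ℕ) :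
    C(Cy A J, Cy B J) where
  toFun := fn f J
  continuous_toFun := by
    refine continuous_quot_lift _ (Continuous.sumElim ?_ ?_)
    · refine continuous_quot_mk.comp ?_
      fun_prop
    · refine continuous_quot_mk.comp ?_
      fun_prop

end CyDom509

open CyDom509 in
theorem taskCyDom : TaskCyDom := by
  intro A B _ _ a b J κ δ δ' h
  obtain ⟨i, r, hi, hr, H, h0, h1, hs, hj⟩ := h
  subst hi
  refine ⟨mp i J, mp r J, rfl, ?_, ⟨fun p => fn (fun x => H (p.1, x)) J p.2,
    continuous_fn H J⟩, ?_, ?_, ?_, ?_⟩
  · change (Quot.mk _ (Sum.inl (r (i a))) : Cy A J) = Quot.mk _ (Sum.inl a)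
    rw [hr]
  · intro x
    induction x using Quot.ind with
    | mk x =>
      rcases x with x | ⟨x, q⟩
      · change (Quot.mk _ (Sum.inl (H (0, x))) : Cy A J) = Quot.mk _ (Sum.inl (r (i x)))
        rw [h0]
      · change (Quot.mk _ (Sum.inr (H (0, x), q)) : Cy A J) = Quot.mk _ (Sum.inr (r (i x), q))
        rw [h0]
  · intro x
    induction x using Quot.ind with
    | mk x =>
      rcases x with x | ⟨x, q⟩
      · change (Quot.mk _ (Sum.inl (H (1, x))) : Cy A J) = Quot.mk _ (Sum.inl x)
        rw [h1]
      · change (Quot.mk _ (Sum.inr (H (1, x), q)) : Cy A J) = Quot.mk _ (Sum.inr (x, q))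
        rw [h1]
  · intro s
    change (Quot.mk _ (Sum.inl (H (s, a))) : Cy A J) = Quot.mk _ (Sum.inl a)
    rw [hs]
  · intro k
    rcases k with k | j
    · exact (hj k).map (Cy.inc B J)
    · exact Path.Homotopic.refl _

end

end Pool.Agent.H659R3.CT
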