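import Pool.Agent.H659R3.CT.SimpStmts

set_option autoImplicit false

/-! Project H659-CT: the dimension of the simplicial complexes. -/

namespace Pool.Agent.H659R3.CT

theorem dsc_length {m j : ℕ} {e s : List ℕ} (h : s ∈ dsc m j e) : s.length = 3 := by
  unfold dsc at h
  rw [List.mem_flatMap] at h
  obtain ⟨i, _, h⟩ := h
  simp only [List.mem_cons, List.not_mem_nil, or_false] at h
  rcases h with rfl | rfl | rfl <;> rfl

theorem att_length {m : ℕ} {K E : List (List ℕ)} {b : ℕ} (hb : 3 ≤ b)
    (hK : ∀ s ∈ K, s.length ≤ b) : ∀ s ∈ att m K E, s.length ≤ b := by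
  intro s hs
  unfold att at hs
  rw [List.mem_append] at hs
  rcases hs with hs | hs
  · exact hK s hs
  · rw [List.mem_flatMap] at hs
    obtain ⟨p, _, hp⟩ := hs
    rw [dsc_length hp]
    exact hb

theorem gph_length {n : ℕ} : ∀ s ∈ gph n, s.length ≤ 3 := by
  intro s hs
  unfold gph at hs
  rw [List.mem_flatMap] at hs
  obtain ⟨i, _, h⟩ := hs
  simp only [List.mem_cons, List.not_mem_nil, or_false] at h
  rcases h with rfl | rfl | rfl <;> simp

theorem srt_length {K : List (List ℕ)} {b : ℕ} (hK : ∀ s ∈ K, s.length ≤ b) :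
    ∀ s ∈ srt K, s.length ≤ b := by
  intro s hs
  unfold srt at hs
  rw [List.mem_map] at hs
  obtain ⟨t, ht, rfl⟩ := hs
  rw [List.length_insertionSort]
  exact hK t ht

theorem kL_length (k : ℕ) : ∀ s ∈ kL k, s.length ≤ 3 := by
  unfold kL
  exact srt_length (att_length le_rfl gph_length)

theorem prism_length {s t : List ℕ} {c c' : ℕ} (h : t ∈ prism s c c') :
    t.length = s.length + 1 := by
  unfold prism at h
  rw [List.mem_map] at h
  obtain ⟨i, hi, rfl⟩ := h
  rw [List.mem_range] at hi
  rw [List.length_append, List.length_map, List.length_map, List.length_take, List.length_drop]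
  omega

theorem prod3_length {K : List (List ℕ)} {J : ℕ} (hK : ∀ s ∈ K, s.length ≤ 3) :
    ∀ s ∈ prod3 K J, s.length ≤ 4 := by
  intro s hs
  unfold prod3 at hs
  rw [List.mem_append] at hs
  rcases hs with hs | hs
  · rw [List.mem_map] at hs
    obtain ⟨t, ht, rfl⟩ := hs
    rw [List.length_map]
    exact (hK t ht).trans (by norm_num)
  · rw [List.mem_flatMap] at hs
    obtain ⟨j, _, hs⟩ := hs
    rw [List.mem_flatMap] at hs
    obtain ⟨t, ht, hs⟩ := hs
    have h3 := hK t ht
    rw [List.mem_append, List.mem_append] at hs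
    rcases hs with hs | hs | hs
    · rw [prism_length hs]
      omega
    · rw [prism_length hs]
      omega
    · rw [prism_length hs]
      omega

/-- `S11` -/
theorem taskDim : TaskDim := by
  intro k S w
  unfold kX
  exact att_length (by norm_num) (prod3_length (kL_length k))

end Pool.Agent.H659R3.CT
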