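import Mathlib
import Pool.Agent.H659R3.CT.SimpStmts

set_option autoImplicit false
set_option maxHeartbeats 4000000

/-! Project H659-CT, `S1` (helper858): the mapping cone is homeomorphic to the complex with
discs attached. -/

namespace Pool.Agent.H659R3.CT

open unitInterval Topology

noncomputable section

namespace DiscA

theorem continuous_mk {X : Type} [TopologicalSpace X] {K : List (List ℕ)} (f : X → Rz K)
    (h : ∀ v, Continuous fun x => (f x).1 v) : Continuous f := by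
  apply continuous_induced_rng.2
  exact continuous_pi h

theorem continuous_val (K : List (List ℕ)) (v : ℕ) : Continuous fun x : Rz K => x.1 v := by
  have h : Continuous fun x : Rz K => x.1 := continuous_induced_dom
  exact (continuous_apply v).comp h

instance (K : List (List ℕ)) : T2Space (Rz K) :=
  inferInstanceAs (T2Space {x : ℕ → ℝ // (∀ i, 0 ≤ x i) ∧
    ∃ s ∈ K, (∀ i, i ∉ s → x i = 0) ∧ ∑ i ∈ s.toFinset, x i = 1})

theorem compact_one (s : List ℕ) : IsCompact {x : ℕ → ℝ | (∀ i, 0 ≤ x i) ∧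
    (∀ i, i ∉ s → x i = 0) ∧ ∑ i ∈ s.toFinset, x i = 1} := by
  have h1 : IsCompact (Set.pi Set.univ fun _ : ℕ => Set.Icc (0 : ℝ) 1) :=
    isCompact_univ_pi fun _ => isCompact_Icc
  refine h1.of_isClosed_subset ?_ ?_
  · refine IsClosed.inter ?_ (IsClosed.inter ?_ ?_)
    · show IsClosed {x : ℕ → ℝ | ∀ i, 0 ≤ x i}
      rw [show {x : ℕ → ℝ | ∀ i, 0 ≤ x i} = ⋂ i, {x : ℕ → ℝ | 0 ≤ x i} by ext x; simp]
      exact isClosed_iInter fun i => isClosed_le continuous_const (continuous_apply i)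
    · have : {x : ℕ → ℝ | ∀ i, i ∉ s → x i = 0} =
          ⋂ i, ⋂ _ : i ∉ s, {x : ℕ → ℝ | x i = 0} := by ext x; simp
      show IsClosed {x : ℕ → ℝ | ∀ i, i ∉ s → x i = 0}
      rw [this]
      exact isClosed_iInter fun i => isClosed_iInter fun _ =>
        isClosed_eq (continuous_apply i) continuous_const
    · show IsClosed {x : ℕ → ℝ | ∑ i ∈ s.toFinset, x i = 1}
      exact isClosed_eq (continuous_finsetSum _ fun i _ => continuous_apply i) continuous_const
  · rintro x ⟨h0, h2, h3⟩ i _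
    refine ⟨h0 i, ?_⟩
    by_cases hi : i ∈ s
    · rw [← h3]
      exact Finset.single_le_sum (f := fun i => x i) (fun k _ => h0 k) (List.mem_toFinset.2 hi)
    · rw [h2 i hi]
      norm_num

instance (K : List (List ℕ)) : CompactSpace (Rz K) := by
  have h : IsCompact {x : ℕ → ℝ | (∀ i, 0 ≤ x i) ∧
      ∃ s ∈ K, (∀ i, i ∉ s → x i = 0) ∧ ∑ i ∈ s.toFinset, x i = 1} := by
    have h1 : {x : ℕ → ℝ | (∀ i, 0 ≤ x i) ∧
        ∃ s ∈ K, (∀ i, i ∉ s → x i = 0) ∧ ∑ i ∈ s.toFinset, x i = 1} =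
        ⋃ s ∈ K.toFinset, {x : ℕ → ℝ | (∀ i, 0 ≤ x i) ∧
          (∀ i, i ∉ s → x i = 0) ∧ ∑ i ∈ s.toFinset, x i = 1} := by
      ext x
      simp only [Set.mem_ofPred_eq, List.mem_toFinset, Set.mem_iUnion, exists_prop]
      constructor
      · rintro ⟨h0, s, hs, h1, h2⟩
        exact ⟨s, hs, h0, h1, h2⟩
      · rintro ⟨s, hs, h0, h1, h2⟩
        exact ⟨h0, s, hs, h1, h2⟩
    rw [h1]
    exact K.toFinset.isCompact_biUnion fun s _ => compact_one s
  exact isCompact_iff_compactSpace.1 h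

/-- indicator -/
def dl (a v : ℕ) : ℝ := if a = v then 1 else 0

theorem dl_self (a : ℕ) : dl a a = 1 := if_pos rfl

theorem dl_ne {a b : ℕ} (h : a ≠ b) : dl a b = 0 := if_neg h

/-- hat functions -/
def W (N k : ℕ) (s : ℝ) : ℝ := max 0 (1 - |N * s - k|)

theorem hat_eq {i k : ℕ} {u : ℝ} (hu0 : 0 ≤ u) (hu1 : u ≤ 1) :
    max 0 (1 - |((i : ℝ) + u) - k|) = if k = i then 1 - u else if k = i + 1 then u else 0 := by
  split_ifs with h1 h2
  · rw [h1, add_sub_cancel_left, abs_of_nonneg hu0, max_eq_right (by linarith)]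
  · rw [h2]
    push_cast
    rw [show (i : ℝ) + u - (i + 1) = -(1 - u) by ring, abs_neg, abs_of_nonneg (by linarith),
      max_eq_right (by linarith)]
    ring
  · apply max_eq_left
    rcases Nat.lt_or_ge k i with h | h
    · have h3 : (k : ℝ) + 1 ≤ i := by exact_mod_cast h
      have := le_abs_self ((i : ℝ) + u - k)
      linarith
    · have h4 : i + 2 ≤ k := by omega
      have h3 : (i : ℝ) + 2 ≤ k := by exact_mod_cast h4
      have := neg_le_abs ((i : ℝ) + u - k)
      linarith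

theorem W_eq {N i k : ℕ} {u s : ℝ} (hu0 : 0 ≤ u) (hu1 : u ≤ 1) (hs : N * s = i + u) :
    W N k s = if k = i then 1 - u else if k = i + 1 then u else 0 := by
  unfold W
  rw [hs]
  exact hat_eq hu0 hu1

theorem hat_sum {N i : ℕ} (hi : i < N) {u s : ℝ} (hu0 : 0 ≤ u) (hu1 : u ≤ 1)
    (hs : N * s = i + u) (g : ℕ → ℝ) :
    ∑ k ∈ Finset.range (N + 1), W N k s * g k = (1 - u) * g i + u * g (i + 1) := by
  rw [Finset.sum_eq_add i (i + 1) (by omega)]
  · rw [W_eq hu0 hu1 hs, W_eq hu0 hu1 hs, if_pos rfl, if_neg (by omega), if_pos rfl]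
  · intro k _ hk
    rw [W_eq hu0 hu1 hs, if_neg hk.1, if_neg hk.2, zero_mul]
  · intro h
    exact absurd (Finset.mem_range.2 (by omega)) h
  · intro h
    exact absurd (Finset.mem_range.2 (by omega)) h

theorem min_sum {N i : ℕ} (hi : i < N) {u s τ : ℝ} (hu0 : 0 ≤ u) (hu1 : u ≤ 1) (hτ0 : 0 ≤ τ)
    (hτ1 : τ ≤ 1) (hs : N * s = i + u) (g : ℕ → ℝ) :
    ∑ k ∈ Finset.range N, min ((1 - τ) * W N k s) (τ * W N (k + 1) s) * g k =
      min ((1 - τ) * (1 - u)) (τ * u) * g i := by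
  rw [Finset.sum_eq_single i]
  · rw [W_eq hu0 hu1 hs, W_eq hu0 hu1 hs, if_pos rfl, if_neg (by omega), if_pos rfl]
  · intro k _ hk
    rw [W_eq (k := k) hu0 hu1 hs, W_eq (k := k + 1) hu0 hu1 hs, if_neg hk]
    by_cases h1 : k = i + 1
    · rw [if_pos h1, if_neg (by omega), if_neg (by omega), mul_zero,
        min_eq_right (mul_nonneg (by linarith) hu0), zero_mul]
    · rw [if_neg h1, mul_zero]
      have h2 : 0 ≤ τ * (if k + 1 = i then 1 - u else if k + 1 = i + 1 then u else 0) := by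
        refine mul_nonneg hτ0 ?_
        split_ifs <;> linarith
      rw [min_eq_left h2, zero_mul]
  · intro h
    exact absurd (Finset.mem_range.2 hi) h

/-- the point with parameters `t, s` of the disc -/
def Yf (m j : ℕ) (e : List ℕ) (t s : ℝ) (v : ℕ) : ℝ :=
  (1 - max (2 * t - 1) 0) * ((1 - min (2 * t) 1) * pg e s v +
    min (2 * t) 1 * ∑ k ∈ Finset.range (e.length + 1),
      W e.length k s * dl (nv m j (k % e.length)) v +
    ∑ k ∈ Finset.range e.length,
      min ((1 - min (2 * t) 1) * W e.length k s) (min (2 * t) 1 * W e.length (k + 1) s) *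
        (dl (e.getD ((k + 1) % e.length) 0) v + dl (nv m j (k % e.length)) v -
          dl (e.getD (k % e.length) 0) v - dl (nv m j ((k + 1) % e.length)) v)) +
    max (2 * t - 1) 0 * dl (nv m j e.length) v

theorem pg_eq (e : List ℕ) (s : ℝ) (v : ℕ) :
    pg e s v = ∑ k ∈ Finset.range (e.length + 1),
      W e.length k s * dl (e.getD (k % e.length) 0) v := rfl

/-- local formula -/
def Lf (m j : ℕ) (e : List ℕ) (τ κ : ℝ) (i : ℕ) (u : ℝ) (v : ℕ) : ℝ :=
  (1 - κ) * (((1 - τ) * (1 - u) - min ((1 - τ) * (1 - u)) (τ * u)) * dl (e.getD i 0) v +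
    ((1 - τ) * u + min ((1 - τ) * (1 - u)) (τ * u)) * dl (e.getD ((i + 1) % e.length) 0) v +
    (τ * (1 - u) + min ((1 - τ) * (1 - u)) (τ * u)) * dl (nv m j i) v +
    (τ * u - min ((1 - τ) * (1 - u)) (τ * u)) * dl (nv m j ((i + 1) % e.length)) v) +
    κ * dl (nv m j e.length) v

theorem loc {m j : ℕ} {e : List ℕ} {t s u : ℝ} {i : ℕ} (ht0 : 0 ≤ t)
    (hi : i < e.length) (hu0 : 0 ≤ u) (hu1 : u ≤ 1) (hs : e.length * s = i + u) (v : ℕ) :
    Yf m j e t s v = Lf m j e (min (2 * t) 1) (max (2 * t - 1) 0) i u v := by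
  have h0 : 0 ≤ min (2 * t) 1 := le_min (by linarith) zero_le_one
  have h1 : min (2 * t) 1 ≤ 1 := min_le_right _ _
  unfold Yf Lf
  rw [pg_eq, hat_sum hi hu0 hu1 hs fun k => dl (e.getD (k % e.length) 0) v,
    hat_sum hi hu0 hu1 hs fun k => dl (nv m j (k % e.length)) v,
    min_sum hi hu0 hu1 h0 h1 hs fun k => (dl (e.getD ((k + 1) % e.length) 0) v +
      dl (nv m j (k % e.length)) v - dl (e.getD (k % e.length) 0) v -
      dl (nv m j ((k + 1) % e.length)) v), Nat.mod_eq_of_lt hi]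
  ring

theorem exists_loc {N : ℕ} (hN : 0 < N) {s : ℝ} (hs0 : 0 ≤ s) (hs1 : s ≤ 1) :
    ∃ i < N, ∃ u : ℝ, 0 ≤ u ∧ u ≤ 1 ∧ (N : ℝ) * s = i + u ∧ (s < 1 → u < 1) := by
  have hNR : (0 : ℝ) < N := by exact_mod_cast hN
  rcases hs1.eq_or_lt with h | h
  · refine ⟨N - 1, by omega, 1, zero_le_one, le_rfl, ?_, fun h' => absurd h (ne_of_lt h')⟩
    rw [h, Nat.cast_sub (by omega)]
    push_cast
    ring
  · have hNs : 0 ≤ (N : ℝ) * s := by positivity
    refine ⟨⌊(N : ℝ) * s⌋₊, ?_, (N : ℝ) * s - ⌊(N : ℝ) * s⌋₊, ?_, ?_, ?_, ?_⟩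
    · rw [Nat.floor_lt hNs]
      nlinarith
    · have := Nat.floor_le hNs
      linarith
    · have := Nat.lt_floor_add_one ((N : ℝ) * s)
      linarith
    · ring
    · intro _
      have := Nat.lt_floor_add_one ((N : ℝ) * s)
      linarith

theorem tri {a b c : ℕ} {α β γ : ℝ} (h : α + β + γ = 1) {y : ℕ → ℝ}
    (hy : ∀ v, y v = α * dl a v + β * dl b v + γ * dl c v) :
    (∀ i, i ∉ [a, b, c] → y i = 0) ∧ ∑ i ∈ [a, b, c].toFinset, y i = 1 := by
  constructor
  · intro i hi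
    simp only [List.mem_cons, List.not_mem_nil, or_false, not_or] at hi
    rw [hy, dl_ne (Ne.symm hi.1), dl_ne (Ne.symm hi.2.1), dl_ne (Ne.symm hi.2.2)]
    ring
  · have key : ∀ x ∈ [a, b, c].toFinset, ∑ i ∈ [a, b, c].toFinset, dl x i = 1 := by
      intro x hx
      unfold dl
      rw [Finset.sum_ite_eq, if_pos hx]
    rw [Finset.sum_congr rfl fun i _ => hy i, Finset.sum_add_distrib, Finset.sum_add_distrib,
      ← Finset.mul_sum, ← Finset.mul_sum, ← Finset.mul_sum, key a (by simp), key b (by simp),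
      key c (by simp)]
    linarith

theorem mem_dsc {m j : ℕ} {e sx : List ℕ} : sx ∈ dsc m j e ↔ ∃ i < e.length,
    sx = [e.getD i 0, e.getD ((i + 1) % e.length) 0, nv m j i] ∨
    sx = [e.getD ((i + 1) % e.length) 0, nv m j i, nv m j ((i + 1) % e.length)] ∨
    sx = [nv m j i, nv m j ((i + 1) % e.length), nv m j e.length] := by
  unfold dsc
  rw [List.mem_flatMap]
  simp only [List.mem_range, List.mem_cons, List.not_mem_nil, or_false]

theorem mem_att {m : ℕ} {K E : List (List ℕ)} {sx : List ℕ} : sx ∈ att m K E ↔ sx ∈ K ∨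
    ∃ j : Fin E.length, sx ∈ dsc m j (E.get j) := by
  unfold att
  rw [List.mem_append, List.mem_flatMap]
  refine or_congr Iff.rfl ⟨?_, ?_⟩
  · rintro ⟨p, hp, hsx⟩
    rw [List.mem_zipIdx_iff_getElem?] at hp
    obtain ⟨hlt, he⟩ := List.getElem?_eq_some_iff.1 hp
    refine ⟨⟨p.2, hlt⟩, ?_⟩
    rw [List.get_eq_getElem]
    show sx ∈ dsc m p.2 (E[p.2])
    rw [he]
    exact hsx
  · rintro ⟨j, hsx⟩
    refine ⟨(E.get j, j.1), ?_, hsx⟩
    rw [List.mem_zipIdx_iff_getElem?]
    simp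

/-- membership of the points of the disc -/
theorem memY {m j : ℕ} {e : List ℕ} (hN : 0 < e.length) {t s : ℝ} (ht0 : 0 ≤ t) (ht1 : t ≤ 1)
    (hs0 : 0 ≤ s) (hs1 : s ≤ 1) : (∀ v, 0 ≤ Yf m j e t s v) ∧
    ∃ sx ∈ dsc m j e, (∀ v, v ∉ sx → Yf m j e t s v = 0) ∧ ∑ v ∈ sx.toFinset, Yf m j e t s v = 1 := by
  obtain ⟨i, hi, u, hu0, hu1, hs, _⟩ := exists_loc hN hs0 hs1
  have hloc := loc (m := m) (j := j) ht0 hi hu0 hu1 hs
  have hdl : ∀ a v, 0 ≤ dl a v := by
    intro a v
    unfold dl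
    split_ifs <;> norm_num
  constructor
  · intro v
    rw [hloc v]
    unfold Lf
    have h0 : 0 ≤ min (2 * t) 1 := le_min (by linarith) zero_le_one
    have h1 : min (2 * t) 1 ≤ 1 := min_le_right _ _
    have h2 : 0 ≤ max (2 * t - 1) 0 := le_max_right _ _
    have h3 : max (2 * t - 1) 0 ≤ 1 := max_le (by linarith) zero_le_one
    generalize min (2 * t) 1 = τ at h0 h1 ⊢
    generalize max (2 * t - 1) 0 = κ at h2 h3 ⊢
    have hm1 : min ((1 - τ) * (1 - u)) (τ * u) ≤ (1 - τ) * (1 - u) := min_le_left _ _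
    have hm2 : min ((1 - τ) * (1 - u)) (τ * u) ≤ τ * u := min_le_right _ _
    have hm3 : 0 ≤ min ((1 - τ) * (1 - u)) (τ * u) :=
      le_min (mul_nonneg (by linarith) (by linarith)) (mul_nonneg h0 hu0)
    have a1 : 0 ≤ (1 - τ) * u := mul_nonneg (by linarith) hu0
    have a2 : 0 ≤ τ * (1 - u) := mul_nonneg h0 (by linarith)
    have := hdl (e.getD i 0) v
    have := hdl (e.getD ((i + 1) % e.length) 0) v
    have := hdl (nv m j i) v
    have := hdl (nv m j ((i + 1) % e.length)) v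
    have := hdl (nv m j e.length) v
    have b1 : 0 ≤ (1 - τ) * (1 - u) - min ((1 - τ) * (1 - u)) (τ * u) := by linarith
    have b2 : 0 ≤ (1 - τ) * u + min ((1 - τ) * (1 - u)) (τ * u) := by linarith
    have b3 : 0 ≤ τ * (1 - u) + min ((1 - τ) * (1 - u)) (τ * u) := by linarith
    have b4 : 0 ≤ τ * u - min ((1 - τ) * (1 - u)) (τ * u) := by linarith
    have b5 : 0 ≤ 1 - κ := by linarith
    positivity
  · rcases le_total (2 * t) 1 with h | h
    · have hτ : min (2 * t) 1 = 2 * t := min_eq_left h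
      have hκ : max (2 * t - 1) 0 = 0 := max_eq_right (by linarith)
      rcases le_total ((1 - 2 * t) * (1 - u)) (2 * t * u) with h4 | h4
      · refine ⟨_, mem_dsc.2 ⟨i, hi, Or.inr (Or.inl rfl)⟩, ?_⟩
        refine tri (α := (1 - 2 * t) * u + (1 - 2 * t) * (1 - u))
          (β := 2 * t * (1 - u) + (1 - 2 * t) * (1 - u))
          (γ := 2 * t * u - (1 - 2 * t) * (1 - u)) (by ring) fun v => ?_
        rw [hloc v, hτ, hκ]
        unfold Lf
        rw [min_eq_left h4]
        ring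
      · refine ⟨_, mem_dsc.2 ⟨i, hi, Or.inl rfl⟩, ?_⟩
        refine tri (α := (1 - 2 * t) * (1 - u) - 2 * t * u)
          (β := (1 - 2 * t) * u + 2 * t * u)
          (γ := 2 * t * (1 - u) + 2 * t * u) (by ring) fun v => ?_
        rw [hloc v, hτ, hκ]
        unfold Lf
        rw [min_eq_right h4]
        ring
    · have hτ : min (2 * t) 1 = 1 := min_eq_right h
      have hκ : max (2 * t - 1) 0 = 2 * t - 1 := max_eq_left (by linarith)
      refine ⟨_, mem_dsc.2 ⟨i, hi, Or.inr (Or.inr rfl)⟩, ?_⟩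
      refine tri (α := (1 - (2 * t - 1)) * (1 - u)) (β := (1 - (2 * t - 1)) * u)
        (γ := 2 * t - 1) (by ring) fun v => ?_
      rw [hloc v, hτ, hκ]
      unfold Lf
      rw [show ((1 : ℝ) - 1) * (1 - u) = 0 by ring, one_mul, min_eq_left hu0]
      ring

/-! ### distinctness -/

theorem nv_ge (m j i : ℕ) : m ≤ nv m j i := Nat.le_add_right _ _

theorem nv_inj {m j i j' i' : ℕ} (h : nv m j i = nv m j' i') : j = j' ∧ i = i' := by
  unfold nv at h
  exact Nat.pair_eq_pair.1 (Nat.add_left_cancel h)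

theorem modc {N i : ℕ} (hi : i < N) : (i + 1) % N = if i + 1 = N then 0 else i + 1 := by
  split_ifs with h
  · rw [h, Nat.mod_self]
  · exact Nat.mod_eq_of_lt (by omega)

/-- good polygons -/
structure Gd (m : ℕ) (e : List ℕ) : Prop where
  len : 3 ≤ e.length
  lt : ∀ i < e.length, e.getD i 0 < m
  ne : ∀ i < e.length, e.getD i 0 ≠ e.getD ((i + 1) % e.length) 0

theorem Gd.lt' {m : ℕ} {e : List ℕ} (h : Gd m e) (i : ℕ) : e.getD ((i + 1) % e.length) 0 < m :=
  h.lt _ (Nat.mod_lt _ (by have := h.len; omega))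

theorem Gd.of {m : ℕ} {K : List (List ℕ)} {v : ℕ} {e : List ℕ} (hB : Bd m K) (h : CP K v e) :
    Gd m e := by
  obtain ⟨h1, _, h3⟩ := h
  refine ⟨h1, fun i hi => ?_, fun i hi => (h3 i hi).2⟩
  obtain ⟨⟨q, hq, hm, _⟩, _⟩ := h3 i hi
  exact hB q hq _ hm

/-! ### surjectivity -/

theorem tri_rep {a b c : ℕ} (hab : a ≠ b) (hac : a ≠ c) (hbc : b ≠ c) {x : ℕ → ℝ}
    (h1 : ∀ v, v ∉ [a, b, c] → x v = 0) (h2 : ∑ v ∈ [a, b, c].toFinset, x v = 1) :
    (∀ v, x v = x a * dl a v + x b * dl b v + x c * dl c v) ∧ x a + x b + x c = 1 := by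
  constructor
  · intro v
    by_cases ha : v = a
    · subst ha
      rw [dl_self, dl_ne (Ne.symm hab), dl_ne (Ne.symm hac)]
      ring
    by_cases hb : v = b
    · subst hb
      rw [dl_self, dl_ne hab, dl_ne (Ne.symm hbc)]
      ring
    by_cases hc : v = c
    · subst hc
      rw [dl_self, dl_ne hac, dl_ne hbc]
      ring
    rw [h1 v (by simp [ha, hb, hc]), dl_ne (Ne.symm ha), dl_ne (Ne.symm hb), dl_ne (Ne.symm hc)]
    ring
  · have h3 : [a, b, c].toFinset = {a, b, c} := by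
      ext v
      simp
    rw [h3, Finset.sum_insert (by simp [hab, hac]), Finset.sum_insert (by simp [hbc]),
      Finset.sum_singleton] at h2
    linarith

theorem exists_s {N i : ℕ} (hi : i < N) {u : ℝ} (hu0 : 0 ≤ u) (hu1 : u ≤ 1) :
    ∃ s : ℝ, 0 ≤ s ∧ s ≤ 1 ∧ (N : ℝ) * s = i + u := by
  have hNR : (0 : ℝ) < N := by
    have : 0 < N := by omega
    exact_mod_cast this
  have h1 : (i : ℝ) + 1 ≤ N := by exact_mod_cast hi
  refine ⟨(i + u) / N, by positivity, ?_, ?_⟩
  · rw [div_le_one hNR]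
    linarith
  · field_simp

theorem surj_dsc {m j : ℕ} {e : List ℕ} (hG : Gd m e) {x : ℕ → ℝ} (h0 : ∀ v, 0 ≤ x v)
    {sx : List ℕ} (hsx : sx ∈ dsc m j e) (h1 : ∀ v, v ∉ sx → x v = 0)
    (h2 : ∑ v ∈ sx.toFinset, x v = 1) :
    ∃ t s : ℝ, 0 ≤ t ∧ t ≤ 1 ∧ 0 ≤ s ∧ s ≤ 1 ∧ ∀ v, Yf m j e t s v = x v := by
  obtain ⟨i, hi, hc⟩ := mem_dsc.1 hsx
  have hlen := hG.len
  have hcc : nv m j i ≠ nv m j ((i + 1) % e.length) := by
    intro h
    have := (nv_inj h).2
    rw [modc hi] at this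
    split_ifs at this <;> omega
  have hml : (i + 1) % e.length < e.length := Nat.mod_lt _ (by omega)
  rcases hc with rfl | rfl | rfl
  · obtain ⟨h3, h4⟩ := tri_rep (hG.ne i hi) (ne_of_lt ((hG.lt i hi).trans_le (nv_ge _ _ _)))
      (ne_of_lt ((hG.lt' i).trans_le (nv_ge _ _ _))) h1 h2
    have ha := h0 (e.getD i 0)
    have hb := h0 (e.getD ((i + 1) % e.length) 0)
    have hc := h0 (nv m j i)
    obtain ⟨s, hs0, hs1, hs⟩ := exists_s hi hb (by linarith)
    refine ⟨x (nv m j i) / 2, s, by linarith, by linarith, hs0, hs1, fun v => ?_⟩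
    rw [loc (by linarith) hi hb (by linarith) hs, h3 v]
    have hτ : min (2 * (x (nv m j i) / 2)) 1 = x (nv m j i) := by
      rw [min_eq_left (by linarith)]
      ring
    have hκ : max (2 * (x (nv m j i) / 2) - 1) 0 = 0 := max_eq_right (by linarith)
    rw [hτ, hκ]
    unfold Lf
    rw [min_eq_right (by nlinarith)]
    generalize x (e.getD i 0) = α at *
    generalize x (e.getD ((i + 1) % e.length) 0) = β at *
    generalize x (nv m j i) = c at *
    have : α = 1 - β - c := by linarith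
    rw [this]
    ring
  · obtain ⟨h3, h4⟩ := tri_rep (ne_of_lt ((hG.lt' i).trans_le (nv_ge _ _ _)))
      (ne_of_lt ((hG.lt' i).trans_le (nv_ge _ _ _))) hcc h1 h2
    have ha := h0 (e.getD ((i + 1) % e.length) 0)
    have hb := h0 (nv m j i)
    have hc := h0 (nv m j ((i + 1) % e.length))
    obtain ⟨s, hs0, hs1, hs⟩ := exists_s hi (u := x (e.getD ((i + 1) % e.length) 0) +
      x (nv m j ((i + 1) % e.length))) (by linarith) (by linarith)
    refine ⟨(x (nv m j i) + x (nv m j ((i + 1) % e.length))) / 2, s, by linarith, by linarith,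
      hs0, hs1, fun v => ?_⟩
    rw [loc (by linarith) hi (by linarith) (by linarith) hs, h3 v]
    have hτ : min (2 * ((x (nv m j i) + x (nv m j ((i + 1) % e.length))) / 2)) 1 =
        x (nv m j i) + x (nv m j ((i + 1) % e.length)) := by
      rw [min_eq_left (by linarith)]
      ring
    have hκ : max (2 * ((x (nv m j i) + x (nv m j ((i + 1) % e.length))) / 2) - 1) 0 = 0 :=
      max_eq_right (by linarith)
    rw [hτ, hκ]
    unfold Lf
    generalize x (e.getD ((i + 1) % e.length) 0) = α at *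
    generalize x (nv m j i) = β at *
    generalize x (nv m j ((i + 1) % e.length)) = c at *
    have h5 : α = 1 - β - c := by linarith
    have h6 : (1 - (β + c)) * (1 - (α + c)) ≤ (β + c) * (α + c) := by
      rw [h5]
      nlinarith
    rw [min_eq_left h6, h5]
    ring
  · obtain ⟨h3, h4⟩ := tri_rep hcc
      (fun h => absurd (nv_inj h).2 (by omega)) (fun h => absurd (nv_inj h).2 (by omega)) h1 h2
    have ha := h0 (nv m j i)
    have hb := h0 (nv m j ((i + 1) % e.length))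
    have hc := h0 (nv m j e.length)
    obtain ⟨u, hu0, hu1, hu⟩ : ∃ u : ℝ, 0 ≤ u ∧ u ≤ 1 ∧
        (1 - x (nv m j e.length)) * u = x (nv m j ((i + 1) % e.length)) := by
      rcases (show x (nv m j e.length) ≤ 1 by linarith).eq_or_lt with h | h
      · exact ⟨0, le_rfl, zero_le_one, by rw [h]; linarith⟩
      · have h5 : 0 < 1 - x (nv m j e.length) := by linarith
        refine ⟨x (nv m j ((i + 1) % e.length)) / (1 - x (nv m j e.length)), by positivity, ?_, ?_⟩
        · rw [div_le_one h5]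
          linarith
        · field_simp
    obtain ⟨s, hs0, hs1, hs⟩ := exists_s hi hu0 hu1
    refine ⟨(1 + x (nv m j e.length)) / 2, s, by linarith, by linarith, hs0, hs1, fun v => ?_⟩
    rw [loc (by linarith) hi hu0 hu1 hs, h3 v]
    have hτ : min (2 * ((1 + x (nv m j e.length)) / 2)) 1 = 1 := min_eq_right (by linarith)
    have hκ : max (2 * ((1 + x (nv m j e.length)) / 2) - 1) 0 = x (nv m j e.length) := by
      rw [max_eq_left (by linarith)]
      ring
    rw [hτ, hκ]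
    unfold Lf
    rw [show ((1 : ℝ) - 1) * (1 - u) = 0 by ring, one_mul, min_eq_left hu0]
    generalize x (nv m j i) = α at *
    generalize x (nv m j ((i + 1) % e.length)) = β at *
    generalize x (nv m j e.length) = c at *
    have h5 : α = 1 - β - c := by linarith
    rw [h5, ← hu]
    ring

/-! ### injectivity -/

theorem Lf_c {m j : ℕ} {e : List ℕ} (hG : Gd m e) {i : ℕ} (hi : i < e.length) (τ κ u : ℝ)
    {k : ℕ} (hk : k < e.length) : Lf m j e τ κ i u (nv m j k) =
      (1 - κ) * ((τ * (1 - u) + min ((1 - τ) * (1 - u)) (τ * u)) * dl i k +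
        (τ * u - min ((1 - τ) * (1 - u)) (τ * u)) * dl ((i + 1) % e.length) k) := by
  have h1 : dl (e.getD i 0) (nv m j k) = 0 :=
    dl_ne (ne_of_lt ((hG.lt i hi).trans_le (nv_ge _ _ _)))
  have h2 : dl (e.getD ((i + 1) % e.length) 0) (nv m j k) = 0 :=
    dl_ne (ne_of_lt ((hG.lt' i).trans_le (nv_ge _ _ _)))
  have h3 : dl (nv m j e.length) (nv m j k) = 0 :=
    dl_ne fun h => absurd (nv_inj h).2 (by omega)
  have h4 : ∀ a, dl (nv m j a) (nv m j k) = dl a k := by
    intro a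
    by_cases h : a = k
    · rw [h, dl_self, dl_self]
    · rw [dl_ne h, dl_ne fun h' => h (nv_inj h').2]
  unfold Lf
  rw [h1, h2, h3, h4, h4]
  ring

theorem Lf_ap {m j : ℕ} {e : List ℕ} (hG : Gd m e) {i : ℕ} (hi : i < e.length) (τ κ u : ℝ) :
    Lf m j e τ κ i u (nv m j e.length) = κ := by
  have hml : (i + 1) % e.length < e.length := Nat.mod_lt _ (by omega)
  have h1 : dl (e.getD i 0) (nv m j e.length) = 0 :=
    dl_ne (ne_of_lt ((hG.lt i hi).trans_le (nv_ge _ _ _)))
  have h2 : dl (e.getD ((i + 1) % e.length) 0) (nv m j e.length) = 0 :=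
    dl_ne (ne_of_lt ((hG.lt' i).trans_le (nv_ge _ _ _)))
  unfold Lf
  rw [h1, h2, dl_ne fun h => absurd (nv_inj h).2 (by omega),
    dl_ne fun h => absurd (nv_inj h).2 (by omega), dl_self]
  ring

theorem Lf_other {m j j' : ℕ} {e : List ℕ} (hG : Gd m e) {i : ℕ} (hi : i < e.length)
    (τ κ u : ℝ) (hj : j ≠ j') (k : ℕ) : Lf m j e τ κ i u (nv m j' k) = 0 := by
  have h1 : dl (e.getD i 0) (nv m j' k) = 0 :=
    dl_ne (ne_of_lt ((hG.lt i hi).trans_le (nv_ge _ _ _)))
  have h2 : dl (e.getD ((i + 1) % e.length) 0) (nv m j' k) = 0 :=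
    dl_ne (ne_of_lt ((hG.lt' i).trans_le (nv_ge _ _ _)))
  unfold Lf
  rw [h1, h2, dl_ne fun h => hj (nv_inj h).1, dl_ne fun h => hj (nv_inj h).1,
    dl_ne fun h => hj (nv_inj h).1]
  ring

theorem readT {m j : ℕ} {e : List ℕ} (hG : Gd m e) {t s : ℝ} (ht0 : 0 ≤ t) (hs0 : 0 ≤ s)
    (hs1 : s ≤ 1) : ∑ k ∈ Finset.range e.length, Yf m j e t s (nv m j k) +
      2 * Yf m j e t s (nv m j e.length) = 2 * t := by
  obtain ⟨i, hi, u, hu0, hu1, hs, _⟩ := exists_loc (N := e.length) (by have := hG.len; omega) hs0 hs1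
  have hml : (i + 1) % e.length < e.length := Nat.mod_lt _ (by omega)
  rw [loc ht0 hi hu0 hu1 hs, Lf_ap hG hi]
  rw [Finset.sum_congr rfl fun k hk => by
    rw [loc ht0 hi hu0 hu1 hs, Lf_c hG hi _ _ _ (Finset.mem_range.1 hk)]]
  rw [← Finset.mul_sum, Finset.sum_add_distrib, ← Finset.mul_sum, ← Finset.mul_sum]
  have h1 : ∀ a < e.length, ∑ k ∈ Finset.range e.length, dl a k = 1 := by
    intro a ha
    unfold dl
    rw [Finset.sum_ite_eq, if_pos (Finset.mem_range.2 ha)]
  rw [h1 i hi, h1 _ hml]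
  rcases le_total (2 * t) 1 with h | h
  · rw [min_eq_left h, max_eq_right (show 2 * t - 1 ≤ 0 by linarith)]
    ring
  · rw [min_eq_right h, max_eq_left (show 0 ≤ 2 * t - 1 by linarith)]
    ring

theorem read_other {m j j' : ℕ} {e : List ℕ} (hG : Gd m e) {t s : ℝ} (ht0 : 0 ≤ t)
    (hs0 : 0 ≤ s) (hs1 : s ≤ 1) (hj : j ≠ j') (k : ℕ) : Yf m j e t s (nv m j' k) = 0 := by
  obtain ⟨i, hi, u, hu0, hu1, hs, _⟩ := exists_loc (N := e.length) (by have := hG.len; omega) hs0 hs1
  rw [loc ht0 hi hu0 hu1 hs, Lf_other hG hi _ _ _ hj]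

theorem inj_s {m j : ℕ} {e : List ℕ} (hG : Gd m e) {t s s' : ℝ} (ht0 : 0 < t) (ht1 : t < 1)
    (hs0 : 0 ≤ s) (hs1 : s < 1) (hs0' : 0 ≤ s') (hs1' : s' < 1)
    (h : ∀ v, Yf m j e t s v = Yf m j e t s' v) : s = s' := by
  have hlen := hG.len
  obtain ⟨i, hi, u, hu0, hu1, hs, hsu⟩ := exists_loc (N := e.length) (by omega) hs0 hs1.le
  obtain ⟨i', hi', u', hu0', hu1', hs', hsu'⟩ :=
    exists_loc (N := e.length) (by omega) hs0' hs1'.le
  have hu := hsu hs1
  have hu' := hsu' hs1'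
  have hv : ∀ v, Lf m j e (min (2 * t) 1) (max (2 * t - 1) 0) i u v =
      Lf m j e (min (2 * t) 1) (max (2 * t - 1) 0) i' u' v := by
    intro v
    rw [← loc ht0.le hi hu0 hu1 hs, ← loc ht0.le hi' hu0' hu1' hs']
    exact h v
  have hτ0 : 0 < min (2 * t) 1 := lt_min (by linarith) zero_lt_one
  have hτ1 : min (2 * t) 1 ≤ 1 := min_le_right _ _
  have hκ0 : 0 ≤ max (2 * t - 1) 0 := le_max_right _ _
  have hκ1 : max (2 * t - 1) 0 < 1 := max_lt (by linarith) zero_lt_one
  generalize min (2 * t) 1 = τ at hv hτ0 hτ1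
  generalize max (2 * t - 1) 0 = κ at hv hκ0 hκ1
  have hk : 0 < 1 - κ := by linarith
  have hpos : ∀ w : ℝ, 0 ≤ w → w < 1 → 0 < τ * (1 - w) + min ((1 - τ) * (1 - w)) (τ * w) := by
    intro w hw0 hw1
    have a1 : 0 < τ * (1 - w) := mul_pos hτ0 (by linarith)
    have a2 : 0 ≤ min ((1 - τ) * (1 - w)) (τ * w) :=
      le_min (mul_nonneg (by linarith) (by linarith)) (mul_nonneg hτ0.le hw0)
    linarith
  have hor : ∀ (a a' : ℕ) (w w' : ℝ), a < e.length → a' < e.length → 0 ≤ w → w < 1 →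
      Lf m j e τ κ a w (nv m j a) = Lf m j e τ κ a' w' (nv m j a) →
      a' = a ∨ (a' + 1) % e.length = a := by
    intro a a' w w' ha ha' hw0 hw1 hh
    by_contra hcon
    push Not at hcon
    rw [Lf_c hG ha _ _ _ ha, Lf_c hG ha' _ _ _ ha, dl_self, dl_ne hcon.1, dl_ne hcon.2] at hh
    have h1 : dl ((a + 1) % e.length) a = 0 := by
      apply dl_ne
      intro h2
      rw [modc ha] at h2
      split_ifs at h2 <;> omega
    rw [h1] at hh
    have := mul_pos hk (hpos w hw0 hw1)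
    linarith
  have ho1 := hor i i' u u' hi hi' hu0 hu (hv _)
  have ho2 := hor i' i u' u hi' hi hu0' hu' (hv _).symm
  have hii : i = i' := by
    by_contra hne
    have h1 : (i' + 1) % e.length = i := by
      rcases ho1 with h1 | h1
      · exact absurd h1.symm hne
      · exact h1
    have h2 : (i + 1) % e.length = i' := by
      rcases ho2 with h2 | h2
      · exact absurd h2 hne
      · exact h2
    rw [modc hi'] at h1
    rw [modc hi] at h2
    split_ifs at h1 h2 <;> omega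
  subst hii
  have hml : (i + 1) % e.length < e.length := Nat.mod_lt _ (by omega)
  have hread : ∀ w : ℝ, Lf m j e τ κ i w (e.getD ((i + 1) % e.length) 0) +
      Lf m j e τ κ i w (nv m j ((i + 1) % e.length)) = (1 - κ) * w := by
    intro w
    rw [Lf_c hG hi _ _ _ hml, dl_self]
    have h1 : dl i ((i + 1) % e.length) = 0 := by
      apply dl_ne
      intro h2
      rw [modc hi] at h2
      split_ifs at h2 <;> omega
    rw [h1]
    unfold Lf
    have h2 : ∀ a, dl (nv m j a) (e.getD ((i + 1) % e.length) 0) = 0 := fun a =>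
      dl_ne (ne_of_gt ((hG.lt' i).trans_le (nv_ge _ _ _)))
    rw [dl_ne (hG.ne i hi), dl_self, h2, h2, h2]
    ring
  have h3 := hread u
  rw [hv, hv, hread u'] at h3
  have h4 : u = u' := (mul_left_cancel₀ hk.ne' h3).symm
  have h5 : (e.length : ℝ) * s = e.length * s' := by rw [hs, hs', h4]
  have h6 : (e.length : ℝ) ≠ 0 := by
    have : 0 < e.length := by omega
    have : (0 : ℝ) < e.length := by exact_mod_cast this
    exact this.ne'
  exact mul_left_cancel₀ h6 h5

/-! ### the identifications -/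

theorem Yf_zero {m j : ℕ} {e : List ℕ} (s : ℝ) (v : ℕ) : Yf m j e 0 s v = pg e s v := by
  unfold Yf
  have h1 : min (2 * (0 : ℝ)) 1 = 0 := by norm_num
  have h2 : max (2 * (0 : ℝ) - 1) 0 = 0 := by norm_num
  rw [h1, h2]
  have h3 : ∀ k, min ((1 - (0 : ℝ)) * W e.length k s) 0 = 0 := by
    intro k
    rw [sub_zero, one_mul]
    exact min_eq_right (le_max_left _ _)
  simp only [zero_mul, h3, Finset.sum_const_zero]
  ring

theorem Yf_one {m j : ℕ} {e : List ℕ} (s : ℝ) (v : ℕ) :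
    Yf m j e 1 s v = dl (nv m j e.length) v := by
  unfold Yf
  have h2 : max (2 * (1 : ℝ) - 1) 0 = 1 := by norm_num
  rw [h2]
  ring

theorem Yf_side {m j : ℕ} {e : List ℕ} (hG : Gd m e) {t : ℝ} (ht0 : 0 ≤ t) (v : ℕ) :
    Yf m j e t 0 v = Yf m j e t 1 v := by
  have hlen := hG.len
  have hτ0 : 0 ≤ min (2 * t) 1 := le_min (by linarith) zero_le_one
  have hτ1 : min (2 * t) 1 ≤ 1 := min_le_right _ _
  rw [loc (i := 0) (u := 0) ht0 (by omega) le_rfl zero_le_one (by simp),
    loc (i := e.length - 1) (u := 1) ht0 (by omega) zero_le_one le_rfl (by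
      rw [Nat.cast_sub (by omega)]
      push_cast
      ring)]
  generalize min (2 * t) 1 = τ at hτ0 hτ1 ⊢
  have h1 : (e.length - 1 + 1) % e.length = 0 := by
    rw [Nat.sub_add_cancel (by omega), Nat.mod_self]
  unfold Lf
  rw [h1]
  have h2 : min ((1 - τ) * (1 - (0 : ℝ))) (τ * 0) = 0 := by
    rw [mul_zero]
    exact min_eq_right (by linarith)
  have h3 : min ((1 - τ) * (1 - (1 : ℝ))) (τ * 1) = 0 := by
    rw [sub_self, mul_zero]
    exact min_eq_left (by linarith)
  rw [h2, h3]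
  ring

end DiscA

open DiscA in
theorem taskDisc : TaskDisc := by
  intro m K E v hB hCP b γ _ hpg κ δ
  have hG : ∀ j : Fin E.length, Gd m (E.get j) := fun j => Gd.of hB (hCP _ (List.get_mem E j))
  have hlen : ∀ j : Fin E.length, 0 < (E.get j).length := fun j => by
    have := (hG j).len
    omega
  -- the inclusion
  let inc : C(Rz K, Rz (att m K E)) := ⟨fun x => ⟨x.1, x.2.1, by
    obtain ⟨q, hq, h⟩ := x.2.2
    exact ⟨q, mem_att.2 (Or.inl hq), h⟩⟩, continuous_mk _ fun w => continuous_val K w⟩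
  let cell : Fin E.length × I × I → Rz (att m K E) := fun p =>
    ⟨Yf m p.1 (E.get p.1) p.2.1 p.2.2, (memY (hlen p.1) p.2.1.2.1 p.2.1.2.2 p.2.2.2.1
      p.2.2.2.2).1, by
      obtain ⟨q, hq, h⟩ := (memY (m := m) (j := p.1) (hlen p.1) p.2.1.2.1 p.2.1.2.2 p.2.2.2.1
        p.2.2.2.2).2
      exact ⟨q, mem_att.2 (Or.inr ⟨p.1, hq⟩), h⟩⟩
  have hcell : Continuous cell := by
    refine continuous_mk _ fun w => ?_
    show Continuous fun p : Fin E.length × I × I => Yf m p.1 (E.get p.1) p.2.1 p.2.2 w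
    rw [continuous_prod_of_discrete_left]
    intro j
    show Continuous fun q : I × I => Yf m j (E.get j) q.1 q.2 w
    unfold Yf pg W
    fun_prop
  let G : Rz K ⊕ (Fin E.length × I × I) → Rz (att m K E) := Sum.elim inc cell
  have hGc : Continuous G := continuous_sumElim.2 ⟨inc.continuous, hcell⟩
  have hGr : ∀ p q, CnRel γ p q → G p = G q := by
    intro p q h
    cases h with
    | bot i s =>
      apply Subtype.ext
      funext w
      show Yf m i (E.get i) ((0 : I) : ℝ) s w = (γ i s).1 w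
      rw [hpg i s]
      exact Yf_zero _ _
    | side i t =>
      apply Subtype.ext
      funext w
      show Yf m i (E.get i) t ((0 : I) : ℝ) w = Yf m i (E.get i) t ((1 : I) : ℝ) w
      exact Yf_side (hG i) t.2.1 w
    | apex i s =>
      apply Subtype.ext
      funext w
      show Yf m i (E.get i) ((1 : I) : ℝ) s w = Yf m i (E.get i) ((1 : I) : ℝ) ((0 : I) : ℝ) w
      exact (Yf_one _ _).trans (Yf_one _ _).symm
  let F : Cn γ → Rz (att m K E) := Quot.lift G hGr
  have hFc : Continuous F := continuous_quot_lift hGr hGc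
  have hc1 : CompactSpace (Cn γ) := inferInstanceAs (CompactSpace (Quot (CnRel γ)))
  have hval : ∀ j t s w, (G (Sum.inr (j, t, s))).1 w = Yf m j (E.get j) t s w :=
    fun _ _ _ _ => rfl
  -- injectivity
  have hA : ∀ x j t s, G (Sum.inl x) = G (Sum.inr (j, t, s)) →
      Quot.mk (CnRel γ) (Sum.inl x) = Quot.mk (CnRel γ) (Sum.inr (j, t, s)) := by
    intro x j t s h
    have hx : ∀ w, m ≤ w → x.1 w = 0 := by
      intro w hw
      obtain ⟨q, hq, h1, _⟩ := x.2.2
      refine h1 w fun hmem => ?_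
      have := hB q hq w hmem
      omega
    have h1 : ∀ w, x.1 w = Yf m j (E.get j) t s w := fun w =>
      congrFun (congrArg Subtype.val h) w
    have h2 := readT (j := j) (hG j) t.2.1 s.2.1 s.2.2
    rw [Finset.sum_eq_zero fun k _ => by rw [← h1, hx _ (nv_ge _ _ _)], ← h1,
      hx _ (nv_ge _ _ _)] at h2
    have ht : t = 0 := Subtype.ext (by
      show (t : ℝ) = 0
      linarith)
    subst ht
    have h3 : x = γ j s := by
      apply Subtype.ext
      funext w
      rw [h1 w, hpg j s]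
      exact Yf_zero _ _
    rw [h3]
    exact (Quot.sound (CnRel.bot j s)).symm
  have hB' : ∀ j t s j' t' s', G (Sum.inr (j, t, s)) = G (Sum.inr (j', t', s')) →
      Quot.mk (CnRel γ) (Sum.inr (j, t, s)) = Quot.mk (CnRel γ) (Sum.inr (j', t', s')) := by
    intro j t s j' t' s' h
    have h1 : ∀ w, Yf m j (E.get j) t s w = Yf m j' (E.get j') t' s' w := fun w =>
      congrFun (congrArg Subtype.val h) w
    by_cases ht : t = 0
    · subst ht
      have e1 : Quot.mk (CnRel γ) (Sum.inr (j, 0, s)) = Quot.mk (CnRel γ) (Sum.inl (γ j s)) :=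
        Quot.sound (CnRel.bot j s)
      rw [e1]
      refine hA _ _ _ _ ?_
      rw [← h]
      exact (hGr _ _ (CnRel.bot j s)).symm
    by_cases ht' : t' = 0
    · subst ht'
      have e1 : Quot.mk (CnRel γ) (Sum.inr (j', 0, s')) =
          Quot.mk (CnRel γ) (Sum.inl (γ j' s')) := Quot.sound (CnRel.bot j' s')
      rw [e1]
      refine (hA _ _ _ _ ?_).symm
      rw [h]
      exact (hGr _ _ (CnRel.bot j' s')).symm
    have htp : 0 < (t : ℝ) := lt_of_le_of_ne t.2.1 fun h0 => ht (Subtype.ext h0.symm)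
    have hjj : j = j' := by
      by_contra hne
      have hne' : (j' : ℕ) ≠ (j : ℕ) := fun h0 => hne (Fin.ext h0.symm)
      have h2 := readT (j := j) (hG j) t.2.1 s.2.1 s.2.2
      rw [Finset.sum_eq_zero fun k _ => by
        rw [h1, read_other (hG j') t'.2.1 s'.2.1 s'.2.2 hne'], h1,
        read_other (hG j') t'.2.1 s'.2.1 s'.2.2 hne'] at h2
      linarith
    subst hjj
    have htt : t = t' := by
      have h2 := readT (j := j) (hG j) t.2.1 s.2.1 s.2.2
      have h3 := readT (j := j) (hG j) t'.2.1 s'.2.1 s'.2.2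
      rw [Finset.sum_congr rfl fun k _ => h1 _, h1] at h2
      apply Subtype.ext
      linarith
    subst htt
    by_cases ht1 : t = 1
    · subst ht1
      exact (Quot.sound (CnRel.apex j s)).trans (Quot.sound (CnRel.apex j s')).symm
    have htl : (t : ℝ) < 1 := lt_of_le_of_ne t.2.2 fun h0 => ht1 (Subtype.ext h0)
    have hnorm : ∀ s : I, ∃ s0 : I, (s0 : ℝ) < 1 ∧
        Quot.mk (CnRel γ) (Sum.inr (j, t, s)) = Quot.mk (CnRel γ) (Sum.inr (j, t, s0)) ∧
        G (Sum.inr (j, t, s)) = G (Sum.inr (j, t, s0)) := by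
      intro s
      by_cases hs : s = 1
      · subst hs
        exact ⟨0, zero_lt_one, (Quot.sound (CnRel.side j t)).symm, (hGr _ _ (CnRel.side j t)).symm⟩
      · exact ⟨s, lt_of_le_of_ne s.2.2 fun h0 => hs (Subtype.ext h0), rfl, rfl⟩
    obtain ⟨s0, hs0, e0, g0⟩ := hnorm s
    obtain ⟨s1, hs1, e1, g1⟩ := hnorm s'
    have h4 : G (Sum.inr (j, t, s0)) = G (Sum.inr (j, t, s1)) := by rw [← g0, ← g1, h]
    have h5 : s0 = s1 := Subtype.ext (inj_s (hG j) htp htl s0.2.1 hs0 s1.2.1 hs1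
      fun w => congrFun (congrArg Subtype.val h4) w)
    rw [e0, e1, h5]
  have hinj : Function.Injective F := by
    intro p q
    refine Quot.induction_on₂ p q fun p q h => ?_
    change G p = G q at h
    rcases p with x | ⟨j, t, s⟩
    · rcases q with y | ⟨j', t', s'⟩
      · have : x = y := Subtype.ext
          (show x.1 = y.1 from congrArg (fun z : Rz (att m K E) => z.1) h)
        rw [this]
      · exact hA _ _ _ _ h
    · rcases q with y | ⟨j', t', s'⟩
      · exact (hA _ _ _ _ h.symm).symm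
      · exact hB' _ _ _ _ _ _ h
  have hsurj : Function.Surjective F := by
    intro y
    obtain ⟨q, hq, h1, h2⟩ := y.2.2
    rcases mem_att.1 hq with hq | ⟨j, hq⟩
    · exact ⟨Quot.mk _ (Sum.inl ⟨y.1, y.2.1, q, hq, h1, h2⟩), rfl⟩
    · obtain ⟨t, s, ht0, ht1, hs0, hs1, h3⟩ := surj_dsc (hG j) y.2.1 hq h1 h2
      refine ⟨Quot.mk _ (Sum.inr (j, ⟨t, ht0, ht1⟩, ⟨s, hs0, hs1⟩)), ?_⟩
      apply Subtype.ext
      funext w
      exact h3 w
  let e : Cn γ ≃ Rz (att m K E) := Equiv.ofBijective F ⟨hinj, hsurj⟩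
  let h : Cn γ ≃ₜ Rz (att m K E) := Continuous.homeoOfEquivCompactToT2 (f := e) hFc
  have hF : ∀ x, h (Cn.inc γ x) = inc x := fun x => rfl
  have hi : h.symm (inc b) = Cn.inc γ b := by
    rw [← hF b]
    exact h.symm_apply_apply _
  refine ⟨inc, fun _ => rfl, ⟨h.symm, h.symm.continuous⟩, ⟨h, h.continuous⟩, hi, hF b,
    ⟨fun p => p.2, continuous_snd⟩, fun x => (h.apply_symm_apply x).symm, fun _ => rfl,
    fun _ => rfl, fun k => ?_⟩
  have hpath : ((δ k).map inc.continuous).map (h.symm.continuous) =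
      (((δ k).map (Cn.inc γ).continuous).cast hi hi) := by
    apply Path.ext
    funext t
    show h.symm (inc (δ k t)) = Cn.inc γ (δ k t)
    rw [← hF]
    exact h.symm_apply_apply _
  rw [← hpath]

end

end Pool.Agent.H659R3.CT
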