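import Pool.Agent.H659R3.CT.TopStmts

/-! Task TaskEPOf of the project H659-CT (helper265). -/

set_option autoImplicit false
set_option maxHeartbeats 4000000

namespace Pool.Agent.H659R3.CT

open unitInterval Topology

noncomputable section

/-- a homotopy of paths as a path of paths -/
def EPhom {M : Type} [TopologicalSpace M] {x y : M} {q q' : Path x y} (F : Path.Homotopy q q') :
    Path q q' where
  toFun t := F.eval t
  continuous_toFun := by
    refine Path.continuous_uncurry_iff.1 ?_
    exact F.continuous
  source' := F.eval_zero
  target' := F.eval_one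

theorem EPcont {M : Type} [TopologicalSpace M] {x y : M} {T : Type} [TopologicalSpace T]
    (N : T → Path x y) (hN : Continuous N) : Continuous fun q : T × I => N q.1 q.2 :=
  Path.continuous_uncurry_iff.2 hN

section

variable {n : ℕ} {M : Type} [TopologicalSpace M] {m : M} {a : Fin n → Path m m}
  (N : ∀ x, Path (a x) (Path.refl m))

/-- the homotopy on the 1-cells -/
def EPone : C(Bq n, C(I, M)) where
  toFun := Quot.lift (Sum.elim (fun _ => ContinuousMap.const I m) fun q =>
      ⟨fun s => N q.1 s q.2, (EPcont (fun s => N q.1 s) (N q.1).continuous).comp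
        (f := fun s : I => (s, q.2)) (by fun_prop)⟩) (by
    intro u v huv
    induction huv with
    | zero x =>
      ext s
      exact (N x s).source
    | one x =>
      ext s
      exact (N x s).target)
  continuous_toFun := by
    refine continuous_quot_lift _ (Continuous.sumElim continuous_const ?_)
    refine continuous_prod_of_discrete_left.2 fun x => ?_
    refine ContinuousMap.continuous_of_continuous_uncurry _ ?_
    exact (EPcont _ (N x).continuous).comp continuous_swap

/-- evaluation at time `s` -/
def EPev (s : I) : C(Bq n, M) := ⟨fun y => EPone N y s, by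
  have := (EPone N).continuous
  fun_prop⟩

theorem EPev_loop (s : I) (x : Fin n) :
    (Bq.loop x).map (EPev N s).continuous = N x s := rfl

theorem EPev_relA (p : Fin n → Fin n) (s : I) (x : Fin n) (u : I) :
    EPone N (relA n p x u) s = ((N x s).trans (N (p x) s)) u := by
  have h : (relA n p x).map (EPev N s).continuous = (N x s).trans (N (p x) s) := by
    unfold relA
    rw [Path.map_trans]
    rfl
  exact congrArg (fun q : Path m m => q u) h

theorem EPev_relB (p : Fin n → Fin n) (s : I) (x : Fin n) (u : I) :
    EPone N (relB n p x u) s = ((N (p x) s).trans ((N x s).trans (N x s))) u := by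
  have h : (relB n p x).map (EPev N s).continuous =
      (N (p x) s).trans ((N x s).trans (N x s)) := by
    unfold relB
    rw [Path.map_trans, Path.map_trans]
    rfl
  exact congrArg (fun q : Path m m => q u) h

/-- the homotopy on the complex -/
def EPall (p : Fin n → Fin n) (H : Fin n → C(I × I, Path m m))
    (h0 : ∀ x s, H x (s, 0) = (N x s).trans (N (p x) s))
    (h1 : ∀ x s, H x (s, 1) = (N (p x) s).trans ((N x s).trans (N x s))) :
    C(LL n p, C(I, M)) where
  toFun := Quot.lift (Sum.elim (EPone N) fun q =>
      ⟨fun s => H q.1 (s, q.2.1) q.2.2, (EPcont (fun s => H q.1 (s, q.2.1))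
        ((H q.1).continuous.comp (f := fun s : I => (s, q.2.1)) (by fun_prop))).comp
        (f := fun s : I => (s, q.2.2)) (by fun_prop)⟩) (by
    intro u v huv
    induction huv with
    | bot i u =>
      ext s
      change H i (s, 0) u = EPone N (relA n p i u) s
      rw [h0, EPev_relA]
    | top i u =>
      ext s
      change H i (s, 1) u = EPone N (relB n p i u) s
      rw [h1, EPev_relB]
    | left i t =>
      ext s
      exact (H i (s, t)).source
    | right i t =>
      ext s
      exact (H i (s, t)).target)
  continuous_toFun := by
    refine continuous_quot_lift _ (Continuous.sumElim (EPone N).continuous ?_)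
    refine continuous_prod_of_discrete_left.2 fun x => ?_
    refine ContinuousMap.continuous_of_continuous_uncurry _ ?_
    exact (EPcont _ (H x).continuous).comp
      (f := fun q : (I × I) × I => ((q.2, q.1.1), q.1.2)) (by fun_prop)

end

theorem taskEP : TaskFill → TaskPL → TaskEP := by
  intro hFill hPL n p M _ f hf
  set m : M := f (LL.pt n p) with hm
  let a : Fin n → Path m m := fun x => (LL.loop p x).map f.continuous
  have hA : ∀ x, ((relA n p x).map (Sq.inc (Bq.pt n) (relA n p) (relB n p)).continuous).map
      f.continuous = (a x).trans (a (p x)) := by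
    intro x
    have e1 : (relA n p x).map (Sq.inc (Bq.pt n) (relA n p) (relB n p)).continuous =
        (LL.loop p x).trans (LL.loop p (p x)) := by
      conv_lhs => rw [relA]
      rw [Path.map_trans]
      rfl
    refine (congrArg (fun q : Path (LL.pt n p) (LL.pt n p) => q.map f.continuous) e1).trans ?_
    exact Path.map_trans _ _ _
  have hB : ∀ x, ((relB n p x).map (Sq.inc (Bq.pt n) (relA n p) (relB n p)).continuous).map
      f.continuous = (a (p x)).trans ((a x).trans (a x)) := by
    intro x
    have e1 : (relB n p x).map (Sq.inc (Bq.pt n) (relA n p) (relB n p)).continuous =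
        (LL.loop p (p x)).trans ((LL.loop p x).trans (LL.loop p x)) := by
      conv_lhs => rw [relB]
      rw [Path.map_trans, Path.map_trans]
      rfl
    refine (congrArg (fun q : Path (LL.pt n p) (LL.pt n p) => q.map f.continuous) e1).trans ?_
    refine (Path.map_trans _ _ _).trans ?_
    exact congrArg (fun q : Path m m => (a (p x)).trans q) (Path.map_trans _ _ _)
  let γ : ∀ x, Path ((a x).trans (a (p x))) ((a (p x)).trans ((a x).trans (a x))) := fun x =>
    (EPhom ((Sq.hom (Bq.pt n) (relA n p) (relB n p) x).map f)).cast (hA x).symm (hB x).symm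
  obtain ⟨N, hN⟩ := hPL M m n p a γ (fun x => EPhom (hf x).some)
  choose H hH0 hHA hHB hH1 using fun x => hFill (Path m m) _ _ _ (γ x) _ _ (hN x)
  let G := EPall N p H (fun x s => hHA x s) (fun x s => hHB x s)
  refine ⟨⟨fun q => G q.2 q.1, ?_⟩, ?_, ?_, ?_⟩
  · have := G.continuous
    fun_prop
  · rintro ⟨y⟩
    rcases y with ⟨y⟩ | ⟨x, t, u⟩
    · rcases y with ⟨⟨⟩ | ⟨x, t⟩⟩
      · rfl
      · change N x 0 t = _
        rw [(N x).source]
        rfl
    · change H x (0, t) u = _
      rw [hH0]
      rfl
  · rintro ⟨y⟩
    rcases y with ⟨y⟩ | ⟨x, t, u⟩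
    · rcases y with ⟨⟨⟩ | ⟨x, t⟩⟩
      · rfl
      · change N x 1 t = _
        rw [(N x).target]
        rfl
    · change H x (1, t) u = _
      rw [hH1, Path.refl_trans_refl, Path.refl_trans_refl]
      rfl
  · intro s
    rfl

end

end Pool.Agent.H659R3.CT
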