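import Mathlib
import Pool.Agent.H659R3.CT.SimpStmts

set_option autoImplicit false

/-! Project H659-CT, task `TaskGph`: the bouquet of triangles. -/

namespace Pool.Agent.H659R3.CT.Gph

open unitInterval Topology Pool.Agent.H659R3.CT

noncomputable section

theorem pg3 (x : ℕ) (s : ℝ) (v : ℕ) : pg [0, 2 * x + 1, 2 * x + 2] s v =
    max 0 (1 - |3 * s|) * (if 0 = v then 1 else 0) +
    max 0 (1 - |3 * s - 1|) * (if 2 * x + 1 = v then 1 else 0) +
    max 0 (1 - |3 * s - 2|) * (if 2 * x + 2 = v then 1 else 0) +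
    max 0 (1 - |3 * s - 3|) * (if 0 = v then 1 else 0) := by
  unfold pg
  simp [Finset.sum_range_succ]

theorem pg_zero (x : ℕ) (s : ℝ) : pg [0, 2 * x + 1, 2 * x + 2] s 0 =
    max 0 (1 - |3 * s|) + max 0 (1 - |3 * s - 3|) := by
  rw [pg3]; simp

theorem pg_one (x : ℕ) (s : ℝ) : pg [0, 2 * x + 1, 2 * x + 2] s (2 * x + 1) =
    max 0 (1 - |3 * s - 1|) := by
  rw [pg3]; simp

theorem pg_two (x : ℕ) (s : ℝ) : pg [0, 2 * x + 1, 2 * x + 2] s (2 * x + 2) =
    max 0 (1 - |3 * s - 2|) := by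
  rw [pg3]; simp

theorem pg_other (x : ℕ) (s : ℝ) (v : ℕ) (h0 : v ≠ 0) (h1 : v ≠ 2 * x + 1)
    (h2 : v ≠ 2 * x + 2) : pg [0, 2 * x + 1, 2 * x + 2] s v = 0 := by
  rw [pg3, if_neg (Ne.symm h0), if_neg (Ne.symm h1), if_neg (Ne.symm h2)]; simp

theorem hat_mid {a : ℝ} (h0 : 0 ≤ a) (h1 : a ≤ 1) : max 0 (1 - |a|) = 1 - a := by
  rw [abs_of_nonneg h0, max_eq_right (by linarith)]

theorem hat_neg {a : ℝ} (h0 : a ≤ 0) (h1 : -1 ≤ a) : max 0 (1 - |a|) = 1 + a := by
  rw [abs_of_nonpos h0, max_eq_right (by linarith)]; ring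

theorem hat_big {a : ℝ} (h0 : 1 ≤ a) : max 0 (1 - |a|) = 0 := by
  rw [abs_of_nonneg (by linarith), max_eq_left (by linarith)]

theorem hat_small {a : ℝ} (h0 : a ≤ -1) : max 0 (1 - |a|) = 0 := by
  rw [abs_of_nonpos (by linarith), max_eq_left (by linarith)]

/-- the values in the three regions -/
theorem reg1 (x : ℕ) {s : ℝ} (h0 : 0 ≤ 3 * s) (h1 : 3 * s ≤ 1) :
    pg [0, 2 * x + 1, 2 * x + 2] s 0 = 1 - 3 * s ∧
    pg [0, 2 * x + 1, 2 * x + 2] s (2 * x + 1) = 3 * s ∧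
    pg [0, 2 * x + 1, 2 * x + 2] s (2 * x + 2) = 0 := by
  rw [pg_zero, pg_one, pg_two, hat_mid h0 h1, hat_small (by linarith : 3 * s - 3 ≤ -1),
    hat_neg (by linarith : 3 * s - 1 ≤ 0) (by linarith), hat_small (by linarith : 3 * s - 2 ≤ -1)]
  refine ⟨by ring, by ring, rfl⟩

theorem reg2 (x : ℕ) {s : ℝ} (h0 : 1 ≤ 3 * s) (h1 : 3 * s ≤ 2) :
    pg [0, 2 * x + 1, 2 * x + 2] s 0 = 0 ∧
    pg [0, 2 * x + 1, 2 * x + 2] s (2 * x + 1) = 2 - 3 * s ∧
    pg [0, 2 * x + 1, 2 * x + 2] s (2 * x + 2) = 3 * s - 1 := by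
  rw [pg_zero, pg_one, pg_two, hat_big h0, hat_small (by linarith : 3 * s - 3 ≤ -1),
    hat_mid (by linarith : 0 ≤ 3 * s - 1) (by linarith),
    hat_neg (by linarith : 3 * s - 2 ≤ 0) (by linarith)]
  refine ⟨by ring, by ring, by ring⟩

theorem reg3 (x : ℕ) {s : ℝ} (h0 : 2 ≤ 3 * s) (h1 : 3 * s ≤ 3) :
    pg [0, 2 * x + 1, 2 * x + 2] s 0 = 3 * s - 2 ∧
    pg [0, 2 * x + 1, 2 * x + 2] s (2 * x + 1) = 0 ∧
    pg [0, 2 * x + 1, 2 * x + 2] s (2 * x + 2) = 3 - 3 * s := by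
  rw [pg_zero, pg_one, pg_two, hat_big (by linarith), hat_neg (by linarith : 3 * s - 3 ≤ 0) (by linarith),
    hat_big (by linarith : 1 ≤ 3 * s - 1),
    hat_mid (by linarith : 0 ≤ 3 * s - 2) (by linarith)]
  refine ⟨by ring, rfl, by ring⟩

theorem mem_gph {n x : ℕ} (hx : x < n) : [0, 2 * x + 1] ∈ gph n ∧
    [2 * x + 1, 2 * x + 2] ∈ gph n ∧ [0, 2 * x + 2] ∈ gph n := by
  unfold gph
  simp only [List.mem_flatMap, List.mem_range]
  refine ⟨⟨x, hx, by simp⟩, ⟨x, hx, by simp⟩, ⟨x, hx, by simp⟩⟩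

theorem sum_pair (f : ℕ → ℝ) {a b : ℕ} (h : a ≠ b) : ∑ i ∈ [a, b].toFinset, f i = f a + f b := by
  have : [a, b].toFinset = {a, b} := by
    ext; simp
  rw [this, Finset.sum_pair h]

theorem pg_nonneg (e : List ℕ) (s : ℝ) (v : ℕ) : 0 ≤ pg e s v := by
  unfold pg
  apply Finset.sum_nonneg
  intro i _
  apply mul_nonneg (le_max_left _ _)
  split_ifs <;> norm_num

theorem pg_mem {n x : ℕ} (hx : x < n) {s : ℝ} (h0 : 0 ≤ s) (h1 : s ≤ 1) :
    ∃ S ∈ gph n, (∀ i, i ∉ S → pg [0, 2 * x + 1, 2 * x + 2] s i = 0) ∧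
      ∑ i ∈ S.toFinset, pg [0, 2 * x + 1, 2 * x + 2] s i = 1 := by
  obtain ⟨m1, m2, m3⟩ := mem_gph hx
  rcases le_total (3 * s) 1 with h | h
  · obtain ⟨a, b, c⟩ := reg1 x (by linarith) h
    refine ⟨_, m1, ?_, ?_⟩
    · intro i hi
      simp only [List.mem_cons, List.not_mem_nil, or_false, not_or] at hi
      by_cases h2 : i = 2 * x + 2
      · rw [h2, c]
      · exact pg_other x s i hi.1 hi.2 h2
    · rw [sum_pair _ (by omega), a, b]; ring
  · rcases le_total (3 * s) 2 with h' | h'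
    · obtain ⟨a, b, c⟩ := reg2 x h h'
      refine ⟨_, m2, ?_, ?_⟩
      · intro i hi
        simp only [List.mem_cons, List.not_mem_nil, or_false, not_or] at hi
        by_cases h2 : i = 0
        · rw [h2, a]
        · exact pg_other x s i h2 hi.1 hi.2
      · rw [sum_pair _ (by omega), b, c]; ring
    · obtain ⟨a, b, c⟩ := reg3 x h' (by linarith)
      refine ⟨_, m3, ?_, ?_⟩
      · intro i hi
        simp only [List.mem_cons, List.not_mem_nil, or_false, not_or] at hi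
        by_cases h2 : i = 2 * x + 1
        · rw [h2, b]
        · exact pg_other x s i hi.1 h2 hi.2
      · rw [sum_pair _ (by omega), a, c]; ring

/-- the points of the triangles -/
def P {n : ℕ} (x : Fin n) (t : I) : Rz (gph n) :=
  ⟨pg [0, 2 * x.1 + 1, 2 * x.1 + 2] t, fun i => pg_nonneg _ _ i, pg_mem x.2 t.2.1 t.2.2⟩

theorem P_cont {n : ℕ} (x : Fin n) : Continuous (P x) := by
  unfold P
  refine Continuous.subtype_mk ?_ _
  refine continuous_pi fun v => ?_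
  unfold pg
  fun_prop

theorem ext' {K : List (List ℕ)} {a b : Rz K} (h : a.1 = b.1) : a = b := Subtype.ext h

/-- the base point -/
def bp {n : ℕ} (hn : 0 < n) : Rz (gph n) := ⟨Pi.single 0 1, by
  intro i
  by_cases h : i = 0
  · subst h; simp
  · rw [Pi.single_eq_of_ne h], [0, 2 * 0 + 1], (mem_gph hn).1, by
  constructor
  · intro i hi
    simp only [List.mem_cons, List.not_mem_nil, or_false, not_or] at hi
    rw [Pi.single_eq_of_ne hi.1]
  · rw [sum_pair _ (by omega)]; simp⟩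

theorem P_zero {n : ℕ} (hn : 0 < n) (x : Fin n) : P x 0 = bp hn := by
  apply ext'
  funext v
  change pg _ ((0 : I) : ℝ) v = (Pi.single 0 1 : ℕ → ℝ) v
  obtain ⟨a, b, c⟩ := reg1 x.1 (s := ((0 : I) : ℝ)) (by simp) (by simp)
  by_cases h0 : v = 0
  · subst h0; rw [a]; simp
  · rw [Pi.single_eq_of_ne h0]
    by_cases h1 : v = 2 * x.1 + 1
    · rw [h1, b]; simp
    · by_cases h2 : v = 2 * x.1 + 2
      · rw [h2, c]
      · exact pg_other _ _ _ h0 h1 h2

theorem P_one {n : ℕ} (hn : 0 < n) (x : Fin n) : P x 1 = bp hn := by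
  apply ext'
  funext v
  change pg _ ((1 : I) : ℝ) v = (Pi.single 0 1 : ℕ → ℝ) v
  obtain ⟨a, b, c⟩ := reg3 x.1 (s := ((1 : I) : ℝ)) (by norm_num) (by norm_num)
  by_cases h0 : v = 0
  · subst h0; rw [a]; norm_num
  · rw [Pi.single_eq_of_ne h0]
    by_cases h1 : v = 2 * x.1 + 1
    · rw [h1, b]
    · by_cases h2 : v = 2 * x.1 + 2
      · rw [h2, c]; norm_num
      · exact pg_other _ _ _ h0 h1 h2

/-- the map out of the bouquet -/
def rr {n : ℕ} (hn : 0 < n) : Bq n → Rz (gph n) :=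
  Quot.lift (Sum.elim (fun _ => bp hn) fun p => P p.1 p.2) (by
    intro a b hab
    induction hab with
    | zero x => exact P_zero hn x
    | one x => exact P_one hn x)

theorem rr_cont {n : ℕ} (hn : 0 < n) : Continuous (rr hn) := by
  refine continuous_quot_lift _ (Continuous.sumElim continuous_const ?_)
  rw [continuous_prod_of_discrete_left]
  exact fun x => P_cont x

theorem base_of {n : ℕ} (hn : 0 < n) (x : Fin n) (t : I) (h : P x t = bp hn) :
    (t = 0 ∨ t = 1) := by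
  have h0 : pg [0, 2 * x.1 + 1, 2 * x.1 + 2] (t : ℝ) 0 = 1 := by
    have := congrArg (fun q : Rz (gph n) => q.1 0) h
    change pg _ (t : ℝ) 0 = (Pi.single 0 1 : ℕ → ℝ) 0 at this
    rw [this]; simp
  have t0 := t.2.1
  have t1 := t.2.2
  rcases le_total (3 * (t:ℝ)) 1 with h' | h'
  · obtain ⟨a, b, c⟩ := reg1 x.1 (s := (t:ℝ)) (by linarith) h'
    left
    apply Subtype.ext
    change (t : ℝ) = 0
    linarith
  · rcases le_total (3 * (t:ℝ)) 2 with h'' | h''
    · obtain ⟨a, b, c⟩ := reg2 x.1 (s := (t:ℝ)) h' h''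
      linarith
    · obtain ⟨a, b, c⟩ := reg3 x.1 (s := (t:ℝ)) h'' (by linarith)
      right
      apply Subtype.ext
      change (t : ℝ) = 1
      linarith

theorem same {x : ℕ} {s t : ℝ} (s0 : 0 ≤ s) (s1 : s ≤ 1) (t0 : 0 ≤ t) (t1 : t ≤ 1)
    (h0 : pg [0, 2 * x + 1, 2 * x + 2] s 0 = pg [0, 2 * x + 1, 2 * x + 2] t 0)
    (h1 : pg [0, 2 * x + 1, 2 * x + 2] s (2 * x + 1) =
      pg [0, 2 * x + 1, 2 * x + 2] t (2 * x + 1))
    (h2 : pg [0, 2 * x + 1, 2 * x + 2] s (2 * x + 2) =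
      pg [0, 2 * x + 1, 2 * x + 2] t (2 * x + 2)) : s = t ∨ ((s = 0 ∨ s = 1) ∧ (t = 0 ∨ t = 1)) := by
  have key : ∀ s : ℝ, 0 ≤ s → s ≤ 1 →
      (pg [0, 2 * x + 1, 2 * x + 2] s 0 = 1 - 3 * s ∧
        pg [0, 2 * x + 1, 2 * x + 2] s (2 * x + 1) = 3 * s ∧
        pg [0, 2 * x + 1, 2 * x + 2] s (2 * x + 2) = 0 ∧ 3 * s ≤ 1) ∨
      (pg [0, 2 * x + 1, 2 * x + 2] s 0 = 0 ∧
        pg [0, 2 * x + 1, 2 * x + 2] s (2 * x + 1) = 2 - 3 * s ∧
        pg [0, 2 * x + 1, 2 * x + 2] s (2 * x + 2) = 3 * s - 1 ∧ 1 ≤ 3 * s ∧ 3 * s ≤ 2) ∨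
      (pg [0, 2 * x + 1, 2 * x + 2] s 0 = 3 * s - 2 ∧
        pg [0, 2 * x + 1, 2 * x + 2] s (2 * x + 1) = 0 ∧
        pg [0, 2 * x + 1, 2 * x + 2] s (2 * x + 2) = 3 - 3 * s ∧ 2 ≤ 3 * s) := by
    intro s s0 s1
    rcases le_total (3 * s) 1 with h | h
    · obtain ⟨a, b, c⟩ := reg1 x (s := s) (by linarith) h
      exact Or.inl ⟨a, b, c, h⟩
    · rcases le_total (3 * s) 2 with h' | h'
      · obtain ⟨a, b, c⟩ := reg2 x h h'
        exact Or.inr (Or.inl ⟨a, b, c, h, h'⟩)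
      · obtain ⟨a, b, c⟩ := reg3 x h' (by linarith)
        exact Or.inr (Or.inr ⟨a, b, c, h'⟩)
  rcases key s s0 s1 with ⟨a, b, c, d⟩ | ⟨a, b, c, d, d'⟩ | ⟨a, b, c, d⟩ <;>
    rcases key t t0 t1 with ⟨a', b', c', e⟩ | ⟨a', b', c', e, e'⟩ | ⟨a', b', c', e⟩ <;>
    rw [a, a'] at h0 <;> rw [b, b'] at h1 <;> rw [c, c'] at h2
  · left; linarith
  · left; linarith
  · right
    exact ⟨Or.inl (by linarith), Or.inr (by linarith)⟩
  · left; linarith
  · left; linarith
  · left; linarith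
  · right
    exact ⟨Or.inr (by linarith), Or.inl (by linarith)⟩
  · left; linarith
  · left; linarith

theorem mk_base {n : ℕ} (x : Fin n) (t : I) (h : t = 0 ∨ t = 1) :
    (Quot.mk _ (Sum.inr (x, t)) : Bq n) = Quot.mk _ (Sum.inl ()) := by
  rcases h with rfl | rfl
  · exact Quot.sound (BqRel.zero x)
  · exact Quot.sound (BqRel.one x)

theorem rr_inj {n : ℕ} (hn : 0 < n) : Function.Injective (rr hn) := by
  intro p q
  induction p using Quot.ind with
  | mk p =>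
  induction q using Quot.ind with
  | mk q =>
  intro h
  rcases p with ⟨⟩ | ⟨x, t⟩ <;> rcases q with ⟨⟩ | ⟨y, s⟩
  · rfl
  · exact (mk_base y s (base_of hn y s (Eq.symm h))).symm
  · exact mk_base x t (base_of hn x t h)
  · have h' : P x t = P y s := h
    by_cases hb : P x t = bp hn
    · rw [mk_base x t (base_of hn x t hb), mk_base y s (base_of hn y s (h' ▸ hb))]
    · have hv : ∀ v, pg [0, 2 * x.1 + 1, 2 * x.1 + 2] (t : ℝ) v =
          pg [0, 2 * y.1 + 1, 2 * y.1 + 2] (s : ℝ) v := fun v =>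
        congrArg (fun q : Rz (gph n) => q.1 v) h'
      have hxy : x = y := by
        by_contra hne
        apply hb
        have hne' : x.1 ≠ y.1 := fun hh => hne (Fin.ext hh)
        have v1 : pg [0, 2 * x.1 + 1, 2 * x.1 + 2] (t : ℝ) (2 * x.1 + 1) = 0 := by
          rw [hv]; exact pg_other _ _ _ (by omega) (by omega) (by omega)
        have v2 : pg [0, 2 * x.1 + 1, 2 * x.1 + 2] (t : ℝ) (2 * x.1 + 2) = 0 := by
          rw [hv]; exact pg_other _ _ _ (by omega) (by omega) (by omega)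
        have t0 := t.2.1
        have t1 := t.2.2
        rcases le_total (3 * (t:ℝ)) 1 with h1 | h1
        · obtain ⟨a, b, c⟩ := reg1 x.1 (s := (t:ℝ)) (by linarith) h1
          have : t = 0 := by
            apply Subtype.ext
            change (t : ℝ) = 0
            linarith
          rw [this]; exact P_zero hn x
        · rcases le_total (3 * (t:ℝ)) 2 with h2 | h2
          · obtain ⟨a, b, c⟩ := reg2 x.1 (s := (t:ℝ)) h1 h2
            linarith
          · obtain ⟨a, b, c⟩ := reg3 x.1 (s := (t:ℝ)) h2 (by linarith)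
            have : t = 1 := by
              apply Subtype.ext
              change (t : ℝ) = 1
              linarith
            rw [this]; exact P_one hn x
      subst hxy
      rcases same t.2.1 t.2.2 s.2.1 s.2.2 (hv _) (hv _) (hv _) with h1 | ⟨h1, h2⟩
      · have : t = s := Subtype.ext h1
        rw [this]
      · rw [mk_base x t, mk_base x s]
        · rcases h2 with h2 | h2
          · exact Or.inl (Subtype.ext h2)
          · exact Or.inr (Subtype.ext h2)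
        · rcases h1 with h1 | h1
          · exact Or.inl (Subtype.ext h1)
          · exact Or.inr (Subtype.ext h1)

theorem rr_surj {n : ℕ} (hn : 0 < n) : Function.Surjective (rr hn) := by
  rintro ⟨f, hf, S, hS, hz, hs⟩
  unfold gph at hS
  simp only [List.mem_flatMap, List.mem_range] at hS
  obtain ⟨x, hx, hS⟩ := hS
  simp only [List.mem_cons, List.not_mem_nil, or_false] at hS
  have main : ∀ t : I, (f 0 = pg [0, 2 * x + 1, 2 * x + 2] (t : ℝ) 0) →
      (f (2 * x + 1) = pg [0, 2 * x + 1, 2 * x + 2] (t : ℝ) (2 * x + 1)) →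
      (f (2 * x + 2) = pg [0, 2 * x + 1, 2 * x + 2] (t : ℝ) (2 * x + 2)) →
      (∀ v, v ≠ 0 → v ≠ 2 * x + 1 → v ≠ 2 * x + 2 → f v = 0) →
      ∃ q, rr hn q = (⟨f, hf, S, (by
        unfold gph
        simp only [List.mem_flatMap, List.mem_range]
        exact ⟨x, hx, by simpa using hS⟩), hz, hs⟩ : Rz (gph n)) := by
    intro t h0 h1 h2 h3
    refine ⟨Quot.mk _ (Sum.inr (⟨x, hx⟩, t)), ext' ?_⟩
    funext v
    change pg [0, 2 * x + 1, 2 * x + 2] (t : ℝ) v = f v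
    by_cases e0 : v = 0
    · rw [e0, h0]
    · by_cases e1 : v = 2 * x + 1
      · rw [e1, h1]
      · by_cases e2 : v = 2 * x + 2
        · rw [e2, h2]
        · rw [h3 v e0 e1 e2]; exact pg_other _ _ _ e0 e1 e2
  rcases hS with rfl | rfl | rfl
  · rw [sum_pair _ (by omega)] at hs
    have f0 := hf 0
    have f1 := hf (2 * x + 1)
    have f2 : f (2 * x + 2) = 0 := hz _ (by simp)
    have hm : f (2 * x + 1) / 3 ∈ I := ⟨by linarith, by linarith⟩
    obtain ⟨a, b, c⟩ := reg1 x (s := f (2 * x + 1) / 3) (by linarith) (by linarith)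
    refine main ⟨f (2 * x + 1) / 3, hm⟩ ?_ ?_ ?_ ?_
    · change f 0 = pg _ (f (2 * x + 1) / 3) 0
      rw [a]; linarith
    · change f (2 * x + 1) = pg _ (f (2 * x + 1) / 3) (2 * x + 1)
      rw [b]; linarith
    · change f (2 * x + 2) = pg _ (f (2 * x + 1) / 3) (2 * x + 2)
      rw [c, f2]
    · intro v h0 h1 h2
      exact hz v (by simp [h0, h1])
  · rw [sum_pair _ (by omega)] at hs
    have f0 : f 0 = 0 := hz _ (by simp)
    have f1 := hf (2 * x + 1)
    have f2 := hf (2 * x + 2)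
    have hm : (1 + f (2 * x + 2)) / 3 ∈ I := ⟨by linarith, by linarith⟩
    obtain ⟨a, b, c⟩ := reg2 x (s := (1 + f (2 * x + 2)) / 3) (by linarith) (by linarith)
    refine main ⟨(1 + f (2 * x + 2)) / 3, hm⟩ ?_ ?_ ?_ ?_
    · change f 0 = pg _ ((1 + f (2 * x + 2)) / 3) 0
      rw [a, f0]
    · change f (2 * x + 1) = pg _ ((1 + f (2 * x + 2)) / 3) (2 * x + 1)
      rw [b]; linarith
    · change f (2 * x + 2) = pg _ ((1 + f (2 * x + 2)) / 3) (2 * x + 2)
      rw [c]; linarith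
    · intro v h0 h1 h2
      exact hz v (by simp [h1, h2])
  · rw [sum_pair _ (by omega)] at hs
    have f0 := hf 0
    have f1 : f (2 * x + 1) = 0 := hz _ (by simp)
    have f2 := hf (2 * x + 2)
    have hm : (2 + f 0) / 3 ∈ I := ⟨by linarith, by linarith⟩
    obtain ⟨a, b, c⟩ := reg3 x (s := (2 + f 0) / 3) (by linarith) (by linarith)
    refine main ⟨(2 + f 0) / 3, hm⟩ ?_ ?_ ?_ ?_
    · change f 0 = pg _ ((2 + f 0) / 3) 0
      rw [a]; linarith
    · change f (2 * x + 1) = pg _ ((2 + f 0) / 3) (2 * x + 1)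
      rw [b, f1]
    · change f (2 * x + 2) = pg _ ((2 + f 0) / 3) (2 * x + 2)
      rw [c]; linarith
    · intro v h0 h1 h2
      exact hz v (by simp [h0, h2])

instance (n : ℕ) : CompactSpace (Bq n) := inferInstanceAs (CompactSpace (Quot (BqRel n)))

instance (K : List (List ℕ)) : T2Space (Rz K) :=
  inferInstanceAs (T2Space {x : ℕ → ℝ // (∀ i, 0 ≤ x i) ∧
    ∃ s ∈ K, (∀ i, i ∉ s → x i = 0) ∧ ∑ i ∈ s.toFinset, x i = 1})

/-- the homeomorphism -/
def ho {n : ℕ} (hn : 0 < n) : Bq n ≃ₜ Rz (gph n) :=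
  Continuous.homeoOfEquivCompactToT2 (f := Equiv.ofBijective (rr hn) ⟨rr_inj hn, rr_surj hn⟩)
    (rr_cont hn)

theorem ho_apply {n : ℕ} (hn : 0 < n) (q : Bq n) : ho hn q = rr hn q := rfl

/-- the loops -/
def lp {n : ℕ} (hn : 0 < n) (x : Fin n) : Path (bp hn) (bp hn) where
  toFun t := P x t
  continuous_toFun := P_cont x
  source' := P_zero hn x
  target' := P_one hn x

end

end Pool.Agent.H659R3.CT.Gph

namespace Pool.Agent.H659R3.CT

open Gph unitInterval

theorem taskGph : TaskGph := by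
  intro n hn
  refine ⟨Gph.bp hn, Gph.lp hn, rfl, fun x s => rfl, ⟨(Gph.ho hn).symm, (Gph.ho hn).symm.continuous⟩,
    ⟨Gph.ho hn, (Gph.ho hn).continuous⟩, ?_, ?_, ⟨fun p => p.2, continuous_snd⟩, ?_, fun _ => rfl,
    fun _ => rfl, ?_⟩
  · change (Gph.ho hn).symm (Gph.bp hn) = Bq.pt n
    rw [Homeomorph.symm_apply_eq]
    rfl
  · rfl
  · intro x
    change x = Gph.ho hn ((Gph.ho hn).symm x)
    rw [Homeomorph.apply_symm_apply]
  · intro j
    have : (Gph.lp hn j).map (⟨(Gph.ho hn).symm, (Gph.ho hn).symm.continuous⟩ :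
        C(Rz (gph n), Bq n)).continuous = (Bq.loop j).cast (by
          change (Gph.ho hn).symm (Gph.bp hn) = Bq.pt n
          rw [Homeomorph.symm_apply_eq]
          rfl) (by
          change (Gph.ho hn).symm (Gph.bp hn) = Bq.pt n
          rw [Homeomorph.symm_apply_eq]
          rfl) := by
      ext t
      change (Gph.ho hn).symm (P j t) = Bq.loop j t
      rw [Homeomorph.symm_apply_eq]
      rfl
    rw [this]

end Pool.Agent.H659R3.CT
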