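import Pool.Agent.H659R3.CT.TopStmts

set_option autoImplicit false

/-! Maps out of the complex. -/

namespace Pool.Agent.H659R3.CT

open unitInterval Topology

noncomputable section

namespace MapAux

variable {Z : Type} [TopologicalSpace Z] {z : Z} {n : ℕ}

/-- the map from the bouquet -/
def g0 (a : Fin n → Path z z) : C(Bq n, Z) where
  toFun := Quot.lift (Sum.elim (fun _ => z) fun q : Fin n × I => a q.1 q.2) (by
    intro x y hxy
    induction hxy with
    | zero x => exact (a x).source
    | one x => exact (a x).target)
  continuous_toFun := by
    refine continuous_quot_lift _ (Continuous.sumElim continuous_const ?_)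
    rw [continuous_prod_of_discrete_left]
    intro x
    exact (a x).continuous

theorem g0_loop (a : Fin n → Path z z) (x : Fin n) :
    (Bq.loop x).map (g0 a).continuous = a x := rfl

theorem map_wloop {Y : Type} [TopologicalSpace Y] {y : Y} (g : C(Y, Z)) (l : Fin n → Path y y)
    (w : Wd) : (wloop l w).map g.continuous = wloop (fun x => (l x).map g.continuous) w := by
  induction w with
  | nil => rfl
  | cons e V ih =>
    simp only [wloop]
    rw [Path.map_trans, ih]
    congr 1
    split_ifs <;> rfl

/-- the map from the product with the bouquet -/
def g2 {L : Type} [TopologicalSpace L] (J : ℕ) (g : C(L, Z)) : C(Cy L J, Z) where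
  toFun := Quot.lift (Sum.elim g fun q : L × (Fin J × I) => g q.1) (by
    intro x y hxy
    induction hxy with
    | zero x j => rfl
    | one x j => rfl)
  continuous_toFun := by
    refine continuous_quot_lift _ (Continuous.sumElim g.continuous ?_)
    exact g.continuous.comp continuous_fst

end MapAux

open MapAux

theorem taskMap : TaskMap := by
  intro n p r Z _ z a h1 h2
  have e1 : ∀ x, (relA n p x).map (g0 a).continuous = (a x).trans (a (p x)) := by
    intro x
    exact Path.map_trans _ _ _
  have e2 : ∀ x, (relB n p x).map (g0 a).continuous =
      (a (p x)).trans ((a x).trans (a x)) := by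
    intro x
    unfold relB
    rw [Path.map_trans, Path.map_trans]
    rfl
  have K1 : ∀ x, Nonempty (Path.Homotopy ((relA n p x).map (g0 a).continuous)
      ((relB n p x).map (g0 a).continuous)) := by
    intro x
    rw [e1 x, e2 x]
    exact h1 x
  have k1 := fun x => (K1 x).some
  have c1 : Continuous fun q : Fin n × I × I => k1 q.1 q.2 := by
    rw [continuous_prod_of_discrete_left]
    intro x
    exact (k1 x).continuous
  let g1 : C(LL n p, Z) := Sq.desc (Bq.pt n) (relA n p) (relB n p) (g0 a) k1 c1
  have f1 : ∀ x, (LL.loop p x).map g1.continuous = a x := fun x => rfl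
  let g : C(Cy (LL n p) r.length, Z) := g2 r.length g1
  have e3 : ∀ j, (lowL n p r j).map g.continuous = wloop a (r.get j) := by
    intro j
    have h : (lowL n p r j).map g.continuous = (wloop (LL.loop p) (r.get j)).map g1.continuous :=
      rfl
    rw [h, map_wloop]
    rfl
  have e4 : ∀ j, (upL n p r j).map g.continuous = Path.refl z := fun j => rfl
  have K2 : ∀ j, Nonempty (Path.Homotopy ((lowL n p r j).map g.continuous)
      ((upL n p r j).map g.continuous)) := by
    intro j
    rw [e3 j, e4 j]
    exact h2 j
  have k2 := fun j => (K2 j).some
  have c2 : Continuous fun q : Fin r.length × I × I => k2 q.1 q.2 := by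
    rw [continuous_prod_of_discrete_left]
    intro x
    exact (k2 x).continuous
  refine ⟨Sq.desc (bp n p r.length) (lowL n p r) (upL n p r) g k2 c2, rfl, fun x t => rfl⟩

end

end Pool.Agent.H659R3.CT
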