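import Pool.Agent.H659R3.CT.Stmts

set_option autoImplicit false

namespace Pool.Agent.H659R3.CT

theorem Inf.map' {G H : Type} [Group G] [Group H] {x : G} (hx : Inf x) (i : G →* H)
    (hi : Function.Injective i) : Inf (i x) := by
  intro n hn
  apply hx n
  apply hi
  rw [map_zpow, hn, map_one]

theorem Inf.ne_one {G : Type} [Group G] {x : G} (hx : Inf x) : x ≠ 1 := by
  intro h
  have := hx 1 (by rw [h, one_zpow])
  exact one_ne_zero this

theorem FreePair.inf_left {G : Type} [Group G] {x y : G} (h : FreePair x y) : Inf x := by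
  intro n hn
  have h1 : FreeGroup.lift (fun b : Bool => if b then x else y) (FreeGroup.of true ^ n) = 1 := by
    rw [map_zpow, FreeGroup.lift_apply_of]
    simpa using hn
  have h2 : (FreeGroup.of true : FreeGroup Bool) ^ n = 1 := by
    apply h
    rw [h1, map_one]
  have h3 : FreeGroup.lift (fun _ : Bool => Multiplicative.ofAdd (1 : ℤ))
      (FreeGroup.of true ^ n) = 1 := by
    rw [h2]; exact MonoidHom.map_one _
  rw [map_zpow, FreeGroup.lift_apply_of, ← ofAdd_zsmul] at h3
  have h4 : n • (1 : ℤ) = 0 := Multiplicative.ofAdd.injective h3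
  simpa using h4

theorem FreePair.swap {G : Type} [Group G] {x y : G} (h : FreePair x y) : FreePair y x := by
  unfold FreePair at h ⊢
  have e1 : FreeGroup.lift (fun b : Bool => if b then y else x) =
      (FreeGroup.lift (fun b : Bool => if b then x else y)).comp (FreeGroup.map not) := by
    apply FreeGroup.ext_hom
    intro b
    cases b <;> simp
  rw [e1, MonoidHom.coe_comp]
  apply Function.Injective.comp h
  have e2 : Function.LeftInverse (FreeGroup.map not) (FreeGroup.map not) := by
    intro w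
    rw [FreeGroup.map.comp]
    have : (not ∘ not) = (id : Bool → Bool) := by
      funext b; simp
    rw [this, FreeGroup.map.id]
  exact e2.injective

theorem FreePair.map' {G H : Type} [Group G] [Group H] {x y : G} (h : FreePair x y) (i : G →* H)
    (hi : Function.Injective i) : FreePair (i x) (i y) := by
  unfold FreePair at h ⊢
  have e1 : FreeGroup.lift (fun b : Bool => if b then i x else i y) =
      i.comp (FreeGroup.lift (fun b : Bool => if b then x else y)) := by
    apply FreeGroup.ext_hom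
    intro b
    cases b <;> simp
  rw [e1, MonoidHom.coe_comp]
  exact hi.comp h

theorem conj_sq {G : Type} [Group G] (R A : G) : R⁻¹ * A ^ 2 * R = (R⁻¹ * A * R) ^ 2 := by
  rw [pow_two, pow_two]
  simp only [mul_assoc, mul_inv_cancel_left]

/-- the group `Q` -/
theorem exists_Q (hFP : TaskFP) : ∃ (Q : Type) (_ : Group Q) (X Y ζ : Q),
    Y⁻¹ * X * Y = X ^ 2 ∧ ζ⁻¹ * Y * ζ = Y ^ 2 ∧ FreePair ζ X := by
  obtain ⟨Q0, _, i0, y, hi0, hy, hfp⟩ := hFP (Multiplicative (ℤ × ℤ))
    (Multiplicative.ofAdd (1, 0)) (Multiplicative.ofAdd (0, 1))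
    (by
      intro n hn
      rw [← ofAdd_zsmul] at hn
      have h : n • ((1, 0) : ℤ × ℤ) = 0 := Multiplicative.ofAdd.injective hn
      have := congrArg Prod.fst h
      simpa using this)
    (by
      intro n hn
      rw [← ofAdd_zsmul] at hn
      have h : n • ((0, 1) : ℤ × ℤ) = 0 := Multiplicative.ofAdd.injective hn
      have := congrArg Prod.snd h
      simpa using this)
    (by
      intro m n hn
      rw [← ofAdd_zsmul, ← ofAdd_zsmul] at hn
      have h : m • ((1, 0) : ℤ × ℤ) = n • ((0, 1) : ℤ × ℤ) := Multiplicative.ofAdd.injective hn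
      have := congrArg Prod.snd h
      simpa using this.symm)
  set x' := i0 (Multiplicative.ofAdd (1, 0)) with hx'
  have hx'inf : Inf x' := by
    apply Inf.map' _ i0 hi0
    intro n hn
    rw [← ofAdd_zsmul] at hn
    have h : n • ((1, 0) : ℤ × ℤ) = 0 := Multiplicative.ofAdd.injective hn
    have := congrArg Prod.fst h
    simpa using this
  have hyinf : Inf y := hfp.inf_left
  obtain ⟨Q, _, i1, ζ, hi1, hζ, hfp1⟩ := hFP Q0 y x' hyinf hx'inf (by
    intro m n hmn
    have h1 : y⁻¹ * x' ^ n * y = (x' ^ 2) ^ n := by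
      rw [← hy]
      have := map_zpow (MulAut.conj y⁻¹ : Q0 ≃* Q0) x' n
      simpa [MulAut.conj_apply] using this
    rw [← hmn] at h1
    have h2 : y⁻¹ * y ^ m * y = y ^ m := by group
    rw [h2, hmn] at h1
    apply hx'inf
    have h3 : (x' ^ 2) ^ n = x' ^ n * x' ^ n := by
      rw [← zpow_natCast, ← zpow_mul, mul_comm, zpow_mul, ← zpow_add, ← zpow_mul]
      congr 1
      push_cast
      ring
    rw [h3] at h1
    exact left_eq_mul.mp h1)
  refine ⟨Q, inferInstance, i1 x', i1 y, ζ, ?_, hζ, hfp1⟩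
  rw [← map_inv, ← map_mul, ← map_mul, hy, map_pow]

/-- the list of generators of the base -/
noncomputable def eN {G : Type} (k : ℕ) (v s z : G) (y : Fin k → G) (x : ℕ) : G :=
  if x = 0 then v else if x = 1 then s else if x = 2 then z else
    if h : x - 3 < k then y ⟨x - 3, h⟩ else v

theorem taskModel : TaskHNN → TaskFP → TaskBase → TaskStable → TaskModel := by
  intro hHNN hFP hBase hStable k S w hw
  obtain ⟨G0, _, v, s, y, hv, hs, hy, hS, hz⟩ := hBase k S w hw
  set wb := FreeGroup.lift (fun i => y i * v⁻¹) (FreeGroup.mk w) with hwb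
  set z := wb * s * wb⁻¹ * s⁻¹ with hzdef
  have he : ∀ x, Inf (eN k v s z y x) := by
    intro x
    unfold eN
    split_ifs
    · exact hv
    · exact hs
    · exact hz
    · exact hy _
    · exact hv
  obtain ⟨H1, _, i1, t, a, hi1, ht, ha, hainf, hap⟩ := hStable (NE k) G0
    (fun m => eN k v s z y m.1) (fun m => he m.1)
  obtain ⟨H2, _, i2, b, hi2, hb, hfpb⟩ := hFP H1 a (i1 z) hainf (Inf.map' hz i1 hi1) (by
    intro m n hmn
    rw [← map_zpow] at hmn
    have hm : m = 0 := hap _ _ hmn.symm
    rw [hm, zpow_zero] at hmn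
    apply hz
    apply hi1
    rw [map_one]
    exact hmn.symm)
  obtain ⟨Q, _, X, Y, ζ, hXY, hζY, hfpQ⟩ := exists_Q hFP
  have hj : Function.Injective (FreeGroup.lift (fun c : Bool =>
      if c then MonoidHom.inl H2 Q b else MonoidHom.inl H2 Q (i2 (i1 z)))) :=
    hfpb.map' (MonoidHom.inl H2 Q) (by
      intro p q hpq
      exact congrArg Prod.fst hpq)
  have hj' : Function.Injective (FreeGroup.lift (fun c : Bool =>
      if c then MonoidHom.inr H2 Q X else MonoidHom.inr H2 Q ζ)) :=
    (hfpQ.swap).map' (MonoidHom.inr H2 Q) (by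
      intro p q hpq
      exact congrArg Prod.snd hpq)
  obtain ⟨H3, _, i3, R, hi3, hR⟩ := hHNN (H2 × Q) (FreeGroup Bool) _ _ hj hj'
  have hR1 := hR (FreeGroup.of true)
  have hR2 := hR (FreeGroup.of false)
  rw [FreeGroup.lift_apply_of, FreeGroup.lift_apply_of] at hR1 hR2
  simp only [if_true, Bool.false_eq_true, if_false] at hR1 hR2
  -- the maps into the final group
  set J2 : H2 →* H3 := i3.comp (MonoidHom.inl H2 Q) with hJ2
  set JQ : Q →* H3 := i3.comp (MonoidHom.inr H2 Q) with hJQ
  have hJ2inj : Function.Injective J2 := by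
    intro p q hpq
    have := hi3 hpq
    exact congrArg Prod.fst this
  have hR1' : R * J2 b = JQ X * R := hR1
  have hR2' : R * J2 (i2 (i1 z)) = JQ ζ * R := hR2
  set c : H3 := R⁻¹ * JQ Y * R with hc
  have hB : J2 b = R⁻¹ * JQ X * R := by rw [mul_assoc, ← hR1', inv_mul_cancel_left]
  have hZ : J2 (i2 (i1 z)) = R⁻¹ * JQ ζ * R := by rw [mul_assoc, ← hR2', inv_mul_cancel_left]
  have hcB : c⁻¹ * J2 b * c = J2 b ^ 2 := by
    have h1 : (JQ Y)⁻¹ * JQ X * JQ Y = JQ X ^ 2 := by
      rw [← map_inv, ← map_mul, ← map_mul, hXY, map_pow]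
    calc c⁻¹ * J2 b * c = R⁻¹ * ((JQ Y)⁻¹ * JQ X * JQ Y) * R := by rw [hB, hc]; group
      _ = R⁻¹ * JQ X ^ 2 * R := by rw [h1]
      _ = J2 b ^ 2 := by rw [hB, conj_sq]
  have hZc : (J2 (i2 (i1 z)))⁻¹ * c * J2 (i2 (i1 z)) = c ^ 2 := by
    have h1 : (JQ ζ)⁻¹ * JQ Y * JQ ζ = JQ Y ^ 2 := by
      rw [← map_inv, ← map_mul, ← map_mul, hζY, map_pow]
    calc (J2 (i2 (i1 z)))⁻¹ * c * J2 (i2 (i1 z)) = R⁻¹ * ((JQ ζ)⁻¹ * JQ Y * JQ ζ) * R := by
          rw [hZ, hc]; group
      _ = R⁻¹ * JQ Y ^ 2 * R := by rw [h1]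
      _ = c ^ 2 := by rw [hc, conj_sq]
  have hE3 : 3 ≤ NE k := by unfold NE; omega
  set Φ : G0 →* H3 := J2.comp (i2.comp i1) with hΦ
  set g : ℕ → H3 := fun x => if x < NE k then Φ (eN k v s z y x) else
    if h : x - NE k < NE k then J2 (i2 (t ⟨x - NE k, h⟩)) else
    if x = 2 * NE k then J2 (i2 a) else if x = 2 * NE k + 1 then J2 b else c with hg
  have g1 : ∀ x, x < NE k → g x = Φ (eN k v s z y x) := by
    intro x hx
    simp only [hg, if_pos hx]
  have g2 : ∀ x (h1 : NE k ≤ x) (h2 : x - NE k < NE k), g x = J2 (i2 (t ⟨x - NE k, h2⟩)) := by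
    intro x h1 h2
    simp only [hg, if_neg (not_lt.mpr h1), dif_pos h2]
  have g3 : g (2 * NE k) = J2 (i2 a) := by
    have h1 : ¬ (2 * NE k < NE k) := by omega
    have h2 : ¬ (2 * NE k - NE k < NE k) := by omega
    simp only [hg, if_neg h1, dif_neg h2, if_true]
  have g4 : g (2 * NE k + 1) = J2 b := by
    have h1 : ¬ (2 * NE k + 1 < NE k) := by omega
    have h2 : ¬ (2 * NE k + 1 - NE k < NE k) := by omega
    have h3 : ¬ (2 * NE k + 1 = 2 * NE k) := by omega
    simp only [hg, if_neg h1, dif_neg h2, if_neg h3, if_true]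
  have g5 : g (2 * NE k + 2) = c := by
    have h1 : ¬ (2 * NE k + 2 < NE k) := by omega
    have h2 : ¬ (2 * NE k + 2 - NE k < NE k) := by omega
    have h3 : ¬ (2 * NE k + 2 = 2 * NE k) := by omega
    have h4 : ¬ (2 * NE k + 2 = 2 * NE k + 1) := by omega
    simp only [hg, if_neg h1, dif_neg h2, if_neg h3, if_neg h4]
  have e0 : eN k v s z y 0 = v := by simp [eN]
  have e1 : eN k v s z y 1 = s := by simp [eN]
  have e2 : eN k v s z y 2 = z := by simp [eN]
  have e3 : ∀ i : Fin k, eN k v s z y (3 + i.1) = y i := by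
    intro i
    have h1 : ¬ (3 + i.1 = 0) := by omega
    have h2 : ¬ (3 + i.1 = 1) := by omega
    have h3 : ¬ (3 + i.1 = 2) := by omega
    have h4 : 3 + i.1 - 3 < k := by have := i.2; omega
    rw [eN, if_neg h1, if_neg h2, if_neg h3, dif_pos h4]
    congr 1
    apply Fin.ext
    simp
  have hlift : ∀ r : FreeGroup (Fin k),
      FreeGroup.lift (fun i : Fin k => g (3 + i.1) * (g 0)⁻¹) r =
        Φ (FreeGroup.lift (fun i => y i * v⁻¹) r) := by
    have h1 : FreeGroup.lift (fun i : Fin k => g (3 + i.1) * (g 0)⁻¹) =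
        Φ.comp (FreeGroup.lift (fun i => y i * v⁻¹)) := by
      apply FreeGroup.ext_hom
      intro i
      have hi : 3 + i.1 < NE k := by have := i.2; unfold NE; omega
      rw [MonoidHom.comp_apply, FreeGroup.lift_apply_of, FreeGroup.lift_apply_of, g1 _ hi,
        g1 0 (by omega), e3, e0, map_mul, map_inv]
    intro r
    rw [h1]
    rfl
  refine ⟨H3, inferInstance, g, ?_, ?_, ?_, ?_⟩
  · rw [g1 0 (by omega), e0]
    intro h
    apply hv.ne_one
    apply hi1
    apply hi2
    apply hJ2inj
    rw [map_one, map_one, map_one]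
    exact h
  · intro x hx
    unfold NX at hx
    rcases lt_or_ge x (NE k) with h1 | h1
    · have hp : par k x = x + NE k := by simp only [par, if_pos h1]
      rw [hp, g1 x h1, g2 (x + NE k) (by omega) (by omega)]
      have h2 : (⟨x + NE k - NE k, by omega⟩ : Fin (NE k)) = ⟨x, h1⟩ := by
        apply Fin.ext; simp
      rw [h2]
      have h3 := ht ⟨x, h1⟩
      have h4 := congrArg (fun u => J2 (i2 u)) h3
      simp only [map_mul, map_inv, map_pow] at h4
      exact h4
    · rcases lt_or_ge x (2 * NE k) with h2 | h2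
      · have hp : par k x = 2 * NE k := by
          simp only [par, if_neg (not_lt.mpr h1), if_pos h2]
        rw [hp, g3, g2 x h1 (by omega)]
        have h4 := congrArg (fun u => J2 (i2 u)) (ha ⟨x - NE k, by omega⟩)
        simp only [map_mul, map_inv, map_pow] at h4
        exact h4
      · rcases Nat.lt_or_ge x (2 * NE k + 1) with h3 | h3
        · have hx2 : x = 2 * NE k := by omega
          subst hx2
          have hp : par k (2 * NE k) = 2 * NE k + 1 := by
            simp only [par, if_neg (not_lt.mpr h1), lt_irrefl, if_false, if_true]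
          rw [hp, g3, g4]
          have h4 := congrArg (fun u => J2 u) hb
          simp only [map_mul, map_inv, map_pow] at h4
          exact h4
        · rcases Nat.lt_or_ge x (2 * NE k + 2) with h4 | h4
          · have hx2 : x = 2 * NE k + 1 := by omega
            subst hx2
            have h5 : ¬ (2 * NE k + 1 < 2 * NE k) := by omega
            have h6 : ¬ (2 * NE k + 1 = 2 * NE k) := by omega
            have hp : par k (2 * NE k + 1) = 2 * NE k + 2 := by
              simp only [par, if_neg (not_lt.mpr h1), if_neg h5, if_neg h6, if_true]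
            rw [hp, g4, g5]
            exact hcB
          · have hx2 : x = 2 * NE k + 2 := by omega
            subst hx2
            have h5 : ¬ (2 * NE k + 2 < 2 * NE k) := by omega
            have h6 : ¬ (2 * NE k + 2 = 2 * NE k) := by omega
            have h7 : ¬ (2 * NE k + 2 = 2 * NE k + 1) := by omega
            have hp : par k (2 * NE k + 2) = 2 := by
              simp only [par, if_neg (not_lt.mpr h1), if_neg h5, if_neg h6, if_neg h7]
            rw [hp, g5, g1 2 (by omega), e2]
            exact hZc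
  · intro r hr
    rw [hlift, hS r hr, map_one]
  · rw [hlift, g1 2 (by omega), g1 1 (by omega), e1, e2]
    show Φ z = Φ wb * Φ s * (Φ wb)⁻¹ * (Φ s)⁻¹
    rw [hzdef, map_mul, map_mul, map_mul, map_inv, map_inv]

end Pool.Agent.H659R3.CT
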