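import Mathlib
import Pool.Agent.H659R3.CT.TopStmts

set_option autoImplicit false
set_option maxHeartbeats 4000000

/-! Project H659-CT: the complex is not contractible if `w ≠ 1`. -/

namespace Pool.Agent.H659R3.CT

open unitInterval Topology

noncomputable section

/-- loops which become constant in a contractible space -/
theorem nc_null_of_map {X Z : Type} [TopologicalSpace X] [TopologicalSpace Z]
    [ContractibleSpace X] {x0 : X} (γ : Path x0 x0) (F : C(X, Z)) {z : Z} (hz : F x0 = z)
    (a : Path z z) (ha : ∀ t, F (γ t) = a t) : a.Homotopic (Path.refl z) := by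
  subst hz
  have h1 : γ.Homotopic (Path.refl x0) := SimplyConnectedSpace.paths_homotopic _ _
  have h2 := h1.map F
  have e : γ.map F.continuous = a := Path.ext (funext ha)
  have e2 : (Path.refl x0).map F.continuous = Path.refl (F x0) := Path.ext (funext fun t => rfl)
  rw [← e, ← e2]
  exact h2

section ev

variable {G : Type} [Group G] (g : ℕ → G) (n : ℕ)

/-- value of a word -/
def nc_ev : Wd → G
  | [] => 1
  | l :: V => (if l.1 < n then (if l.2 then g l.1 else (g l.1)⁻¹) else 1) * nc_ev V

theorem nc_ev_append (V W : Wd) : nc_ev g n (V ++ W) = nc_ev g n V * nc_ev g n W := by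
  induction V with
  | nil => simp [nc_ev]
  | cons l V ih => simp only [List.cons_append, nc_ev, ih, mul_assoc]

theorem nc_ev_inv (V : Wd) : nc_ev g n (inv V) = (nc_ev g n V)⁻¹ := by
  induction V with
  | nil => simp [nc_ev, inv]
  | cons l V ih =>
    have h : inv (l :: V) = inv V ++ [(l.1, !l.2)] := by simp [inv]
    rw [h, nc_ev_append, ih]
    simp only [nc_ev, mul_inv_rev, mul_one]
    congr 1
    split_ifs with h1 h2 h3 <;> simp_all

theorem nc_ev_hat (k : ℕ) (hn : 3 + k ≤ n) (w : List (Fin k × Bool)) :
    nc_ev g n (hat k w) =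
      FreeGroup.lift (fun i : Fin k => g (3 + i.1) * (g 0)⁻¹) (FreeGroup.mk w) := by
  induction w with
  | nil => simp [nc_ev, hat]
  | cons l w ih =>
    have h : hat k (l :: w) = (if l.2 then [(3 + l.1.1, true), (0, false)]
      else [(0, true), (3 + l.1.1, false)]) ++ hat k w := by simp [hat]
    have hl : (3 + l.1.1) < n := by
      have := l.1.2
      omega
    have h0 : 0 < n := by omega
    rw [h, nc_ev_append, ih]
    rw [FreeGroup.lift_mk, FreeGroup.lift_mk]
    rw [List.map_cons, List.prod_cons]
    congr 1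
    rcases l with ⟨i, b⟩
    cases b
    · simp [nc_ev, hl, h0]
    · simp [nc_ev, hl, h0]

end ev

section loops

variable {G : Type} [Group G] {Z : Type} [TopologicalSpace Z] {z : Z} (l : G → Path z z)
  (hl : ∀ g h, ((l g).trans (l h)).Homotopic (l (g * h)))

include hl

theorem nc_one : (l 1).Homotopic (Path.refl z) := by
  have h1 : Path.Homotopic.Quotient.trans (Path.Homotopic.Quotient.mk (l 1)) (Path.Homotopic.Quotient.mk (l 1)) =
      Path.Homotopic.Quotient.mk (l 1) := by
    rw [← Path.Homotopic.Quotient.mk_trans]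
    apply Path.Homotopic.Quotient.eq.2
    have := hl 1 1
    rwa [mul_one] at this
  apply Path.Homotopic.Quotient.eq.1
  have h2 := congrArg (fun q => Path.Homotopic.Quotient.trans (Path.Homotopic.Quotient.symm (Path.Homotopic.Quotient.mk (l 1))) q) h1
  rw [← Path.Homotopic.Quotient.trans_assoc, Path.Homotopic.Quotient.symm_trans, Path.Homotopic.Quotient.refl_trans] at h2
  rw [h2, Path.Homotopic.Quotient.mk_refl]

theorem nc_symm (g : G) : (l g).symm.Homotopic (l g⁻¹) := by
  apply Path.Homotopic.Quotient.eq.1
  have h1 : Path.Homotopic.Quotient.trans (Path.Homotopic.Quotient.mk (l g)) (Path.Homotopic.Quotient.mk (l g⁻¹)) = Path.Homotopic.Quotient.refl z := by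
    rw [← Path.Homotopic.Quotient.mk_trans, ← Path.Homotopic.Quotient.mk_refl]
    apply Path.Homotopic.Quotient.eq.2
    have := hl g g⁻¹
    rw [mul_inv_cancel] at this
    exact this.trans (nc_one l hl)
  have h2 := congrArg (fun q => Path.Homotopic.Quotient.trans (Path.Homotopic.Quotient.symm (Path.Homotopic.Quotient.mk (l g))) q) h1
  rw [← Path.Homotopic.Quotient.trans_assoc, Path.Homotopic.Quotient.symm_trans, Path.Homotopic.Quotient.refl_trans,
    Path.Homotopic.Quotient.trans_refl] at h2
  rw [h2, Path.Homotopic.Quotient.mk_symm]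

theorem nc_wloop (g : ℕ → G) (n : ℕ) (V : Wd) :
    (wloop (fun x : Fin n => l (g x.1)) V).Homotopic (l (nc_ev g n V)) := by
  induction V with
  | nil =>
    simp only [wloop, nc_ev]
    exact (nc_one l hl).symm
  | cons c V ih =>
    simp only [wloop, nc_ev]
    refine Path.Homotopic.trans ?_ (hl _ _)
    refine Path.Homotopic.hcomp ?_ ih
    split_ifs with h1 h2
    · exact Path.Homotopic.refl _
    · exact nc_symm l hl _
    · exact (nc_one l hl).symm

end loops

theorem taskNC : TaskMap → TaskBG → TaskModel → TaskNC := by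
  intro hMap hBG hModel k S w hw hcon
  obtain ⟨G, _, g, h0, hpar, hS, hz⟩ := hModel k S w hw
  obtain ⟨Z, _, z, l, hl, hinj⟩ := hBG G
  have hNX : 3 + k ≤ NX k := by unfold NX NE; omega
  have hrel : ∀ x : Fin (NX k), ((l (g x.1)).trans (l (g (parF k x).1))).Homotopic
      ((l (g (parF k x).1)).trans ((l (g x.1)).trans (l (g x.1)))) := by
    intro x
    have h := hpar x.1 x.2
    have e : g x.1 * g (par k x.1) = g (par k x.1) * (g x.1 * g x.1) := by
      rw [← pow_two, ← h]
      group
    refine (hl _ _).trans ?_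
    have e' : g x.1 * g (parF k x).1 = g (parF k x).1 * (g x.1 * g x.1) := e
    rw [e']
    refine Path.Homotopic.symm ?_
    refine Path.Homotopic.trans ?_ (hl _ _)
    exact Path.Homotopic.hcomp (Path.Homotopic.refl _) (hl _ _)
  have hval : ∀ r ∈ rs k S w, nc_ev g (NX k) r = 1 := by
    intro r hr
    unfold rs at hr
    rcases List.mem_cons.1 hr with rfl | hr
    · have h2 : 2 < NX k := by omega
      have h1 : 1 < NX k := by omega
      unfold rw0
      have e1 : ((2, false) :: (hat k w ++ ((1, true) :: (inv (hat k w) ++ [(1, false)]))) : Wd) =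
        [(2, false)] ++ (hat k w ++ ([(1, true)] ++ (inv (hat k w) ++ [(1, false)]))) := by simp
      rw [e1, nc_ev_append, nc_ev_append, nc_ev_append, nc_ev_append, nc_ev_inv,
        nc_ev_hat g (NX k) k hNX w]
      simp only [nc_ev, h1, h2, if_true, mul_one]
      simp only [Bool.false_eq_true, if_false]
      rw [hz]
      group
    · obtain ⟨s, hs, rfl⟩ := List.mem_map.1 hr
      rw [nc_ev_hat g (NX k) k hNX s]
      exact hS s hs
  have hwl : ∀ j : Fin (rs k S w).length,
      (wloop (fun x : Fin (NX k) => l (g x.1)) ((rs k S w).get j)).Homotopic (Path.refl z) := by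
    intro j
    have h := nc_wloop l hl g (NX k) ((rs k S w).get j)
    rw [hval _ (List.get_mem _ _)] at h
    exact h.trans (nc_one l hl)
  obtain ⟨F, hF, hF'⟩ := hMap (NX k) (parF k) (rs k S w) Z z (fun x => l (g x.1)) hrel hwl
  have hx : 0 < NX k := by omega
  have hnull := nc_null_of_map (XX.loop (NX k) (parF k) (rs k S w) ⟨0, hx⟩) F hF (l (g 0))
    (hF' ⟨0, hx⟩)
  exact h0 (hinj _ hnull)

end

end Pool.Agent.H659R3.CT
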