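import Mathlib
import Pool.Agent.H659R3.CT.SimpStmts
import Pool.Agent.H659R3.CT.NCOf

set_option autoImplicit false
set_option maxHeartbeats 4000000

/-! Project H659-CT: the 1-cell `v` is not null-homotopic if `w ≠ 1`. -/

namespace Pool.Agent.H659R3.CT

open unitInterval Topology

noncomputable section

/-- the image of a null-homotopic loop -/
theorem nc2_null_of_map {X Z : Type} [TopologicalSpace X] [TopologicalSpace Z]
    {x0 : X} (γ : Path x0 x0) (h1 : γ.Homotopic (Path.refl x0)) (F : C(X, Z)) {z : Z}
    (hz : F x0 = z) (a : Path z z) (ha : ∀ t, F (γ t) = a t) : a.Homotopic (Path.refl z) := by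
  subst hz
  have h2 := h1.map F
  have e : γ.map F.continuous = a := Path.ext (funext ha)
  have e2 : (Path.refl x0).map F.continuous = Path.refl (F x0) := Path.ext (funext fun t => rfl)
  rw [← e, ← e2]
  exact h2

theorem taskNC2 : TaskMap → TaskBG → TaskModel → TaskNC2 := by
  intro hMap hBG hModel k S w hw x hx0 hcon
  obtain ⟨G, _, g, h0, hpar, hS, hz⟩ := hModel k S w hw
  obtain ⟨Z, _, z, l, hl, hinj⟩ := hBG G
  have hNX : 3 + k ≤ NX k := by unfold NX NE; omega
  have hrel : ∀ x : Fin (NX k), ((l (g x.1)).trans (l (g (parF k x).1))).Homotopic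
      ((l (g (parF k x).1)).trans ((l (g x.1)).trans (l (g x.1)))) := by
    intro x
    have h := hpar x.1 x.2
    have e : g x.1 * g (par k x.1) = g (par k x.1) * (g x.1 * g x.1) := by
      rw [← pow_two, ← h]
      group
    refine (hl _ _).trans ?_
    have e' : g x.1 * g (parF k x).1 = g (parF k x).1 * (g x.1 * g x.1) := e
    rw [e']
    refine Path.Homotopic.symm ?_
    refine Path.Homotopic.trans ?_ (hl _ _)
    exact Path.Homotopic.hcomp (Path.Homotopic.refl _) (hl _ _)
  have hval : ∀ r ∈ rs k S w, nc_ev g (NX k) r = 1 := by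
    intro r hr
    unfold rs at hr
    rcases List.mem_cons.1 hr with rfl | hr
    · have h2 : 2 < NX k := by omega
      have h1 : 1 < NX k := by omega
      unfold rw0
      have e1 : ((2, false) :: (hat k w ++ ((1, true) :: (inv (hat k w) ++ [(1, false)]))) : Wd) =
        [(2, false)] ++ (hat k w ++ ([(1, true)] ++ (inv (hat k w) ++ [(1, false)]))) := by simp
      rw [e1, nc_ev_append, nc_ev_append, nc_ev_append, nc_ev_append, nc_ev_inv,
        nc_ev_hat g (NX k) k hNX w]
      simp only [nc_ev, h1, h2, if_true, mul_one]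
      simp only [Bool.false_eq_true, if_false]
      rw [hz]
      group
    · obtain ⟨s, hs, rfl⟩ := List.mem_map.1 hr
      rw [nc_ev_hat g (NX k) k hNX s]
      exact hS s hs
  have hwl : ∀ j : Fin (rs k S w).length,
      (wloop (fun x : Fin (NX k) => l (g x.1)) ((rs k S w).get j)).Homotopic (Path.refl z) := by
    intro j
    have h := nc_wloop l hl g (NX k) ((rs k S w).get j)
    rw [hval _ (List.get_mem _ _)] at h
    exact h.trans (nc_one l hl)
  obtain ⟨F, hF, hF'⟩ := hMap (NX k) (parF k) (rs k S w) Z z (fun x => l (g x.1)) hrel hwl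
  have hnull := nc2_null_of_map (XX.loop (NX k) (parF k) (rs k S w) x) hcon F hF (l (g x.1))
    (hF' x)
  rw [hx0] at hnull
  exact h0 (hinj _ hnull)

end

end Pool.Agent.H659R3.CT
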