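import Pool.Agent.H659R3.CT.Stmts

set_option autoImplicit false

namespace Pool.Agent.H659R3.CT

namespace ValidH62

theorem NX_pos (k : ℕ) : 0 < NX k := by unfold NX; omega

theorem NE_lt (k : ℕ) : NE k < NX k := by unfold NX; omega

theorem par_lt (k x : ℕ) (_hx : x < NX k) : par k x < NX k := by
  unfold par
  unfold NX at *
  unfold NE at *
  split_ifs <;> omega

theorem bs_lt (k x : ℕ) (hx : x < NX k) : ∀ l ∈ bs k x, l.1 < NX k := by
  intro l hl
  have hp := par_lt k x hx
  simp only [bs, List.mem_cons, List.not_mem_nil, or_false] at hl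
  rcases hl with rfl | rfl | rfl | rfl | rfl <;> assumption

theorem hat_lt (k : ℕ) (w : List (Fin k × Bool)) : ∀ l ∈ hat k w, l.1 < NX k := by
  intro l hl
  unfold hat at hl
  rw [List.mem_flatMap] at hl
  obtain ⟨a, _, ha⟩ := hl
  have h3 : 3 + a.1.1 < NX k := by
    have := a.1.2
    unfold NX NE; omega
  have h0 : 0 < NX k := NX_pos k
  split_ifs at ha
  · simp only [List.mem_cons, List.not_mem_nil, or_false] at ha
    rcases ha with rfl | rfl <;> assumption
  · simp only [List.mem_cons, List.not_mem_nil, or_false] at ha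
    rcases ha with rfl | rfl <;> assumption

theorem inv_lt (n : ℕ) (w : Wd) (h : ∀ l ∈ w, l.1 < n) : ∀ l ∈ inv w, l.1 < n := by
  intro l hl
  unfold inv at hl
  rw [List.mem_reverse, List.mem_map] at hl
  obtain ⟨a, ha, rfl⟩ := hl
  exact h a ha

theorem rw0_lt (k : ℕ) (w : List (Fin k × Bool)) : ∀ l ∈ rw0 k w, l.1 < NX k := by
  intro l hl
  have h2 : 2 < NX k := by unfold NX NE; omega
  have h1 : 1 < NX k := by omega
  unfold rw0 at hl
  simp only [List.mem_cons, List.mem_append, List.not_mem_nil, or_false] at hl
  rcases hl with rfl | h | rfl | h | rfl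
  · exact h2
  · exact hat_lt k w l h
  · exact h1
  · exact inv_lt _ _ (hat_lt k w) l h
  · exact h1

theorem rs_lt (k : ℕ) (S : List (List (Fin k × Bool))) (w : List (Fin k × Bool)) :
    ∀ r ∈ rs k S w, ∀ l ∈ r, l.1 < NX k := by
  intro r hr
  unfold rs at hr
  rw [List.mem_cons, List.mem_map] at hr
  rcases hr with rfl | ⟨a, _, rfl⟩
  · exact rw0_lt k w
  · exact hat_lt k a

theorem rs_length (k : ℕ) (S : List (List (Fin k × Bool))) (w : List (Fin k × Bool)) :
    (rs k S w).length = S.length + 1 := by
  simp [rs]

theorem cells2_length (k : ℕ) (S : List (List (Fin k × Bool))) (w : List (Fin k × Bool)) :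
    (cells2 k S w).length = NT k S + (NX k + (S.length + 1)) := by
  simp [cells2, rs_length]

theorem div_lt (k : ℕ) (S : List (List (Fin k × Bool))) (p : ℕ) (hp : p < NT k S) :
    p / NX k < S.length + 1 := by
  rw [Nat.div_lt_iff_lt_mul (NX_pos k), Nat.mul_comm]
  exact hp

theorem cells2_lt (k : ℕ) (S : List (List (Fin k × Bool))) (w : List (Fin k × Bool)) :
    ∀ r ∈ cells2 k S w, ∀ l ∈ r, l.1 < NX k + (S.length + 1) := by
  intro r hr l hl
  unfold cells2 at hr
  rw [List.mem_append, List.mem_append] at hr
  rcases hr with h | h | h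
  · rw [List.mem_map] at h
    obtain ⟨p, hp, rfl⟩ := h
    rw [List.mem_range] at hp
    have h1 := div_lt k S p hp
    have h2 := Nat.mod_lt p (NX_pos k)
    simp only [tau, List.mem_cons, List.not_mem_nil, or_false] at hl
    rcases hl with rfl | rfl | rfl | rfl <;> simp only <;> omega
  · rw [List.mem_map] at h
    obtain ⟨p, hp, rfl⟩ := h
    rw [List.mem_range] at hp
    have := bs_lt k p hp l hl
    omega
  · rw [List.mem_map] at h
    obtain ⟨p, hp, rfl⟩ := h
    have h1 := List.mem_zipIdx hp
    obtain ⟨_, h2, h3⟩ := h1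
    rw [rs_length] at h2
    rw [List.mem_append] at hl
    rcases hl with hl | hl
    · have hmem : p.1 ∈ rs k S w := by
        rw [h3]; exact List.getElem_mem _
      have := rs_lt k S w p.1 hmem l hl
      omega
    · rw [List.mem_singleton] at hl
      subst hl
      simp only
      omega

theorem getD_tau (k : ℕ) (S : List (List (Fin k × Bool))) (w : List (Fin k × Bool)) (j x : ℕ)
    (hj : j < S.length + 1) (hx : x < NX k) :
    (cells2 k S w).getD (NX k * j + x) [] = tau k x j := by
  have h1 : NX k * j + x < NT k S := by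
    unfold NT
    calc NX k * j + x < NX k * j + NX k := by omega
      _ = NX k * (j + 1) := by ring
      _ ≤ NX k * (S.length + 1) := Nat.mul_le_mul_left _ hj
  unfold cells2
  rw [List.getD_eq_getElem?_getD, List.getElem?_append_left (by simpa using h1),
    List.getElem?_map, List.getElem?_range h1]
  simp only [Option.map_some, Option.getD_some]
  rw [Nat.mul_add_mod, Nat.mod_eq_of_lt hx, Nat.mul_add_div (NX_pos k), Nat.div_eq_of_lt hx,
    Nat.add_zero]

theorem getD_bs (k : ℕ) (S : List (List (Fin k × Bool))) (w : List (Fin k × Bool)) (x : ℕ)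
    (hx : x < NX k) :
    (cells2 k S w).getD (NT k S + x) [] = bs k x := by
  unfold cells2
  rw [List.getD_eq_getElem?_getD, List.getElem?_append_right (by simp)]
  simp only [List.length_map, List.length_range, Nat.add_sub_cancel_left]
  rw [List.getElem?_append_left (by simpa using hx), List.getElem?_map, List.getElem?_range hx]
  rfl

theorem entry_cj (rels : List Wd) (l : ℕ × Bool) (e : Wd × ℕ × Bool) :
    entry rels (cj l e) = FreeGroup.mk [l] * entry rels e * (FreeGroup.mk [l])⁻¹ := by
  have h : FreeGroup.mk (l :: e.1) = FreeGroup.mk [l] * FreeGroup.mk e.1 := by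
    rw [FreeGroup.mul_mk]; rfl
  unfold entry cj
  simp only [h]
  group

theorem prod_cj (rels : List Wd) (l : ℕ × Bool) (s : List (Wd × ℕ × Bool)) :
    ((s.map (cj l)).map (entry rels)).prod =
      FreeGroup.mk [l] * (s.map (entry rels)).prod * (FreeGroup.mk [l])⁻¹ := by
  induction s with
  | nil =>
    rw [List.map_nil, List.map_nil, List.prod_nil]
    group
  | cons a s ih =>
    simp only [List.map_cons, List.prod_cons]
    rw [ih, entry_cj]
    group

theorem prod_rev (rels : List Wd) (s : List (Wd × ℕ × Bool)) :
    ((rev s).map (entry rels)).prod = ((s.map (entry rels)).prod)⁻¹ := by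
  induction s with
  | nil => simp [rev]
  | cons a s ih =>
    have h : rev (a :: s) = rev s ++ [(a.1, a.2.1, !a.2.2)] := by
      simp [rev]
    rw [h, List.map_append, List.prod_append, ih]
    simp only [List.map_cons, List.map_nil, List.prod_cons, List.prod_nil, mul_one, mul_inv_rev]
    congr 1
    unfold entry
    cases h2 : a.2.2 <;> simp [mul_assoc]

theorem mk_tau (k x j : ℕ) : FreeGroup.mk (tau k x j) =
    FreeGroup.of (NX k + j) * FreeGroup.of x * (FreeGroup.of (NX k + j))⁻¹ *
      (FreeGroup.of x)⁻¹ := by
  unfold tau FreeGroup.of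
  simp only [FreeGroup.inv_mk, FreeGroup.invRev, FreeGroup.mul_mk]
  rfl

theorem prod_tor (k : ℕ) (S : List (List (Fin k × Bool))) (w : List (Fin k × Bool)) (j : ℕ)
    (hj : j < S.length + 1) (V : Wd) (hV : ∀ l ∈ V, l.1 < NX k) :
    ((tor k j V).map (entry (cells2 k S w))).prod =
      FreeGroup.of (NX k + j) * FreeGroup.mk V * (FreeGroup.of (NX k + j))⁻¹ *
        (FreeGroup.mk V)⁻¹ := by
  induction V with
  | nil =>
    have : FreeGroup.mk ([] : Wd) = 1 := rfl
    simp [tor, this]
  | cons l V ih =>
    have h0 : FreeGroup.mk (l :: V) = FreeGroup.mk [l] * FreeGroup.mk V := by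
      rw [FreeGroup.mul_mk]; rfl
    have ih' := ih (fun a ha => hV a (List.mem_cons_of_mem _ ha))
    have hl : l.1 < NX k := hV l List.mem_cons_self
    unfold tor
    rw [List.map_cons, List.prod_cons, prod_cj, ih', h0]
    have h1 : entry (cells2 k S w)
        (if l.2 then ([], NX k * j + l.1, true) else ([l], NX k * j + l.1, false)) =
        FreeGroup.of (NX k + j) * FreeGroup.mk [l] * (FreeGroup.of (NX k + j))⁻¹ *
          (FreeGroup.mk [l])⁻¹ := by
      rcases l with ⟨x, b⟩
      cases b
      · have hx : FreeGroup.mk [(x, false)] = (FreeGroup.of x)⁻¹ := rfl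
        simp only [Bool.false_eq_true, if_false, entry]
        rw [getD_tau k S w j x hj hl, mk_tau, hx]
        group
      · have hx : FreeGroup.mk [(x, true)] = FreeGroup.of x := rfl
        have hn : FreeGroup.mk ([] : Wd) = 1 := rfl
        simp only [if_true, entry]
        rw [getD_tau k S w j x hj hl, mk_tau, hx, hn]
        group
    rw [h1]
    group

theorem tor_idx (k j : ℕ) (V : Wd) (hV : ∀ l ∈ V, l.1 < NX k) :
    ∀ e ∈ tor k j V, e.2.1 < NX k * j + NX k ∧ ∀ l ∈ e.1, l.1 < NX k := by
  induction V with
  | nil => intro e he; simp [tor] at he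
  | cons l V ih =>
    intro e he
    have hl : l.1 < NX k := hV l List.mem_cons_self
    unfold tor at he
    rw [List.mem_cons, List.mem_map] at he
    rcases he with rfl | ⟨a, ha, rfl⟩
    · split_ifs
      · refine ⟨by simp only; omega, by simp⟩
      · refine ⟨by simp only; omega, ?_⟩
        intro l' hl'
        simp only [List.mem_singleton] at hl'
        subst hl'
        exact hl
    · have := ih (fun a ha => hV a (List.mem_cons_of_mem _ ha)) a ha
      refine ⟨this.1, ?_⟩
      intro l' hl'
      simp only [cj, List.mem_cons] at hl'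
      rcases hl' with rfl | h
      · exact hl
      · exact this.2 l' h

end ValidH62

open ValidH62 in
theorem taskValid : TaskValid := by
  intro k S w
  refine ⟨cells2_lt k S w, ?_⟩
  intro s hs
  change s ∈ (List.range (NT k S)).map (cell3 k S) at hs
  rw [List.mem_map] at hs
  obtain ⟨p, hp, rfl⟩ := hs
  rw [List.mem_range] at hp
  have hj := div_lt k S p hp
  have hx := Nat.mod_lt p (NX_pos k)
  refine ⟨?_, ?_⟩
  · intro e he
    change e.2.1 < (cells2 k S w).length ∧ ∀ l ∈ e.1, l.1 < NX k + (S.length + 1)
    rw [cells2_length]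
    unfold cell3 at he
    rw [List.mem_cons, List.mem_cons] at he
    rcases he with rfl | rfl | he
    · refine ⟨by simp only; omega, ?_⟩
      intro l hl
      simp only [List.mem_singleton] at hl
      subst hl
      simp only
      omega
    · refine ⟨by simp only; omega, by simp⟩
    · unfold rev at he
      rw [List.mem_reverse, List.mem_map] at he
      obtain ⟨a, ha, rfl⟩ := he
      have h1 := tor_idx k (p / NX k) _ (bs_lt k _ hx) a ha
      refine ⟨?_, ?_⟩
      · simp only
        have h2 : NX k * (p / NX k) + NX k ≤ NT k S := by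
          unfold NT
          calc NX k * (p / NX k) + NX k = NX k * (p / NX k + 1) := by ring
            _ ≤ NX k * (S.length + 1) := Nat.mul_le_mul_left _ hj
        omega
      · intro l hl
        have := h1.2 l hl
        omega
  · change ((cell3 k S p).map (entry (cells2 k S w))).prod = 1
    unfold cell3
    rw [List.map_cons, List.map_cons, List.prod_cons, List.prod_cons, prod_rev,
      prod_tor k S w _ hj _ (bs_lt k _ hx)]
    have h1 : entry (cells2 k S w) ([(NX k + p / NX k, true)], NT k S + p % NX k, true) =
        FreeGroup.of (NX k + p / NX k) * FreeGroup.mk (bs k (p % NX k)) *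
          (FreeGroup.of (NX k + p / NX k))⁻¹ := by
      simp only [entry, if_true]
      rw [getD_bs k S w _ hx]
      rfl
    have h2 : entry (cells2 k S w) ([], NT k S + p % NX k, false) =
        (FreeGroup.mk (bs k (p % NX k)))⁻¹ := by
      have hn : FreeGroup.mk ([] : Wd) = 1 := rfl
      simp only [entry, Bool.false_eq_true, if_false]
      rw [getD_bs k S w _ hx, hn]
      group
    rw [h1, h2]
    group

end Pool.Agent.H659R3.CT
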