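import Pool.Agent.H659R3.CT.TopStmts
import Pool.Agent.H659R3.CT.TaskValid

set_option autoImplicit false
set_option maxHeartbeats 4000000

/-! Project H659-CT, topological part: `TaskNull`. -/

namespace Pool.Agent.H659R3.CT

namespace NullH73

open unitInterval Topology

noncomputable section

/-- loops up to homotopy, the product being composition -/
def Om (Z : Type) [TopologicalSpace Z] (z : Z) : Type := Path.Homotopic.Quotient z z

section

variable {Z : Type} [TopologicalSpace Z] {z : Z}

instance : Group (Om Z z) where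
  mul a b := Path.Homotopic.Quotient.trans a b
  one := Path.Homotopic.Quotient.refl z
  inv a := Path.Homotopic.Quotient.symm a
  mul_assoc a b c := Path.Homotopic.Quotient.trans_assoc a b c
  one_mul a := Path.Homotopic.Quotient.refl_trans a
  mul_one a := Path.Homotopic.Quotient.trans_refl a
  inv_mul_cancel a := Path.Homotopic.Quotient.symm_trans a

/-- class of a loop -/
def cl (p : Path z z) : Om Z z := Path.Homotopic.Quotient.mk p

theorem cl_eq {p q : Path z z} : cl p = cl q ↔ p.Homotopic q := Path.Homotopic.Quotient.eq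

theorem cl_trans (p q : Path z z) : cl (p.trans q) = cl p * cl q := rfl

theorem cl_symm (p : Path z z) : cl p.symm = (cl p)⁻¹ := rfl

theorem cl_refl : cl (Path.refl z) = 1 := rfl

/-- induced homomorphism -/
def mp {Y : Type} [TopologicalSpace Y] (f : C(Z, Y)) (z : Z) : Om Z z →* Om Y (f z) where
  toFun a := Path.Homotopic.Quotient.map a f
  map_one' := rfl
  map_mul' a b := by
    induction a using Path.Homotopic.Quotient.ind with | mk a =>
    induction b using Path.Homotopic.Quotient.ind with | mk b =>
    change cl ((a.trans b).map f.continuous) = cl ((a.map f.continuous).trans (b.map f.continuous))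
    rw [Path.map_trans]

theorem mp_cl {Y : Type} [TopologicalSpace Y] (f : C(Z, Y)) (p : Path z z) :
    mp f z (cl p) = cl (p.map f.continuous) := rfl

/-- commutation from a square with opposite sides equal -/
theorem sq_comm (F : C(I × I, Z)) (a b c d : Path z z)
    (ha : ∀ s, F (s, 0) = a s) (hb : ∀ t, F (1, t) = b t) (hc : ∀ t, F (0, t) = c t)
    (hd : ∀ s, F (s, 1) = d s) : (a.trans b).Homotopic (c.trans d) := by
  have : ContractibleSpace I := by
    have : Convex ℝ (Set.Icc (0:ℝ) 1) := convex_Icc 0 1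
    exact this.contractibleSpace ⟨0, by simp⟩
  let A : Path ((0 : I), (0 : I)) (1, 0) := ⟨⟨fun s => (s, 0), by fun_prop⟩, rfl, rfl⟩
  let B : Path ((1 : I), (0 : I)) (1, 1) := ⟨⟨fun s => (1, s), by fun_prop⟩, rfl, rfl⟩
  let C : Path ((0 : I), (0 : I)) (0, 1) := ⟨⟨fun s => (0, s), by fun_prop⟩, rfl, rfl⟩
  let D : Path ((0 : I), (1 : I)) (1, 1) := ⟨⟨fun s => (s, 1), by fun_prop⟩, rfl, rfl⟩
  have h : (A.trans B).Homotopic (C.trans D) := SimplyConnectedSpace.paths_homotopic _ _
  have h0 : z = F (0, 0) := by rw [ha, a.source]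
  have h1 : z = F (1, 1) := by rw [hd, d.target]
  have h2 := (h.map F).pathCast h0 h1
  have e1 : ((A.trans B).map F.continuous).cast h0 h1 = a.trans b := by
    ext t
    simp only [Path.cast_coe, Path.map_coe, Function.comp_apply, Path.trans_apply]
    split_ifs with h
    · exact ha _
    · exact hb _
  have e2 : ((C.trans D).map F.continuous).cast h0 h1 = c.trans d := by
    ext t
    simp only [Path.cast_coe, Path.map_coe, Function.comp_apply, Path.trans_apply]
    split_ifs with h
    · exact hc _
    · exact hd _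
  rw [e1, e2] at h2
  exact h2

end

/-- the loop in `L` and the circle commute -/
theorem cy_comm {L : Type} [TopologicalSpace L] {J : ℕ} (y : L) (γ : Path y y) (j : Fin J) :
    cl (γ.map (Cy.inc L J).continuous) * cl (Cy.loop y j) =
      cl (Cy.loop y j) * cl (γ.map (Cy.inc L J).continuous) := by
  rw [← cl_trans, ← cl_trans, cl_eq]
  refine sq_comm ⟨fun q => Quot.mk _ (Sum.inr (γ q.1, (j, q.2))), ?_⟩ _ _ _ _ ?_ ?_ ?_ ?_
  · refine continuous_quot_mk.comp ?_
    fun_prop
  · intro s
    exact Quot.sound (CyRel.zero _ j)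
  · intro t
    change Quot.mk _ (Sum.inr (γ 1, (j, t))) = Quot.mk _ (Sum.inr (y, (j, t)))
    rw [γ.target]
  · intro t
    change Quot.mk _ (Sum.inr (γ 0, (j, t))) = Quot.mk _ (Sum.inr (y, (j, t)))
    rw [γ.source]
  · intro s
    exact Quot.sound (CyRel.one _ j)

/-- class of the loop of a word -/
theorem cl_wloop {Z : Type} [TopologicalSpace Z] {z : Z} {n : ℕ} (a : Fin n → Path z z)
    {G : Type} [Group G] (φ : Om Z z →* G) (f : ℕ → G)
    (hf : ∀ i : Fin n, f i.1 = φ (cl (a i))) (V : Wd) (hV : ∀ l ∈ V, l.1 < n) :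
    φ (cl (wloop a V)) = FreeGroup.lift f (FreeGroup.mk V) := by
  induction V with
  | nil =>
    rw [FreeGroup.lift_mk]
    exact map_one φ
  | cons l V ih =>
    have hl : l.1 < n := hV l (by simp)
    have ih' := ih fun l hl => hV l (by simp [hl])
    rw [FreeGroup.lift_mk] at ih' ⊢
    rw [List.map_cons, List.prod_cons, ← ih']
    change φ (cl (Path.trans _ _)) = _
    rw [cl_trans, map_mul, dif_pos hl]
    congr 1
    rcases hb : l.2 with _ | _
    · simp only [Bool.false_eq_true, if_false, cond_false]
      rw [cl_symm, map_inv, hf ⟨l.1, hl⟩]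
    · simp only [if_true, cond_true]
      rw [hf ⟨l.1, hl⟩]

section

variable (n : ℕ) (p : Fin n → Fin n) (r : List Wd)

/-- the homomorphism from the loops of the bouquet -/
def oh : Om (Bq n) (Bq.pt n) →* Om (LL n p) (LL.pt n p) :=
  mp (Sq.inc (Bq.pt n) (relA n p) (relB n p)) (Bq.pt n)

/-- the homomorphism from the loops of `L` to those of `Cy` -/
def ph : Om (LL n p) (LL.pt n p) →* Om (Cy (LL n p) r.length) (bp n p r.length) :=
  mp (Cy.inc (LL n p) r.length) (LL.pt n p)

/-- the homomorphism from the loops of `Cy` -/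
def qh : Om (Cy (LL n p) r.length) (bp n p r.length) →*
    Om (XX n p r) (XX.incL n p r (LL.pt n p)) :=
  mp (Sq.inc (bp n p r.length) (lowL n p r) (upL n p r)) (bp n p r.length)

theorem oh_rel (x : Fin n) : oh n p (cl (relA n p x)) = oh n p (cl (relB n p x)) :=
  cl_eq.2 ⟨Sq.hom _ _ _ x⟩

theorem qh_rel (j : Fin r.length) : qh n p r (cl (lowL n p r j)) = qh n p r (cl (upL n p r j)) :=
  cl_eq.2 ⟨Sq.hom _ _ _ j⟩

/-- class of the circle `j` -/
def Zc (j : Fin r.length) : Om (XX n p r) (XX.incL n p r (LL.pt n p)) :=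
  qh n p r (cl (upL n p r j))

/-- class of `x` -/
def Xc (x : Fin n) : Om (XX n p r) (XX.incL n p r (LL.pt n p)) := cl (XX.loop n p r x)

/-- class of `x`, through `L` -/
theorem Xc_eq (x : Fin n) : Xc n p r x = qh n p r (ph n p r (cl (LL.loop p x))) := rfl

theorem Xc_eq' (x : Fin n) : Xc n p r x = qh n p r (ph n p r (oh n p (cl (Bq.loop x)))) := rfl

theorem comm (x : Fin n) (j : Fin r.length) : Xc n p r x * Zc n p r j =
    Zc n p r j * Xc n p r x := by
  rw [Xc_eq, Zc, ← map_mul, ← map_mul]
  congr 1
  exact cy_comm (LL.pt n p) (LL.loop p x) j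

theorem dil (x : Fin n) : Xc n p r x * Xc n p r (p x) =
    Xc n p r (p x) * (Xc n p r x * Xc n p r x) := by
  rw [Xc_eq', Xc_eq']
  rw [← map_mul, ← map_mul, ← map_mul, ← map_mul, ← map_mul, ← map_mul]
  rw [← map_mul, ← map_mul, ← map_mul]
  congr 2
  exact oh_rel n p x

theorem disc (j : Fin r.length) : qh n p r (ph n p r
    (cl (wloop (LL.loop p) (r.get j)))) = Zc n p r j := qh_rel n p r j

/-- values on the generators -/
def gen (i : ℕ) : Om (XX n p r) (XX.incL n p r (LL.pt n p)) :=
  if h : i < n then Xc n p r ⟨i, h⟩ else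
    if h' : i - n < r.length then Zc n p r ⟨i - n, h'⟩ else 1

theorem gen_x (x : Fin n) : gen n p r x.1 = Xc n p r x := by
  unfold gen
  rw [dif_pos x.2]

theorem gen_z (j : Fin r.length) : gen n p r (n + j.1) = Zc n p r j := by
  unfold gen
  rw [dif_neg (by omega)]
  have h : n + j.1 - n = j.1 := by omega
  rw [dif_pos (by rw [h]; exact j.2)]
  congr 1
  exact Fin.ext h

end

theorem zipIdx_mem {α : Type} (l : List α) (e : α × ℕ) (h : e ∈ l.zipIdx) :
    ∃ hj : e.2 < l.length, l.get ⟨e.2, hj⟩ = e.1 := by
  rw [List.mem_zipIdx_iff_getElem?] at h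
  obtain ⟨hj, h⟩ := List.getElem?_eq_some_iff.1 h
  exact ⟨hj, h⟩

end

end NullH73

open NullH73 in
theorem taskNull : TaskNull := by
  intro k S w hs x
  have key : ∀ u ∈ relSet (cx k S w),
      FreeGroup.lift (gen (NX k) (parF k) (rs k S w)) u = 1 := by
    rintro u (⟨v, hv, rfl⟩ | ⟨i, hi, rfl⟩)
    · change v ∈ cells2 k S w at hv
      unfold cells2 at hv
      rw [List.mem_append, List.mem_append, List.mem_map, List.mem_map, List.mem_map] at hv
      rcases hv with ⟨q, hq, rfl⟩ | ⟨y, hy, rfl⟩ | ⟨e, he, rfl⟩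
      · rw [List.mem_range] at hq
        have h1 : q % NX k < NX k := Nat.mod_lt _ (ValidH62.NX_pos k)
        have h2 : q / NX k < (rs k S w).length := by
          rw [ValidH62.rs_length]
          exact ValidH62.div_lt k S q hq
        have hx := gen_x (NX k) (parF k) (rs k S w) ⟨q % NX k, h1⟩
        have hz := gen_z (NX k) (parF k) (rs k S w) ⟨q / NX k, h2⟩
        rw [FreeGroup.lift_mk]
        simp only [tau, List.map_cons, List.map_nil, List.prod_cons, List.prod_nil, cond_true,
          cond_false, mul_one]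
        simp only at hx hz
        rw [hx, hz]
        have := comm (NX k) (parF k) (rs k S w) ⟨q % NX k, h1⟩ ⟨q / NX k, h2⟩
        rw [← mul_assoc, ← mul_assoc, ← this]
        group
      · rw [List.mem_range] at hy
        have hx := gen_x (NX k) (parF k) (rs k S w) ⟨y, hy⟩
        have hp := gen_x (NX k) (parF k) (rs k S w) (parF k ⟨y, hy⟩)
        rw [FreeGroup.lift_mk]
        simp only [bs, List.map_cons, List.map_nil, List.prod_cons, List.prod_nil, cond_true,
          cond_false, mul_one]
        change gen (NX k) (parF k) (rs k S w) (par k y) = _ at hp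
        simp only at hx
        rw [hx, hp]
        have := dil (NX k) (parF k) (rs k S w) ⟨y, hy⟩
        rw [← mul_assoc (Xc _ _ _ _) (Xc _ _ _ _), this]
        group
      · obtain ⟨hj, he'⟩ := zipIdx_mem _ e he
        have hd := disc (NX k) (parF k) (rs k S w) ⟨e.2, hj⟩
        have hz := gen_z (NX k) (parF k) (rs k S w) ⟨e.2, hj⟩
        rw [he'] at hd
        have hw := cl_wloop (LL.loop (parF k)) ((qh (NX k) (parF k) (rs k S w)).comp
          (ph (NX k) (parF k) (rs k S w)))
          (gen (NX k) (parF k) (rs k S w)) (fun i => gen_x _ _ _ i) e.1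
          (ValidH62.rs_lt k S w e.1 (by rw [← he']; exact List.get_mem _ _))
        rw [MonoidHom.comp_apply, hd] at hw
        rw [← FreeGroup.mul_mk, map_mul, ← hw, FreeGroup.lift_mk]
        simp only [List.map_cons, List.map_nil, List.prod_cons, List.prod_nil,
          cond_false, mul_one]
        simp only at hz
        rw [hz, mul_inv_cancel]
    · rw [FreeGroup.lift_apply_of]
      change NX k + (S.length + 1) ≤ i at hi
      unfold gen
      rw [dif_neg (by omega), dif_neg (by rw [ValidH62.rs_length]; omega)]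
  have h1 : PresentedGroup.toGroup (rels := relSet (cx k S w)) key
      (PresentedGroup.of x.1) = 1 := by
    rw [Subsingleton.elim (PresentedGroup.of x.1 : Pi1 (cx k S w)) 1, map_one]
  rw [PresentedGroup.toGroup.of, gen_x] at h1
  exact cl_eq.1 h1

end Pool.Agent.H659R3.CT
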