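import Mathlib
import Pool.Agent.H659R3.CT.TopStmts

set_option autoImplicit false

/-! Project H659-CT: null-homotopies of the 1-cells compatible with the 2-cells. -/

namespace Pool.Agent.H659R3.CT

open unitInterval Topology

namespace PLOf

variable {M : Type} [TopologicalSpace M] {m : M}

theorem ptr_apply {a a' b b' : Path m m} (N : Path a a') (N' : Path b b') (t : I) :
    ptr N N' t = (N t).trans (N' t) := rfl

/-- the pointwise product respects concatenation -/
theorem ptr_trans {a a' a'' b b' b'' : Path m m} (N : Path a a') (P : Path a' a'')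
    (N' : Path b b') (P' : Path b' b'') :
    ptr (N.trans P) (N'.trans P') = (ptr N N').trans (ptr P P') := by
  apply Path.ext
  funext t
  rw [ptr_apply, Path.trans_apply, Path.trans_apply, Path.trans_apply]
  split_ifs
  · rfl
  · rfl

theorem cast_trans {Y : Type} [TopologicalSpace Y] {x y z z' : Y} (P : Path x y) (Q : Path y z)
    (h : z' = z) : (P.trans Q).cast rfl h = P.trans (Q.cast rfl h) := by
  subst h
  rfl

theorem cast_trans' {Y : Type} [TopologicalSpace Y] {x y y' z z' : Y} (P : Path x y) (Q : Path y z)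
    (h : y' = y) (h' : z' = z) :
    (P.trans Q).cast rfl h' = (P.cast rfl h).trans (Q.cast h h') := by
  subst h
  subst h'
  rfl

end PLOf

open PLOf

theorem taskPL : TaskEH → TaskPL := by
  intro hEH M _ m n p a γ N0
  have h2 : (Path.refl m).trans (Path.refl m) = Path.refl m := Path.refl_trans_refl
  have h3 : (Path.refl m).trans ((Path.refl m).trans (Path.refl m)) = Path.refl m := by
    rw [h2, h2]
  let A0 : ∀ x, Path ((a x).trans (a (p x))) (Path.refl m) := fun x =>
    (ptr (N0 x) (N0 (p x))).cast rfl h2.symm
  let B0 : ∀ x, Path ((a (p x)).trans ((a x).trans (a x))) (Path.refl m) := fun x =>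
    (ptr (N0 (p x)) (ptr (N0 x) (N0 x))).cast rfl h3.symm
  let lam : ∀ x, Path (Path.refl m) (Path.refl m) := fun x =>
    (A0 x).symm.trans ((γ x).trans (B0 x))
  refine ⟨fun x => (N0 x).trans (lam x).symm, fun x => ?_⟩
  obtain ⟨v, hv⟩ : ∃ v : Path (Path.refl m) (Path.refl m), v = (lam x).symm := ⟨_, rfl⟩
  obtain ⟨u, hu⟩ : ∃ u : Path (Path.refl m) (Path.refl m), u = (lam (p x)).symm := ⟨_, rfl⟩
  beta_reduce
  rw [← hv, ← hu]
  -- the two products
  have eA : (ptr ((N0 x).trans v) ((N0 (p x)).trans u)).cast rfl h2.symm =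
      (A0 x).trans ((ptr v u).cast h2.symm h2.symm) := by
    rw [ptr_trans, cast_trans' _ _ h2.symm h2.symm]
  have eB : (ptr ((N0 (p x)).trans u) (ptr ((N0 x).trans v) ((N0 x).trans v))).cast rfl h3.symm =
      (B0 x).trans ((ptr u (ptr v v)).cast h3.symm h3.symm) := by
    rw [ptr_trans, ptr_trans, cast_trans' _ _ h3.symm h3.symm]
  have fA : ((ptr v u).cast h2.symm h2.symm).Homotopic (v.trans u) := (hEH M m v u).1
  have fB1 : ((ptr v v).cast h2.symm h2.symm).Homotopic (v.trans v) := (hEH M m v v).1
  have fB2 : (ptr u (ptr v v)).cast h3.symm h3.symm =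
      (ptr u ((ptr v v).cast h2.symm h2.symm)).cast h2.symm h2.symm := by
    apply Path.ext
    funext t
    rfl
  have fB3 : ((ptr u ((ptr v v).cast h2.symm h2.symm)).cast h2.symm h2.symm).Homotopic
      (u.trans ((ptr v v).cast h2.symm h2.symm)) := (hEH M m u _).1
  have fB : ((ptr u (ptr v v)).cast h3.symm h3.symm).Homotopic (u.trans (v.trans v)) := by
    rw [fB2]
    exact fB3.trans (Path.Homotopic.hcomp (Path.Homotopic.refl u) fB1)
  -- the statement in the quotient
  have key : ((γ x).trans ((ptr ((N0 (p x)).trans u)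
      (ptr ((N0 x).trans v) ((N0 x).trans v))).cast rfl h3.symm)).Homotopic
      ((ptr ((N0 x).trans v) ((N0 (p x)).trans u)).cast rfl h2.symm) := by
    rw [eA, eB]
    have g1 : ((γ x).trans ((B0 x).trans ((ptr u (ptr v v)).cast h3.symm h3.symm))).Homotopic
        ((γ x).trans ((B0 x).trans (u.trans (v.trans v)))) :=
      Path.Homotopic.hcomp (Path.Homotopic.refl _) (Path.Homotopic.hcomp (Path.Homotopic.refl _) fB)
    have g2 : ((A0 x).trans ((ptr v u).cast h2.symm h2.symm)).Homotopic
        ((A0 x).trans (v.trans u)) := Path.Homotopic.hcomp (Path.Homotopic.refl _) fA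
    refine g1.trans (Path.Homotopic.trans ?_ g2.symm)
    rw [← Path.Homotopic.Quotient.eq]
    have hc : ∀ α β : Path.Homotopic.Quotient (Path.refl m) (Path.refl m),
        α.trans β = β.trans α := by
      intro α β
      induction α using Path.Homotopic.Quotient.ind with | mk α =>
      induction β using Path.Homotopic.Quotient.ind with | mk β =>
      rw [← Path.Homotopic.Quotient.mk_trans, ← Path.Homotopic.Quotient.mk_trans,
        Path.Homotopic.Quotient.eq]
      exact (hEH M m α β).2
    rw [Path.Homotopic.Quotient.mk_trans, Path.Homotopic.Quotient.mk_trans,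
      Path.Homotopic.Quotient.mk_trans, Path.Homotopic.Quotient.mk_trans,
      Path.Homotopic.Quotient.mk_trans, Path.Homotopic.Quotient.mk_trans]
    have hvq : Path.Homotopic.Quotient.mk v =
        (Path.Homotopic.Quotient.mk (lam x)).symm := by rw [hv]; rfl
    have hlq : Path.Homotopic.Quotient.mk (lam x) =
        (Path.Homotopic.Quotient.mk (A0 x)).symm.trans
          ((Path.Homotopic.Quotient.mk (γ x)).trans (Path.Homotopic.Quotient.mk (B0 x))) := rfl
    have hAl : (Path.Homotopic.Quotient.mk (A0 x)).trans (Path.Homotopic.Quotient.mk (lam x)) =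
        (Path.Homotopic.Quotient.mk (γ x)).trans (Path.Homotopic.Quotient.mk (B0 x)) := by
      rw [hlq, ← Path.Homotopic.Quotient.trans_assoc, Path.Homotopic.Quotient.trans_symm,
        Path.Homotopic.Quotient.refl_trans]
    generalize Path.Homotopic.Quotient.mk (A0 x) = A at *
    generalize Path.Homotopic.Quotient.mk (B0 x) = B at *
    generalize Path.Homotopic.Quotient.mk (γ x) = g at *
    generalize Path.Homotopic.Quotient.mk (lam x) = l at *
    generalize Path.Homotopic.Quotient.mk v = v' at *
    generalize Path.Homotopic.Quotient.mk u = u' at *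
    rw [← Path.Homotopic.Quotient.trans_assoc, ← hAl, Path.Homotopic.Quotient.trans_assoc]
    congr 1
    rw [hc u' (v'.trans v'), Path.Homotopic.Quotient.trans_assoc,
      ← Path.Homotopic.Quotient.trans_assoc l v', hvq, Path.Homotopic.Quotient.trans_symm,
      Path.Homotopic.Quotient.refl_trans]
  exact key

end Pool.Agent.H659R3.CT
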