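import Mathlib
import Pool.Agent.H659R3.CT.SimpStmts

set_option autoImplicit false

/-! Project H659-CT: the polygon of a word is the product of the triangles. -/

namespace Pool.Agent.H659R3.CT

open unitInterval Topology

noncomputable section

namespace PolyAux

lemma pg_at (e : List ℕ) (s : ℝ) (j : ℕ) (t : ℝ) (hj : j < e.length) (h0 : 0 ≤ t) (h1 : t ≤ 1)
    (hs : e.length * s = j + t) (u : ℕ) :
    pg e s u = (1 - t) * (if e.getD j 0 = u then 1 else 0) +
      t * (if e.getD ((j + 1) % e.length) 0 = u then 1 else 0) := by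
  unfold pg
  rw [hs, Finset.sum_eq_add_of_mem j (j + 1) (Finset.mem_range.2 (by omega))
    (Finset.mem_range.2 (by omega)) (by omega)]
  · have e1 : max 0 (1 - |(j : ℝ) + t - (j : ℝ)|) = 1 - t := by
      rw [add_sub_cancel_left, abs_of_nonneg h0, max_eq_right (by linarith)]
    have e2 : max 0 (1 - |(j : ℝ) + t - ((j + 1 : ℕ) : ℝ)|) = t := by
      have : (j : ℝ) + t - ((j + 1 : ℕ) : ℝ) = -(1 - t) := by push_cast; ring
      rw [this, abs_neg, abs_of_nonneg (by linarith), max_eq_right (by linarith)]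
      ring
    rw [e1, e2, Nat.mod_eq_of_lt hj]
  · intro c _ hc
    have : 1 ≤ |(j : ℝ) + t - (c : ℝ)| := by
      rcases lt_or_gt_of_ne hc.1 with h | h
      · have h2 : (c : ℝ) + 1 ≤ j := by exact_mod_cast h
        rw [le_abs]; left; linarith
      · have h3 : j + 2 ≤ c := by
          have := hc.2
          omega
        have h2 : (j : ℝ) + 2 ≤ c := by exact_mod_cast h3
        rw [le_abs]; right; linarith
    rw [max_eq_left (by linarith), zero_mul]

lemma exists_jt (N : ℕ) (hN : 0 < N) (x : ℝ) (h0 : 0 ≤ x) (h1 : x ≤ N) :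
    ∃ j : ℕ, j < N ∧ ∃ t : ℝ, 0 ≤ t ∧ t ≤ 1 ∧ x = j + t := by
  by_cases h : x < N
  · refine ⟨⌊x⌋₊, (Nat.floor_lt h0).2 h, x - ⌊x⌋₊, ?_, ?_, by ring⟩
    · linarith [Nat.floor_le h0]
    · linarith [Nat.lt_floor_add_one x]
  · refine ⟨N - 1, by omega, 1, by norm_num, le_rfl, ?_⟩
    have : ((N - 1 : ℕ) : ℝ) = N - 1 := by
      rw [Nat.cast_sub hN]; norm_num
    rw [this]; linarith

lemma pg_cont (e : List ℕ) : Continuous (pg e) := by
  refine continuous_pi fun v => ?_
  unfold pg
  fun_prop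

lemma cyc1 (T e' : List ℕ) (v : ℕ) (hT : 0 < T.length) (he : 0 < e'.length)
    (hT0 : T.getD 0 0 = v) (he0 : e'.getD 0 0 = v) (i : ℕ) (hi : i < T.length) :
    (T ++ e').getD i 0 = T.getD i 0 ∧
      (T ++ e').getD ((i + 1) % (T ++ e').length) 0 = T.getD ((i + 1) % T.length) 0 := by
  constructor
  · rw [List.getD_append _ _ _ _ hi]
  · rw [List.length_append, Nat.mod_eq_of_lt (by omega : i + 1 < T.length + e'.length)]
    by_cases h : i + 1 < T.length
    · rw [List.getD_append _ _ _ _ h, Nat.mod_eq_of_lt h]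
    · have h2 : i + 1 = T.length := by omega
      rw [h2, Nat.mod_self, List.getD_append_right _ _ _ _ le_rfl, Nat.sub_self, he0, hT0]

lemma cyc2 (T e' : List ℕ) (v : ℕ) (hT : 0 < T.length) (he : 0 < e'.length)
    (hT0 : T.getD 0 0 = v) (he0 : e'.getD 0 0 = v) (j : ℕ) (hj : j < e'.length) :
    (T ++ e').getD (T.length + j) 0 = e'.getD j 0 ∧
      (T ++ e').getD ((T.length + j + 1) % (T ++ e').length) 0 =
        e'.getD ((j + 1) % e'.length) 0 := by
  constructor
  · rw [List.getD_append_right _ _ _ _ (by omega), Nat.add_sub_cancel_left]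
  · rw [List.length_append]
    by_cases h : j + 1 < e'.length
    · rw [Nat.mod_eq_of_lt (by omega : T.length + j + 1 < T.length + e'.length),
        Nat.mod_eq_of_lt h, List.getD_append_right _ _ _ _ (by omega)]
      congr 1
      omega
    · have h2 : j + 1 = e'.length := by omega
      have h3 : T.length + j + 1 = T.length + e'.length := by omega
      rw [h3, h2, Nat.mod_self, Nat.mod_self, List.getD_append _ _ _ _ hT, he0, hT0]

lemma pg_c1 (T e' : List ℕ) (v : ℕ) (hT : 0 < T.length) (he : 0 < e'.length)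
    (hT0 : T.getD 0 0 = v) (he0 : e'.getD 0 0 = v) (s x : ℝ) (hs : 0 ≤ s)
    (hx : ((T ++ e').length : ℝ) * s = T.length * x) (hx1 : x ≤ 1) :
    pg (T ++ e') s = pg T x := by
  have hTr : (0 : ℝ) < T.length := by exact_mod_cast hT
  have hx0 : 0 ≤ (T.length : ℝ) * x := by rw [← hx]; positivity
  obtain ⟨j, hj, t, ht0, ht1, h⟩ := exists_jt T.length hT (T.length * x) hx0 (by nlinarith)
  obtain ⟨c1, c2⟩ := cyc1 T e' v hT he hT0 he0 j hj
  funext u
  rw [pg_at (T ++ e') s j t (by rw [List.length_append]; omega) ht0 ht1 (by rw [hx, h]) u,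
    pg_at T x j t hj ht0 ht1 h u, c1, c2]

lemma pg_c2 (T e' : List ℕ) (v : ℕ) (hT : 0 < T.length) (he : 0 < e'.length)
    (hT0 : T.getD 0 0 = v) (he0 : e'.getD 0 0 = v) (s x : ℝ) (hx0 : 0 ≤ x)
    (hx : ((T ++ e').length : ℝ) * s = T.length + e'.length * x) (hx1 : x ≤ 1) :
    pg (T ++ e') s = pg e' x := by
  have her : (0 : ℝ) < e'.length := by exact_mod_cast he
  obtain ⟨j, hj, t, ht0, ht1, h⟩ := exists_jt e'.length he (e'.length * x) (by positivity)
    (by nlinarith)
  obtain ⟨c1, c2⟩ := cyc2 T e' v hT he hT0 he0 j hj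
  funext u
  rw [pg_at (T ++ e') s (T.length + j) t (by rw [List.length_append]; omega) ht0 ht1
    (by rw [hx, h]; push_cast; ring) u, pg_at e' x j t hj ht0 ht1 h u, c1, c2]

/-- the reparametrisation -/
def ph (M N' : ℝ) (s : ℝ) : ℝ :=
  min ((M + N') * s / (2 * M)) (1 / 2) + max 0 (((M + N') * s - M) / (2 * N'))

lemma ph_low {M N' s : ℝ} (hM : 0 < M) (hN : 0 < N') (h : (M + N') * s ≤ M) :
    ph M N' s = (M + N') * s / (2 * M) := by
  unfold ph
  rw [min_eq_left, max_eq_left, add_zero]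
  · exact div_nonpos_of_nonpos_of_nonneg (by linarith) (by linarith)
  · rw [div_le_iff₀ (by positivity)]; linarith

lemma ph_high {M N' s : ℝ} (hM : 0 < M) (hN : 0 < N') (h : M ≤ (M + N') * s) :
    ph M N' s = 1 / 2 + ((M + N') * s - M) / (2 * N') := by
  unfold ph
  rw [min_eq_right, max_eq_right]
  · exact div_nonneg (by linarith) (by linarith)
  · rw [le_div_iff₀ (by positivity)]; linarith

lemma ph_mem {M N' s : ℝ} (hM : 0 < M) (hN : 0 < N') (h0 : 0 ≤ s) (h1 : s ≤ 1) :
    ph M N' s ∈ Set.Icc (0 : ℝ) 1 := by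
  rcases le_total ((M + N') * s) M with h | h
  · rw [ph_low hM hN h]
    refine ⟨by positivity, ?_⟩
    rw [div_le_iff₀ (by positivity)]; linarith
  · rw [ph_high hM hN h]
    have h2 : 0 ≤ ((M + N') * s - M) / (2 * N') := div_nonneg (by linarith) (by linarith)
    refine ⟨by linarith, ?_⟩
    have h3 : ((M + N') * s - M) / (2 * N') ≤ 1 / 2 := by
      rw [div_le_iff₀ (by positivity)]
      nlinarith
    linarith

lemma ph_cont (M N' : ℝ) : Continuous (ph M N') := by
  unfold ph
  fun_prop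

lemma concat {K : List (List ℕ)} (v : ℕ) (T e' : List ℕ) (b : Rz K) (γT γ' : Path b b)
    (hγT : IsPg b T γT) (hγ' : IsPg b e' γ') (hT : 0 < T.length) (he : 0 < e'.length)
    (hT0 : T.getD 0 0 = v) (he0 : e'.getD 0 0 = v) :
    ∃ γ : Path b b, IsPg b (T ++ e') γ ∧ γ.Homotopic (γT.trans γ') := by
  have hTr : (0 : ℝ) < T.length := by exact_mod_cast hT
  have her : (0 : ℝ) < e'.length := by exact_mod_cast he
  set M : ℝ := (T.length : ℝ) with hM
  set N' : ℝ := (e'.length : ℝ) with hN'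
  have hlen : ((T ++ e').length : ℝ) = M + N' := by
    rw [List.length_append]; push_cast; rfl
  let φ : I → I := fun s => ⟨ph M N' s, ph_mem hTr her s.2.1 s.2.2⟩
  have hφ : Continuous φ := by
    exact ((ph_cont M N').comp continuous_subtype_val).subtype_mk _
  have h0 : φ 0 = 0 := by
    apply Subtype.ext
    change ph M N' ((0 : I) : ℝ) = ((0 : I) : ℝ)
    rw [ph_low hTr her (by simp; linarith)]
    simp
  have h1 : φ 1 = 1 := by
    apply Subtype.ext
    change ph M N' ((1 : I) : ℝ) = ((1 : I) : ℝ)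
    rw [ph_high hTr her (by simp; linarith)]
    simp only [Set.Icc.coe_one]
    field_simp
    ring
  refine ⟨(γT.trans γ').reparam φ hφ h0 h1, ?_, ?_⟩
  · intro s
    change ((γT.trans γ') (φ s)).1 = _
    rw [Path.trans_apply]
    rcases le_or_gt ((M + N') * (s : ℝ)) M with h | h
    · have hv : ((φ s : I) : ℝ) = (M + N') * s / (2 * M) := ph_low hTr her h
      have hle : ((φ s : I) : ℝ) ≤ 1 / 2 := by
        rw [hv, div_le_iff₀ (by positivity)]; linarith
      rw [dif_pos hle, hγT]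
      symm
      refine pg_c1 T e' v hT he hT0 he0 s _ s.2.1 ?_ ?_
      · rw [hlen, ← hM]
        simp only [hv]
        field_simp
      · simp only
        linarith
    · have hv : ((φ s : I) : ℝ) = 1 / 2 + ((M + N') * s - M) / (2 * N') := ph_high hTr her h.le
      have hpos : 0 < ((M + N') * s - M) / (2 * N') := div_pos (by linarith) (by linarith)
      have hle : ¬ ((φ s : I) : ℝ) ≤ 1 / 2 := by
        rw [hv]; linarith
      rw [dif_neg hle, hγ']
      symm
      refine pg_c2 T e' v hT he hT0 he0 s _ ?_ ?_ ?_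
      · simp only [hv]; linarith
      · rw [hlen, ← hM, ← hN']
        simp only [hv]
        field_simp
        ring
      · simp only
        have := (φ s).2.2
        linarith
  · exact ⟨(Path.Homotopy.reparam (γT.trans γ') φ hφ h0 h1).symm⟩

lemma tri_rev (v a b' : ℕ) (s : ℝ) (h0 : 0 ≤ s) (h1 : s ≤ 1) :
    pg [v, b', a] s = pg [v, a, b'] (1 - s) := by
  obtain ⟨j, hj, t, ht0, ht1, h⟩ := exists_jt 3 (by norm_num) (3 * s) (by linarith)
    (by push_cast; linarith)
  funext u
  have h2 : (([v, a, b'] : List ℕ).length : ℝ) * (1 - s) = ((2 - j : ℕ) : ℝ) + (1 - t) := by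
    have h3 : ((2 - j : ℕ) : ℝ) = 2 - j := by
      rw [Nat.cast_sub (by omega)]; norm_num
    rw [h3]
    simp only [List.length_cons, List.length_nil]
    push_cast
    linarith
  rw [pg_at [v, b', a] s j t (by simpa using hj) ht0 ht1 (by
      simp only [List.length_cons, List.length_nil]
      push_cast
      linarith) u,
    pg_at [v, a, b'] (1 - s) (2 - j) (1 - t) (by simp; omega) (by linarith) (by linarith) h2 u]
  interval_cases j <;> simp <;> ring

lemma cp_append {K : List (List ℕ)} {v : ℕ} {T e' : List ℕ} (h1 : CP K v T) (h2 : CP K v e') :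
    CP K v (T ++ e') := by
  obtain ⟨a1, a2, a3⟩ := h1
  obtain ⟨b1, b2, b3⟩ := h2
  refine ⟨by rw [List.length_append]; omega, ?_, ?_⟩
  · rw [List.getD_append _ _ _ _ (by omega)]; exact a2
  · intro i hi
    by_cases h : i < T.length
    · obtain ⟨c1, c2⟩ := cyc1 T e' v (by omega) (by omega) a2 b2 i h
      rw [c1, c2]
      exact a3 i h
    · obtain ⟨j, rfl⟩ : ∃ j, i = T.length + j := ⟨i - T.length, by omega⟩
      rw [List.length_append] at hi
      obtain ⟨c1, c2⟩ := cyc2 T e' v (by omega) (by omega) a2 b2 j (by omega)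
      rw [c1, c2]
      exact b3 j (by omega)

lemma cp_rev {K : List (List ℕ)} {v a b' : ℕ} (h : CP K v [v, a, b']) : CP K v [v, b', a] := by
  obtain ⟨h1, h2, h3⟩ := h
  have e0 := h3 0 (by simp)
  have e1 := h3 1 (by simp)
  have e2 := h3 2 (by simp)
  simp at e0 e1 e2
  refine ⟨by simp, by simp, ?_⟩
  intro i hi
  have hi' : i < 3 := by simpa using hi
  obtain ⟨⟨s0, k0, p0, q0⟩, n0⟩ := e0
  obtain ⟨⟨s1, k1, p1, q1⟩, n1⟩ := e1
  obtain ⟨⟨s2, k2, p2, q2⟩, n2⟩ := e2
  interval_cases i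
  · simp
    exact ⟨⟨s2, k2, q2, p2⟩, fun h => n2 h.symm⟩
  · simp
    exact ⟨⟨s1, k1, q1, p1⟩, fun h => n1 h.symm⟩
  · simp
    exact ⟨⟨s0, k0, q0, p0⟩, fun h => n0 h.symm⟩

end PolyAux

open PolyAux in
theorem taskPoly : TaskPoly := by
  intro K v n A B b a hb hx V
  induction V with
  | nil => intro h; exact absurd rfl h
  | cons l V' ih =>
    intro _ hV
    have hl : l.1 < n := hV l (by simp)
    obtain ⟨T, hTdef⟩ : ∃ T : List ℕ,
      T = if l.2 then [v, A l.1, B l.1] else [v, B l.1, A l.1] := ⟨_, rfl⟩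
    obtain ⟨γT, hγT⟩ : ∃ γT : Path b b,
      γT = if l.2 then a ⟨l.1, hl⟩ else (a ⟨l.1, hl⟩).symm := ⟨_, rfl⟩
    have hx' := hx ⟨l.1, hl⟩
    have hCP : CP K v T := by
      rw [hTdef]
      split_ifs
      · exact hx'.1
      · exact cp_rev hx'.1
    have hPg : IsPg b T γT := by
      intro s
      rw [hTdef, hγT]
      split_ifs
      · exact hx'.2 s
      · rw [tri_rev v _ _ s s.2.1 s.2.2]
        exact hx'.2 (σ s)
    have hwp : wp v A B (l :: V') = T ++ wp v A B V' := by
      rw [hTdef]; simp only [wp, List.flatMap_cons]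
    have hwl : wloop a (l :: V') = γT.trans (wloop a V') := by
      rw [hγT]
      simp only [wloop, dif_pos hl]
    rw [hwp, hwl]
    by_cases hne : V' = []
    · subst hne
      refine ⟨γT, ?_, ?_, ?_⟩
      · simpa [wp] using hCP
      · simpa [wp] using hPg
      · exact ⟨(Path.Homotopy.transRefl γT).symm⟩
    · obtain ⟨γ', c1, c2, c3⟩ := ih hne (fun l' hl' => hV l' (List.mem_cons_of_mem _ hl'))
      obtain ⟨γ, g1, g2⟩ := concat v T (wp v A B V') b γT γ' hPg c2 (by have := hCP.1; omega)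
        (by have := c1.1; omega) hCP.2.1 c1.2.1
      exact ⟨γ, cp_append hCP c1, g1, g2.trans (Path.Homotopic.hcomp (Path.Homotopic.refl γT) c3)⟩

end

end Pool.Agent.H659R3.CT
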