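import Pool.Agent.H659R3.CT.SimpStmts

set_option autoImplicit false
set_option maxHeartbeats 4000000

/-! `TaskPrism`: the triangulated product with the bouquet. -/

namespace Pool.Agent.H659R3.CT.Prism

open unitInterval Topology Pool.Agent.H659R3.CT

noncomputable section

/-- partial sums -/
def FF (x : ℕ → ℝ) (n : ℕ) : ℝ := ∑ u ∈ Finset.range n, x u

theorem FF_succ (x : ℕ → ℝ) (n : ℕ) : FF x (n + 1) = FF x n + x n := Finset.sum_range_succ _ _

theorem FF_mono {x : ℕ → ℝ} (hx : ∀ i, 0 ≤ x i) {m n : ℕ} (h : m ≤ n) : FF x m ≤ FF x n :=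
  Finset.sum_le_sum_of_subset_of_nonneg (Finset.range_mono h) fun i _ _ => hx i

theorem FF_nonneg {x : ℕ → ℝ} (hx : ∀ i, 0 ≤ x i) (n : ℕ) : 0 ≤ FF x n :=
  Finset.sum_nonneg fun i _ => hx i

theorem FF_le {x : ℕ → ℝ} (hx : ∀ i, 0 ≤ x i) {S : Finset ℕ} (hS : ∀ i, i ∉ S → x i = 0) (n : ℕ) :
    FF x n ≤ ∑ u ∈ S, x u := by
  have h1 : ∑ u ∈ S, x u = ∑ u ∈ Finset.range n ∪ S, x u :=
    Finset.sum_subset Finset.subset_union_right fun i _ h => hS i h
  rw [h1]
  exact Finset.sum_le_sum_of_subset_of_nonneg Finset.subset_union_left fun i _ _ => hx i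

theorem FF_eq {x : ℕ → ℝ} {S : Finset ℕ} (hS : ∀ i, i ∉ S → x i = 0) (n : ℕ)
    (hn : ∀ u, n ≤ u → x u = 0) : FF x n = ∑ u ∈ S, x u := by
  have h1 : ∑ u ∈ S, x u = ∑ u ∈ Finset.range n ∪ S, x u :=
    Finset.sum_subset Finset.subset_union_right fun i _ h => hS i h
  rw [h1]
  refine Finset.sum_subset Finset.subset_union_left fun i _ h => hn i ?_
  rw [Finset.mem_range, not_lt] at h
  exact h

/-- mass of the vertex `v` below the cut `θ` -/
def low (x : ℕ → ℝ) (θ : ℝ) (v : ℕ) : ℝ := min (FF x (v + 1)) θ - min (FF x v) θ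

theorem low_zero {x : ℕ → ℝ} (hx : ∀ i, 0 ≤ x i) {θ : ℝ} {v : ℕ} (h : θ ≤ FF x v) :
    low x θ v = 0 := by
  unfold low
  have := FF_mono hx (Nat.le_succ v)
  rw [min_eq_right h, min_eq_right (h.trans this), sub_self]

theorem low_full {x : ℕ → ℝ} (hx : ∀ i, 0 ≤ x i) {θ : ℝ} {v : ℕ} (h : FF x (v + 1) ≤ θ) :
    low x θ v = x v := by
  unfold low
  have := FF_mono hx (Nat.le_succ v)
  rw [min_eq_left h, min_eq_left (this.trans h), FF_succ]
  ring

theorem low_mono {x : ℕ → ℝ} (hx : ∀ i, 0 ≤ x i) {θ θ' : ℝ} (v : ℕ) (h : θ ≤ θ') :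
    low x θ v ≤ low x θ' v := by
  unfold low
  have h1 := FF_mono hx (Nat.le_succ v)
  simp only [min_def]
  split_ifs <;> linarith

theorem low_of_zero {x : ℕ → ℝ} {θ : ℝ} {v : ℕ} (h : x v = 0) : low x θ v = 0 := by
  unfold low
  rw [FF_succ, h, add_zero, sub_self]

/-- points of the simplex `s` -/
structure Sx (s : List ℕ) (x : ℕ → ℝ) : Prop where
  nn : ∀ i, 0 ≤ x i
  sp : ∀ i, i ∉ s → x i = 0
  sm : ∑ i ∈ s.toFinset, x i = 1

theorem Sx.le {s : List ℕ} {x : ℕ → ℝ} (h : Sx s x) (n : ℕ) : FF x n ≤ 1 := by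
  rw [← h.sm]
  exact FF_le h.nn (fun i hi => h.sp i (by simpa using hi)) n

theorem Sx.low_one {s : List ℕ} {x : ℕ → ℝ} (h : Sx s x) {θ : ℝ} (hθ : 1 ≤ θ) (v : ℕ) :
    low x θ v = x v := low_full h.nn ((h.le _).trans hθ)

theorem Sx.low_neg {s : List ℕ} {x : ℕ → ℝ} (h : Sx s x) {θ : ℝ} (hθ : θ ≤ 0) (v : ℕ) :
    low x θ v = 0 := low_zero h.nn (hθ.trans (FF_nonneg h.nn _))

theorem Sx.low_nonneg {s : List ℕ} {x : ℕ → ℝ} (h : Sx s x) (θ : ℝ) (v : ℕ) :
    0 ≤ low x θ v := by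
  rcases le_total θ 0 with h1 | h1
  · rw [h.low_neg h1]
  · rw [← h.low_neg le_rfl v]
    exact low_mono h.nn v h1

theorem Sx.low_le {s : List ℕ} {x : ℕ → ℝ} (h : Sx s x) (θ : ℝ) (v : ℕ) :
    low x θ v ≤ x v := by
  rcases le_total 1 θ with h1 | h1
  · rw [h.low_one h1]
  · rw [← h.low_one le_rfl v]
    exact low_mono h.nn v h1

theorem mem_prism {s : List ℕ} {c c' : ℕ} {ς : List ℕ} : ς ∈ prism s c c' ↔
    ∃ l a r, s = l ++ a :: r ∧
      ς = (l ++ [a]).map (fun v => pv v c) ++ (a :: r).map (fun v => pv v c') := by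
  unfold prism
  rw [List.mem_map]
  constructor
  · rintro ⟨i, hi, rfl⟩
    rw [List.mem_range] at hi
    refine ⟨s.take i, s[i], s.drop (i + 1), ?_, ?_⟩
    · rw [← List.drop_eq_getElem_cons hi, List.take_append_drop]
    · rw [← List.drop_eq_getElem_cons hi, List.take_append_getElem hi]
  · rintro ⟨l, a, r, rfl, rfl⟩
    refine ⟨l.length, ?_, ?_⟩
    · rw [List.mem_range]; simp
    · have h1 : (l ++ a :: r).take (l.length + 1) = l ++ [a] := by
        simp [List.take_append]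
      have h2 : (l ++ a :: r).drop l.length = a :: r := by simp
      rw [h1, h2]

theorem pv_inj {v c v' c' : ℕ} : pv v c = pv v' c' ↔ v = v' ∧ c = c' := by
  unfold pv
  exact Nat.pair_eq_pair

theorem exists_split (P : ℕ → Prop) (s : List ℕ) (h : ∃ a ∈ s, P a) :
    ∃ l a r, s = l ++ a :: r ∧ P a ∧ ∀ u ∈ l, ¬ P u := by
  induction s with
  | nil => obtain ⟨a, ha, -⟩ := h; simp at ha
  | cons b s ih =>
    by_cases hb : P b
    · exact ⟨[], b, s, rfl, hb, by simp⟩
    · obtain ⟨l, a, r, h1, h2, h3⟩ := ih (by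
        obtain ⟨a, ha, hP⟩ := h
        rcases List.mem_cons.1 ha with h4 | h4
        · exact absurd (h4 ▸ hP) hb
        · exact ⟨a, h4, hP⟩)
      refine ⟨b :: l, a, r, by rw [h1]; rfl, h2, ?_⟩
      intro u hu
      rcases List.mem_cons.1 hu with h4 | h4
      · rw [h4]; exact hb
      · exact h3 u h4

theorem sorted_split {l r : List ℕ} {a : ℕ} (h : (l ++ a :: r).Pairwise (· < ·)) :
    (∀ u ∈ l, u < a) ∧ ∀ u ∈ r, a < u := by
  rw [List.pairwise_append] at h
  exact ⟨fun u hu => h.2.2 u hu a List.mem_cons_self, (List.pairwise_cons.1 h.2.1).1⟩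

/-- sums over a simplex of the prism -/
theorem sum_prism {s l r : List ℕ} {a c c' : ℕ} (hs : s = l ++ a :: r) (hc : c ≠ c') (y : ℕ → ℝ)
    (hy : ∀ w, w ∉ (l ++ [a]).map (fun v => pv v c) ++ (a :: r).map (fun v => pv v c') → y w = 0) :
    ∑ w ∈ ((l ++ [a]).map (fun v => pv v c) ++ (a :: r).map (fun v => pv v c')).toFinset, y w =
      ∑ v ∈ s.toFinset, (y (pv v c) + y (pv v c')) := by
  have h1 : ∑ w ∈ (s.toFinset ×ˢ ({c, c'} : Finset ℕ)).image (fun p => pv p.1 p.2), y w =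
      ∑ v ∈ s.toFinset, (y (pv v c) + y (pv v c')) := by
    rw [Finset.sum_image, Finset.sum_product]
    · refine Finset.sum_congr rfl fun v _ => ?_
      rw [Finset.sum_pair hc]
    · rintro ⟨p, q⟩ - ⟨p', q'⟩ - h
      have := pv_inj.1 h
      exact Prod.ext this.1 this.2
  rw [← h1]
  refine Finset.sum_subset ?_ fun w _ hw => hy w (fun h => hw (List.mem_toFinset.2 h))
  intro w hw
  rw [List.mem_toFinset, List.mem_append] at hw
  rw [Finset.mem_image]
  rcases hw with hw | hw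
  · obtain ⟨v, hv, rfl⟩ := List.mem_map.1 hw
    refine ⟨(v, c), ?_, rfl⟩
    rw [Finset.mem_product]
    refine ⟨?_, by simp⟩
    rw [List.mem_toFinset, hs]
    simp only [List.mem_append, List.mem_cons, List.not_mem_nil, or_false] at hv ⊢
    tauto
  · obtain ⟨v, hv, rfl⟩ := List.mem_map.1 hw
    refine ⟨(v, c'), ?_, rfl⟩
    rw [Finset.mem_product]
    refine ⟨?_, by simp⟩
    rw [List.mem_toFinset, hs]
    simp only [List.mem_append, List.mem_cons] at hv ⊢
    tauto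

/-- the point over `x` with cut `θ` is in the prism -/
theorem edge {s : List ℕ} {x : ℕ → ℝ} (hs : s.Pairwise (· < ·)) (hx : Sx s x) {θ : ℝ}
    (h1 : θ ≤ 1) {c c' : ℕ} (hc : c ≠ c') {y : ℕ → ℝ}
    (yc : ∀ v, y (pv v c) = low x θ v) (yc' : ∀ v, y (pv v c') = x v - low x θ v)
    (yd : ∀ v d, d ≠ c → d ≠ c' → y (pv v d) = 0) :
    ∃ ς ∈ prism s c c', Sx ς y := by
  have hne : s.toFinset.Nonempty := by
    rw [Finset.nonempty_iff_ne_empty]
    intro h
    have := hx.sm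
    rw [h, Finset.sum_empty] at this
    exact zero_ne_one this
  obtain ⟨m, hm, hmax⟩ := Finset.exists_max_image s.toFinset id hne
  have hm1 : FF x (m + 1) = 1 := by
    rw [FF_eq (S := s.toFinset) (fun i hi => hx.sp i (by simpa using hi)) (m + 1), hx.sm]
    intro u hu
    apply hx.sp
    intro h
    have := hmax u (by simpa using h)
    simp only [id] at this
    omega
  obtain ⟨l, a, r, rfl, hPa, hPl⟩ := exists_split (fun a => θ ≤ FF x (a + 1)) s
    ⟨m, by simpa using hm, by rw [hm1]; exact h1⟩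
  obtain ⟨hl, hr⟩ := sorted_split hs
  have hsupp : ∀ w, w ∉ (l ++ [a]).map (fun v => pv v c) ++ (a :: r).map (fun v => pv v c') →
      y w = 0 := by
    intro w hw
    obtain ⟨v, d, rfl⟩ : ∃ v d, w = pv v d := ⟨w.unpair.1, w.unpair.2, by
      unfold pv; exact (Nat.pair_unpair w).symm⟩
    rw [List.mem_append, not_or] at hw
    by_cases hd : d = c
    · subst hd
      rw [yc]
      have hv : v ∉ l ++ [a] := fun h => hw.1 (List.mem_map.2 ⟨v, h, rfl⟩)
      by_cases hvs : v ∈ l ++ a :: r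
      · have hvr : v ∈ r := by
          simp only [List.mem_append, List.mem_cons, List.not_mem_nil, or_false] at hv hvs
          tauto
        exact low_zero hx.nn (hPa.trans (FF_mono hx.nn (hr v hvr)))
      · exact low_of_zero (hx.sp v hvs)
    · by_cases hd' : d = c'
      · subst hd'
        rw [yc']
        have hv : v ∉ a :: r := fun h => hw.2 (List.mem_map.2 ⟨v, h, rfl⟩)
        by_cases hvs : v ∈ l ++ a :: r
        · have hvl : v ∈ l := by
            simp only [List.mem_append, List.mem_cons] at hv hvs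
            tauto
          have := hPl v hvl
          rw [low_full hx.nn (not_le.1 this).le, sub_self]
        · rw [low_of_zero (hx.sp v hvs), hx.sp v hvs, sub_self]
      · exact yd v d hd hd'
  refine ⟨_, mem_prism.2 ⟨l, a, r, rfl, rfl⟩, ?_, hsupp, ?_⟩
  · intro w
    obtain ⟨v, d, rfl⟩ : ∃ v d, w = pv v d := ⟨w.unpair.1, w.unpair.2, by
      unfold pv; exact (Nat.pair_unpair w).symm⟩
    by_cases hd : d = c
    · subst hd; rw [yc]; exact hx.low_nonneg _ _
    · by_cases hd' : d = c'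
      · subst hd'; rw [yc']; exact sub_nonneg.2 (hx.low_le _ _)
      · rw [yd v d hd hd']
  · rw [sum_prism rfl hc y hsupp]
    rw [← hx.sm]
    refine Finset.sum_congr rfl fun v _ => ?_
    rw [yc, yc']; ring

/-- every point of the prism is of this form -/
theorem edge_surj {s : List ℕ} (hs : s.Pairwise (· < ·)) {c c' : ℕ} (hc : c ≠ c') {ς : List ℕ}
    (hς : ς ∈ prism s c c') {y : ℕ → ℝ} (hy : Sx ς y) :
    Sx s (fun v => y (pv v c) + y (pv v c')) ∧ ∃ θ : ℝ, 0 ≤ θ ∧ θ ≤ 1 ∧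
      (∀ v, low (fun v => y (pv v c) + y (pv v c')) θ v = y (pv v c)) ∧
      ∀ v d, d ≠ c → d ≠ c' → y (pv v d) = 0 := by
  obtain ⟨l, a, r, rfl, rfl⟩ := mem_prism.1 hς
  obtain ⟨hl, hr⟩ := sorted_split hs
  have hY : ∀ v, v ∉ l ++ [a] → y (pv v c) = 0 := by
    intro v hv
    apply hy.sp
    rw [List.mem_append, not_or]
    refine ⟨fun h => ?_, fun h => ?_⟩
    · obtain ⟨u, hu, he⟩ := List.mem_map.1 h
      exact hv ((pv_inj.1 he).1 ▸ hu)
    · obtain ⟨u, hu, he⟩ := List.mem_map.1 h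
      exact hc (pv_inj.1 he).2.symm
  have hY' : ∀ v, v ∉ a :: r → y (pv v c') = 0 := by
    intro v hv
    apply hy.sp
    rw [List.mem_append, not_or]
    refine ⟨fun h => ?_, fun h => ?_⟩
    · obtain ⟨u, hu, he⟩ := List.mem_map.1 h
      exact hc (pv_inj.1 he).2
    · obtain ⟨u, hu, he⟩ := List.mem_map.1 h
      exact hv ((pv_inj.1 he).1 ▸ hu)
  have hYs : ∀ v, v ∉ l ++ a :: r → y (pv v c) = 0 := fun v hv => hY v (by
    simp only [List.mem_append, List.mem_cons, List.not_mem_nil, or_false] at hv ⊢; tauto)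
  have hYs' : ∀ v, v ∉ l ++ a :: r → y (pv v c') = 0 := fun v hv => hY' v (by
    simp only [List.mem_append, List.mem_cons] at hv ⊢; tauto)
  have hx : Sx (l ++ a :: r) (fun v => y (pv v c) + y (pv v c')) := by
    refine ⟨fun v => add_nonneg (hy.nn _) (hy.nn _), fun v hv => ?_, ?_⟩
    · simp only [hYs v hv, hYs' v hv, add_zero]
    · rw [← sum_prism rfl hc y hy.sp]
      exact hy.sm
  have hs1 : ∑ v ∈ (l ++ a :: r).toFinset, y (pv v c) ≤ 1 := by
    rw [← hx.sm]
    exact Finset.sum_le_sum fun v _ => le_add_of_nonneg_right (hy.nn _)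
  obtain ⟨θ, hθ⟩ : ∃ θ, θ = ∑ v ∈ (l ++ a :: r).toFinset, y (pv v c) := ⟨_, rfl⟩
  refine ⟨hx, θ, by rw [hθ]; exact Finset.sum_nonneg fun v _ => hy.nn _, by rw [hθ]; exact hs1,
    ?_, ?_⟩
  · have k1 : ∀ n, a + 1 ≤ n → FF (fun v => y (pv v c)) n = θ := by
      intro n hn
      rw [hθ]
      refine FF_eq (fun i hi => hYs i (fun h => hi (List.mem_toFinset.2 h))) n fun u hu => hY u ?_
      intro h
      rw [List.mem_append, List.mem_singleton] at h
      rcases h with h | h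
      · have := hl u h; omega
      · omega
    have k2 : ∀ n, FF (fun v => y (pv v c)) n ≤ θ := by
      intro n
      rw [hθ]
      exact FF_le (fun i => hy.nn _) (fun i hi => hYs i (fun h => hi (List.mem_toFinset.2 h))) n
    have k3 : ∀ n, n ≤ a → FF (fun v => y (pv v c) + y (pv v c')) n =
        FF (fun v => y (pv v c)) n := by
      intro n hn
      refine Finset.sum_congr rfl fun u hu => ?_
      show y (pv u c) + y (pv u c') = y (pv u c)
      rw [hY' u, add_zero]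
      intro h
      rw [Finset.mem_range] at hu
      rcases List.mem_cons.1 h with h | h
      · omega
      · have := hr u h; omega
    have k4 : ∀ n, FF (fun v => y (pv v c)) n ≤ FF (fun v => y (pv v c) + y (pv v c')) n :=
      fun n => Finset.sum_le_sum fun v _ => le_add_of_nonneg_right (hy.nn _)
    intro v
    rcases lt_trichotomy v a with hv | hv | hv
    · rw [low_full hx.nn (by rw [k3 _ hv]; exact k2 _)]
      show y (pv v c) + y (pv v c') = y (pv v c)
      rw [hY' v, add_zero]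
      intro h
      rcases List.mem_cons.1 h with h | h
      · omega
      · have := hr v h; omega
    · subst hv
      unfold low
      have e1 : FF (fun u => y (pv u c)) (v + 1) = FF (fun u => y (pv u c)) v + y (pv v c) :=
        FF_succ _ _
      have e2 := k1 (v + 1) le_rfl
      rw [k3 v le_rfl, min_eq_right ((k1 (v + 1) le_rfl).symm.le.trans (k4 _)),
        min_eq_left (k2 v)]
      linarith
    · rw [low_zero hx.nn ((k1 v hv).symm.le.trans (k4 _)), hY v]
      intro h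
      rw [List.mem_append, List.mem_singleton] at h
      rcases h with h | h
      · have := hl v h; omega
      · omega
  · intro v d hd hd'
    apply hy.sp
    rw [List.mem_append, not_or]
    refine ⟨fun h => ?_, fun h => ?_⟩
    · obtain ⟨u, hu, he⟩ := List.mem_map.1 h
      exact hd (pv_inj.1 he).2.symm
    · obtain ⟨u, hu, he⟩ := List.mem_map.1 h
      exact hd' (pv_inj.1 he).2.symm

theorem Sx_iff {K : List (List ℕ)} (x : Rz K) : ∃ s ∈ K, Sx s x.1 := by
  obtain ⟨h1, s, hs, h2, h3⟩ := x.2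
  exact ⟨s, hs, h1, h2, h3⟩

/-- constructor -/
def mk {K : List (List ℕ)} (x : ℕ → ℝ) (h : ∃ s ∈ K, Sx s x) : Rz K :=
  ⟨x, by
    obtain ⟨s, hs, h1, h2, h3⟩ := h
    exact ⟨h1, s, hs, h2, h3⟩⟩

theorem mk_val {K : List (List ℕ)} (x : ℕ → ℝ) (h : ∃ s ∈ K, Sx s x) : (mk x h).1 = x := rfl

/-- coordinates over the circle `j` at time `t` -/
def yc (x : ℕ → ℝ) (j : ℕ) (t : ℝ) (v c : ℕ) : ℝ :=
  if c = 0 then x v - low x (3 - 3 * t) v + low x (1 - 3 * t) v
  else (if c = 2 * j + 1 then 1 else 0) * (low x (2 - 3 * t) v - low x (1 - 3 * t) v) +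
    (if c = 2 * j + 2 then 1 else 0) * (low x (3 - 3 * t) v - low x (2 - 3 * t) v)

theorem yc0 (x : ℕ → ℝ) (j : ℕ) (t : ℝ) (v : ℕ) :
    yc x j t v 0 = x v - low x (3 - 3 * t) v + low x (1 - 3 * t) v := by
  unfold yc; rw [if_pos rfl]

theorem yc1 (x : ℕ → ℝ) (j : ℕ) (t : ℝ) (v : ℕ) :
    yc x j t v (2 * j + 1) = low x (2 - 3 * t) v - low x (1 - 3 * t) v := by
  unfold yc; rw [if_neg (by omega), if_pos rfl, if_neg (by omega)]; ring

theorem yc2 (x : ℕ → ℝ) (j : ℕ) (t : ℝ) (v : ℕ) :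
    yc x j t v (2 * j + 2) = low x (3 - 3 * t) v - low x (2 - 3 * t) v := by
  unfold yc; rw [if_neg (by omega), if_neg (by omega), if_pos rfl]; ring

theorem yc3 (x : ℕ → ℝ) (j : ℕ) (t : ℝ) (v c : ℕ) (h0 : c ≠ 0) (h1 : c ≠ 2 * j + 1)
    (h2 : c ≠ 2 * j + 2) : yc x j t v c = 0 := by
  unfold yc; rw [if_neg h0, if_neg h1, if_neg h2]; ring

/-- the point over the circle -/
def yy (x : ℕ → ℝ) (j : ℕ) (t : ℝ) (w : ℕ) : ℝ := yc x j t w.unpair.1 w.unpair.2

theorem yy_pv (x : ℕ → ℝ) (j : ℕ) (t : ℝ) (v c : ℕ) : yy x j t (pv v c) = yc x j t v c := by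
  unfold yy pv; rw [Nat.unpair_pair]

/-- the point at the base -/
def y0 (x : ℕ → ℝ) (w : ℕ) : ℝ := if w.unpair.2 = 0 then x w.unpair.1 else 0

theorem y0_pv (x : ℕ → ℝ) (v c : ℕ) : y0 x (pv v c) = if c = 0 then x v else 0 := by
  unfold y0 pv; rw [Nat.unpair_pair]

theorem exists_pv (w : ℕ) : ∃ v d, w = pv v d := ⟨w.unpair.1, w.unpair.2, by
  unfold pv; exact (Nat.pair_unpair w).symm⟩

theorem ext_pv {y y' : ℕ → ℝ} (h : ∀ v c, y (pv v c) = y' (pv v c)) : y = y' := by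
  funext w
  obtain ⟨v, d, rfl⟩ := exists_pv w
  exact h v d

theorem y0_mem {K : List (List ℕ)} {J : ℕ} {s : List ℕ} (hs : s ∈ K) {x : ℕ → ℝ} (hx : Sx s x) :
    ∃ ς ∈ prod3 K J, Sx ς (y0 x) := by
  refine ⟨s.map fun v => pv v 0, ?_, ?_, ?_, ?_⟩
  · unfold prod3
    exact List.mem_append_left _ (List.mem_map.2 ⟨s, hs, rfl⟩)
  · intro w
    unfold y0
    split_ifs
    · exact hx.nn _
    · exact le_rfl
  · intro w hw
    obtain ⟨v, d, rfl⟩ := exists_pv w
    rw [y0_pv]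
    split_ifs with h
    · subst h
      exact hx.sp v fun h => hw (List.mem_map.2 ⟨v, h, rfl⟩)
    · rfl
  · have h1 : (s.map fun v => pv v 0).toFinset = s.toFinset.image fun v => pv v 0 := by
      ext w; simp
    rw [h1, Finset.sum_image (fun a _ b _ h => (pv_inj.1 h).1)]
    rw [← hx.sm]
    refine Finset.sum_congr rfl fun v _ => ?_
    rw [y0_pv, if_pos rfl]

theorem mem_prod3 {K : List (List ℕ)} {J : ℕ} {ς : List ℕ} : ς ∈ prod3 K J ↔
    (∃ s ∈ K, ς = s.map fun v => pv v 0) ∨ ∃ j < J, ∃ s ∈ K, ς ∈ prism s 0 (2 * j + 1) ∨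
      ς ∈ prism s (2 * j + 1) (2 * j + 2) ∨ ς ∈ prism s (2 * j + 2) 0 := by
  unfold prod3
  simp only [List.mem_append, List.mem_map, List.mem_flatMap, List.mem_range]
  constructor
  · rintro (⟨s, hs, rfl⟩ | ⟨j, hj, s, hs, h⟩)
    · exact Or.inl ⟨s, hs, rfl⟩
    · exact Or.inr ⟨j, hj, s, hs, h⟩
  · rintro (⟨s, hs, rfl⟩ | ⟨j, hj, s, hs, h⟩)
    · exact Or.inl ⟨s, hs, rfl⟩
    · exact Or.inr ⟨j, hj, s, hs, h⟩

theorem yy_mem {K : List (List ℕ)} {J : ℕ} {s : List ℕ} (hs : s ∈ K) (hS : s.Pairwise (· < ·))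
    {x : ℕ → ℝ} (hx : Sx s x) {j : ℕ} (hj : j < J) (t : ℝ) (ht0 : 0 ≤ t) (_ : t ≤ 1) :
    ∃ ς ∈ prod3 K J, Sx ς (yy x j t) := by
  rcases le_total t (1 / 3) with h1 | h1
  · obtain ⟨ς, h2, h3⟩ := edge hS hx (θ := 1 - 3 * t) (by linarith) (c := 0) (c' := 2 * j + 1)
      (by omega) (y := yy x j t)
      (fun v => by rw [yy_pv, yc0, hx.low_one (by linarith)]; ring)
      (fun v => by rw [yy_pv, yc1, hx.low_one (θ := 2 - 3 * t) (by linarith)])
      (fun v d hd hd' => by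
        rw [yy_pv]
        by_cases hd2 : d = 2 * j + 2
        · subst hd2
          rw [yc2, hx.low_one (θ := 2 - 3 * t) (by linarith),
            hx.low_one (θ := 3 - 3 * t) (by linarith), sub_self]
        · exact yc3 _ _ _ _ _ hd hd' hd2)
    exact ⟨ς, mem_prod3.2 (Or.inr ⟨j, hj, s, hs, Or.inl h2⟩), h3⟩
  rcases le_total t (2 / 3) with h2 | h2
  · obtain ⟨ς, h4, h3⟩ := edge hS hx (θ := 2 - 3 * t) (by linarith) (c := 2 * j + 1)
      (c' := 2 * j + 2) (by omega) (y := yy x j t)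
      (fun v => by rw [yy_pv, yc1, hx.low_neg (θ := 1 - 3 * t) (by linarith), sub_zero])
      (fun v => by rw [yy_pv, yc2, hx.low_one (θ := 3 - 3 * t) (by linarith)])
      (fun v d hd hd' => by
        rw [yy_pv]
        by_cases hd2 : d = 0
        · subst hd2
          rw [yc0, hx.low_one (θ := 3 - 3 * t) (by linarith),
            hx.low_neg (θ := 1 - 3 * t) (by linarith)]
          ring
        · exact yc3 _ _ _ _ _ hd2 hd hd')
    exact ⟨ς, mem_prod3.2 (Or.inr ⟨j, hj, s, hs, Or.inr (Or.inl h4)⟩), h3⟩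
  · obtain ⟨ς, h4, h3⟩ := edge hS hx (θ := 3 - 3 * t) (by linarith) (c := 2 * j + 2)
      (c' := 0) (by omega) (y := yy x j t)
      (fun v => by rw [yy_pv, yc2, hx.low_neg (θ := 2 - 3 * t) (by linarith), sub_zero])
      (fun v => by rw [yy_pv, yc0, hx.low_neg (θ := 1 - 3 * t) (by linarith), add_zero])
      (fun v d hd hd' => by
        rw [yy_pv]
        by_cases hd2 : d = 2 * j + 1
        · subst hd2
          rw [yc1, hx.low_neg (θ := 2 - 3 * t) (by linarith),
            hx.low_neg (θ := 1 - 3 * t) (by linarith), sub_self]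
        · exact yc3 _ _ _ _ _ hd' hd2 hd)
    exact ⟨ς, mem_prod3.2 (Or.inr ⟨j, hj, s, hs, Or.inr (Or.inr h4)⟩), h3⟩

theorem yy_zero {s : List ℕ} {x : ℕ → ℝ} (hx : Sx s x) (j : ℕ) : yy x j 0 = y0 x := by
  refine ext_pv fun v c => ?_
  rw [yy_pv, y0_pv]
  unfold yc
  rw [hx.low_one (θ := 3 - 3 * 0) (by norm_num), hx.low_one (θ := 2 - 3 * 0) (by norm_num),
    hx.low_one (θ := 1 - 3 * 0) (by norm_num)]
  split_ifs <;> ring

theorem yy_one {s : List ℕ} {x : ℕ → ℝ} (hx : Sx s x) (j : ℕ) : yy x j 1 = y0 x := by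
  refine ext_pv fun v c => ?_
  rw [yy_pv, y0_pv]
  unfold yc
  rw [hx.low_neg (θ := 3 - 3 * 1) (by norm_num), hx.low_neg (θ := 2 - 3 * 1) (by norm_num),
    hx.low_neg (θ := 1 - 3 * 1) (by norm_num)]
  split_ifs <;> ring

variable (K : List (List ℕ)) (J : ℕ) (hK : ∀ s ∈ K, s.Pairwise (· < ·))

/-- the map before passing to the quotient -/
def r0 : Rz K ⊕ (Rz K × (Fin J × I)) → Rz (prod3 K J) :=
  Sum.elim (fun x => mk (y0 x.1) (by
      obtain ⟨s, hs, hx⟩ := Sx_iff x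
      exact y0_mem hs hx))
    (fun q => mk (yy q.1.1 q.2.1.1 q.2.2) (by
      obtain ⟨s, hs, hx⟩ := Sx_iff q.1
      exact yy_mem hs (hK s hs) hx q.2.1.2 _ q.2.2.2.1 q.2.2.2.2))

theorem FF_cont (n : ℕ) : Continuous fun x : Rz K => FF x.1 n := by
  unfold FF
  exact continuous_finsetSum _ fun u _ => (continuous_apply u).comp continuous_subtype_val

theorem val_cont (n : ℕ) : Continuous fun x : Rz K => x.1 n :=
  (continuous_apply n).comp continuous_subtype_val

theorem r0_cont : Continuous (r0 K J hK) := by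
  unfold r0
  refine Continuous.sumElim ?_ ?_
  · refine Continuous.subtype_mk (continuous_pi fun w => ?_) _
    unfold y0
    split_ifs
    · exact val_cont K _
    · exact continuous_const
  · refine Continuous.subtype_mk (continuous_pi fun w => ?_) _
    have hF : ∀ n, Continuous fun q : Rz K × (Fin J × I) => FF q.1.1 n := fun n =>
      (FF_cont K n).comp continuous_fst
    have hx : ∀ n, Continuous fun q : Rz K × (Fin J × I) => q.1.1 n := fun n =>
      (val_cont K n).comp continuous_fst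
    have ht : Continuous fun q : Rz K × (Fin J × I) => (q.2.2 : ℝ) :=
      continuous_subtype_val.comp (continuous_snd.comp continuous_snd)
    have hl : ∀ (a : ℝ) (v : ℕ), Continuous fun q : Rz K × (Fin J × I) =>
        low q.1.1 (a - 3 * (q.2.2 : ℝ)) v := by
      intro a v
      unfold low
      exact ((hF _).min (continuous_const.sub (continuous_const.mul ht))).sub
        ((hF _).min (continuous_const.sub (continuous_const.mul ht)))
    have hd : ∀ f : Fin J → ℝ, Continuous fun q : Rz K × (Fin J × I) => f q.2.1 := fun f =>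
      (continuous_of_discreteTopology (f := f)).comp (continuous_fst.comp continuous_snd)
    unfold yy yc
    by_cases hc : w.unpair.2 = 0
    · simp only [if_pos hc]
      exact ((hx _).sub (hl _ _)).add (hl _ _)
    · simp only [if_neg hc]
      exact ((hd fun j => if w.unpair.2 = 2 * j.1 + 1 then 1 else 0).mul
        ((hl _ _).sub (hl _ _))).add
        ((hd fun j => if w.unpair.2 = 2 * j.1 + 2 then 1 else 0).mul ((hl _ _).sub (hl _ _)))

theorem r0_rel (p q : Rz K ⊕ (Rz K × (Fin J × I))) (h : CyRel (Rz K) J p q) :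
    r0 K J hK p = r0 K J hK q := by
  cases h with
  | zero x j =>
    obtain ⟨s, hs, hx⟩ := Sx_iff x
    exact Subtype.ext (yy_zero hx j)
  | one x j =>
    obtain ⟨s, hs, hx⟩ := Sx_iff x
    exact Subtype.ext (yy_one hx j)

/-- the map `r` -/
def rr : Cy (Rz K) J → Rz (prod3 K J) := Quot.lift (r0 K J hK) (r0_rel K J hK)

theorem rr_cont : Continuous (rr K J hK) := continuous_quot_lift _ (r0_cont K J hK)

/-- first coordinate -/
theorem sum_yc {x : ℕ → ℝ} {j : ℕ} (hj : j < J) (t : ℝ) (v : ℕ) :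
    ∑ c ∈ Finset.range (2 * J + 1), yc x j t v c = x v := by
  have h1 : ∑ c ∈ Finset.range (2 * J + 1), yc x j t v c =
      ∑ c ∈ ({0, 2 * j + 1, 2 * j + 2} : Finset ℕ), yc x j t v c := by
    symm
    refine Finset.sum_subset ?_ fun c _ hc => ?_
    · intro c hc
      simp only [Finset.mem_insert, Finset.mem_singleton] at hc
      rw [Finset.mem_range]; omega
    · simp only [Finset.mem_insert, Finset.mem_singleton, not_or] at hc
      exact yc3 _ _ _ _ _ hc.1 hc.2.1 hc.2.2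
  rw [h1, Finset.sum_insert (by simp), Finset.sum_insert (by simp), Finset.sum_singleton, yc0,
    yc1, yc2]
  ring

theorem sum_y0 (x : ℕ → ℝ) (v : ℕ) : ∑ c ∈ Finset.range (2 * J + 1), y0 x (pv v c) = x v := by
  rw [Finset.sum_eq_single 0]
  · rw [y0_pv, if_pos rfl]
  · intro c _ hc
    rw [y0_pv, if_neg hc]
  · intro h
    exact absurd (Finset.mem_range.2 (by omega)) h

/-- the mass below the cut -/
theorem sum_low {s : List ℕ} {x : ℕ → ℝ} (hx : Sx s x) : ∃ N : ℕ, ∀ n, N ≤ n → ∀ θ,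
    ∑ v ∈ Finset.range n, low x θ v = min 1 θ - min 0 θ := by
  obtain ⟨N, hN⟩ : ∃ N, ∀ u ∈ s, u < N := by
    refine ⟨s.toFinset.sup id + 1, fun u hu => Nat.lt_succ_of_le ?_⟩
    exact Finset.le_sup (f := id) (List.mem_toFinset.2 hu)
  refine ⟨N, fun n hn θ => ?_⟩
  have h1 : FF x n = 1 := by
    rw [FF_eq (S := s.toFinset) (fun i hi => hx.sp i (fun h => hi (List.mem_toFinset.2 h))) n
      (fun u hu => hx.sp u fun h => by have := hN u h; omega), hx.sm]
  unfold low
  rw [Finset.sum_range_sub (fun v => min (FF x v) θ), h1]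
  simp [FF]

/-- `y` has mass `m` at the level `c` -/
def HasM (y : ℕ → ℝ) (c : ℕ) (m : ℝ) : Prop :=
  ∃ N : ℕ, ∀ n, N ≤ n → ∑ v ∈ Finset.range n, y (pv v c) = m

theorem HasM.unique {y : ℕ → ℝ} {c : ℕ} {m m' : ℝ} (h : HasM y c m) (h' : HasM y c m') :
    m = m' := by
  obtain ⟨N, hN⟩ := h
  obtain ⟨N', hN'⟩ := h'
  rw [← hN (max N N') (le_max_left _ _), ← hN' (max N N') (le_max_right _ _)]

/-- masses -/
def M1 (t : ℝ) : ℝ := (min 1 (2 - 3 * t) - min 0 (2 - 3 * t)) - (min 1 (1 - 3 * t) - min 0 (1 - 3 * t))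
def M2 (t : ℝ) : ℝ := (min 1 (3 - 3 * t) - min 0 (3 - 3 * t)) - (min 1 (2 - 3 * t) - min 0 (2 - 3 * t))

theorem Mval (t : ℝ) (h0 : 0 ≤ t) (h1 : t ≤ 1) :
    (t ≤ 1 / 3 ∧ M1 t = 3 * t ∧ M2 t = 0) ∨
    (1 / 3 ≤ t ∧ t ≤ 2 / 3 ∧ M1 t = 2 - 3 * t ∧ M2 t = 3 * t - 1) ∨
    (2 / 3 ≤ t ∧ M1 t = 0 ∧ M2 t = 3 - 3 * t) := by
  unfold M1 M2
  rcases le_total t (1 / 3) with h2 | h2
  · left
    rw [min_eq_left (show (1 : ℝ) ≤ 2 - 3 * t by linarith),
      min_eq_left (show (0 : ℝ) ≤ 2 - 3 * t by linarith),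
      min_eq_right (show 1 - 3 * t ≤ (1 : ℝ) by linarith),
      min_eq_left (show (0 : ℝ) ≤ 1 - 3 * t by linarith),
      min_eq_left (show (1 : ℝ) ≤ 3 - 3 * t by linarith),
      min_eq_left (show (0 : ℝ) ≤ 3 - 3 * t by linarith)]
    refine ⟨h2, by ring, by ring⟩
  rcases le_total t (2 / 3) with h3 | h3
  · right; left
    rw [min_eq_right (show 2 - 3 * t ≤ (1 : ℝ) by linarith),
      min_eq_left (show (0 : ℝ) ≤ 2 - 3 * t by linarith),
      min_eq_right (show 1 - 3 * t ≤ (1 : ℝ) by linarith),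
      min_eq_right (show 1 - 3 * t ≤ (0 : ℝ) by linarith),
      min_eq_left (show (1 : ℝ) ≤ 3 - 3 * t by linarith),
      min_eq_left (show (0 : ℝ) ≤ 3 - 3 * t by linarith)]
    refine ⟨h2, h3, by ring, by ring⟩
  · right; right
    rw [min_eq_right (show 2 - 3 * t ≤ (1 : ℝ) by linarith),
      min_eq_right (show 2 - 3 * t ≤ (0 : ℝ) by linarith),
      min_eq_right (show 1 - 3 * t ≤ (1 : ℝ) by linarith),
      min_eq_right (show 1 - 3 * t ≤ (0 : ℝ) by linarith),
      min_eq_right (show 3 - 3 * t ≤ (1 : ℝ) by linarith),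
      min_eq_left (show (0 : ℝ) ≤ 3 - 3 * t by linarith)]
    refine ⟨h3, by ring, by ring⟩

theorem M_zero (t : ℝ) (h0 : 0 ≤ t) (h1 : t ≤ 1) (e1 : M1 t = 0) (e2 : M2 t = 0) :
    t = 0 ∨ t = 1 := by
  rcases Mval t h0 h1 with ⟨a, b, c⟩ | ⟨a, a', b, c⟩ | ⟨a, b, c⟩
  · left; linarith
  · exfalso; linarith
  · right; linarith

theorem M_inj (t t' : ℝ) (h0 : 0 ≤ t) (h1 : t ≤ 1) (h0' : 0 ≤ t') (h1' : t' ≤ 1)
    (e1 : M1 t = M1 t') (e2 : M2 t = M2 t') :
    t = t' ∨ ((t = 0 ∨ t = 1) ∧ (t' = 0 ∨ t' = 1)) := by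
  rcases Mval t h0 h1 with ⟨a, b, c⟩ | ⟨a, a', b, c⟩ | ⟨a, b, c⟩ <;>
    rcases Mval t' h0' h1' with ⟨d, f, g⟩ | ⟨d, d', f, g⟩ | ⟨d, f, g⟩
  · left; linarith
  · left; linarith
  · right; exact ⟨Or.inl (by linarith), Or.inr (by linarith)⟩
  · left; linarith
  · left; linarith
  · left; linarith
  · right; exact ⟨Or.inr (by linarith), Or.inl (by linarith)⟩
  · left; linarith
  · left; linarith

theorem hm1 {s : List ℕ} {x : ℕ → ℝ} (hx : Sx s x) (j : ℕ) (t : ℝ) :
    HasM (yy x j t) (2 * j + 1) (M1 t) := by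
  obtain ⟨N, hN⟩ := sum_low hx
  refine ⟨N, fun n hn => ?_⟩
  simp only [yy_pv, yc1]
  rw [Finset.sum_sub_distrib, hN n hn, hN n hn]
  rfl

theorem hm2 {s : List ℕ} {x : ℕ → ℝ} (hx : Sx s x) (j : ℕ) (t : ℝ) :
    HasM (yy x j t) (2 * j + 2) (M2 t) := by
  obtain ⟨N, hN⟩ := sum_low hx
  refine ⟨N, fun n hn => ?_⟩
  simp only [yy_pv, yc2]
  rw [Finset.sum_sub_distrib, hN n hn, hN n hn]
  rfl

theorem hm3 (x : ℕ → ℝ) (j : ℕ) (t : ℝ) (c : ℕ) (h0 : c ≠ 0) (h1 : c ≠ 2 * j + 1)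
    (h2 : c ≠ 2 * j + 2) : HasM (yy x j t) c 0 :=
  ⟨0, fun n _ => Finset.sum_eq_zero fun v _ => by rw [yy_pv, yc3 _ _ _ _ _ h0 h1 h2]⟩

theorem hm0 (x : ℕ → ℝ) (c : ℕ) (h0 : c ≠ 0) : HasM (y0 x) c 0 :=
  ⟨0, fun n _ => Finset.sum_eq_zero fun v _ => by rw [y0_pv, if_neg h0]⟩

theorem ends {L : Type} {J : ℕ} (x : L) (j : Fin J) (t : I) (h : (t : ℝ) = 0 ∨ (t : ℝ) = 1) :
    (Quot.mk (CyRel L J) (Sum.inr (x, (j, t)))) = Quot.mk (CyRel L J) (Sum.inl x) := by
  rcases h with h | h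
  · have : t = 0 := Subtype.ext h
    subst this
    exact Quot.sound (CyRel.zero x j)
  · have : t = 1 := Subtype.ext h
    subst this
    exact Quot.sound (CyRel.one x j)

theorem rr_inj : Function.Injective (rr K J hK) := by
  intro p q h
  induction p using Quot.ind with | mk a => ?_
  induction q using Quot.ind with | mk b => ?_
  have h' : (r0 K J hK a).1 = (r0 K J hK b).1 := congrArg Subtype.val h
  rcases a with x | ⟨x, j, t⟩ <;> rcases b with x' | ⟨x', j', t'⟩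
  · have e : y0 x.1 = y0 x'.1 := h'
    have hx : x = x' := Subtype.ext (funext fun v => by rw [← sum_y0 J x.1 v, e, sum_y0 J x'.1 v])
    rw [hx]
  · have e : y0 x.1 = yy x'.1 j'.1 t' := h'
    have hx : x = x' := Subtype.ext (funext fun v => by
      rw [← sum_y0 J x.1 v, e]
      simp only [yy_pv]
      exact sum_yc J j'.2 _ _)
    subst hx
    obtain ⟨s, hs, hx⟩ := Sx_iff x
    have e1 := (hm1 hx j'.1 t').unique (e ▸ hm0 x.1 (2 * j'.1 + 1) (by omega))
    have e2 := (hm2 hx j'.1 t').unique (e ▸ hm0 x.1 (2 * j'.1 + 2) (by omega))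
    exact (ends x j' t' (M_zero _ t'.2.1 t'.2.2 e1 e2)).symm
  · have e : yy x.1 j.1 t = y0 x'.1 := h'
    have hx : x = x' := Subtype.ext (funext fun v => by
      rw [← sum_y0 J x'.1 v, ← e]
      simp only [yy_pv]
      exact (sum_yc J j.2 _ _).symm)
    subst hx
    obtain ⟨s, hs, hx⟩ := Sx_iff x
    have e1 := (hm1 hx j.1 t).unique (e.symm ▸ hm0 x.1 (2 * j.1 + 1) (by omega))
    have e2 := (hm2 hx j.1 t).unique (e.symm ▸ hm0 x.1 (2 * j.1 + 2) (by omega))
    exact ends x j t (M_zero _ t.2.1 t.2.2 e1 e2)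
  · have e : yy x.1 j.1 t = yy x'.1 j'.1 t' := h'
    have hx : x = x' := Subtype.ext (funext fun v => by
      have h1 := sum_yc J (x := x.1) j.2 t v
      have h2 := sum_yc J (x := x'.1) j'.2 t' v
      rw [← h1, ← h2]
      simp only [← yy_pv]
      rw [e])
    subst hx
    obtain ⟨s, hs, hx⟩ := Sx_iff x
    by_cases hj : j = j'
    · subst hj
      have e1 := (hm1 hx j.1 t).unique (e.symm ▸ hm1 hx j.1 t')
      have e2 := (hm2 hx j.1 t).unique (e.symm ▸ hm2 hx j.1 t')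
      rcases M_inj t t' t.2.1 t.2.2 t'.2.1 t'.2.2 e1 e2 with h1 | ⟨h1, h2⟩
      · have : t = t' := Subtype.ext h1
        rw [this]
      · rw [ends x j t h1, ends x j t' h2]
    · have hj1 : j.1 ≠ j'.1 := fun h => hj (Fin.ext h)
      have e1 := (hm1 hx j.1 t).unique (e.symm ▸ hm3 x.1 j'.1 t' (2 * j.1 + 1) (by omega)
        (by omega) (by omega))
      have e2 := (hm2 hx j.1 t).unique (e.symm ▸ hm3 x.1 j'.1 t' (2 * j.1 + 2) (by omega)
        (by omega) (by omega))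
      have e3 := (hm1 hx j'.1 t').unique (e ▸ hm3 x.1 j.1 t (2 * j'.1 + 1) (by omega)
        (by omega) (by omega))
      have e4 := (hm2 hx j'.1 t').unique (e ▸ hm3 x.1 j.1 t (2 * j'.1 + 2) (by omega)
        (by omega) (by omega))
      rw [ends x j t (M_zero _ t.2.1 t.2.2 e1 e2), ends x j' t' (M_zero _ t'.2.1 t'.2.2 e3 e4)]

theorem rr_surj : Function.Surjective (rr K J hK) := by
  intro y
  obtain ⟨ς, hς, hy⟩ := Sx_iff y
  rcases mem_prod3.1 hς with ⟨s, hs, rfl⟩ | ⟨j, hj, s, hs, h | h | h⟩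
  · have hx : Sx s fun v => y.1 (pv v 0) := by
      refine ⟨fun v => hy.nn _, fun v hv => hy.sp _ fun h => ?_, ?_⟩
      · obtain ⟨u, hu, he⟩ := List.mem_map.1 h
        exact hv ((pv_inj.1 he).1 ▸ hu)
      · have h1 : (s.map fun v => pv v 0).toFinset = s.toFinset.image fun v => pv v 0 := by
          ext w; simp
        have h2 := hy.sm
        rw [h1, Finset.sum_image (fun a _ b _ h => (pv_inj.1 h).1)] at h2
        exact h2
    refine ⟨Quot.mk _ (Sum.inl (mk _ ⟨s, hs, hx⟩)), Subtype.ext ?_⟩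
    show y0 (fun v => y.1 (pv v 0)) = y.1
    refine ext_pv fun v c => ?_
    rw [y0_pv]
    split_ifs with hc
    · rw [hc]
    · symm
      apply hy.sp
      intro h
      obtain ⟨u, hu, he⟩ := List.mem_map.1 h
      exact hc (pv_inj.1 he).2.symm
  · obtain ⟨hx, θ, h0, h1, h2, h3⟩ := edge_surj (hK s hs) (by omega) h hy
    obtain ⟨t, ht⟩ : ∃ t, t = (1 - θ) / 3 := ⟨_, rfl⟩
    refine ⟨Quot.mk _ (Sum.inr (mk _ ⟨s, hs, hx⟩, (⟨j, hj⟩, ⟨t, by rw [ht]; linarith,
      by rw [ht]; linarith⟩))), Subtype.ext ?_⟩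
    show yy (fun v => y.1 (pv v 0) + y.1 (pv v (2 * j + 1))) j t = y.1
    have e1 : 1 - 3 * t = θ := by rw [ht]; ring
    refine ext_pv fun v c => ?_
    rw [yy_pv]
    by_cases c0 : c = 0
    · subst c0
      rw [yc0, e1, hx.low_one (θ := 3 - 3 * t) (by linarith), h2]; ring
    by_cases c1 : c = 2 * j + 1
    · subst c1
      rw [yc1, e1, hx.low_one (θ := 2 - 3 * t) (by linarith), h2]; ring
    rw [h3 v c c0 c1]
    by_cases c2 : c = 2 * j + 2
    · subst c2
      rw [yc2, hx.low_one (θ := 2 - 3 * t) (by linarith),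
        hx.low_one (θ := 3 - 3 * t) (by linarith), sub_self]
    · exact yc3 _ _ _ _ _ c0 c1 c2
  · obtain ⟨hx, θ, h0, h1, h2, h3⟩ := edge_surj (hK s hs) (by omega) h hy
    obtain ⟨t, ht⟩ : ∃ t, t = (2 - θ) / 3 := ⟨_, rfl⟩
    refine ⟨Quot.mk _ (Sum.inr (mk _ ⟨s, hs, hx⟩, (⟨j, hj⟩, ⟨t, by rw [ht]; linarith,
      by rw [ht]; linarith⟩))), Subtype.ext ?_⟩
    show yy (fun v => y.1 (pv v (2 * j + 1)) + y.1 (pv v (2 * j + 2))) j t = y.1
    have e1 : 2 - 3 * t = θ := by rw [ht]; ring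
    refine ext_pv fun v c => ?_
    rw [yy_pv]
    by_cases c1 : c = 2 * j + 1
    · subst c1
      rw [yc1, e1, hx.low_neg (θ := 1 - 3 * t) (by linarith), h2]; ring
    by_cases c2 : c = 2 * j + 2
    · subst c2
      rw [yc2, e1, hx.low_one (θ := 3 - 3 * t) (by linarith), h2]; ring
    rw [h3 v c c1 c2]
    by_cases c0 : c = 0
    · subst c0
      rw [yc0, hx.low_one (θ := 3 - 3 * t) (by linarith),
        hx.low_neg (θ := 1 - 3 * t) (by linarith)]; ring
    · exact yc3 _ _ _ _ _ c0 c1 c2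
  · obtain ⟨hx, θ, h0, h1, h2, h3⟩ := edge_surj (hK s hs) (by omega) h hy
    obtain ⟨t, ht⟩ : ∃ t, t = (3 - θ) / 3 := ⟨_, rfl⟩
    refine ⟨Quot.mk _ (Sum.inr (mk _ ⟨s, hs, hx⟩, (⟨j, hj⟩, ⟨t, by rw [ht]; linarith,
      by rw [ht]; linarith⟩))), Subtype.ext ?_⟩
    show yy (fun v => y.1 (pv v (2 * j + 2)) + y.1 (pv v 0)) j t = y.1
    have e1 : 3 - 3 * t = θ := by rw [ht]; ring
    refine ext_pv fun v c => ?_
    rw [yy_pv]
    by_cases c2 : c = 2 * j + 2
    · subst c2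
      rw [yc2, e1, hx.low_neg (θ := 2 - 3 * t) (by linarith), h2]; ring
    by_cases c0 : c = 0
    · subst c0
      rw [yc0, e1, hx.low_neg (θ := 1 - 3 * t) (by linarith), h2]; ring
    rw [h3 v c c2 c0]
    by_cases c1 : c = 2 * j + 1
    · subst c1
      rw [yc1, hx.low_neg (θ := 2 - 3 * t) (by linarith),
        hx.low_neg (θ := 1 - 3 * t) (by linarith), sub_self]
    · exact yc3 _ _ _ _ _ c0 c1 c2

theorem compact_Rz : CompactSpace (Rz K) := by
  have h : IsCompact {x : ℕ → ℝ | (∀ i, 0 ≤ x i) ∧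
      ∃ s ∈ K, (∀ i, i ∉ s → x i = 0) ∧ ∑ i ∈ s.toFinset, x i = 1} := by
    have h1 : {x : ℕ → ℝ | (∀ i, 0 ≤ x i) ∧
        ∃ s ∈ K, (∀ i, i ∉ s → x i = 0) ∧ ∑ i ∈ s.toFinset, x i = 1} =
        ⋃ s ∈ {s | s ∈ K}, {x : ℕ → ℝ | Sx s x} := by
      ext x
      simp only [Set.mem_ofPred_eq, Set.mem_iUnion, exists_prop]
      constructor
      · rintro ⟨a, s, hs, b, c⟩
        exact ⟨s, hs, a, b, c⟩
      · rintro ⟨s, hs, a, b, c⟩
        exact ⟨a, s, hs, b, c⟩
    rw [h1]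
    refine (List.finite_toSet K).isCompact_biUnion fun s _ => ?_
    refine IsCompact.of_isClosed_subset
      (isCompact_univ_pi fun _ : ℕ => isCompact_Icc (a := (0 : ℝ)) (b := 1)) ?_ ?_
    · have h2 : {x : ℕ → ℝ | Sx s x} = {x : ℕ → ℝ | ∀ i, 0 ≤ x i} ∩
          ({x : ℕ → ℝ | ∀ i, i ∉ s → x i = 0} ∩ {x : ℕ → ℝ | ∑ i ∈ s.toFinset, x i = 1}) := by
        ext x
        exact ⟨fun h => ⟨h.nn, h.sp, h.sm⟩, fun h => ⟨h.1, h.2.1, h.2.2⟩⟩
      rw [h2]
      refine IsClosed.inter ?_ (IsClosed.inter ?_ ?_)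
      · rw [Set.ofPred_forall]
        exact isClosed_iInter fun i => isClosed_le continuous_const (continuous_apply i)
      · rw [Set.ofPred_forall]
        refine isClosed_iInter fun i => ?_
        rw [Set.ofPred_forall]
        exact isClosed_iInter fun _ => isClosed_eq (continuous_apply i) continuous_const
      · exact isClosed_eq (continuous_finsetSum _ fun i _ => continuous_apply i) continuous_const
    · intro x hx i _
      refine ⟨hx.nn i, ?_⟩
      have h3 := hx.le (i + 1)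
      rw [FF_succ] at h3
      linarith [FF_nonneg hx.nn i]
  exact isCompact_iff_compactSpace.1 h

theorem t2_Rz : T2Space (Rz K) :=
  inferInstanceAs (T2Space {x : ℕ → ℝ // (∀ i, 0 ≤ x i) ∧
    ∃ s ∈ K, (∀ i, i ∉ s → x i = 0) ∧ ∑ i ∈ s.toFinset, x i = 1})

theorem compact_Cy : CompactSpace (Cy (Rz K) J) := by
  haveI := compact_Rz K
  exact inferInstanceAs (CompactSpace (Quot (CyRel (Rz K) J)))

/-- the homeomorphism -/
def hom : Cy (Rz K) J ≃ₜ Rz (prod3 K J) := by
  haveI := compact_Cy K J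
  haveI := t2_Rz (prod3 K J)
  exact Continuous.homeoOfEquivCompactToT2
    (f := Equiv.ofBijective (rr K J hK) ⟨rr_inj K J hK, rr_surj K J hK⟩) (rr_cont K J hK)

theorem hom_apply (p : Cy (Rz K) J) : hom K J hK p = rr K J hK p := rfl

theorem y0_single (v : ℕ) : y0 (Pi.single v 1) = Pi.single (pv v 0) 1 := by
  refine ext_pv fun u c => ?_
  rw [y0_pv, Pi.single_apply, Pi.single_apply]
  by_cases hc : c = 0
  · subst hc
    by_cases hu : u = v
    · subst hu
      simp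
    · have : ¬ pv u 0 = pv v 0 := fun h => hu (pv_inj.1 h).1
      simp [hu, this]
  · have : ¬ pv u c = pv v 0 := fun h => hc (pv_inj.1 h).2
    simp [hc, this]

theorem pg_map (e : List ℕ) (he : 0 < e.length) (s : ℝ) :
    y0 (pg e s) = pg (e.map fun u => pv u 0) s := by
  refine ext_pv fun u c => ?_
  rw [y0_pv]
  unfold pg
  rw [List.length_map]
  have hg : ∀ i : ℕ, (e.map fun u => pv u 0).getD (i % e.length) 0 =
      pv (e.getD (i % e.length) 0) 0 := by
    intro i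
    have h1 : i % e.length < e.length := Nat.mod_lt _ he
    rw [List.getD_eq_getElem _ _ (by rw [List.length_map]; exact h1),
      List.getD_eq_getElem _ _ h1, List.getElem_map]
  by_cases hc : c = 0
  · subst hc
    rw [if_pos rfl]
    refine Finset.sum_congr rfl fun i _ => ?_
    rw [hg]
    by_cases h : e.getD (i % e.length) 0 = u
    · rw [if_pos h, if_pos (by rw [h])]
    · rw [if_neg h, if_neg (fun h' => h (pv_inj.1 h').1)]
  · rw [if_neg hc]
    symm
    refine Finset.sum_eq_zero fun i _ => ?_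
    rw [hg, if_neg (fun h' => hc (pv_inj.1 h').2.symm), mul_zero]

theorem hat1 (t : ℝ) (h0 : 0 ≤ t) (h1 : t ≤ 1) : M1 t = max 0 (1 - |3 * t - 1|) := by
  rcases Mval t h0 h1 with ⟨a, b, c⟩ | ⟨a, a', b, c⟩ | ⟨a, b, c⟩
  · rw [b, abs_of_nonpos (by linarith), max_eq_right (by linarith)]; ring
  · rw [b, abs_of_nonneg (by linarith), max_eq_right (by linarith)]; ring
  · rw [b, abs_of_nonneg (by linarith), max_eq_left (by linarith)]

theorem hat2 (t : ℝ) (h0 : 0 ≤ t) (h1 : t ≤ 1) : M2 t = max 0 (1 - |3 * t - 2|) := by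
  rcases Mval t h0 h1 with ⟨a, b, c⟩ | ⟨a, a', b, c⟩ | ⟨a, b, c⟩
  · rw [c, abs_of_nonpos (by linarith), max_eq_left (by linarith)]
  · rw [c, abs_of_nonpos (by linarith), max_eq_right (by linarith)]; ring
  · rw [c, abs_of_nonneg (by linarith), max_eq_right (by linarith)]; ring

theorem hat0 (t : ℝ) (h0 : 0 ≤ t) (h1 : t ≤ 1) :
    1 - M1 t - M2 t = max 0 (1 - |3 * t|) + max 0 (1 - |3 * t - 3|) := by
  rcases Mval t h0 h1 with ⟨a, b, c⟩ | ⟨a, a', b, c⟩ | ⟨a, b, c⟩
  · rw [b, c, abs_of_nonneg (show 0 ≤ 3 * t by linarith),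
      abs_of_nonpos (show 3 * t - 3 ≤ 0 by linarith),
      max_eq_right (show 0 ≤ 1 - 3 * t by linarith),
      max_eq_left (show 1 - -(3 * t - 3) ≤ 0 by linarith)]
    ring
  · rw [b, c, abs_of_nonneg (show 0 ≤ 3 * t by linarith),
      abs_of_nonpos (show 3 * t - 3 ≤ 0 by linarith),
      max_eq_left (show 1 - 3 * t ≤ 0 by linarith),
      max_eq_left (show 1 - -(3 * t - 3) ≤ 0 by linarith)]
    ring
  · rw [b, c, abs_of_nonneg (show 0 ≤ 3 * t by linarith),
      abs_of_nonpos (show 3 * t - 3 ≤ 0 by linarith),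
      max_eq_left (show 1 - 3 * t ≤ 0 by linarith),
      max_eq_right (show 0 ≤ 1 - -(3 * t - 3) by linarith)]
    ring

theorem low_single (v : ℕ) (θ : ℝ) :
    low (Pi.single v 1) θ v = min 1 θ - min 0 θ := by
  have h1 : FF (Pi.single v 1) v = 0 := by
    unfold FF
    refine Finset.sum_eq_zero fun u hu => ?_
    rw [Finset.mem_range] at hu
    rw [Pi.single_apply, if_neg (by omega)]
  unfold low
  rw [FF_succ, h1, Pi.single_eq_same, zero_add]

theorem pg3 (v j : ℕ) (t : ℝ) (h0 : 0 ≤ t) (h1 : t ≤ 1) :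
    yy (Pi.single v 1) j t = pg [pv v 0, pv v (2 * j + 1), pv v (2 * j + 2)] t := by
  refine ext_pv fun u c => ?_
  rw [yy_pv]
  have hp : pg [pv v 0, pv v (2 * j + 1), pv v (2 * j + 2)] t (pv u c) =
      (max 0 (1 - |3 * t|) + max 0 (1 - |3 * t - 3|)) * (if pv v 0 = pv u c then 1 else 0) +
      max 0 (1 - |3 * t - 1|) * (if pv v (2 * j + 1) = pv u c then 1 else 0) +
      max 0 (1 - |3 * t - 2|) * (if pv v (2 * j + 2) = pv u c then 1 else 0) := by
    unfold pg
    have hl : [pv v 0, pv v (2 * j + 1), pv v (2 * j + 2)].length = 3 := rfl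
    rw [hl]
    rw [Finset.sum_range_succ, Finset.sum_range_succ, Finset.sum_range_succ,
      Finset.sum_range_succ, Finset.sum_range_zero]
    have g0 : [pv v 0, pv v (2 * j + 1), pv v (2 * j + 2)].getD (0 % 3) 0 = pv v 0 := rfl
    have g1 : [pv v 0, pv v (2 * j + 1), pv v (2 * j + 2)].getD (1 % 3) 0 =
      pv v (2 * j + 1) := rfl
    have g2 : [pv v 0, pv v (2 * j + 1), pv v (2 * j + 2)].getD (2 % 3) 0 =
      pv v (2 * j + 2) := rfl
    rw [g0, g1, g2]
    simp only [Nat.cast_ofNat, Nat.cast_zero, Nat.cast_one, sub_zero]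
    ring
  rw [hp, ← hat0 t h0 h1, ← hat1 t h0 h1, ← hat2 t h0 h1]
  by_cases hu : u = v
  · subst hu
    by_cases c0 : c = 0
    · subst c0
      rw [yc0, low_single, low_single, Pi.single_eq_same, if_pos rfl,
        if_neg (fun h => by have := (pv_inj.1 h).2; omega),
        if_neg (fun h => by have := (pv_inj.1 h).2; omega)]
      unfold M1 M2
      ring
    by_cases c1 : c = 2 * j + 1
    · subst c1
      rw [yc1, low_single, low_single, if_pos rfl,
        if_neg (fun h => by have := (pv_inj.1 h).2; omega),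
        if_neg (fun h => by have := (pv_inj.1 h).2; omega)]
      unfold M1 M2
      ring
    by_cases c2 : c = 2 * j + 2
    · subst c2
      rw [yc2, low_single, low_single, if_pos rfl,
        if_neg (fun h => by have := (pv_inj.1 h).2; omega),
        if_neg (fun h => by have := (pv_inj.1 h).2; omega)]
      unfold M1 M2
      ring
    rw [yc3 _ _ _ _ _ c0 c1 c2, if_neg (fun h => c0 (pv_inj.1 h).2.symm),
      if_neg (fun h => c1 (pv_inj.1 h).2.symm), if_neg (fun h => c2 (pv_inj.1 h).2.symm)]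
    ring
  · have hx : (Pi.single v 1 : ℕ → ℝ) u = 0 := by rw [Pi.single_apply, if_neg hu]
    rw [if_neg (fun h => hu (pv_inj.1 h).1.symm), if_neg (fun h => hu (pv_inj.1 h).1.symm),
      if_neg (fun h => hu (pv_inj.1 h).1.symm)]
    unfold yc
    rw [low_of_zero hx, low_of_zero hx, low_of_zero hx, hx]
    split_ifs <;> ring

end

end Pool.Agent.H659R3.CT.Prism

namespace Pool.Agent.H659R3.CT

open unitInterval Topology Prism

theorem taskPrism : TaskPrism := by
  intro K J v b hK hb κ e δ he hδ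
  obtain ⟨h, hh⟩ : ∃ h : Cy (Rz K) J ≃ₜ Rz (prod3 K J), ∀ p, h p = rr K J hK p :=
    ⟨hom K J hK, fun p => rfl⟩
  have hv0 : ∀ x : Rz K, (h (Cy.inc _ J x)).1 = y0 x.1 := fun x => by
    rw [hh]; rfl
  have hv1 : ∀ (j : Fin J) (s : I), (h (Cy.loop b j s)).1 = yy b.1 j.1 s := fun j s => by
    rw [hh]; rfl
  refine ⟨h (Cy.inc _ J b), fun k => ((δ k).map (Cy.inc _ J).continuous).map h.continuous,
    fun j => (Cy.loop b j).map h.continuous, ?_, ?_, ?_, ?_⟩
  · rw [hv0, hb, y0_single]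
  · intro k s
    show (h (Cy.inc _ J (δ k s))).1 = _
    rw [hv0, hδ k s, pg_map _ (by have := (he k).1; omega)]
  · intro j s
    show (h (Cy.loop b j s)).1 = _
    rw [hv1, hb, pg3 _ _ _ s.2.1 s.2.2]
  · refine ⟨⟨h.symm, h.symm.continuous⟩, ⟨h, h.continuous⟩, h.symm_apply_apply _, rfl,
      ⟨Prod.snd, continuous_snd⟩, fun x => (h.apply_symm_apply x).symm, fun x => rfl,
      fun s => rfl, ?_⟩
    rintro (k | j)
    · have e1 : (((δ k).map (Cy.inc (Rz K) J).continuous).map h.continuous).map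
          h.symm.continuous = ((δ k).map (Cy.inc (Rz K) J).continuous).cast
            (h.symm_apply_apply _) (h.symm_apply_apply _) :=
        Path.ext (funext fun s => h.symm_apply_apply _)
      exact e1 ▸ Path.Homotopic.refl _
    · have e1 : ((Cy.loop b j).map h.continuous).map
          h.symm.continuous = (Cy.loop b j).cast
            (h.symm_apply_apply _) (h.symm_apply_apply _) :=
        Path.ext (funext fun s => h.symm_apply_apply _)
      exact e1 ▸ Path.Homotopic.refl _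

end Pool.Agent.H659R3.CT

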