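import Mathlib
import Pool.Agent.H659R3.CT.Stmts

set_option autoImplicit false
set_option maxHeartbeats 4000000

/-! Project H659-CT, task TaskTriv: if `w = 1` in `U` then the fundamental group is trivial. -/

namespace Pool.Agent.H659R3.CT

namespace Triv

variable {G : Type*} [Group G]

/-- value of a word -/
def val (X : ℕ → G) (r : Wd) : G := FreeGroup.lift X (FreeGroup.mk r)

theorem val_nil (X : ℕ → G) : val X [] = 1 := by
  unfold val
  exact map_one (FreeGroup.lift X)

theorem val_append (X : ℕ → G) (r s : Wd) : val X (r ++ s) = val X r * val X s := by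
  unfold val
  rw [← FreeGroup.mul_mk, map_mul]

theorem val_cons_true (X : ℕ → G) (i : ℕ) (r : Wd) : val X ((i, true) :: r) = X i * val X r := by
  unfold val
  rw [show ((i, true) :: r) = [(i, true)] ++ r from rfl, ← FreeGroup.mul_mk, map_mul]
  congr 1
  exact FreeGroup.lift_apply_of

theorem val_cons_false (X : ℕ → G) (i : ℕ) (r : Wd) :
    val X ((i, false) :: r) = (X i)⁻¹ * val X r := by
  unfold val
  rw [show ((i, false) :: r) = [(i, false)] ++ r from rfl, ← FreeGroup.mul_mk, map_mul]
  congr 1
  have : FreeGroup.mk [(i, false)] = (FreeGroup.of i)⁻¹ := rfl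
  rw [this, map_inv, FreeGroup.lift_apply_of]

theorem val_inv (X : ℕ → G) (r : Wd) : val X (inv r) = (val X r)⁻¹ := by
  unfold val
  rw [← map_inv, FreeGroup.inv_mk]
  rfl

/-- the map `u_i ↦ y_i v⁻¹` -/
def phi (k : ℕ) (X : ℕ → G) : FreeGroup (Fin k) →* G :=
  FreeGroup.lift (fun i : Fin k => X (3 + i.1) * (X 0)⁻¹)

theorem val_hat (k : ℕ) (X : ℕ → G) (w : List (Fin k × Bool)) :
    val X (hat k w) = phi k X (FreeGroup.mk w) := by
  induction w with
  | nil =>
    have h1 : hat k [] = [] := rfl
    rw [h1, val_nil]
    exact (map_one (phi k X)).symm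
  | cons l w ih =>
    obtain ⟨i, b⟩ := l
    rw [show ((i, b) :: w) = [(i, b)] ++ w from rfl, ← FreeGroup.mul_mk, map_mul, ← ih]
    cases b with
    | true =>
      have h1 : hat k ([(i, true)] ++ w) = (3 + i.1, true) :: (0, false) :: hat k w := rfl
      rw [h1, val_cons_true, val_cons_false]
      have h2 : phi k X (FreeGroup.mk [(i, true)]) = X (3 + i.1) * (X 0)⁻¹ :=
        FreeGroup.lift_apply_of
      rw [h2, mul_assoc]
    | false =>
      have h1 : hat k ([(i, false)] ++ w) = (0, true) :: (3 + i.1, false) :: hat k w := rfl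
      rw [h1, val_cons_true, val_cons_false]
      have h2 : phi k X (FreeGroup.mk [(i, false)]) = (X (3 + i.1) * (X 0)⁻¹)⁻¹ := by
        have h3 : FreeGroup.mk [(i, false)] = (FreeGroup.of i)⁻¹ := rfl
        rw [h3, map_inv]
        congr 1
        exact FreeGroup.lift_apply_of
      rw [h2, mul_inv_rev, inv_inv, mul_assoc]

/-- dilation relation with a commuting parent gives triviality -/
theorem triv_of_comm (p x : G) (h : p⁻¹ * (x * (p * (x⁻¹ * (x⁻¹ * 1)))) = 1) (hc : p * x = x * p) :
    x = 1 := by
  have h1 : p⁻¹ * (x * (p * (x⁻¹ * (x⁻¹ * 1)))) = x⁻¹ := by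
    rw [← mul_assoc x p, ← hc]
    group
  rw [h1] at h
  exact inv_eq_one.mp h

theorem main (k : ℕ) (S : List (List (Fin k × Bool))) (w : List (Fin k × Bool))
    (hw : FreeGroup.mk w ∈ Subgroup.normalClosure (RS S)) (X : ℕ → G)
    (hX : ∀ r ∈ cells2 k S w, val X r = 1) (hout : ∀ i, NX k + (S.length + 1) ≤ i → X i = 1) :
    ∀ i, X i = 1 := by
  have hNE : NE k = k + 3 := rfl
  have hNX : NX k = 2 * NE k + 3 := rfl
  have hNXpos : 0 < NX k := by omega
  -- tori
  have htau : ∀ x < NX k, ∀ j < S.length + 1, X (NX k + j) * X x = X x * X (NX k + j) := by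
    intro x hx j hj
    have hmem : tau k x j ∈ cells2 k S w := by
      unfold cells2
      apply List.mem_append_left
      rw [List.mem_map]
      refine ⟨NX k * j + x, ?_, ?_⟩
      · rw [List.mem_range]
        unfold NT
        calc NX k * j + x < NX k * j + NX k := by omega
          _ = NX k * (j + 1) := by ring
          _ ≤ NX k * (S.length + 1) := Nat.mul_le_mul_left _ hj
      · have e1 : (NX k * j + x) % NX k = x := by
          rw [Nat.mul_add_mod]
          exact Nat.mod_eq_of_lt hx
        have e2 : (NX k * j + x) / NX k = j := by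
          rw [Nat.mul_add_div hNXpos, Nat.div_eq_of_lt hx, add_zero]
        rw [e1, e2]
    have h := hX _ hmem
    unfold tau at h
    rw [val_cons_true, val_cons_true, val_cons_false, val_cons_false, val_nil, mul_one] at h
    have h2 : X (NX k + j) * X x * (X x * X (NX k + j))⁻¹ = 1 := by
      rw [mul_inv_rev]
      simpa [mul_assoc] using h
    exact mul_inv_eq_one.mp h2
  -- dilations
  have hbs : ∀ x < NX k, (X (par k x))⁻¹ * (X x * (X (par k x) * ((X x)⁻¹ * ((X x)⁻¹ * 1)))) = 1 := by
    intro x hx
    have hmem : bs k x ∈ cells2 k S w := by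
      unfold cells2
      apply List.mem_append_right
      apply List.mem_append_left
      rw [List.mem_map]
      exact ⟨x, List.mem_range.mpr hx, rfl⟩
    have h := hX _ hmem
    unfold bs at h
    rw [val_cons_false, val_cons_true, val_cons_true, val_cons_false, val_cons_false, val_nil] at h
    exact h
  -- discs
  have hdisc : ∀ (j : ℕ) (hj : j < (rs k S w).length), val X ((rs k S w)[j]) = X (NX k + j) := by
    intro j hj
    have hmem : (rs k S w)[j] ++ [(NX k + j, false)] ∈ cells2 k S w := by
      unfold cells2
      apply List.mem_append_right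
      apply List.mem_append_right
      rw [List.mem_map]
      refine ⟨((rs k S w)[j], j), ?_, rfl⟩
      rw [List.mem_zipIdx_iff_getElem?]
      simp [hj]
    have h := hX _ hmem
    rw [val_append, val_cons_false, val_nil, mul_one] at h
    exact mul_inv_eq_one.mp h
  have hlen : (rs k S w).length = S.length + 1 := by
    simp [rs]
  have hdisc0 : val X (rw0 k w) = X (NX k) := by
    have := hdisc 0 (by omega)
    simpa [rs] using this
  have hdiscS : ∀ (j : ℕ) (hj : j < S.length), val X (hat k S[j]) = X (NX k + (j + 1)) := by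
    intro j hj
    have := hdisc (j + 1) (by omega)
    simpa [rs] using this
  -- the centralizer
  let C : Subgroup G := Subgroup.centralizer {q | ∃ x < NX k, q = X x}
  have hC : ∀ q, q ∈ C ↔ ∀ x < NX k, q * X x = X x * q := by
    intro q
    constructor
    · intro hq x hx
      have := Subgroup.mem_centralizer_iff.mp hq (X x) ⟨x, hx, rfl⟩
      exact this.symm
    · intro hq
      refine Subgroup.mem_centralizer_iff.mpr ?_
      rintro h ⟨x, hx, rfl⟩
      exact (hq x hx).symm
  have hcomm : ∀ q ∈ C, ∀ g : FreeGroup (Fin k), q * phi k X g = phi k X g * q := by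
    intro q hq g
    have hq' := (hC q).mp hq
    have : phi k X g ∈ Subgroup.centralizer {q} := by
      have hle : (phi k X).range ≤ Subgroup.centralizer {q} := by
        have h1 : (phi k X).range = Subgroup.closure (Set.range (fun i : Fin k => X (3 + i.1) * (X 0)⁻¹)) :=
          FreeGroup.range_lift_eq_closure
        rw [h1, Subgroup.closure_le]
        rintro _ ⟨i, rfl⟩
        have ha : ∀ x < NX k, X x ∈ Subgroup.centralizer {q} := by
          intro x hx
          refine Subgroup.mem_centralizer_iff.mpr ?_
          intro h hh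
          rw [Set.mem_singleton_iff] at hh
          subst hh
          exact hq' x hx
        refine mul_mem (ha _ ?_) (inv_mem (ha 0 hNXpos))
        have := i.2
        omega
      exact hle ⟨g, rfl⟩
    exact Subgroup.mem_centralizer_iff.mp this q (Set.mem_singleton q)
  let N : Subgroup (FreeGroup (Fin k)) := C.comap (phi k X)
  have hN : N.Normal := by
    constructor
    intro n hn g
    have hn' : phi k X n ∈ C := hn
    show phi k X (g * n * g⁻¹) ∈ C
    have : phi k X (g * n * g⁻¹) = phi k X n := by
      rw [map_mul, map_mul, map_inv, ← hcomm _ hn' g]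
      group
    rw [this]
    exact hn'
  have hRS : RS S ⊆ (N : Set (FreeGroup (Fin k))) := by
    rintro x ⟨r, hr, rfl⟩
    show phi k X (FreeGroup.mk r) ∈ C
    rw [← val_hat]
    obtain ⟨j, hj, rfl⟩ := List.mem_iff_getElem.mp hr
    rw [hdiscS j hj, hC]
    intro x hx
    exact htau x hx (j + 1) (by omega)
  have hwC : phi k X (FreeGroup.mk w) ∈ C := by
    have : FreeGroup.mk w ∈ N := Subgroup.normalClosure_le_normal hRS hw
    exact this
  have hX2 : (X 2)⁻¹ = X (NX k) := by
    rw [← hdisc0]
    unfold rw0
    rw [val_cons_false, val_append, val_cons_true, val_append, val_cons_false, val_nil, val_inv,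
      val_hat]
    have h1 := (hC _).mp hwC 1 (by omega)
    rw [← mul_assoc (phi k X (FreeGroup.mk w)), h1]
    group
  have hz : ∀ x < NX k, X 2 * X x = X x * X 2 := by
    intro x hx
    have h1 := htau x hx 0 (by omega)
    rw [add_zero, ← hX2] at h1
    calc X 2 * X x = X 2 * (X x * (X 2)⁻¹) * X 2 := by group
      _ = X 2 * ((X 2)⁻¹ * X x) * X 2 := by rw [h1]
      _ = X x * X 2 := by group
  -- c = 1
  have hc1 : X (2 * NE k + 2) = 1 := by
    have hp : par k (2 * NE k + 2) = 2 := by
      unfold par
      rw [if_neg (by omega), if_neg (by omega), if_neg (by omega), if_neg (by omega)]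
    have h := hbs (2 * NE k + 2) (by omega)
    rw [hp] at h
    exact triv_of_comm _ _ h (hz _ (by omega))
  have hstep : ∀ x < NX k, X (par k x) = 1 → X x = 1 := by
    intro x hx hp
    refine triv_of_comm _ _ (hbs x hx) ?_
    rw [hp, one_mul, mul_one]
  have hb1 : X (2 * NE k + 1) = 1 := by
    apply hstep _ (by omega)
    have hp : par k (2 * NE k + 1) = 2 * NE k + 2 := by
      unfold par
      rw [if_neg (by omega), if_neg (by omega), if_neg (by omega), if_pos (by omega)]
    rw [hp]; exact hc1
  have ha1 : X (2 * NE k) = 1 := by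
    apply hstep _ (by omega)
    have hp : par k (2 * NE k) = 2 * NE k + 1 := by
      unfold par
      rw [if_neg (by omega), if_neg (by omega), if_pos (by omega)]
    rw [hp]; exact hb1
  have ht1 : ∀ x, NE k ≤ x → x < 2 * NE k → X x = 1 := by
    intro x hx1 hx2
    apply hstep _ (by omega)
    have hp : par k x = 2 * NE k := by
      unfold par
      rw [if_neg (by omega), if_pos (by omega)]
    rw [hp]; exact ha1
  have he1 : ∀ x, x < NE k → X x = 1 := by
    intro x hx
    apply hstep _ (by omega)
    have hp : par k x = x + NE k := by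
      unfold par
      rw [if_pos (by omega)]
    rw [hp]; exact ht1 _ (by omega) (by omega)
  have hphi : ∀ g, phi k X g = 1 := by
    intro g
    have : phi k X = 1 := by
      apply FreeGroup.ext_hom
      intro i
      unfold phi
      rw [FreeGroup.lift_apply_of, he1 0 (by omega), he1 (3 + i.1) (by have := i.2; omega)]
      simp
    rw [this]; rfl
  intro i
  by_cases h1 : i < NX k
  · by_cases h2 : i < NE k
    · exact he1 i h2
    · by_cases h3 : i < 2 * NE k
      · exact ht1 i (by omega) h3
      · have : i = 2 * NE k ∨ i = 2 * NE k + 1 ∨ i = 2 * NE k + 2 := by omega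
        rcases this with h | h | h
        · rw [h]; exact ha1
        · rw [h]; exact hb1
        · rw [h]; exact hc1
  · by_cases h2 : NX k + (S.length + 1) ≤ i
    · exact hout i h2
    · obtain ⟨j, rfl⟩ : ∃ j, i = NX k + j := ⟨i - NX k, by omega⟩
      cases j with
      | zero =>
        rw [add_zero, ← hX2, he1 2 (by omega), inv_one]
      | succ j =>
        rw [← hdiscS j (by omega), val_hat]
        exact hphi _

end Triv

theorem taskTriv : TaskTriv := by
  intro k S w hw
  have hlift : ∀ x : FreeGroup ℕ, FreeGroup.lift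
      (fun i => (PresentedGroup.of i : Pi1 (cx k S w))) x = PresentedGroup.mk _ x := by
    intro x
    have : FreeGroup.lift (fun i => (PresentedGroup.of i : Pi1 (cx k S w))) =
        PresentedGroup.mk (relSet (cx k S w)) := by
      apply FreeGroup.ext_hom
      intro i
      rw [FreeGroup.lift_apply_of]
      rfl
    rw [this]
  have hall : ∀ i, (PresentedGroup.of i : Pi1 (cx k S w)) = 1 := by
    refine Triv.main k S w hw (fun i => (PresentedGroup.of i : Pi1 (cx k S w))) ?_ ?_
    · intro r hr
      unfold Triv.val
      rw [hlift]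
      exact PresentedGroup.one_of_mem (Or.inl ⟨r, hr, rfl⟩)
    · intro i hi
      exact PresentedGroup.one_of_mem (Or.inr ⟨i, hi, rfl⟩)
  refine ⟨fun a b => ?_⟩
  have h1 : ∀ q : Pi1 (cx k S w), q = 1 := by
    intro q
    have : q ∈ (⊥ : Subgroup (Pi1 (cx k S w))) := by
      apply PresentedGroup.generated_by
      intro j
      rw [Subgroup.mem_bot]
      exact hall j
    exact Subgroup.mem_bot.mp this
  rw [h1 a, h1 b]

end Pool.Agent.H659R3.CT
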