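import Pool.Agent.H659R3.CT.SimpStmts

/-! Project H659-CT, task TaskTrans (helper545): composition of dominations. -/

set_option autoImplicit false

namespace Pool.Agent.H659R3.CT

open unitInterval Topology

theorem taskTrans : TaskTrans := by
  intro A B C' _ _ _ a b c κ γ δ ε h1 h2
  obtain ⟨i1, r1, hi1, hr1, H1, H10, H11, H1a, g1⟩ := h1
  obtain ⟨i2, r2, hi2, hr2, H2, H20, H21, H2a, g2⟩ := h2
  subst hi1
  subst hi2
  let K : ContinuousMap.Homotopy (r1.comp (r2.comp (i2.comp i1))) (r1.comp i1) :=
    { toContinuousMap := r1.comp (H2.comp ((ContinuousMap.id I).prodMap i1))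
      map_zero_left := by
        intro x
        show r1 (H2 (0, i1 x)) = r1 (r2 (i2 (i1 x)))
        rw [H20]
      map_one_left := by
        intro x
        show r1 (H2 (1, i1 x)) = r1 (i1 x)
        rw [H21] }
  let G : ContinuousMap.Homotopy (r1.comp i1) (ContinuousMap.id A) :=
    { toContinuousMap := H1
      map_zero_left := fun x => H10 x
      map_one_left := fun x => H11 x }
  refine ⟨i2.comp i1, r1.comp r2, rfl, ?_, (K.trans G).toContinuousMap, ?_, ?_, ?_, ?_⟩
  · show r1 (r2 (i2 (i1 a))) = a
    rw [hr2, hr1]
  · intro x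
    exact (K.trans G).map_zero_left x
  · intro x
    exact (K.trans G).map_one_left x
  · intro s
    show (K.trans G) (s, a) = a
    rw [ContinuousMap.Homotopy.trans_apply]
    split_ifs with h
    · show r1 (H2 (_, i1 a)) = a
      rw [H2a, hr1]
    · exact H1a _
  · intro j
    have e1 := (g1 j).map i2
    have e2 := g2 j
    have e3 : ((δ j).cast (rfl : i1 a = i1 a) (rfl : i1 a = i1 a)) = δ j := by
      ext t; rfl
    rw [e3] at e1
    have e4 : (((γ j).map i1.continuous).map i2.continuous) =
        (γ j).map (i2.comp i1).continuous := by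
      ext t; rfl
    rw [e4] at e1
    exact e1.trans e2

end Pool.Agent.H659R3.CT
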