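import Pool.Agent.H659R3.CT.Stmts

set_option autoImplicit false
set_option maxHeartbeats 4000000

/-! Task Acyclic of the project H659-CT. -/

namespace Pool.Agent.H659R3.CT.AcyclicProof

open Pool.Agent.H659R3.CT Finset

theorem expo_nil : expo [] = 0 := by simp [expo]

theorem expo_cons (l : ℕ × Bool) (r : Wd) : expo (l :: r) = Finsupp.single l.1 (sg l.2) + expo r := by
  simp [expo]

theorem expo_append (r s : Wd) : expo (r ++ s) = expo r + expo s := by
  simp [expo]

theorem expo_apply_zero (r : Wd) (i : ℕ) (h : ∀ l ∈ r, l.1 ≠ i) : expo r i = 0 := by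
  induction r with
  | nil => simp [expo_nil]
  | cons l r ih =>
    rw [expo_cons, Finsupp.add_apply, ih (fun l' hl' => h l' (List.mem_cons_of_mem _ hl')),
      Finsupp.single_apply, if_neg (h l List.mem_cons_self)]
    rfl

theorem expo_tau (k x j : ℕ) : expo (tau k x j) = 0 := by
  unfold tau
  simp only [expo_cons, expo_nil, sg]
  ext i
  simp only [Finsupp.add_apply, Finsupp.single_apply, Finsupp.coe_zero, Pi.zero_apply]
  split_ifs <;> simp_all

theorem expo_bs (k x : ℕ) : expo (bs k x) = -Finsupp.single x 1 := by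
  unfold bs
  simp only [expo_cons, expo_nil, sg]
  ext i
  simp only [Finsupp.add_apply, Finsupp.single_apply, Finsupp.coe_zero, Pi.zero_apply,
    Finsupp.neg_apply]
  split_ifs <;> simp_all

theorem inc_nil : inc [] = 0 := by simp [inc]

theorem inc_cons (e : Wd × ℕ × Bool) (s : List (Wd × ℕ × Bool)) :
    inc (e :: s) = Finsupp.single e.2.1 (sg e.2.2) + inc s := by
  simp [inc]

theorem inc_append (r s : List (Wd × ℕ × Bool)) : inc (r ++ s) = inc r + inc s := by
  simp [inc]

theorem inc_map_cj (l : ℕ × Bool) (s : List (Wd × ℕ × Bool)) : inc (s.map (cj l)) = inc s := by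
  simp [inc, cj, Function.comp_def]

theorem inc_reverse (s : List (Wd × ℕ × Bool)) : inc s.reverse = inc s := by
  simp [inc, List.map_reverse, List.sum_reverse]

theorem inc_rev (s : List (Wd × ℕ × Bool)) : inc (rev s) = -inc s := by
  unfold rev
  rw [inc_reverse]
  induction s with
  | nil => simp [inc_nil]
  | cons e s ih =>
    rw [List.map_cons, inc_cons, inc_cons, ih, neg_add]
    congr 1
    rw [← Finsupp.single_neg]
    congr 1
    cases e.2.2 <;> simp [sg]

theorem inc_tor_cons (k j : ℕ) (l : ℕ × Bool) (V : Wd) :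
    inc (tor k j (l :: V)) = Finsupp.single (NX k * j + l.1) (sg l.2) + inc (tor k j V) := by
  simp only [tor, inc_cons, inc_map_cj]
  congr 1
  cases l.2 <;> simp

theorem inc_tor_nil (k j : ℕ) : inc (tor k j []) = 0 := by
  simp [tor, inc_nil]

theorem inc_tor_bs (k j x : ℕ) : inc (tor k j (bs k x)) = -Finsupp.single (NX k * j + x) 1 := by
  unfold bs
  simp only [inc_tor_cons, inc_tor_nil, sg]
  ext i
  simp only [Finsupp.add_apply, Finsupp.single_apply, Finsupp.coe_zero, Pi.zero_apply,
    Finsupp.neg_apply]
  split_ifs <;> simp_all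

variable (k : ℕ) (S : List (List (Fin k × Bool))) (w : List (Fin k × Bool))

theorem inc_cell3 (p : ℕ) : inc (cell3 k S p) = Finsupp.single p 1 := by
  unfold cell3
  rw [inc_cons, inc_cons, inc_rev, inc_tor_bs, neg_neg, Nat.div_add_mod]
  simp only [sg, if_true, Bool.false_eq_true, if_false]
  rw [← add_assoc, ← Finsupp.single_add]
  simp

theorem d3_cx (b : ℕ →₀ ℤ) (hb : Ch (cx k S w).2.2.length b) : d3 (cx k S w) b = b := by
  have hlen : (cx k S w).2.2.length = NT k S := by simp [cx]
  rw [hlen] at hb
  unfold d3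
  rw [Finsupp.lsum_apply]
  conv_rhs => rw [← Finsupp.sum_single b]
  apply Finsupp.sum_congr
  intro p hp
  have hp1 : p < NT k S := hb p (Finsupp.mem_support_iff.1 hp)
  have e : (cx k S w).2.2.getD p [] = cell3 k S p := by
    simp [cx, List.getD, hp1]
  rw [e, inc_cell3]
  simp

theorem len2 : (cx k S w).2.1.length = NT k S + NX k + (S.length + 1) := by
  simp [cx, cells2, rs]
  ring

theorem cell_tor {p : ℕ} (hp : p < NT k S) :
    (cx k S w).2.1.getD p [] = tau k (p % NX k) (p / NX k) := by
  simp [cx, cells2, List.getD, List.getElem?_append, hp]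

theorem cell_bs {x : ℕ} (hx : x < NX k) :
    (cx k S w).2.1.getD (NT k S + x) [] = bs k x := by
  simp [cx, cells2, List.getD, List.getElem?_append, hx]

theorem cell_disc {j : ℕ} (hj : j < S.length + 1) :
    (cx k S w).2.1.getD (NT k S + NX k + j) [] = (rs k S w).getD j [] ++ [(NX k + j, false)] := by
  have h1 : ¬ (NT k S + NX k + j < NT k S) := by omega
  have h2 : NT k S + NX k + j - NT k S = NX k + j := by omega
  have hj' : j < (rs k S w).length := by simpa [rs] using hj
  simp [cx, cells2, List.getD, List.getElem?_append, h1, h2, hj']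

theorem hat_lt (v : List (Fin k × Bool)) : ∀ l ∈ hat k v, l.1 < NX k := by
  intro l hl
  unfold hat at hl
  rw [List.mem_flatMap] at hl
  obtain ⟨a, _, ha⟩ := hl
  have h1 := a.1.2
  unfold NX NE
  split_ifs at ha
  · simp only [List.mem_cons, List.not_mem_nil, or_false] at ha
    rcases ha with rfl | rfl
    · show 3 + a.1.1 < _
      omega
    · show 0 < _
      omega
  · simp only [List.mem_cons, List.not_mem_nil, or_false] at ha
    rcases ha with rfl | rfl
    · show 0 < _
      omega
    · show 3 + a.1.1 < _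
      omega

theorem inv_lt {n : ℕ} (v : Wd) (h : ∀ l ∈ v, l.1 < n) : ∀ l ∈ inv v, l.1 < n := by
  intro l hl
  unfold inv at hl
  rw [List.mem_reverse, List.mem_map] at hl
  obtain ⟨a, ha, rfl⟩ := hl
  exact h a ha

theorem rs_lt : ∀ r ∈ rs k S w, ∀ l ∈ r, l.1 < NX k := by
  intro r hr l hl
  unfold rs at hr
  rw [List.mem_cons, List.mem_map] at hr
  rcases hr with rfl | ⟨a, _, rfl⟩
  · unfold rw0 at hl
    simp only [List.mem_cons, List.mem_append, List.not_mem_nil, or_false] at hl
    have h0 : 3 ≤ NX k := by unfold NX NE; omega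
    rcases hl with rfl | hl | rfl | hl | rfl
    · show 2 < _
      omega
    · exact hat_lt k w l hl
    · show 1 < _
      omega
    · exact inv_lt _ (hat_lt k w) l hl
    · show 1 < _
      omega
  · exact hat_lt k a l hl

theorem expo_rs (j i : ℕ) (hi : NX k ≤ i) : expo ((rs k S w).getD j []) i = 0 := by
  apply expo_apply_zero
  intro l hl
  have h1 : ∀ l ∈ (rs k S w).getD j [], l.1 < NX k := by
    by_cases hj : j < (rs k S w).length
    · rw [List.getD_eq_getElem _ _ hj]
      exact rs_lt k S w _ (List.getElem_mem hj)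
    · rw [List.getD_eq_default _ _ (not_lt.1 hj)]
      intro l hl
      simp at hl
  have := h1 l hl
  omega

theorem d2_single (i : ℕ) (c : ℤ) :
    d2 (cx k S w) (Finsupp.single i c) = c • expo ((cx k S w).2.1.getD i []) := by
  unfold d2
  rw [Finsupp.lsum_single]
  simp

theorem d2_cx (a : ℕ →₀ ℤ) (ha : Ch (cx k S w).2.1.length a) :
    d2 (cx k S w) a = ∑ x ∈ range (NX k), a (NT k S + x) • (-Finsupp.single x (1 : ℤ)) +
      ∑ j ∈ range (S.length + 1), a (NT k S + NX k + j) •
        (expo ((rs k S w).getD j []) - Finsupp.single (NX k + j) 1) := by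
  have h1 : a = ∑ i ∈ range (NT k S + NX k + (S.length + 1)), Finsupp.single i (a i) := by
    ext i
    rw [Finsupp.finsetSum_apply]
    by_cases hi : i < NT k S + NX k + (S.length + 1)
    · rw [Finset.sum_eq_single i]
      · simp
      · intro b _ hb
        simp [Finsupp.single_apply, hb]
      · intro h
        exact absurd (Finset.mem_range.2 hi) h
    · have : a i = 0 := by
        by_contra h
        have := ha i h
        rw [len2] at this
        exact hi this
      rw [this]
      symm
      apply Finset.sum_eq_zero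
      intro b hb
      have hb' := Finset.mem_range.1 hb
      have : b ≠ i := by omega
      simp [Finsupp.single_apply, this]
  conv_lhs => rw [h1]
  rw [map_sum]
  simp only [d2_single]
  rw [Finset.sum_range_add, Finset.sum_range_add]
  have e1 : ∑ p ∈ range (NT k S), a p • expo ((cx k S w).2.1.getD p []) = 0 := by
    apply Finset.sum_eq_zero
    intro p hp
    rw [cell_tor k S w (Finset.mem_range.1 hp), expo_tau, smul_zero]
  have e2 : ∑ x ∈ range (NX k), a (NT k S + x) • expo ((cx k S w).2.1.getD (NT k S + x) []) =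
      ∑ x ∈ range (NX k), a (NT k S + x) • (-Finsupp.single x (1 : ℤ)) := by
    apply Finset.sum_congr rfl
    intro x hx
    rw [cell_bs k S w (Finset.mem_range.1 hx), expo_bs]
  have e3 : ∑ j ∈ range (S.length + 1), a (NT k S + NX k + j) •
        expo ((cx k S w).2.1.getD (NT k S + NX k + j) []) =
      ∑ j ∈ range (S.length + 1), a (NT k S + NX k + j) •
        (expo ((rs k S w).getD j []) - Finsupp.single (NX k + j) 1) := by
    apply Finset.sum_congr rfl
    intro j hj
    rw [cell_disc k S w (Finset.mem_range.1 hj), expo_append]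
    congr 1
    rw [expo_cons, expo_nil, add_zero, sub_eq_add_neg, ← Finsupp.single_neg]
    simp [sg]
  rw [e1, e2, e3, zero_add]

/-- chains on the first cells as a submodule -/
def ChS (n : ℕ) : Submodule ℤ (ℕ →₀ ℤ) where
  carrier := {a | Ch n a}
  zero_mem' := by
    intro i hi
    simp at hi
  add_mem' := by
    intro a b ha hb i hi
    by_contra h
    have h1 : a i = 0 := by
      by_contra h'
      exact h (ha i h')
    have h2 : b i = 0 := by
      by_contra h'
      exact h (hb i h')
    apply hi
    rw [Finsupp.add_apply, h1, h2, add_zero]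
  smul_mem' := by
    intro c a ha i hi
    apply ha i
    intro h
    apply hi
    rw [Finsupp.smul_apply, h, smul_zero]

theorem single_mem_ChS {n i : ℕ} (h : i < n) (c : ℤ) : Finsupp.single i c ∈ ChS n := by
  intro j hj
  by_contra hn
  apply hj
  rw [Finsupp.single_apply, if_neg]
  rintro rfl
  exact hn h

theorem mem_of_single {n : ℕ} (R : Submodule ℤ (ℕ →₀ ℤ)) (h : ∀ i < n, Finsupp.single i 1 ∈ R)
    (v : ℕ →₀ ℤ) (hv : Ch n v) : v ∈ R := by
  rw [← Finsupp.sum_single v]
  apply Submodule.sum_mem
  intro i hi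
  have h1 := hv i (Finsupp.mem_support_iff.1 hi)
  have h2 : Finsupp.single i (v i) = v i • Finsupp.single i (1 : ℤ) := by
    rw [Finsupp.smul_single, smul_eq_mul, mul_one]
  rw [h2]
  exact R.smul_mem _ (h i h1)

theorem part1 : ∀ v, Ch (cx k S w).1 v → ∃ a, Ch (cx k S w).2.1.length a ∧ d2 (cx k S w) a = v := by
  intro v hv
  set R : Submodule ℤ (ℕ →₀ ℤ) := (ChS (cx k S w).2.1.length).map (d2 (cx k S w)) with hR
  have hlen := len2 k S w
  have h1 : ∀ x < NX k, Finsupp.single x (1 : ℤ) ∈ R := by
    intro x hx
    rw [hR, Submodule.mem_map]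
    refine ⟨Finsupp.single (NT k S + x) (-1), single_mem_ChS (by omega) _, ?_⟩
    rw [d2_single, cell_bs k S w hx, expo_bs]
    simp
  have h2 : ∀ j < S.length + 1, Finsupp.single (NX k + j) (1 : ℤ) ∈ R := by
    intro j hj
    have h3 : expo ((rs k S w).getD j []) ∈ R := by
      apply mem_of_single R h1
      intro i hi
      by_contra hn
      exact hi (expo_rs k S w j i (not_lt.1 hn))
    have h4 : d2 (cx k S w) (Finsupp.single (NT k S + NX k + j) 1) ∈ R := by
      rw [hR, Submodule.mem_map]
      exact ⟨_, single_mem_ChS (by omega) _, rfl⟩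
    rw [d2_single, cell_disc k S w hj, expo_append, expo_cons, expo_nil, one_smul, add_zero] at h4
    have h5 := R.sub_mem h3 h4
    have h6 : expo ((rs k S w).getD j []) - (expo ((rs k S w).getD j []) +
        Finsupp.single (NX k + j) (sg false)) = Finsupp.single (NX k + j) 1 := by
      rw [sub_add_eq_sub_sub, sub_self, zero_sub, ← Finsupp.single_neg]
      simp [sg]
    rw [h6] at h5
    exact h5
  have h3 : v ∈ R := by
    apply mem_of_single R _ v hv
    intro i hi
    have hi' : i < NX k + (S.length + 1) := hi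
    by_cases h : i < NX k
    · exact h1 i h
    · have := h2 (i - NX k) (by omega)
      rwa [Nat.add_sub_cancel' (not_lt.1 h)] at this
  rw [hR, Submodule.mem_map] at h3
  obtain ⟨a, ha, hav⟩ := h3
  exact ⟨a, ha, hav⟩

theorem ker (a : ℕ →₀ ℤ) (ha : Ch (cx k S w).2.1.length a) (h0 : d2 (cx k S w) a = 0) :
    Ch (cx k S w).2.2.length a := by
  rw [d2_cx k S w a ha] at h0
  have hdisc : ∀ j < S.length + 1, a (NT k S + NX k + j) = 0 := by
    intro j hj
    have h1 := DFunLike.congr_fun h0 (NX k + j)
    rw [Finsupp.add_apply, Finsupp.finsetSum_apply, Finsupp.finsetSum_apply] at h1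
    rw [Finset.sum_eq_zero, zero_add, Finset.sum_eq_single j] at h1
    · rw [Finsupp.smul_apply, Finsupp.sub_apply, expo_rs k S w j _ (by omega)] at h1
      simpa using h1
    · intro b _ hb
      rw [Finsupp.smul_apply, Finsupp.sub_apply, expo_rs k S w b _ (by omega)]
      have : NX k + b ≠ NX k + j := by omega
      simp [Finsupp.single_apply, hb]
    · intro h
      exact absurd (Finset.mem_range.2 hj) h
    · intro x hx
      have hx' := Finset.mem_range.1 hx
      have : x ≠ NX k + j := by omega
      simp [Finsupp.single_apply, this]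
  have hbs : ∀ x < NX k, a (NT k S + x) = 0 := by
    intro x hx
    have h1 := DFunLike.congr_fun h0 x
    rw [Finsupp.add_apply, Finsupp.finsetSum_apply, Finsupp.finsetSum_apply] at h1
    rw [add_comm, Finset.sum_eq_zero, zero_add, Finset.sum_eq_single x] at h1
    · simpa using h1
    · intro b _ hb
      simp [Finsupp.single_apply, hb]
    · intro h
      exact absurd (Finset.mem_range.2 hx) h
    · intro j hj
      rw [hdisc j (Finset.mem_range.1 hj)]
      simp
  intro i hi
  have hlen : (cx k S w).2.2.length = NT k S := by simp [cx]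
  rw [hlen]
  by_contra hn
  have h1 := ha i hi
  rw [len2] at h1
  by_cases h2 : i < NT k S + NX k
  · apply hi
    have := hbs (i - NT k S) (by omega)
    rwa [Nat.add_sub_cancel' (not_lt.1 hn)] at this
  · apply hi
    have := hdisc (i - (NT k S + NX k)) (by omega)
    rwa [Nat.add_sub_cancel' (not_lt.1 h2)] at this

end Pool.Agent.H659R3.CT.AcyclicProof

namespace Pool.Agent.H659R3.CT

theorem taskAcyclic : TaskAcyclic := by
  intro k S w
  refine ⟨AcyclicProof.part1 k S w, ?_, ?_⟩
  · intro a ha h0
    have h1 := AcyclicProof.ker k S w a ha h0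
    exact ⟨a, h1, AcyclicProof.d3_cx k S w a h1⟩
  · intro b hb h0
    rw [AcyclicProof.d3_cx k S w b hb] at h0
    exact h0

end Pool.Agent.H659R3.CT
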