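import Mathlib
import Pool.Agent.H659R3.CT.SimpStmts
import Pool.Agent.H659R3.CT.FinTop

set_option autoImplicit false
set_option maxHeartbeats 4000000

/-! Project H659-CT: assembly of the simplicial statement. -/

namespace Pool.Agent.H659R3.CT

open unitInterval Topology

theorem dom_null {A B : Type} [TopologicalSpace A] [TopologicalSpace B] {a : A} {b : B}
    {ι : Type} {γ : ι → Path a a} {δ : ι → Path b b} [SimplyConnectedSpace A]
    (D : Dom A B a b γ δ) (j : ι) : (δ j).Homotopic (Path.refl b) := by
  obtain ⟨i, r, hi, hr, H, h0, h1, h2, h3⟩ := D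
  subst hi
  have h4 : (γ j).Homotopic (Path.refl a) := SimplyConnectedSpace.paths_homotopic _ _
  have h5 : ((γ j).map i.continuous).Homotopic ((Path.refl a).map i.continuous) := by
    obtain ⟨F⟩ := h4
    exact ⟨F.map i⟩
  have h6 := h3 j
  have h7 : ((δ j).cast rfl rfl) = δ j := rfl
  rw [h7] at h6
  have h8 : (Path.refl a).map i.continuous = Path.refl (i a) := rfl
  rw [h8] at h5
  exact h6.symm.trans h5

theorem dom_contr {A B : Type} [TopologicalSpace A] [TopologicalSpace B] {a : A} {b : B}
    {ι : Type} {γ : ι → Path a a} {δ : ι → Path b b} (hB : ContractibleSpace B)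
    (D : Dom A B a b γ δ) : ContractibleSpace A := by
  obtain ⟨i, r, hi, hr, H, h0, h1, h2, h3⟩ := D
  rw [contractible_iff_id_nullhomotopic] at hB ⊢
  have h4 : ((ContinuousMap.id B).comp i).Nullhomotopic := hB.comp_left i
  have h5 : (r.comp ((ContinuousMap.id B).comp i)).Nullhomotopic := h4.comp_right r
  obtain ⟨y, hy⟩ := h5
  refine ⟨y, ?_⟩
  have h6 : (r.comp ((ContinuousMap.id B).comp i)).Homotopic (ContinuousMap.id A) :=
    ⟨{ toContinuousMap := H, map_zero_left := h0, map_one_left := h1 }⟩
  exact h6.symm.trans hy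

theorem finalSimp (hKX : TaskKX) (hDim : TaskDim) (hC : TaskCompSimp) (hT : TaskTriv)
    (hCon : TaskContr) (hN : TaskNC2) : FinalSimp := by
  rintro ⟨f, hf, hX⟩
  obtain ⟨m, R, W, hW, hR⟩ := Pool.Agent.Helper270.WP.word_problem
  apply hR
  let S := R.toList.map FreeGroup.toWord
  have hS : RS S = (R : Set (FreeGroup (Fin m))) := rs_toWord R
  have key : ∀ n, (f (kX m S (W n)) = true ↔ FreeGroup.mk (W n) ∈
      Subgroup.normalClosure (R : Set (FreeGroup (Fin m)))) := by
    intro n
    rw [hX _ (hDim m S (W n)), ← hS]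
    obtain ⟨b, γ, D⟩ := hKX m S (W n)
    constructor
    · intro h
      by_contra hn
      have : SimplyConnectedSpace (Rz (kX m S (W n))) := inferInstance
      have hx : 0 < NX m := by unfold NX NE; omega
      exact hN m S (W n) hn ⟨0, hx⟩ rfl (dom_null D ⟨0, hx⟩)
    · intro h
      exact dom_contr (hCon m S (W n) (hT m S (W n) h)) D
  have hg : Computable fun n => f (kX m S (W n)) := hf.comp (hC m S W hW)
  exact ComputablePred.computable_iff.2 ⟨_, hg, by
    funext n
    exact propext (key n).symm⟩

end Pool.Agent.H659R3.CT
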