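import Mathlib
import Pool.Agent.H659R3.CT.TopStmts
import Pool.Agent.H659R3.CT.EH

set_option autoImplicit false
set_option maxHeartbeats 4000000

/-! Project H659-CT: loops in a loop space commute, at every base point. -/

namespace Pool.Agent.H659R3.CT

open unitInterval Topology

noncomputable section

namespace EHG

/-- naturality square of a homotopy -/
theorem nat {X Y : Type} [TopologicalSpace X] [TopologicalSpace Y] (f g : C(X, Y)) (F : I → X → Y)
    (hF : Continuous fun q : I × X => F q.1 q.2) (h0 : ∀ q, F 0 q = f q) (h1 : ∀ q, F 1 q = g q)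
    (e : ∀ x, Path (f x) (g x)) (he : ∀ x s, e x s = F s x) {x x' : X} (p : Path x x') :
    ((p.map f.continuous).trans (e x')).Homotopic ((e x).trans (p.map g.continuous)) := by
  let pr : ℝ → I := Set.projIcc 0 1 zero_le_one
  have prc : Continuous pr := continuous_projIcc
  have pr0 : pr 0 = 0 := Set.projIcc_left zero_le_one
  have pr1 : pr 1 = 1 := Set.projIcc_right zero_le_one
  have prv : ∀ t : I, pr (t : ℝ) = t := fun t => Set.projIcc_val zero_le_one t
  let i : Path (0 : ℝ) 1 := ⟨⟨fun t => (t : ℝ), continuous_subtype_val⟩, rfl, rfl⟩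
  let P1 : Path ((0 : ℝ), (0 : ℝ)) (1, 1) :=
    ((Path.refl (0 : ℝ)).prod i).trans (i.prod (Path.refl (1 : ℝ)))
  let P2 : Path ((0 : ℝ), (0 : ℝ)) (1, 1) :=
    (i.prod (Path.refl (0 : ℝ))).trans ((Path.refl (1 : ℝ)).prod i)
  have hP : P1.Homotopic P2 := SimplyConnectedSpace.paths_homotopic P1 P2
  let G : C(ℝ × ℝ, Y) := ⟨fun q => F (pr q.1) (p (pr q.2)),
    hF.comp ((prc.comp continuous_fst).prodMk (p.continuous.comp (prc.comp continuous_snd)))⟩
  have hG := hP.map G
  have hx : f x = G (0, 0) := by
    show f x = F (pr 0) (p (pr 0))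
    rw [pr0, h0, p.source]
  have hx' : g x' = G (1, 1) := by
    show g x' = F (pr 1) (p (pr 1))
    rw [pr1, h1, p.target]
  have h3 := EH.cast_hom hG hx hx'
  have a1 : ∀ u : I, G (((Path.refl (0 : ℝ)).prod i) u) = f (p u) := by
    intro u
    show F (pr 0) (p (pr (u : ℝ))) = _
    rw [pr0, prv, h0]
  have a2 : ∀ u : I, G ((i.prod (Path.refl (1 : ℝ))) u) = F u x' := by
    intro u
    show F (pr (u : ℝ)) (p (pr 1)) = _
    rw [pr1, prv, p.target]
  have a3 : ∀ u : I, G ((i.prod (Path.refl (0 : ℝ))) u) = F u x := by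
    intro u
    show F (pr (u : ℝ)) (p (pr 0)) = _
    rw [pr0, prv, p.source]
  have a4 : ∀ u : I, G (((Path.refl (1 : ℝ)).prod i) u) = g (p u) := by
    intro u
    show F (pr 1) (p (pr (u : ℝ))) = _
    rw [pr1, prv, h1]
  have e1 : (P1.map G.continuous).cast hx hx' = (p.map f.continuous).trans (e x') := by
    ext t
    show G (P1 t) = _
    show G ((((Path.refl (0 : ℝ)).prod i).trans (i.prod (Path.refl (1 : ℝ)))) t) = _
    rw [Path.trans_apply, Path.trans_apply]
    split_ifs with h
    · exact a1 _
    · rw [he]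
      exact a2 _
  have e2 : (P2.map G.continuous).cast hx hx' = (e x).trans (p.map g.continuous) := by
    ext t
    show G (P2 t) = _
    show G (((i.prod (Path.refl (0 : ℝ))).trans ((Path.refl (1 : ℝ)).prod i)) t) = _
    rw [Path.trans_apply, Path.trans_apply]
    split_ifs with h
    · rw [he]
      exact a3 _
    · exact a4 _
  rw [e1, e2] at h3
  exact h3

open CategoryTheory in
theorem grp {C : Type} [Groupoid C] {x y : C} (t1 t2 : y ⟶ x)
    (H : ∀ a b : x ⟶ x, ∃ X Y : y ⟶ y, X ≫ t1 = t1 ≫ a ∧ Y ≫ t2 = t2 ≫ b ∧ X ≫ Y = Y ≫ X)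
    (a b : x ⟶ x) : a ≫ b = b ≫ a := by
  obtain ⟨X, Y, hX, hY, h⟩ := H a (Groupoid.inv t2 ≫ t1 ≫ b ≫ Groupoid.inv t1 ≫ t2)
  have hX' : X = t1 ≫ a ≫ Groupoid.inv t1 := by
    have := congrArg (fun z => z ≫ Groupoid.inv t1) hX
    simpa [Category.assoc, Groupoid.comp_inv] using this
  have hY' : Y = t1 ≫ b ≫ Groupoid.inv t1 := by
    have := congrArg (fun z => z ≫ Groupoid.inv t2) hY
    simpa [Category.assoc, Groupoid.comp_inv] using this
  rw [hX', hY'] at h
  have := congrArg (fun z => Groupoid.inv t1 ≫ z ≫ t1) h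
  simpa [Category.assoc, Groupoid.inv_comp] using this

variable {Z : Type} [TopologicalSpace Z] {b : Z}

/-- conjugation by a path -/
def HM (l : Path b b) (f g : C(Path b b, Path b b)) : Prop :=
  ∃ τ : Path (f l) (g l), ∀ p : Path l l,
    ((p.map f.continuous).trans τ).Homotopic (τ.trans (p.map g.continuous))

theorem HM.trans {l : Path b b} {f g h : C(Path b b, Path b b)} (h1 : HM l f g) (h2 : HM l g h) :
    HM l f h := by
  obtain ⟨τ, hτ⟩ := h1
  obtain ⟨ρ, hρ⟩ := h2
  refine ⟨τ.trans ρ, fun p => ?_⟩
  have a1 : ((p.map f.continuous).trans (τ.trans ρ)).Homotopic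
      (((p.map f.continuous).trans τ).trans ρ) := (Path.Homotopic.trans_assoc _ _ _).symm
  have a2 : (((p.map f.continuous).trans τ).trans ρ).Homotopic
      ((τ.trans (p.map g.continuous)).trans ρ) :=
    Path.Homotopic.hcomp (hτ p) (Path.Homotopic.refl _)
  have a3 : ((τ.trans (p.map g.continuous)).trans ρ).Homotopic
      (τ.trans ((p.map g.continuous).trans ρ)) := Path.Homotopic.trans_assoc _ _ _
  have a4 : (τ.trans ((p.map g.continuous).trans ρ)).Homotopic
      (τ.trans (ρ.trans (p.map h.continuous))) :=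
    Path.Homotopic.hcomp (Path.Homotopic.refl _) (hρ p)
  have a5 : (τ.trans (ρ.trans (p.map h.continuous))).Homotopic
      ((τ.trans ρ).trans (p.map h.continuous)) := (Path.Homotopic.trans_assoc _ _ _).symm
  exact a1.trans (a2.trans (a3.trans (a4.trans a5)))

theorem HM.of {f g : C(Path b b, Path b b)} (F : I → Path b b → Path b b)
    (hF : Continuous fun q : I × Path b b => F q.1 q.2) (h0 : ∀ q, F 0 q = f q)
    (h1 : ∀ q, F 1 q = g q) (l : Path b b) : HM l f g := by
  let e : ∀ x, Path (f x) (g x) := fun x =>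
    ⟨⟨fun s => F s x, hF.comp (continuous_id.prodMk continuous_const)⟩, h0 x, h1 x⟩
  exact ⟨e l, fun p => nat f g F hF h0 h1 e (fun _ _ => rfl) p⟩

theorem HM.symm {l : Path b b} {f g : C(Path b b, Path b b)} (h1 : HM l f g) : HM l g f := by
  obtain ⟨τ, hτ⟩ := h1
  refine ⟨τ.symm, fun p => ?_⟩
  have e1 : (p.map g.continuous).Homotopic (τ.symm.trans ((p.map f.continuous).trans τ)) := by
    have b1 : (τ.symm.trans ((p.map f.continuous).trans τ)).Homotopic
        (τ.symm.trans (τ.trans (p.map g.continuous))) :=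
      Path.Homotopic.hcomp (Path.Homotopic.refl _) (hτ p)
    have b2 : (τ.symm.trans (τ.trans (p.map g.continuous))).Homotopic
        ((τ.symm.trans τ).trans (p.map g.continuous)) := (Path.Homotopic.trans_assoc _ _ _).symm
    have b3 : ((τ.symm.trans τ).trans (p.map g.continuous)).Homotopic
        ((Path.refl _).trans (p.map g.continuous)) :=
      Path.Homotopic.hcomp (Path.Homotopic.symm_trans τ) (Path.Homotopic.refl _)
    exact ((b1.trans (b2.trans b3)).trans (Path.Homotopic.refl_trans _)).symm
  have e2 : ((p.map g.continuous).trans τ.symm).Homotopic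
      ((τ.symm.trans ((p.map f.continuous).trans τ)).trans τ.symm) :=
    Path.Homotopic.hcomp e1 (Path.Homotopic.refl _)
  have e3 : ((τ.symm.trans ((p.map f.continuous).trans τ)).trans τ.symm).Homotopic
      (τ.symm.trans (((p.map f.continuous).trans τ).trans τ.symm)) :=
    Path.Homotopic.trans_assoc _ _ _
  have e4 : (((p.map f.continuous).trans τ).trans τ.symm).Homotopic
      ((p.map f.continuous).trans (τ.trans τ.symm)) := Path.Homotopic.trans_assoc _ _ _
  have e5 : ((p.map f.continuous).trans (τ.trans τ.symm)).Homotopic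
      ((p.map f.continuous).trans (Path.refl _)) :=
    Path.Homotopic.hcomp (Path.Homotopic.refl _) (Path.Homotopic.trans_symm τ)
  have e6 := (e4.trans e5).trans (Path.Homotopic.trans_refl _)
  exact e2.trans (e3.trans (Path.Homotopic.hcomp (Path.Homotopic.refl _) e6))

theorem ctr : Continuous fun q : Path b b × Path b b => q.1.trans q.2 := Path.continuous_trans

/-- a homotopy of paths as a path of paths -/
def toP {a a' : Path b b} (F : Path.Homotopy a a') : Path a a' where
  toFun s := F.eval s
  continuous_toFun := by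
    rw [← Path.continuous_uncurry_iff]
    exact F.continuous
  source' := F.eval_zero
  target' := F.eval_one

/-- the reparametrised path (joint continuity) -/
theorem rp_cont (f : I → I) (hf : Continuous f) (h0 : f 0 = 0) (h1 : f 1 = 1) :
    Continuous fun q : I × Path b b => EH.rp f hf h0 h1 q.1 q.2 := by
  rw [← Path.continuous_uncurry_iff]
  have h2 : Continuous fun r : Path b b × I => r.1 r.2 := by
    have := (Path.continuous_uncurry_iff (x := b) (y := b)
      (g := fun p : Path b b => p)).2 continuous_id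
    exact this
  have h3 : Continuous fun q : (I × Path b b) × I => (q.1.2, EH.cv f q.1.1 q.2) := by
    refine Continuous.prodMk (by fun_prop) ?_
    exact (EH.cv_cont f hf).comp (by fun_prop : Continuous fun q : (I × Path b b) × I => (q.1.1, q.2))
  exact h2.comp h3

/-- `q ↦ q.trans c` -/
def mR (c : Path b b) : C(Path b b, Path b b) :=
  ⟨fun q => q.trans c, ctr.comp (continuous_id.prodMk continuous_const)⟩

/-- `q ↦ c.trans q` -/
def mL (c : Path b b) : C(Path b b, Path b b) :=
  ⟨fun q => c.trans q, ctr.comp (continuous_const.prodMk continuous_id)⟩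

/-- `q ↦ c.trans (d.trans q)` -/
def mLL (c d : Path b b) : C(Path b b, Path b b) :=
  ⟨fun q => c.trans (d.trans q),
    ctr.comp (continuous_const.prodMk (ctr.comp (continuous_const.prodMk continuous_id)))⟩

theorem HM_R_path (l : Path b b) {c d : Path b b} (δ : Path c d) : HM l (mR c) (mR d) := by
  refine HM.of (fun s q => q.trans (δ s)) ?_ ?_ ?_ l
  · exact ctr.comp (continuous_snd.prodMk (δ.continuous.comp continuous_fst))
  · intro q; show q.trans (δ 0) = q.trans c; rw [δ.source]
  · intro q; show q.trans (δ 1) = q.trans d; rw [δ.target]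

theorem HM_L_path (l : Path b b) {c d : Path b b} (δ : Path c d) : HM l (mL c) (mL d) := by
  refine HM.of (fun s q => (δ s).trans q) ?_ ?_ ?_ l
  · exact ctr.comp ((δ.continuous.comp continuous_fst).prodMk continuous_snd)
  · intro q; show (δ 0).trans q = c.trans q; rw [δ.source]
  · intro q; show (δ 1).trans q = d.trans q; rw [δ.target]

theorem HM_id_R (l : Path b b) : HM l (ContinuousMap.id _) (mR (Path.refl b)) := by
  refine HM.of (fun s q => EH.rp EH.f1 EH.f1_cont EH.f1_zero EH.f1_one s q) (rp_cont _ _ _ _) ?_ ?_ l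
  · intro q
    apply Path.ext; funext u
    show q (EH.cv EH.f1 0 u) = q u
    rw [EH.cv_zero]
  · intro q
    apply Path.ext; funext u
    show q (EH.cv EH.f1 1 u) = (q.trans (Path.refl b)) u
    rw [EH.cv_one, EH.trans_refl_f1]

theorem HM_id_L (l : Path b b) : HM l (ContinuousMap.id _) (mL (Path.refl b)) := by
  refine HM.of (fun s q => EH.rp EH.f2 EH.f2_cont EH.f2_zero EH.f2_one s q) (rp_cont _ _ _ _) ?_ ?_ l
  · intro q
    apply Path.ext; funext u
    show q (EH.cv EH.f2 0 u) = q u
    rw [EH.cv_zero]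
  · intro q
    apply Path.ext; funext u
    show q (EH.cv EH.f2 1 u) = ((Path.refl b).trans q) u
    rw [EH.cv_one, EH.refl_trans_f2]

/-- associativity reparametrisation -/
def f3 (t : I) : I :=
  ⟨Path.Homotopy.transAssocReparamAux t, Path.Homotopy.transAssocReparamAux_mem_I t⟩

theorem f3_cont : Continuous f3 :=
  Continuous.subtype_mk Path.Homotopy.continuous_transAssocReparamAux _

theorem f3_zero : f3 0 = 0 := Subtype.ext Path.Homotopy.transAssocReparamAux_zero

theorem f3_one : f3 1 = 1 := Subtype.ext Path.Homotopy.transAssocReparamAux_one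

theorem HM_assoc (l c d : Path b b) : HM l (mLL c d) (mL (c.trans d)) := by
  refine HM.of (fun s q => EH.rp f3 f3_cont f3_zero f3_one s (c.trans (d.trans q))) ?_ ?_ ?_ l
  · exact (rp_cont f3 f3_cont f3_zero f3_one).comp
      (continuous_fst.prodMk ((mLL c d).continuous.comp continuous_snd))
  · intro q
    apply Path.ext; funext u
    show (c.trans (d.trans q)) (EH.cv f3 0 u) = (c.trans (d.trans q)) u
    rw [EH.cv_zero]
  · intro q
    apply Path.ext; funext u
    show (c.trans (d.trans q)) (EH.cv f3 1 u) = ((c.trans d).trans q) u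
    rw [EH.cv_one, Path.Homotopy.trans_assoc_reparam]
    rfl

theorem HM_R (l : Path b b) : HM l (mR (l.symm.trans l)) (ContinuousMap.id _) :=
  (HM_R_path l (toP (Path.Homotopy.reflSymmTrans l).symm)).trans (HM_id_R l).symm

theorem HM_LL (l : Path b b) : HM l (mLL l l.symm) (ContinuousMap.id _) :=
  (HM_assoc l l l.symm).trans
    ((HM_L_path l (toP (Path.Homotopy.reflTransSymm l).symm)).trans (HM_id_L l).symm)

/-- the path `s ↦ x (l⁻¹ (β s))` -/
def YL (l : Path b b) (β : Path l l) (x : Path b b) :
    Path (mR (l.symm.trans l) x) (mR (l.symm.trans l) x) where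
  toFun s := x.trans (l.symm.trans (β s))
  continuous_toFun := ctr.comp (continuous_const.prodMk
      (ctr.comp (continuous_const.prodMk β.continuous)))
  source' := by rw [β.source]; rfl
  target' := by rw [β.target]; rfl

theorem interchange (l : Path b b) (α β : Path l l) :
    ((α.map (mR (l.symm.trans l)).continuous).trans (YL l β l)).Homotopic
      ((YL l β l).trans (α.map (mR (l.symm.trans l)).continuous)) := by
  have hF : Continuous fun q : I × Path b b => q.2.trans (l.symm.trans (β q.1)) :=
    ctr.comp (continuous_snd.prodMk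
      (ctr.comp (continuous_const.prodMk (β.continuous.comp continuous_fst))))
  have h0 : ∀ q : Path b b, q.trans (l.symm.trans (β 0)) = mR (l.symm.trans l) q := by
    intro q; rw [β.source]; rfl
  have h1 : ∀ q : Path b b, q.trans (l.symm.trans (β 1)) = mR (l.symm.trans l) q := by
    intro q; rw [β.target]; rfl
  exact nat (mR (l.symm.trans l)) (mR (l.symm.trans l))
    (fun s q => q.trans (l.symm.trans (β s))) hF h0 h1 (YL l β) (fun _ _ => rfl) α

end EHG

theorem taskEHgen : TaskEHgen := by
  intro Z _ b l α β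
  obtain ⟨τ1, h1⟩ := EHG.HM_R l
  obtain ⟨τ2, h2⟩ := EHG.HM_LL l
  have key := EHG.grp (C := FundamentalGroupoid (Path b b))
    (x := ⟨l⟩) (y := ⟨l.trans (l.symm.trans l)⟩)
    (Path.Homotopic.Quotient.mk τ1) (Path.Homotopic.Quotient.mk τ2) ?_
    (Path.Homotopic.Quotient.mk α) (Path.Homotopic.Quotient.mk β)
  · exact Quotient.exact key
  · intro x y
    obtain ⟨x, rfl⟩ := Quotient.exists_rep x
    obtain ⟨y, rfl⟩ := Quotient.exists_rep y
    refine ⟨Path.Homotopic.Quotient.mk (x.map (EHG.mR (l.symm.trans l)).continuous),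
      Path.Homotopic.Quotient.mk (EHG.YL l y l), ?_, ?_, ?_⟩
    · exact Quotient.sound (h1 x)
    · exact Quotient.sound (h2 y)
    · exact Quotient.sound (EHG.interchange l x y)

end

end Pool.Agent.H659R3.CT
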