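import Mathlib
import Pool.Agent.H659R3.CT.SimpStmts

/-! Project H659-CT, simplicial part: task S10a (helper30). -/


namespace Pool.Agent.H659R3.CT

open unitInterval Topology

noncomputable section

namespace KLOf

/-! ### homotopies -/

theorem assoc {Z : Type} [TopologicalSpace Z] {a b c d : Z} (p : Path a b) (q : Path b c)
    (r : Path c d) : ((p.trans q).trans r).Homotopic (p.trans (q.trans r)) :=
  ⟨Path.Homotopy.transAssoc p q r⟩

theorem trefl {Z : Type} [TopologicalSpace Z] {a b : Z} (p : Path a b) :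
    (p.trans (Path.refl b)).Homotopic p :=
  ⟨Path.Homotopy.transRefl p⟩

/-- the word `x p x⁻¹ x⁻¹ p⁻¹` -/
def vv (x p : ℕ) : Wd := [(x, true), (p, true), (x, false), (x, false), (p, false)]

theorem wloop_vv {Z : Type} [TopologicalSpace Z] {z : Z} {n : ℕ} (a : Fin n → Path z z)
    (x p : Fin n) : (wloop a (vv x.1 p.1)).Homotopic
      (((a x).trans (a p)).trans ((a p).trans ((a x).trans (a x))).symm) := by
  have e : wloop a (vv x.1 p.1) = (a x).trans ((a p).trans ((a x).symm.trans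
      ((a x).symm.trans ((a p).symm.trans (Path.refl z))))) := by
    simp only [vv, wloop, x.2, p.2, dif_pos, if_true, Bool.false_eq_true, if_false, Fin.eta]
  rw [e, Path.trans_symm, Path.trans_symm]
  refine Path.Homotopic.trans ?_ (assoc _ _ _).symm
  refine Path.Homotopic.hcomp (Path.Homotopic.refl _) ?_
  refine Path.Homotopic.hcomp (Path.Homotopic.refl _) ?_
  refine Path.Homotopic.trans ?_ (assoc _ _ _).symm
  refine Path.Homotopic.hcomp (Path.Homotopic.refl _) ?_
  exact Path.Homotopic.hcomp (Path.Homotopic.refl _) (trefl _)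

theorem wloop_map {A B : Type} [TopologicalSpace A] [TopologicalSpace B] (a : A) (b : B)
    (i : C(A, B)) (hi : i a = b) (n : ℕ) (γ : Fin n → Path a a) (ε : Fin n → Path b b)
    (h : ∀ x, ((γ x).map i.continuous).Homotopic ((ε x).cast hi hi)) (V : Wd) :
    ((wloop γ V).map i.continuous).Homotopic ((wloop ε V).cast hi hi) := by
  subst hi
  have h' : ∀ x, ((γ x).map i.continuous).Homotopic (ε x) := h
  show ((wloop γ V).map i.continuous).Homotopic (wloop ε V)
  induction V with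
  | nil =>
    show ((Path.refl a).map i.continuous).Homotopic (Path.refl _)
    exact Path.Homotopic.refl _
  | cons l V ih =>
    simp only [wloop]
    rw [Path.map_trans]
    refine Path.Homotopic.hcomp ?_ ih
    by_cases hl : l.1 < n
    · rw [dif_pos hl, dif_pos hl]
      by_cases h2 : l.2 = true
      · rw [if_pos h2, if_pos h2]
        exact h' _
      · rw [if_neg h2, if_neg h2, ← Path.map_symm]
        exact (h' _).symm₂
    · rw [dif_neg hl, dif_neg hl]
      exact Path.Homotopic.refl _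

theorem cast_hom {B : Type} [TopologicalSpace B] {b c : B} (h : c = b) {p q : Path b b}
    (hpq : p.Homotopic q) : (p.cast h h).Homotopic (q.cast h h) := by
  subst h
  exact hpq

theorem core (h2 : TaskCn) (h3 : TaskSqDom) (h4 : TaskSqAB) (h9 : TaskTrans) (A : Type)
    [TopologicalSpace A] (a : A) (n : ℕ) (p : Fin n → Fin n) (γ0 : Fin n → Path a a)
    (hD : Dom A (Bq n) a (Bq.pt n) γ0 (fun x => Bq.loop x)) (J : ℕ) (hJ : J = n)
    (γE : Fin J → Path a a) (V : ℕ → Wd) (hV : ∀ x : Fin n, V x.1 = vv x.1 (p x).1)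
    (hγ : ∀ j : Fin J, (γE j).Homotopic (wloop γ0 (V j.1))) :
    Dom (Cn γE) (LL n p) (Cn.inc γE a) (LL.pt n p)
      (fun x => (γ0 x).map (Cn.inc γE).continuous) (fun x => LL.loop p x) := by
  subst hJ
  have d1 := h2 A a J γE (Fin J) γ0
  have d2 : Dom A (Bq J) a (Bq.pt J) (Sum.elim γE γ0)
      (Sum.elim (fun x => (relA J p x).trans (relB J p x).symm) (fun x => Bq.loop x)) := by
    obtain ⟨i, r, hi, hr, H, H0, H1, H2, H3⟩ := hD
    refine ⟨i, r, hi, hr, H, H0, H1, H2, ?_⟩
    rintro (j | j)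
    · show ((γE j).map i.continuous).Homotopic
        (((relA J p j).trans (relB J p j).symm).cast hi hi)
      have e1 : ((γE j).map i.continuous).Homotopic ((wloop γ0 (V j.1)).map i.continuous) :=
        (hγ j).map i
      have e2 := wloop_map a (Bq.pt J) i hi J γ0 (fun x => Bq.loop x) H3 (V j.1)
      refine (e1.trans e2).trans (cast_hom hi ?_)
      rw [hV j]
      exact wloop_vv (fun x => Bq.loop x) j (p j)
    · exact H3 j
  have d3 := h3 A (Bq J) a (Bq.pt J) J γE (fun x => (relA J p x).trans (relB J p x).symm)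
    (Fin J) γ0 (fun x => Bq.loop x) d2
  have d4 := h4 (Bq J) (Bq.pt J) J (relA J p) (relB J p) (Fin J) (fun x => Bq.loop x)
  exact h9 _ _ _ _ _ _ _ _ _ _ d1 (h9 _ _ _ _ _ _ _ _ _ _ d3 d4)

/-! ### combinatorics -/

theorem cp_gph (n x : ℕ) (hx : x < n) : CP (gph n) 0 [0, 2 * x + 1, 2 * x + 2] := by
  have hm : ∀ s ∈ [[0, 2 * x + 1], [2 * x + 1, 2 * x + 2], [0, 2 * x + 2]], s ∈ gph n := by
    intro s hs
    exact List.mem_flatMap.2 ⟨x, List.mem_range.2 hx, hs⟩
  refine ⟨by simp, by simp, ?_⟩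
  intro i hi
  have hi3 : i < 3 := by simpa using hi
  interval_cases i
  · refine ⟨⟨[0, 2 * x + 1], hm _ (by simp), by simp, by simp⟩, by simp⟩
  · refine ⟨⟨[2 * x + 1, 2 * x + 2], hm _ (by simp), by simp, by simp⟩, by simp⟩
  · refine ⟨⟨[0, 2 * x + 2], hm _ (by simp), by simp, by simp⟩, by simp⟩

theorem bd_gph (n : ℕ) : Bd (2 * n + 1) (gph n) := by
  intro s hs i hi
  obtain ⟨x, hx, hs⟩ := List.mem_flatMap.1 hs
  rw [List.mem_range] at hx
  simp only [List.mem_cons, List.not_mem_nil, or_false] at hs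
  rcases hs with rfl | rfl | rfl <;> simp only [List.mem_cons, List.not_mem_nil, or_false] at hi <;>
    omega

theorem nodup_gph (n : ℕ) : ∀ s ∈ gph n, s.Nodup := by
  intro s hs
  obtain ⟨x, hx, hs⟩ := List.mem_flatMap.1 hs
  simp only [List.mem_cons, List.not_mem_nil, or_false] at hs
  rcases hs with rfl | rfl | rfl <;> simp

theorem nodup_dsc (m j v : ℕ) (K : List (List ℕ)) (e : List ℕ) (hK : Bd m K) (he : CP K v e) :
    ∀ s ∈ dsc m j e, s.Nodup := by
  intro s hs
  obtain ⟨i, hi, hs⟩ := List.mem_flatMap.1 hs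
  rw [List.mem_range] at hi
  obtain ⟨h3, -, hE⟩ := he
  obtain ⟨⟨t, ht, ha, hb⟩, hne⟩ := hE i hi
  have ha' := hK t ht _ ha
  have hb' := hK t ht _ hb
  have hlen : 0 < e.length := by omega
  have hi' : (i + 1) % e.length < e.length := Nat.mod_lt _ hlen
  have hii : i ≠ (i + 1) % e.length := by
    intro h
    rcases Nat.lt_or_ge (i + 1) e.length with h1 | h1
    · rw [Nat.mod_eq_of_lt h1] at h; omega
    · have : i + 1 = e.length := by omega
      rw [this, Nat.mod_self] at h; omega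
  have hnv : ∀ a b, a ≠ b → nv m j a ≠ nv m j b := by
    intro a b hab h
    unfold nv at h
    have h1 : Nat.pair j a = Nat.pair j b := by omega
    exact hab (Nat.pair_eq_pair.1 h1).2
  have hge : ∀ a, m ≤ nv m j a := fun a => Nat.le_add_right _ _
  simp only [List.mem_cons, List.not_mem_nil, or_false] at hs
  rcases hs with rfl | rfl | rfl
  · have g1 := hge i
    simp only [List.nodup_cons, List.mem_cons, List.not_mem_nil, or_false, not_or,
      List.nodup_nil, and_true, not_false_eq_true]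
    refine ⟨⟨hne, by omega⟩, by omega⟩
  · have g1 := hge i
    have g2 := hge ((i + 1) % e.length)
    simp only [List.nodup_cons, List.mem_cons, List.not_mem_nil, or_false, not_or,
      List.nodup_nil, and_true, not_false_eq_true]
    refine ⟨⟨by omega, by omega⟩, hnv _ _ hii⟩
  · simp only [List.nodup_cons, List.mem_cons, List.not_mem_nil, or_false, not_or,
      List.nodup_nil, and_true, not_false_eq_true]
    exact ⟨⟨hnv _ _ hii, hnv _ _ (by omega)⟩, hnv _ _ (by omega)⟩

theorem sorted_srt (K : List (List ℕ)) (h : ∀ s ∈ K, s.Nodup) :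
    ∀ s ∈ srt K, s.Pairwise (· < ·) := by
  intro s hs
  obtain ⟨t, ht, rfl⟩ := List.mem_map.1 hs
  have h1 : (t.insertionSort (· ≤ ·)).Nodup := (List.perm_insertionSort (· ≤ ·) t).nodup_iff.2 (h t ht)
  have h2 : (t.insertionSort (· ≤ ·)).Pairwise (· ≤ ·) := List.pairwise_insertionSort (· ≤ ·) t
  exact (h2.and h1).imp fun h => lt_of_le_of_ne h.1 h.2

theorem cp_srt {m v : ℕ} {K E : List (List ℕ)} {e : List ℕ} (h : CP K v e) :
    CP (srt (att m K E)) v e := by
  obtain ⟨h1, h2, h3⟩ := h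
  refine ⟨h1, h2, fun i hi => ?_⟩
  obtain ⟨⟨s, hs, ha, hb⟩, hne⟩ := h3 i hi
  refine ⟨⟨s.insertionSort (· ≤ ·), List.mem_map.2 ⟨s, List.mem_append_left _ hs, rfl⟩, ?_, ?_⟩, hne⟩
  · exact (List.mem_insertionSort (· ≤ ·)).2 ha
  · exact (List.mem_insertionSort (· ≤ ·)).2 hb

/-- the points of the realization -/
def PK (K : List (List ℕ)) (x : ℕ → ℝ) : Prop :=
  (∀ i, 0 ≤ x i) ∧ ∃ s ∈ K, (∀ i, i ∉ s → x i = 0) ∧ ∑ i ∈ s.toFinset, x i = 1

theorem pk_srt (K : List (List ℕ)) : PK (srt K) = PK K := by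
  funext x
  apply propext
  unfold PK
  refine and_congr Iff.rfl ?_
  have hmem : ∀ (t : List ℕ) (i : ℕ), i ∈ t.insertionSort (· ≤ ·) ↔ i ∈ t :=
    fun t i => List.mem_insertionSort (· ≤ ·)
  have hfin : ∀ t : List ℕ, (t.insertionSort (· ≤ ·)).toFinset = t.toFinset := by
    intro t
    ext i
    rw [List.mem_toFinset, List.mem_toFinset, hmem]
  constructor
  · rintro ⟨s, hs, h1, h2⟩
    obtain ⟨t, ht, rfl⟩ := List.mem_map.1 hs
    refine ⟨t, ht, fun i hi => h1 i (fun h => hi ((hmem t i).1 h)), ?_⟩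
    rw [← hfin]
    exact h2
  · rintro ⟨t, ht, h1, h2⟩
    refine ⟨t.insertionSort (· ≤ ·), List.mem_map.2 ⟨t, ht, rfl⟩,
      fun i hi => h1 i (fun h => hi ((hmem t i).2 h)), ?_⟩
    rw [hfin]
    exact h2

/-- the statement for a set of points -/
def SS (n : ℕ) (p : Fin n → Fin n) (Q : (ℕ → ℝ) → Prop) : Prop :=
  ∃ (b : {x // Q x}) (γ : Fin n → Path b b), b.1 = Pi.single 0 1 ∧
    (∀ x s, (γ x s).1 = pg [0, 2 * x.1 + 1, 2 * x.1 + 2] s) ∧
    Dom {x // Q x} (LL n p) b (LL.pt n p) γ (fun x => LL.loop p x)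

end KLOf

open KLOf in
theorem taskKL : TaskDisc → TaskCn → TaskSqDom → TaskSqAB → TaskGph → TaskPoly → TaskTrans →
    TaskKL := by
  intro h1 h2 h3 h4 h7 h8 h9 k
  have hn : 0 < NX k := by unfold NX; omega
  obtain ⟨b0, γ0, hb0, hγ0, hD⟩ := h7 (NX k) hn
  -- the polygons
  have hpoly := h8 (gph (NX k)) 0 (NX k) (fun i => 2 * i + 1) (fun i => 2 * i + 2) b0 γ0 hb0
    (fun x => ⟨cp_gph (NX k) x.1 x.2, hγ0 x⟩)
  have hV : ∀ x : ℕ, x < NX k → ∃ γ : Path b0 b0,
      CP (gph (NX k)) 0 (wp 0 (fun i => 2 * i + 1) (fun i => 2 * i + 2) (vv x (par k x))) ∧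
      IsPg b0 (wp 0 (fun i => 2 * i + 1) (fun i => 2 * i + 2) (vv x (par k x))) γ ∧
      γ.Homotopic (wloop γ0 (vv x (par k x))) := by
    intro x hx
    refine hpoly (vv x (par k x)) (by simp [vv]) ?_
    have := par_lt k x hx
    intro l hl
    simp only [vv, List.mem_cons, List.not_mem_nil, or_false] at hl
    rcases hl with rfl | rfl | rfl | rfl | rfl <;> assumption
  obtain ⟨E, hE⟩ : ∃ E : List (List ℕ), E = (List.range (NX k)).map fun x =>
    wp 0 (fun i => 2 * i + 1) (fun i => 2 * i + 2) (vv x (par k x)) := ⟨_, rfl⟩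
  have hlen : E.length = NX k := by rw [hE, List.length_map, List.length_range]
  have hget : ∀ j : Fin E.length, E.get j =
      wp 0 (fun i => 2 * i + 1) (fun i => 2 * i + 2) (vv j.1 (par k j.1)) := by
    intro j
    subst hE
    simp
  have hkL : kL k = srt (att (2 * NX k + 1) (gph (NX k)) E) := by
    rw [hE]
    rfl
  have hCP : ∀ e ∈ E, CP (gph (NX k)) 0 e := by
    intro e he
    rw [hE] at he
    obtain ⟨x, hx, rfl⟩ := List.mem_map.1 he
    obtain ⟨γ, hc, -, -⟩ := hV x (List.mem_range.1 hx)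
    exact hc
  have hγE : ∀ j : Fin E.length, ∃ γ : Path b0 b0, IsPg b0 (E.get j) γ ∧
      γ.Homotopic (wloop γ0 (vv j.1 (par k j.1))) := by
    intro j
    obtain ⟨γ, -, hc, hh⟩ := hV j.1 (by rw [← hlen]; exact j.2)
    exact ⟨γ, by rw [hget j]; exact hc, hh⟩
  choose γE hγE1 hγE2 using hγE
  refine ⟨?_, ?_⟩
  · rw [hkL]
    apply sorted_srt
    intro s hs
    rcases List.mem_append.1 hs with hs | hs
    · exact nodup_gph _ s hs
    · obtain ⟨q, hq, hs⟩ := List.mem_flatMap.1 hs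
      have hq' : q.1 ∈ E := by
        have := List.mem_zipIdx hq
        rw [this.2.2]
        exact List.getElem_mem _
      exact nodup_dsc _ _ 0 (gph (NX k)) q.1 (bd_gph _) (hCP q.1 hq') s hs
  · obtain ⟨inc, hinc, hdom⟩ := h1 (2 * NX k + 1) (gph (NX k)) E 0 (bd_gph _) hCP b0 γE hb0 hγE1
      (Fin (NX k)) γ0
    have hc := core h2 h3 h4 h9 (Rz (gph (NX k))) b0 (NX k) (parF k) γ0 hD E.length hlen γE
      (fun x => vv x (par k x)) (fun x => rfl) hγE2
    have hfull := h9 _ _ _ _ _ _ _ _ _ _ hdom hc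
    have hSS : SS (NX k) (parF k) (PK (att (2 * NX k + 1) (gph (NX k)) E)) := by
      refine ⟨inc b0, fun x => (γ0 x).map inc.continuous, ?_, ?_, hfull⟩
      · exact (hinc b0).trans hb0
      · intro x s
        exact (hinc (γ0 x s)).trans (hγ0 x s)
    rw [← pk_srt] at hSS
    obtain ⟨b, γ, g1, g2, g3⟩ := hSS
    rw [hkL]
    exact ⟨b, γ, g1, fun x => ⟨cp_srt (cp_gph (NX k) x.1 x.2), g2 x⟩, g3⟩

end

end Pool.Agent.H659R3.CT
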