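import Pool.Agent.H659R3.CT.Stmts

set_option autoImplicit false

/-! `TaskModel → TaskNontriv`. -/

namespace Pool.Agent.H659R3.CT

theorem NT_cons {G : Type} [Group G] (f : ℕ → G) (l : ℕ × Bool) (L : Wd) :
    FreeGroup.lift f (FreeGroup.mk (l :: L)) =
      (cond l.2 (f l.1) (f l.1)⁻¹) * FreeGroup.lift f (FreeGroup.mk L) := by
  simp [FreeGroup.lift_mk]

theorem NT_app {G : Type} [Group G] (f : ℕ → G) (L M : Wd) :
    FreeGroup.lift f (FreeGroup.mk (L ++ M)) =
      FreeGroup.lift f (FreeGroup.mk L) * FreeGroup.lift f (FreeGroup.mk M) := by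
  rw [← FreeGroup.mul_mk, map_mul]

theorem NT_nil {G : Type} [Group G] (f : ℕ → G) :
    FreeGroup.lift f (FreeGroup.mk ([] : Wd)) = 1 := by
  simp [FreeGroup.lift_mk]

theorem NT_inv {G : Type} [Group G] (f : ℕ → G) (L : Wd) :
    FreeGroup.lift f (FreeGroup.mk (inv L)) = (FreeGroup.lift f (FreeGroup.mk L))⁻¹ := by
  rw [← map_inv, FreeGroup.inv_mk]
  rfl

theorem NT_hat {G : Type} [Group G] (k : ℕ) (f g : ℕ → G) (hf : ∀ i, i < NX k → f i = g i)
    (w : List (Fin k × Bool)) :
    FreeGroup.lift f (FreeGroup.mk (hat k w)) =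
      FreeGroup.lift (fun i : Fin k => g (3 + i.1) * (g 0)⁻¹) (FreeGroup.mk w) := by
  induction w with
  | nil => simp [hat, FreeGroup.lift_mk]
  | cons l w ih =>
    have e1 : hat k (l :: w) = (if l.2 then [(3 + l.1.1, true), (0, false)]
        else [(0, true), (3 + l.1.1, false)]) ++ hat k w := by
      simp [hat]
    have h3 : f (3 + l.1.1) = g (3 + l.1.1) := hf _ (by
      have := l.1.2
      unfold NX NE; omega)
    have h0 : f 0 = g 0 := hf _ (by unfold NX; omega)
    have e2 : FreeGroup.lift (fun i : Fin k => g (3 + i.1) * (g 0)⁻¹) (FreeGroup.mk (l :: w)) =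
        (cond l.2 (g (3 + l.1.1) * (g 0)⁻¹) (g (3 + l.1.1) * (g 0)⁻¹)⁻¹) *
          FreeGroup.lift (fun i : Fin k => g (3 + i.1) * (g 0)⁻¹) (FreeGroup.mk w) := by
      simp [FreeGroup.lift_mk]
    rw [e1, NT_app, ih, e2]
    congr 1
    cases hl : l.2
    · simp [FreeGroup.lift_mk, h3, h0]
    · simp [FreeGroup.lift_mk, h3, h0]

theorem taskNontriv : TaskModel → TaskNontriv := by
  intro hM k S w hw hsub
  obtain ⟨G, _, g, hg0, hpar, hS, hg2⟩ := hM k S w hw
  set f : ℕ → G := fun i => if i < NX k then g i else 1 with hf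
  have hf1 : ∀ i, i < NX k → f i = g i := fun i hi => by simp [hf, hi]
  have hf2 : ∀ i, f (NX k + i) = 1 := fun i => by simp [hf]
  have hpl : ∀ x, x < NX k → par k x < NX k := by
    intro x hx
    unfold par NX at *
    split_ifs <;> omega
  have hrel : ∀ r ∈ relSet (cx k S w), FreeGroup.lift f r = 1 := by
    rintro x (⟨r, hr, rfl⟩ | ⟨i, hi, rfl⟩)
    · simp only [cx, cells2, List.mem_append, List.mem_map, List.mem_range] at hr
      rcases hr with ⟨p, -, rfl⟩ | ⟨x, hx, rfl⟩ | ⟨⟨r, j⟩, hrj, rfl⟩
      · simp only [tau, NT_cons, NT_nil, hf2]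
        simp
      · simp only [bs, NT_cons, NT_nil]
        rw [hf1 x hx, hf1 _ (hpl x hx)]
        have h := hpar x hx
        simp only [cond_false, cond_true, mul_one]
        have h' : (g (par k x))⁻¹ * (g x * (g (par k x) * ((g x)⁻¹ * (g x)⁻¹))) =
            ((g (par k x))⁻¹ * g x * g (par k x)) * ((g x)⁻¹ * (g x)⁻¹) := by group
        rw [h', h, pow_two]
        group
      · have hr' : r ∈ rs k S w := by
          have := List.mem_zipIdx hrj
          simp only [zero_add, Nat.sub_zero] at this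
          obtain ⟨_, h2, h3⟩ := this
          rw [h3]
          exact List.getElem_mem _
        rw [NT_app]
        have e1 : FreeGroup.lift f (FreeGroup.mk [(NX k + j, false)]) = 1 := by
          rw [NT_cons, NT_nil, hf2]; simp
        rw [e1, mul_one]
        simp only [rs, List.mem_cons, List.mem_map] at hr'
        rcases hr' with rfl | ⟨r', hr'', rfl⟩
        · have h2 : f 2 = g 2 := hf1 _ (by unfold NX; omega)
          have h1 : f 1 = g 1 := hf1 _ (by unfold NX; omega)
          unfold rw0
          rw [NT_cons, NT_app, NT_cons, NT_app, NT_cons, NT_nil, NT_inv, NT_hat k f g hf1 w]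
          simp only [cond_false, cond_true, mul_one]
          rw [h2, h1, hg2]
          group
        · rw [NT_hat k f g hf1 r']
          exact hS r' hr''
    · have hi' : ¬ i < NX k := by
        have : (cx k S w).1 = NX k + (S.length + 1) := rfl
        rw [this] at hi
        omega
      rw [FreeGroup.lift_apply_of]
      simp [hf, hi']
  have h1 : (PresentedGroup.toGroup hrel) (PresentedGroup.of 0) = f 0 := PresentedGroup.toGroup.of hrel
  have h2 : (PresentedGroup.of 0 : Pi1 (cx k S w)) = 1 := hsub.elim _ _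
  rw [h2, map_one] at h1
  apply hg0
  rw [← hf1 0 (by unfold NX; omega), ← h1]

end Pool.Agent.H659R3.CT
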