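import Pool.Agent.H659R3.CT.SimpStmts
import Pool.Agent.H659R3.CT.TaskEHgen

set_option autoImplicit false
set_option maxHeartbeats 4000000

namespace Pool.Agent.H659R3.CT

open unitInterval Topology

noncomputable section

namespace SAB

open CategoryTheory in
theorem full_heq {X Y : Type} [TopologicalSpace X] [TopologicalSpace Y]
    (E : ContinuousMap.HomotopyEquiv X Y) {x x' : X}
    (w : Path (E.toFun x) (E.toFun x')) :
    ∃ p : Path x x', (p.map E.toFun.continuous).Homotopic w := by
  have hfull : (FundamentalGroupoid.map E.toFun).Full := by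
    have h : (FundamentalGroupoidFunctor.equivOfHomotopyEquiv E).functor.Full := inferInstance
    exact h
  let w' : (FundamentalGroupoid.map E.toFun).obj (⟨x⟩ : FundamentalGroupoid X) ⟶
      (FundamentalGroupoid.map E.toFun).obj (⟨x'⟩ : FundamentalGroupoid X) :=
    Path.Homotopic.Quotient.mk w
  obtain ⟨q, hq⟩ := (FundamentalGroupoid.map E.toFun).map_surjective w'
  obtain ⟨p, rfl⟩ := Path.Homotopic.Quotient.mk_surjective q
  exact ⟨p, Quotient.exact hq⟩

variable {Z : Type} [TopologicalSpace Z] {b : Z}

theorem hid : ContinuousMap.Homotopic (ContinuousMap.id (Path b b)) (EHG.mR (Path.refl b)) := by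
  refine ⟨⟨⟨fun q => EH.rp EH.f1 EH.f1_cont EH.f1_zero EH.f1_one q.1 q.2, EHG.rp_cont _ _ _ _⟩, ?_, ?_⟩⟩
  · intro q
    apply Path.ext; funext u
    show q (EH.cv EH.f1 0 u) = q u
    rw [EH.cv_zero]
  · intro q
    apply Path.ext; funext u
    show q (EH.cv EH.f1 1 u) = (q.trans (Path.refl b)) u
    rw [EH.cv_one, EH.trans_refl_f1]

theorem hpath {c d : Path b b} (δ : Path c d) :
    ContinuousMap.Homotopic (EHG.mR c) (EHG.mR d) := by
  refine ⟨⟨⟨fun q => q.2.trans (δ q.1), ?_⟩, ?_, ?_⟩⟩
  · exact EHG.ctr.comp (continuous_snd.prodMk (δ.continuous.comp continuous_fst))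
  · intro q; show q.trans (δ 0) = q.trans c; rw [δ.source]
  · intro q; show q.trans (δ 1) = q.trans d; rw [δ.target]

theorem hassoc (c d : Path b b) :
    ContinuousMap.Homotopic (EHG.mR (c.trans d)) ((EHG.mR d).comp (EHG.mR c)) := by
  refine ⟨⟨⟨fun q => EH.rp EHG.f3 EHG.f3_cont EHG.f3_zero EHG.f3_one q.1 (q.2.trans (c.trans d)), ?_⟩, ?_, ?_⟩⟩
  · exact (EHG.rp_cont EHG.f3 EHG.f3_cont EHG.f3_zero EHG.f3_one).comp
      (continuous_fst.prodMk ((EHG.mR (c.trans d)).continuous.comp continuous_snd))
  · intro q
    apply Path.ext; funext u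
    show (q.trans (c.trans d)) (EH.cv EHG.f3 0 u) = (q.trans (c.trans d)) u
    rw [EH.cv_zero]
  · intro q
    apply Path.ext; funext u
    show (q.trans (c.trans d)) (EH.cv EHG.f3 1 u) = ((q.trans c).trans d) u
    rw [EH.cv_one, Path.Homotopy.trans_assoc_reparam]
    rfl

/-- right translation is a homotopy equivalence -/
def eR (c : Path b b) : ContinuousMap.HomotopyEquiv (Path b b) (Path b b) where
  toFun := EHG.mR c.symm
  invFun := EHG.mR c
  left_inv := (hassoc c.symm c).symm.trans
    ((hpath (EHG.toP (Path.Homotopy.reflSymmTrans c).symm)).trans hid.symm)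
  right_inv := (hassoc c c.symm).symm.trans
    ((hpath (EHG.toP (Path.Homotopy.reflTransSymm c).symm)).trans hid.symm)

theorem ev_cont : Continuous fun r : Path b b × I => r.1 r.2 :=
  (Path.continuous_uncurry_iff (x := b) (y := b) (g := fun p : Path b b => p)).2 continuous_id

/-- a path of paths as a homotopy of paths -/
def fromP {a a' : Path b b} (P : Path a a') : Path.Homotopy a a' where
  toFun p := P p.1 p.2
  continuous_toFun := ev_cont.comp ((P.continuous.comp continuous_fst).prodMk continuous_snd)
  map_zero_left t := by simp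
  map_one_left t := by simp
  prop' s t ht := by
    rcases ht with rfl | rfl
    · show P s 0 = a 0
      rw [(P s).source, a.source]
    · show P s 1 = a 1
      rw [(P s).target, a.target]

theorem fromP_apply {a a' : Path b b} (P : Path a a') (p : I × I) : fromP P p = P p.1 p.2 := rfl

/-- the canonical contraction of `c c⁻¹` -/
def nu (c : Path b b) : Path (c.trans c.symm) (Path.refl b) :=
  EHG.toP (Path.Homotopy.reflTransSymm c).symm

/-- right translation of a path of loops -/
def Rp {a c : Path b b} (p : Path a c) : Path (a.trans c.symm) (c.trans c.symm) :=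
  p.map (EHG.mR c.symm).continuous

/-- the cell along `a c⁻¹` from a path from `a` to `c` -/
def FF {a c : Path b b} (p : Path a c) : Path (a.trans c.symm) (Path.refl b) :=
  (Rp p).trans (nu c)

theorem exists_pre {a c : Path b b} (q : Path (a.trans c.symm) (Path.refl b)) :
    ∃ p : Path a c, (FF p).Homotopic q := by
  obtain ⟨p, hp⟩ := full_heq (eR c) (x := a) (x' := c) (q.trans (nu c).symm)
  refine ⟨p, ?_⟩
  have h1 : (FF p).Homotopic ((q.trans (nu c).symm).trans (nu c)) :=
    Path.Homotopic.hcomp hp (Path.Homotopic.refl _)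
  have h2 : ((q.trans (nu c).symm).trans (nu c)).Homotopic (q.trans ((nu c).symm.trans (nu c))) :=
    ⟨Path.Homotopy.transAssoc _ _ _⟩
  have h3 : (q.trans ((nu c).symm.trans (nu c))).Homotopic (q.trans (Path.refl _)) :=
    Path.Homotopic.hcomp (Path.Homotopic.refl _) ⟨(Path.Homotopy.reflSymmTrans (nu c)).symm⟩
  have h4 : (q.trans (Path.refl _)).Homotopic q := ⟨Path.Homotopy.transRefl q⟩
  exact ((h1.trans h2).trans h3).trans h4

/-- naturality of the cell -/
theorem FF_nat {Y : Type} [TopologicalSpace Y] {y : Y} (r : Z → Y) {a c : Path b b}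
    {a' c' : Path y y} (hc : ∀ t, r (c t) = c' t) (p : Path a c) (p' : Path a' c')
    (hp : ∀ s t, r (p s t) = p' s t) (s t : I) : r (FF p s t) = FF p' s t := by
  unfold FF
  rw [Path.trans_apply, Path.trans_apply]
  split_ifs with h
  · show r (((p _).trans c.symm) t) = ((p' _).trans c'.symm) t
    rw [Path.trans_apply, Path.trans_apply]
    split_ifs with h'
    · exact hp _ _
    · exact hc _
  · exact hc _

end SAB

open SAB in
theorem taskSqAB : TaskSqAB := by
  intro B _ b J α β κ δ
  let ab : Fin J → Path b b := fun j => (α j).trans (β j).symm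
  let inc0 : C(B, Sq b ab (cst b (Fin J))) := Sq.inc b ab (cst b (Fin J))
  let inc1 : C(B, Sq b α β) := Sq.inc b α β
  let a0 : ∀ j, Path (inc0 b) (inc0 b) := fun j => (α j).map inc0.continuous
  let b0 : ∀ j, Path (inc0 b) (inc0 b) := fun j => (β j).map inc0.continuous
  let a1 : ∀ j, Path (inc1 b) (inc1 b) := fun j => (α j).map inc1.continuous
  let b1 : ∀ j, Path (inc1 b) (inc1 b) := fun j => (β j).map inc1.continuous
  have e0 : ∀ j, (ab j).map inc0.continuous = (a0 j).trans (b0 j).symm := fun j =>
    Path.map_trans _ _ _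
  have e1 : ∀ j, (ab j).map inc1.continuous = (a1 j).trans (b1 j).symm := fun j =>
    Path.map_trans _ _ _
  have f0 : ∀ j, (cst b (Fin J) j).map inc0.continuous = Path.refl (inc0 b) := fun j => rfl
  have f1 : ∀ j, (cst b (Fin J) j).map inc1.continuous = Path.refl (inc1 b) := fun j => rfl
  -- the map `i`
  let u1 : ∀ j, Path (a1 j) (b1 j) := fun j => EHG.toP (Sq.hom b α β j)
  let i : C(Sq b ab (cst b (Fin J)), Sq b α β) := Sq.desc b ab (cst b (Fin J)) inc1
    (fun j => (fromP (FF (u1 j))).cast (e1 j).symm (f1 j).symm) (by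
      rw [continuous_prod_of_discrete_left]
      intro j
      exact (fromP (FF (u1 j))).continuous)
  -- the map `r`
  let q : ∀ j, Path ((a0 j).trans (b0 j).symm) (Path.refl (inc0 b)) := fun j =>
    EHG.toP ((Sq.hom b ab (cst b (Fin J)) j).cast (e0 j) (f0 j))
  choose p hp using fun j => exists_pre (q j)
  let r : C(Sq b α β, Sq b ab (cst b (Fin J))) := Sq.desc b α β inc0
    (fun j => fromP (p j)) (by
      rw [continuous_prod_of_discrete_left]
      intro j
      exact (fromP (p j)).continuous)
  let G : ∀ j, Path.Homotopy (FF (p j)) (q j) := fun j => (hp j).some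
  -- the homotopy
  let g : C(B, C(I, Sq b ab (cst b (Fin J)))) :=
    ⟨fun y => ContinuousMap.const I (inc0 y), ContinuousMap.continuous_const'.comp inc0.continuous⟩
  let hD : ∀ j, Path.Homotopy ((ab j).map g.continuous) ((cst b (Fin J) j).map g.continuous) :=
    fun j =>
    { toFun := fun tu => ⟨fun s => G j (s, tu.1) tu.2, by
        exact ev_cont.comp (((G j).continuous.comp (continuous_id.prodMk continuous_const)).prodMk
          continuous_const)⟩
      continuous_toFun := by
        refine ContinuousMap.continuous_of_continuous_uncurry _ ?_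
        exact ev_cont.comp (((G j).continuous.comp (continuous_snd.prodMk
          (continuous_fst.comp continuous_fst))).prodMk (continuous_snd.comp continuous_fst))
      map_zero_left := fun u => by
        ext s
        show G j (s, 0) u = inc0 (ab j u)
        rw [(G j).source s, ← e0 j]
        rfl
      map_one_left := fun u => by
        ext s
        show G j (s, 1) u = inc0 (cst b (Fin J) j u)
        rw [(G j).target s]
        rfl
      prop' := by
        intro t u hu
        rcases hu with rfl | rfl
        · ext s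
          show G j (s, t) 0 = inc0 (ab j 0)
          rw [(G j (s, t)).source, (ab j).source]
        · ext s
          show G j (s, t) 1 = inc0 (ab j 1)
          rw [(G j (s, t)).target, (ab j).target] }
  let D : C(Sq b ab (cst b (Fin J)), C(I, Sq b ab (cst b (Fin J)))) :=
    Sq.desc b ab (cst b (Fin J)) g hD (by
      rw [continuous_prod_of_discrete_left]
      intro j
      exact (hD j).continuous)
  let H : C(I × Sq b ab (cst b (Fin J)), Sq b ab (cst b (Fin J))) :=
    ⟨fun x => D x.2 x.1, (ContinuousMap.continuous_uncurry_of_continuous D).comp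
      (continuous_snd.prodMk continuous_fst)⟩
  refine ⟨i, r, rfl, rfl, H, ?_, ?_, ?_, ?_⟩
  · intro x
    induction x using Quot.ind with
    | mk x =>
      rcases x with y | ⟨j, t, u⟩
      · rfl
      · show G j (0, t) u = r (FF (u1 j) t u)
        rw [(G j).apply_zero]
        refine (FF_nat (r := r) (c := b1 j) (c' := b0 j) (fun t => rfl) (u1 j) (p j) ?_ t u).symm
        intro s t
        rfl
  · intro x
    induction x using Quot.ind with
    | mk x =>
      rcases x with y | ⟨j, t, u⟩
      · rfl
      · show G j (1, t) u = _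
        rw [(G j).apply_one]
        rfl
  · intro s
    rfl
  · intro k
    have e : (((δ k).map inc0.continuous).map i.continuous) =
        ((δ k).map inc1.continuous).cast rfl rfl := by
      ext t
      rfl
    rw [e]
    exact Path.Homotopic.refl _

end

end Pool.Agent.H659R3.CT
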