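import Pool.Agent.H659R3.CT.Stmts

set_option autoImplicit false
set_option maxHeartbeats 4000000

namespace Pool.Agent.H659R3.CT.Stable

/-- HNN extension with its universal property -/
theorem hnnU (G S : Type) [Group G] [Group S] (j j' : S →* G)
    (hj : Function.Injective j) (hj' : Function.Injective j') :
    ∃ (H : Type) (_ : Group H) (i : G →* H) (t : H), Function.Injective i ∧
      (∀ s, t * i (j s) = i (j' s) * t) ∧
      ∀ (K : Type) [Group K] (f : G →* K) (y : K), (∀ s, y * f (j s) = f (j' s) * y) →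
        ∃ ρ : H →* K, (∀ g, ρ (i g) = f g) ∧ ρ t = y := by
  let φ : j.range ≃* j'.range :=
    (MonoidHom.ofInjective hj).symm.trans (MonoidHom.ofInjective hj')
  have h2 : ∀ s, ((φ ⟨j s, s, rfl⟩ : j'.range) : G) = j' s := by
    intro s
    have h3 : (MonoidHom.ofInjective hj).symm ⟨j s, s, rfl⟩ = s := by
      rw [MulEquiv.symm_apply_eq]
      rfl
    simp only [φ, MulEquiv.trans_apply, h3]
    rfl
  refine ⟨HNNExtension G j.range j'.range φ, inferInstance, HNNExtension.of, HNNExtension.t,
    HNNExtension.of_injective φ, fun s => ?_, ?_⟩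
  · have h := HNNExtension.t_mul_of (φ := φ) ⟨j s, s, rfl⟩
    rw [h2] at h
    exact h
  · intro K _ f y hy
    refine ⟨HNNExtension.lift f y ?_, fun g => HNNExtension.lift_of _ _ _ _,
      HNNExtension.lift_t _ _ _⟩
    rintro ⟨_, s, rfl⟩
    rw [h2]
    exact hy s

/-- powers of an element of infinite order -/
theorem zpowers_inj {G : Type} [Group G] (x : G) (hx : Inf x) :
    Function.Injective (zpowersHom G x) := by
  rw [injective_iff_map_eq_one]
  intro a ha
  rw [zpowersHom_apply] at ha
  have := hx _ ha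
  exact Multiplicative.toAdd.injective this

theorem inf_sq {G : Type} [Group G] (x : G) (hx : Inf x) : Inf (x ^ 2) := by
  intro n hn
  have h : x ^ (2 * n) = 1 := by
    rw [zpow_mul]
    exact_mod_cast hn
  have := hx _ h
  omega

theorem step1 (n : ℕ) : ∀ (G : Type) [Group G] (e : Fin n → G), (∀ i, Inf (e i)) →
    ∃ (H : Type) (_ : Group H) (i : G →* H) (t : Fin n → H), Function.Injective i ∧
      (∀ m, (t m)⁻¹ * i (e m) * t m = i (e m) ^ 2) ∧
      ∀ (K : Type) [Group K] (k : Fin n → K), ∃ ρ : H →* K, (∀ g, ρ (i g) = 1) ∧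
        ∀ m, ρ (t m) = k m := by
  induction n with
  | zero =>
    intro G _ e _
    exact ⟨G, inferInstance, MonoidHom.id G, fun m => m.elim0, Function.injective_id,
      fun m => m.elim0, fun K _ k => ⟨1, fun g => rfl, fun m => m.elim0⟩⟩
  | succ n ih =>
    intro G _ e he
    obtain ⟨H0, hH0, i0, t0, hi0, ht0, hρ0⟩ := ih G (fun m => e m.castSucc) (fun m => he _)
    set x : H0 := i0 (e (Fin.last n)) with hxdef
    have hx : Inf x := by
      intro p hp
      apply he (Fin.last n) p
      apply hi0
      rw [map_zpow, map_one]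
      exact hp
    obtain ⟨H, hH, i, t, hi, ht, hρ⟩ := hnnU H0 (Multiplicative ℤ) (zpowersHom H0 (x ^ 2))
      (zpowersHom H0 x) (zpowers_inj _ (inf_sq x hx)) (zpowers_inj x hx)
    refine ⟨H, hH, i.comp i0, fun m => Fin.lastCases (motive := fun _ => H) t
      (fun m => i (t0 m)) m, hi.comp hi0, ?_, ?_⟩
    · intro m
      refine Fin.lastCases ?_ (fun m => ?_) m
      · simp only [Fin.lastCases_last, MonoidHom.comp_apply]
        have h := ht (Multiplicative.ofAdd 1)
        simp only [zpowersHom_apply, toAdd_ofAdd, zpow_one] at h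
        rw [← hxdef, mul_assoc, ← h, ← mul_assoc, inv_mul_cancel, one_mul, map_pow]
      · simp only [Fin.lastCases_castSucc, MonoidHom.comp_apply]
        rw [← map_inv, ← map_mul, ← map_mul, ht0 m, map_pow]
    · intro K _ k
      obtain ⟨ρ0, h1, h2⟩ := hρ0 K (fun m => k m.castSucc)
      obtain ⟨ρ, h3, h4⟩ := hρ K ρ0 (k (Fin.last n)) (by
        intro s
        simp only [zpowersHom_apply, map_zpow, map_pow, hxdef, h1]
        simp)
      refine ⟨ρ, fun g => ?_, fun m => ?_⟩
      · rw [MonoidHom.comp_apply, h3, h1]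
      · refine Fin.lastCases ?_ (fun m => ?_) m
        · simp only [Fin.lastCases_last]
          exact h4
        · simp only [Fin.lastCases_castSucc]
          rw [h3, h2]

/-- doubling all letters -/
def dbl {α : Type} (L : List (α × Bool)) : List (α × Bool) := L.flatMap fun l => [l, l]

theorem dbl_reduced {α : Type} (L : List (α × Bool)) (h : FreeGroup.IsReduced L) :
    FreeGroup.IsReduced (dbl L) := by
  induction L with
  | nil => exact FreeGroup.IsReduced.nil
  | cons a L ih =>
    cases L with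
    | nil =>
      simp [dbl, FreeGroup.IsReduced]
    | cons b L =>
      rw [FreeGroup.isReduced_cons_cons] at h
      have := ih h.2
      simp only [dbl, List.flatMap_cons, List.cons_append, List.nil_append] at this ⊢
      rw [FreeGroup.isReduced_cons_cons, FreeGroup.isReduced_cons_cons]
      exact ⟨fun _ => rfl, h.1, this⟩

theorem lift_sq {n : ℕ} (L : List (Fin n × Bool)) :
    FreeGroup.lift (fun m => (FreeGroup.of m : FreeGroup (Fin n)) ^ 2) (FreeGroup.mk L) =
      FreeGroup.mk (dbl L) := by
  induction L with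
  | nil => simp [dbl, FreeGroup.one_eq_mk]
  | cons a L ih =>
    rw [FreeGroup.lift_mk] at ih ⊢
    rw [List.map_cons, List.prod_cons, ih]
    obtain ⟨m, b⟩ := a
    have : FreeGroup.mk (dbl ((m, b) :: L)) = FreeGroup.mk [(m, b), (m, b)] * FreeGroup.mk (dbl L) := by
      rw [FreeGroup.mul_mk]
      rfl
    rw [this]
    congr 1
    cases b
    · simp only [cond_false]
      rw [FreeGroup.of, sq, FreeGroup.mul_mk, FreeGroup.inv_mk]
      rfl
    · simp only [cond_true]
      rw [FreeGroup.of, sq, FreeGroup.mul_mk]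
      rfl

theorem lift_sq_inj (n : ℕ) : Function.Injective
    (FreeGroup.lift (fun m => (FreeGroup.of m : FreeGroup (Fin n)) ^ 2)) := by
  rw [injective_iff_map_eq_one]
  intro x hx
  rw [← FreeGroup.mk_toWord (x := x), lift_sq] at hx
  have h1 : FreeGroup.IsReduced (dbl x.toWord) := dbl_reduced _ FreeGroup.isReduced_toWord
  have h2 : FreeGroup.reduce (dbl x.toWord) = dbl x.toWord :=
    FreeGroup.isReduced_iff_reduce_eq.1 h1
  have h3 : (FreeGroup.mk (dbl x.toWord)).toWord = [] := by
    rw [hx]; simp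
  rw [FreeGroup.toWord_mk, h2] at h3
  have h4 : x.toWord = [] := by
    rcases hw : x.toWord with _ | ⟨a, L⟩
    · rfl
    · rw [hw] at h3
      simp [dbl] at h3
  exact FreeGroup.toWord_eq_nil_iff.1 h4

end Pool.Agent.H659R3.CT.Stable

open Pool.Agent.H659R3.CT.Stable in
theorem Pool.Agent.H659R3.CT.taskStable : Pool.Agent.H659R3.CT.TaskStable := by
  intro n G _ e he
  obtain ⟨H1, hH1, i1, t1, hi1, ht1, hρ1⟩ := step1 n G e he
  -- freeness
  obtain ⟨ρ1, -, hρt⟩ := hρ1 (FreeGroup (Fin n)) (fun m => FreeGroup.of m)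
  have hinj1 : Function.Injective (FreeGroup.lift t1) := by
    have h : ρ1.comp (FreeGroup.lift t1) = MonoidHom.id _ := by
      ext m
      simp [hρt]
    intro x y hxy
    have := congrArg ρ1 hxy
    rw [← MonoidHom.comp_apply, ← MonoidHom.comp_apply, h] at this
    exact this
  have hinj2 : Function.Injective (FreeGroup.lift (fun m => t1 m ^ 2)) := by
    have h : ρ1.comp (FreeGroup.lift (fun m => t1 m ^ 2)) =
        FreeGroup.lift (fun m => (FreeGroup.of m : FreeGroup (Fin n)) ^ 2) := by
      ext m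
      simp [hρt]
    intro x y hxy
    have := congrArg ρ1 hxy
    rw [← MonoidHom.comp_apply, ← MonoidHom.comp_apply, h] at this
    exact lift_sq_inj n this
  obtain ⟨H, hH, i2, a, hi2, ha, hρ2⟩ := hnnU H1 (FreeGroup (Fin n))
    (FreeGroup.lift (fun m => t1 m ^ 2)) (FreeGroup.lift t1) hinj2 hinj1
  obtain ⟨ρ, hρi, hρa⟩ := hρ2 (Multiplicative ℤ) 1 (Multiplicative.ofAdd 1) (by
    intro s; simp)
  have hpow : ∀ p : ℤ, ρ (a ^ p) = 1 → p = 0 := by
    intro p hp
    rw [map_zpow, hρa, ← ofAdd_zsmul] at hp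
    have := congrArg Multiplicative.toAdd hp
    simpa using this
  refine ⟨H, hH, i2.comp i1, fun m => i2 (t1 m), a, hi2.comp hi1, ?_, ?_, ?_, ?_⟩
  · intro m
    rw [MonoidHom.comp_apply, ← map_inv, ← map_mul, ← map_mul, ht1 m, map_pow]
  · intro m
    have h := ha (FreeGroup.of m)
    simp only [FreeGroup.lift_apply_of] at h
    rw [mul_assoc, ← h, ← mul_assoc, inv_mul_cancel, one_mul, map_pow]
  · intro p hp
    exact hpow p (by rw [hp, map_one])
  · intro g p hp
    apply hpow p
    rw [← hp, MonoidHom.comp_apply, hρi]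
    rfl
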